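import Pool.Agent.helper37.NL.Defs
import Pool.Agent.helper37.NP.Alg

/-!
NL-25 (Cnf).  Identification with the two families.

PROOF.  Let `j0, v0, v2, x, y` be as in `Conf l`, put `k = x / 2`, `m = y / k + 4 > 4`, so `x = 2 k`,
`y = (m - 4) k`.  By `l_eq` (file `NP/Alg`) the edge `vw` of the pair `i` has length
`(sg l v + sg l w - (sum of the Q's other than Q_i)) / 2`; the sum of all three `Q` is `13 x + 5 y`.
Let `v', v''` be the two other vertices.
Case A, the edge `v0 v2` belongs to the pair `j0`: `v0 v2 = 2x + y = m k`, `v' v'' = 3x = 6 k`,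
`v0 v', v0 v'' = (3x + 2y)/2 = (m - 1) k`, `v2 v', v2 v'' = (5x + 2y)/2 = (m + 1) k`:
`relab p l = k • F1v m` with `p 0 = v2`, `p 3 = v0`, `{p 1, p 2} = {v', v''}`
(`ab, ac = v2 v', v2 v''`: `m + 1`; `ad = v2 v0`: `m`; `bc`: `6`; `bd, cd`: `m - 1`).
Case B, otherwise: choose `v'` such that `v0 v'` (and `v2 v''`) belong to the pair `j0`.  Then
`v0 v' = (4x + y)/2 = (m + 4) k / 2`, `v2 v'' = (6x + y)/2 = (m + 8) k / 2`,
`v0 v2 = (3x + 3y)/2 = (3m - 6) k / 2`, `v' v'' = (5x + y)/2 = (m + 6) k / 2`,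
`v0 v'' = (3x + 2y)/2 = (2m - 2) k / 2`, `v2 v' = (5x + 2y)/2 = (2m + 2) k / 2`:
`relab p l = (k / 2) • F2v m` with `p 0 = v'`, `p 1 = v2`, `p 2 = v0`, `p 3 = v''`
(`ab = v' v2`, `ac = v' v0`, `ad = v' v''`, `bc = v2 v0`, `bd = v2 v''`, `cd = v0 v''`).
There are `3 * 12 = 36` triples `(j0, v0, v2)`; in each the permutation is explicit (e.g. given by a
function on `Fin 3 × Fin 4 × Fin 4`, or products of `Equiv.swap`).  A possible organisation: in every case
give `p` explicitly with `Equiv.swap`s, `funext`, `fin_cases`, and check six linear equations with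
`linarith` from `l_eq` and the seven equations of `Conf`.  (`exists_perm`: for pairwise distinct
`a b c d : Fin 4` there is a permutation with these values; then everything is a computation with
`dm l`.)
-/

namespace Pool.Agent.helper37.NL

open Real Pool.Agent.helper37.NP Pool.Agent.Helper93.Tet

/-- the pair of opposite edges which contains the edge `v w` -/
private def pr : Fin 4 → Fin 4 → Fin 3 :=
  ![![0, 0, 1, 2], ![0, 0, 2, 1], ![1, 2, 0, 0], ![2, 1, 0, 0]]

private theorem dm_eq (l : V6) (v w : Fin 4) (h : v ≠ w) :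
    dm l v w = (sg l v + sg l w - (Q l 0 + Q l 1 + Q l 2) + Q l (pr v w)) / 2 := by
  obtain ⟨h0, h1, h2, h3, h4, h5⟩ := l_eq l
  fin_cases v <;> fin_cases w <;> first | exact absurd rfl h | skip
  · change l 0 = (sg l 0 + sg l 1 - (Q l 0 + Q l 1 + Q l 2) + Q l 0) / 2
    linarith
  · change l 1 = (sg l 0 + sg l 2 - (Q l 0 + Q l 1 + Q l 2) + Q l 1) / 2
    linarith
  · change l 2 = (sg l 0 + sg l 3 - (Q l 0 + Q l 1 + Q l 2) + Q l 2) / 2
    linarith
  · change l 0 = (sg l 1 + sg l 0 - (Q l 0 + Q l 1 + Q l 2) + Q l 0) / 2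
    linarith
  · change l 3 = (sg l 1 + sg l 2 - (Q l 0 + Q l 1 + Q l 2) + Q l 2) / 2
    linarith
  · change l 4 = (sg l 1 + sg l 3 - (Q l 0 + Q l 1 + Q l 2) + Q l 1) / 2
    linarith
  · change l 1 = (sg l 2 + sg l 0 - (Q l 0 + Q l 1 + Q l 2) + Q l 1) / 2
    linarith
  · change l 3 = (sg l 2 + sg l 1 - (Q l 0 + Q l 1 + Q l 2) + Q l 2) / 2
    linarith
  · change l 5 = (sg l 2 + sg l 3 - (Q l 0 + Q l 1 + Q l 2) + Q l 0) / 2
    linarith
  · change l 2 = (sg l 3 + sg l 0 - (Q l 0 + Q l 1 + Q l 2) + Q l 2) / 2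
    linarith
  · change l 4 = (sg l 3 + sg l 1 - (Q l 0 + Q l 1 + Q l 2) + Q l 1) / 2
    linarith
  · change l 5 = (sg l 3 + sg l 2 - (Q l 0 + Q l 1 + Q l 2) + Q l 0) / 2
    linarith

private theorem comb : ∀ (j0 : Fin 3) (v0 v2 : Fin 4), v0 ≠ v2 →
    ∃ v' v'' : Fin 4, (v' ≠ v0 ∧ v' ≠ v2 ∧ v'' ≠ v0 ∧ v'' ≠ v2 ∧ v' ≠ v'') ∧
      ((pr v2 v0 = j0 ∧ pr v' v'' = j0 ∧ pr v2 v' ≠ j0 ∧ pr v2 v'' ≠ j0 ∧ pr v' v0 ≠ j0 ∧
        pr v'' v0 ≠ j0) ∨
      (pr v' v2 ≠ j0 ∧ pr v' v0 = j0 ∧ pr v' v'' ≠ j0 ∧ pr v2 v0 ≠ j0 ∧ pr v2 v'' = j0 ∧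
        pr v0 v'' ≠ j0)) := by
  decide

private theorem exists_perm (a b c d : Fin 4) (hab : a ≠ b) (hac : a ≠ c) (had : a ≠ d)
    (hbc : b ≠ c) (hbd : b ≠ d) (hcd : c ≠ d) :
    ∃ p : Equiv.Perm (Fin 4), p 0 = a ∧ p 1 = b ∧ p 2 = c ∧ p 3 = d := by
  have hinj : Function.Injective ![a, b, c, d] := by
    intro i j hij
    fin_cases i <;> fin_cases j <;> first | rfl | skip
    all_goals
      exfalso
      simp at hij
      first
        | exact hab hij | exact hac hij | exact had hij | exact hbc hij | exact hbd hij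
        | exact hcd hij | exact hab hij.symm | exact hac hij.symm | exact had hij.symm
        | exact hbc hij.symm | exact hbd hij.symm | exact hcd hij.symm
  exact ⟨Equiv.ofBijective _ (Finite.injective_iff_bijective.1 hinj), rfl, rfl, rfl, rfl⟩

theorem isF_of_conf {l : V6} (h : Conf l) : IsF l := by
  obtain ⟨j0, v0, v2, x, y, hv, hx, hy, hq, hQ, hs0, hs2, hs⟩ := h
  have hS : Q l 0 + Q l 1 + Q l 2 = 13 * x + 5 * y := by
    fin_cases j0
    · have h1 := hQ 1 (by decide)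
      have h2 := hQ 2 (by decide)
      change Q l 0 = 5 * x + y at hq
      linarith
    · have h1 := hQ 0 (by decide)
      have h2 := hQ 2 (by decide)
      change Q l 1 = 5 * x + y at hq
      linarith
    · have h1 := hQ 0 (by decide)
      have h2 := hQ 1 (by decide)
      change Q l 2 = 5 * x + y at hq
      linarith
  have hk : x / 2 ≠ 0 := by positivity
  have hm : x / 2 * (y / (x / 2) + 4) = y + 2 * x := by
    field_simp
    ring
  have hm4 : 4 < y / (x / 2) + 4 := by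
    have : 0 < y / (x / 2) := by positivity
    linarith
  generalize y / (x / 2) + 4 = m at hm hm4
  obtain ⟨v', v'', ⟨n1, n2, n3, n4, n5⟩, hc⟩ := comb j0 v0 v2 hv
  have hs1 := hs v' n1 n2
  have hs3 := hs v'' n3 n4
  rcases hc with ⟨c1, c2, c3, c4, c5, c6⟩ | ⟨c1, c2, c3, c4, c5, c6⟩
  · obtain ⟨p, p0, p1, p2, p3⟩ := exists_perm v2 v' v'' v0 n2.symm n4.symm hv.symm n5 n1 n3
    have d1 : dm l v2 v' = (5 * x + 2 * y) / 2 := by
      rw [dm_eq l _ _ n2.symm, hS, hQ _ c3, hs1, hs2]; ring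
    have d2 : dm l v2 v'' = (5 * x + 2 * y) / 2 := by
      rw [dm_eq l _ _ n4.symm, hS, hQ _ c4, hs3, hs2]; ring
    have d3 : dm l v2 v0 = 2 * x + y := by
      rw [dm_eq l _ _ hv.symm, hS, c1, hq, hs0, hs2]; ring
    have d4 : dm l v' v'' = 3 * x := by
      rw [dm_eq l _ _ n5, hS, c2, hq, hs1, hs3]; ring
    have d5 : dm l v' v0 = (3 * x + 2 * y) / 2 := by
      rw [dm_eq l _ _ n1, hS, hQ _ c5, hs0, hs1]; ring
    have d6 : dm l v'' v0 = (3 * x + 2 * y) / 2 := by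
      rw [dm_eq l _ _ n3, hS, hQ _ c6, hs0, hs3]; ring
    refine ⟨p, x / 2, m, by positivity, hm4, Or.inl ?_⟩
    unfold relab
    rw [p0, p1, p2, p3, d1, d2, d3, d4, d5, d6]
    funext i
    fin_cases i
    · change (5 * x + 2 * y) / 2 = x / 2 * (m + 1)
      linear_combination -hm
    · change (5 * x + 2 * y) / 2 = x / 2 * (m + 1)
      linear_combination -hm
    · change 2 * x + y = x / 2 * m
      linear_combination -hm
    · change 3 * x = x / 2 * 6
      ring
    · change (3 * x + 2 * y) / 2 = x / 2 * (m - 1)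
      linear_combination -hm
    · change (3 * x + 2 * y) / 2 = x / 2 * (m - 1)
      linear_combination -hm
  · obtain ⟨p, p0, p1, p2, p3⟩ := exists_perm v' v2 v0 v'' n2 n1 n5 hv.symm n4.symm n3.symm
    have d1 : dm l v' v2 = (5 * x + 2 * y) / 2 := by
      rw [dm_eq l _ _ n2, hS, hQ _ c1, hs1, hs2]; ring
    have d2 : dm l v' v0 = (4 * x + y) / 2 := by
      rw [dm_eq l _ _ n1, hS, c2, hq, hs0, hs1]; ring
    have d3 : dm l v' v'' = (5 * x + y) / 2 := by
      rw [dm_eq l _ _ n5, hS, hQ _ c3, hs1, hs3]; ring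
    have d4 : dm l v2 v0 = (3 * x + 3 * y) / 2 := by
      rw [dm_eq l _ _ hv.symm, hS, hQ _ c4, hs0, hs2]; ring
    have d5 : dm l v2 v'' = (6 * x + y) / 2 := by
      rw [dm_eq l _ _ n4.symm, hS, c5, hq, hs2, hs3]; ring
    have d6 : dm l v0 v'' = (3 * x + 2 * y) / 2 := by
      rw [dm_eq l _ _ n3.symm, hS, hQ _ c6, hs0, hs3]; ring
    refine ⟨p, x / 2 / 2, m, by positivity, hm4, Or.inr ?_⟩
    unfold relab
    rw [p0, p1, p2, p3, d1, d2, d3, d4, d5, d6]
    funext i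
    fin_cases i
    · change (5 * x + 2 * y) / 2 = x / 2 / 2 * (2 * m + 2)
      linear_combination -hm
    · change (4 * x + y) / 2 = x / 2 / 2 * (m + 4)
      linear_combination (-1 / 2) * hm
    · change (5 * x + y) / 2 = x / 2 / 2 * (m + 6)
      linear_combination (-1 / 2) * hm
    · change (3 * x + 3 * y) / 2 = x / 2 / 2 * (3 * m - 6)
      linear_combination (-3 / 2) * hm
    · change (6 * x + y) / 2 = x / 2 / 2 * (m + 8)
      linear_combination (-1 / 2) * hm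
    · change (3 * x + 2 * y) / 2 = x / 2 / 2 * (2 * m - 2)
      linear_combination -hm

end Pool.Agent.helper37.NL
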