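import Pool.Agent.helper37.NL.GeB
import Pool.Agent.helper37.NL.Cnf
import Pool.Agent.helper37.NP.ARe

/-!
NL-26 (Fla).  MAIN THEOREM of the geometric half.

PROOF.  Let `S = span {A, B}` (dimension 2).  There is a linear functional `c` on `V6` with `c A = cA`,
`c B = cB` (extend the independent family `![A, B]` to a basis, or `LinearIndependent.extend`,
`Module.Basis.constr`; or compose a projection).  For `s = α A + β B ∈ S` and `u ∈ U`, with
`l = u.1 A + u.2 B`: `dotp s (ang l) = α cA + β cB = c s` (`dotp_add_left`, `dotp_smul_left`).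
Let `U' = {u.1 A + u.2 B : u ∈ U}`.  `region` (file `NP/ARe`) for `S, c, U'`: `U' ⊆ T`, `U' ⊆ S`, `U'` is
open in `S` (the linear bijection `ℝ² → S` is a homeomorphism, finite dimension; so for `l ∈ U'` there is
`ε > 0` such that all `y ∈ S` with `dist y l < ε` are in `U'`), so `h.reg` of `FS S c` holds.  Every
`l ∈ U'` is in the sector: `gg_pos` says `Q l j < dotp l (ang l) / π = c l / π` (`l ∈ S`).  Now `conf_all`
and `isF_of_conf`.
-/

namespace Pool.Agent.helper37.NL

open Real Pool.Agent.helper37.NP Pool.Agent.Helper93.Tet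

theorem flat_class {A B : V6} (hAB : LinearIndependent ℝ ![A, B]) {U : Set (ℝ × ℝ)}
    (hU : IsOpen U) {cA cB : ℝ} (hT : ∀ u ∈ U, u.1 • A + u.2 • B ∈ T)
    (hc : ∀ u ∈ U, dotp A (ang (u.1 • A + u.2 • B)) = cA ∧
      dotp B (ang (u.1 • A + u.2 • B)) = cB) :
    ∀ u ∈ U, IsF (u.1 • A + u.2 • B) := by
  classical
  -- the linear parametrisation and a left inverse
  let f : ℝ × ℝ →ₗ[ℝ] V6 :=
    (LinearMap.fst ℝ ℝ ℝ).smulRight A + (LinearMap.snd ℝ ℝ ℝ).smulRight B
  have hf : ∀ u : ℝ × ℝ, f u = u.1 • A + u.2 • B := fun u => rfl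
  have hinj : LinearMap.ker f = ⊥ := by
    rw [LinearMap.ker_eq_bot']
    intro u hu
    rw [hf] at hu
    have h1 := (LinearIndependent.pair_iff.1 hAB) u.1 u.2 hu
    exact Prod.ext h1.1 h1.2
  obtain ⟨g, hg⟩ := f.exists_leftInverse_of_injective hinj
  have hgf : ∀ u, g (f u) = u := fun u => by
    have := congrArg (fun φ : ℝ × ℝ →ₗ[ℝ] ℝ × ℝ => φ u) hg
    simpa using this
  have hgc : Continuous g := LinearMap.continuous_of_finiteDimensional g
  let c : V6 →ₗ[ℝ] ℝ := (cA • LinearMap.fst ℝ ℝ ℝ + cB • LinearMap.snd ℝ ℝ ℝ).comp g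
  have hcf : ∀ u, c (f u) = cA * u.1 + cB * u.2 := by
    intro u
    show cA * (g (f u)).1 + cB * (g (f u)).2 = cA * u.1 + cB * u.2
    rw [hgf]
  let S : Submodule ℝ V6 := LinearMap.range f
  have hfin : Module.finrank ℝ S = 2 := by
    have h1 := LinearMap.finrank_range_of_inj (LinearMap.ker_eq_bot.1 hinj)
    rw [Module.finrank_prod, Module.finrank_self] at h1
    exact h1
  intro u0 hu0
  have hreg := region S c (f '' U)
    (by
      rintro l ⟨u, hu, rfl⟩
      exact hT u hu)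
    (by
      rintro l ⟨u, hu, rfl⟩
      exact ⟨u, rfl⟩)
    ⟨f u0, u0, hu0, rfl⟩
    (by
      rintro l ⟨u, hu, rfl⟩
      have h1 : IsOpen (g ⁻¹' U) := hU.preimage hgc
      have h2 : f u ∈ g ⁻¹' U := by
        show g (f u) ∈ U
        rw [hgf]
        exact hu
      obtain ⟨ε, hε, hb⟩ := Metric.isOpen_iff.1 h1 (f u) h2
      refine ⟨ε, hε, ?_⟩
      rintro y ⟨v, rfl⟩ hy
      have h3 : f v ∈ g ⁻¹' U := hb hy
      refine ⟨v, ?_, rfl⟩
      have h4 : g (f v) ∈ U := h3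
      rwa [hgf] at h4)
    (by
      rintro l ⟨u, hu, rfl⟩ s ⟨v, rfl⟩
      obtain ⟨h1, h2⟩ := hc u hu
      rw [hcf, hf, hf]
      have h3 : dotp (v.1 • A + v.2 • B) (ang (u.1 • A + u.2 • B)) =
          v.1 * dotp A (ang (u.1 • A + u.2 • B)) + v.2 * dotp B (ang (u.1 • A + u.2 • B)) := by
        simp only [dotp, Pi.add_apply, Pi.smul_apply, smul_eq_mul]
        ring
      rw [h3, h1, h2]
      ring)
  have hFS : FS S c := ⟨hfin, hreg⟩
  have huT : f u0 ∈ T := hT u0 hu0
  have hdc : dotp (f u0) (ang (f u0)) = c (f u0) := by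
    obtain ⟨h1, h2⟩ := hc u0 hu0
    rw [hcf, hf]
    have h3 : dotp (u0.1 • A + u0.2 • B) (ang (u0.1 • A + u0.2 • B)) =
        u0.1 * dotp A (ang (u0.1 • A + u0.2 • B)) + u0.2 * dotp B (ang (u0.1 • A + u0.2 • B)) := by
      simp only [dotp, Pi.add_apply, Pi.smul_apply, smul_eq_mul]
      ring
    rw [h3, h1, h2]
    ring
  have hQ : ∀ j, Q (f u0) j < c (f u0) / π := by
    intro j
    have h1 := gg_pos huT j
    unfold gg at h1
    rw [hdc] at h1
    linarith
  exact isF_of_conf (conf_all hFS ⟨u0, rfl⟩ hQ)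

end Pool.Agent.helper37.NL
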