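import Pool.Agent.helper37.NL.KDa
import Pool.Agent.helper37.NL.Fla
import Pool.Agent.helper37.NP.ZLe
import Pool.Agent.helper37.NP.ZFd

/-!
NL-K4 (KLi).  Tetrahedra with edges in `K + K m` (up to a common factor `k`), `m` transcendental over
`K`, Dehn invariant zero.

PROOF of `isF_of_data`.  Let `F t = p + t • q`.  `T` is open (`isOpen_T`), so there is an open interval
`N` (a ball) around `m` with `F t ∈ T` for `t ∈ N`; `GK K N m`.  The coordinates `p e + t q e` are `AK`
(`AK.constK`, `AK.coord`, `AK.mul`, `AK.add`) and analytic.  `data_const_K`: for `t ∈ N`: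
`F t ∈ V := span (iv (s i))` and `dotp (iv (s i)) (ang (F t)) = π r i`.  Two different `t, t' ∈ N` give
`(t - t') • q = F t - F t' ∈ V`, so `q ∈ V`, `p = F t - t • q ∈ V`.  Write `p = ∑ x i • iv (s i)`,
`q = ∑ y i • iv (s i)` and put `cA = ∑ x i π r i`, `cB = ∑ y i π r i`; then `dotp p (ang (F t)) = cA`,
`dotp q (ang (F t)) = cB` for `t ∈ N` (`dotp` is linear in the first argument).
Let `U = {u : ℝ × ℝ | 0 < u.1 ∧ u.2 / u.1 ∈ N}`, an open set containing `(1, m)`.  For `u ∈ U`:
`u.1 • p + u.2 • q = u.1 • F (u.2 / u.1)`, which is in `T` (`smul_mem_T`) and has the same angles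
(`ang_smul`).  `flat_class` with `A = p`, `B = q` at `u = (1, m)` gives the claim.

PROOF of `isF_of_dehn`.  `dehn_data` (file `NP/ZDa`) gives `s, r` for `lenv a b c d` and `angv`; as
`lenv a b c d = k • (p + m • q)`, also `p + m • q ∈ span`, and `ang (lenv ..) = angv`
(`ang_lenv`), `ang (p + m • q) = ang (lenv ..)` (`ang_smul`), `p + m • q = k⁻¹ • lenv ∈ T`.  So
`IsF (p + m • q)`, and `IsF` is invariant under positive scaling (`IsF.smul`: `relab` is linear).
-/

namespace Pool.Agent.helper37.NL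

open Real Pool.Agent.helper37.NP Pool.Agent.Helper93.Tet

private theorem KLi_dm_add (l l' : V6) (i j : Fin 4) : dm (l + l') i j = dm l i j + dm l' i j := by
  fin_cases i <;> fin_cases j <;> simp [dm]

private theorem KLi_dm_smul (k : ℝ) (l : V6) (i j : Fin 4) : dm (k • l) i j = k * dm l i j := by
  fin_cases i <;> fin_cases j <;> simp [dm]

theorem relab_add (p : Equiv.Perm (Fin 4)) (l l' : V6) :
    relab p (l + l') = relab p l + relab p l' := by
  funext e
  fin_cases e <;> simp [relab, KLi_dm_add]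

theorem relab_smul (p : Equiv.Perm (Fin 4)) (k : ℝ) (l : V6) :
    relab p (k • l) = k • relab p l := by
  funext e
  fin_cases e <;> simp [relab, KLi_dm_smul]

theorem IsF.smul {l : V6} (h : IsF l) {k : ℝ} (hk : 0 < k) : IsF (k • l) := by
  obtain ⟨p, k', m, hk', hm, h⟩ := h
  refine ⟨p, k * k', m, mul_pos hk hk', hm, ?_⟩
  rcases h with h | h
  · left
    rw [relab_smul, h, smul_smul]
  · right
    rw [relab_smul, h, smul_smul]

private theorem KLi_dotp_sum {k : ℕ} (x : Fin k → ℝ) (v : Fin k → V6) (t : V6) :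
    dotp (∑ i, x i • v i) t = ∑ i, x i * dotp (v i) t := by
  classical
  have h : ∀ s : Finset (Fin k), dotp (∑ i ∈ s, x i • v i) t = ∑ i ∈ s, x i * dotp (v i) t := by
    intro s
    induction s using Finset.induction_on with
    | empty => simp [dotp_zero_left]
    | insert a s ha ih =>
      rw [Finset.sum_insert ha, Finset.sum_insert ha, dotp_add_left, dotp_smul_left, ih]
  exact h Finset.univ

theorem isF_of_data {K : Subfield ℝ} {m : ℝ} (hm : Transcendental K m) {p q : V6}
    (hp : ∀ e, p e ∈ K) (hq : ∀ e, q e ∈ K) (hpq : LinearIndependent ℝ ![p, q])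
    (hT : p + m • q ∈ T) {k : ℕ} (s : Fin k → Fin 6 → ℤ) (r : Fin k → ℚ)
    (hs : LinearIndependent ℝ (fun i => iv (s i)))
    (hsp : p + m • q ∈ Submodule.span ℝ (Set.range fun i => iv (s i)))
    (hr : ∀ i, dotp (iv (s i)) (ang (p + m • q)) = π * (r i : ℝ)) : IsF (p + m • q) := by
  classical
  let F : ℝ → V6 := fun t => p + t • q
  have hFc : Continuous F := continuous_const.add (continuous_id.smul continuous_const)
  have hO : IsOpen (F ⁻¹' T) := isOpen_T.preimage hFc
  have hmO : m ∈ F ⁻¹' T := hT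
  obtain ⟨ε, hε, hb⟩ := Metric.isOpen_iff.1 hO m hmO
  let N : Set ℝ := Metric.ball m ε
  have hN : GK K N m := ⟨Metric.isOpen_ball, convex_ball m ε, Metric.mem_ball_self hε, hm⟩
  have hNT : ∀ t ∈ N, F t ∈ T := fun t ht => hb ht
  have ha : ∀ i, AnalyticOnNhd ℝ (fun t => F t i) N := by
    intro i x _
    have h1 : (fun t => F t i) = fun t => p i + t * q i := by
      funext t
      simp [F]
    rw [h1]
    exact analyticAt_const.add (analyticAt_id.mul analyticAt_const)
  have hAK : ∀ i, AK K N (fun t => (F t i : ℂ)) := by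
    intro i
    refine AK.congr (AK.add (AK.constK (hp i)) (AK.mul AK.coord (AK.constK (hq i))))
      (fun t _ => ?_) hN.isOpen
    simp [F]
  have hdata := data_const_K hN hNT ha hAK s r hs hsp hr
  -- second point
  have hm' : m + ε / 2 ∈ N := by
    show dist (m + ε / 2) m < ε
    rw [Real.dist_eq, add_sub_cancel_left, abs_of_pos (by positivity)]
    linarith
  have hqV : q ∈ Submodule.span ℝ (Set.range fun i => iv (s i)) := by
    have h1 := Submodule.sub_mem _ (hdata _ hm').1 (hdata _ hN.mem).1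
    have h2 : F (m + ε / 2) - F m = (ε / 2) • q := by
      simp only [F]
      module
    rw [h2] at h1
    exact (Submodule.smul_mem_iff _ (by positivity)).1 h1
  have hpV : p ∈ Submodule.span ℝ (Set.range fun i => iv (s i)) := by
    have h1 := Submodule.sub_mem _ (hdata _ hN.mem).1 (Submodule.smul_mem _ m hqV)
    have h2 : F m - m • q = p := by
      simp only [F]
      module
    rwa [h2] at h1
  obtain ⟨x, hx⟩ := (Submodule.mem_span_range_iff_exists_fun ℝ).1 hpV
  obtain ⟨y, hy⟩ := (Submodule.mem_span_range_iff_exists_fun ℝ).1 hqV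
  have hcA : ∀ t ∈ N, dotp p (ang (F t)) = ∑ i, x i * (π * (r i : ℝ)) := by
    intro t ht
    rw [← hx, KLi_dotp_sum]
    exact Finset.sum_congr rfl fun i _ => by rw [(hdata t ht).2 i]
  have hcB : ∀ t ∈ N, dotp q (ang (F t)) = ∑ i, y i * (π * (r i : ℝ)) := by
    intro t ht
    rw [← hy, KLi_dotp_sum]
    exact Finset.sum_congr rfl fun i _ => by rw [(hdata t ht).2 i]
  -- the open cone
  let U : Set (ℝ × ℝ) := {u | 0 < u.1 ∧ u.2 / u.1 ∈ N}
  have hU : IsOpen U := by
    have h1 : IsOpen {u : ℝ × ℝ | 0 < u.1} := isOpen_lt continuous_const continuous_fst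
    have h2 : ContinuousOn (fun u : ℝ × ℝ => u.2 / u.1) {u : ℝ × ℝ | 0 < u.1} :=
      continuousOn_snd.div continuousOn_fst fun u hu => ne_of_gt hu
    exact h2.isOpen_inter_preimage h1 hN.isOpen
  have hUF : ∀ u ∈ U, u.1 • p + u.2 • q = u.1 • F (u.2 / u.1) := by
    intro u hu
    have h1 : u.1 ≠ 0 := ne_of_gt hu.1
    simp only [F]
    rw [smul_add, smul_smul, mul_div_cancel₀ _ h1]
  have hmem : ((1 : ℝ), m) ∈ U := by
    refine ⟨one_pos, ?_⟩
    show m / 1 ∈ N
    rw [div_one]
    exact hN.mem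
  have hfin := flat_class hpq hU (cA := ∑ i, x i * (π * (r i : ℝ)))
    (cB := ∑ i, y i * (π * (r i : ℝ)))
    (fun u hu => by
      rw [hUF u hu]
      exact smul_mem_T (hNT _ hu.2) hu.1)
    (fun u hu => by
      rw [hUF u hu, ang_smul hu.1]
      exact ⟨hcA _ hu.2, hcB _ hu.2⟩) _ hmem
  have h1 : ((1 : ℝ), m).1 • p + ((1 : ℝ), m).2 • q = p + m • q := by
    simp
  rwa [h1] at hfin

theorem isF_of_dehn {K : Subfield ℝ} {m : ℝ} (hm : Transcendental K m) {p q : V6}
    (hp : ∀ e, p e ∈ K) (hq : ∀ e, q e ∈ K) (hpq : LinearIndependent ℝ ![p, q]) {a b c d : E}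
    (h : AffineIndependent ℝ ![a, b, c, d]) {k : ℝ} (hk : 0 < k)
    (hl : lenv a b c d = k • (p + m • q)) (hD : dehn a b c d = 0) : IsF (lenv a b c d) := by
  obtain ⟨n, s, r, hs, hsp, hr⟩ := dehn_data hD
  have hTl := lenv_mem h
  have hinv : k⁻¹ • lenv a b c d = p + m • q := by
    rw [hl, smul_smul, inv_mul_cancel₀ hk.ne', one_smul]
  have hk' : 0 < k⁻¹ := inv_pos.2 hk
  have hT : p + m • q ∈ T := by
    rw [← hinv]
    exact smul_mem_T hTl hk'
  have hang : ang (p + m • q) = angv a b c d := by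
    rw [← hinv, ang_smul hk', ang_lenv h]
  have hsp' : p + m • q ∈ Submodule.span ℝ (Set.range fun i => iv (s i)) := by
    rw [← hinv]
    exact Submodule.smul_mem _ _ hsp
  have hF := isF_of_data hm hp hq hpq hT s r hs hsp' (fun i => by rw [hang]; exact hr i)
  rw [hl]
  exact hF.smul hk

end Pool.Agent.helper37.NL
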