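import Pool.Agent.helper37.NL.KAl
import Pool.Agent.helper37.NL.KLi
import Pool.Agent.helper37.NP.HTr

/-!
NL-K9 (KAc).  Edges which are rational linear combinations of algebraically independent numbers.

PROOF.  Let `l = lenv a b c d`, all `l e` in the `ℚ`-span `V` of the algebraically independent `x i`, and
`dehn = 0`.  `dehn_data` gives `s, r`.
(1) Among the six numbers no three are `ℚ`-linearly independent: if `l e, l f, l g` were, they would be
algebraically independent (`algInd_of_linInd`), so `l e / l g, l f / l g` algebraically independent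
(`quot_algInd`), against `not_algInd` (file `NP/HTr`; `l ∈ T` by `lenv_mem`, the angles by `ang_lenv`).
(2) If all `l e` are rational multiples of `l 0` (`l 0 ≠ 0`), then `l e = (ratio) * l f` for all `e, f`:
first alternative.  Otherwise there is `e` with `l e, l 0` `ℚ`-linearly independent, and by (1) every
`l f = u f * l e + v f * l 0` with `u f, v f ∈ ℚ` (three elements dependent, two of them independent).
Put `m = l e / l 0`, transcendental over `ℚ` by `algInd_of_linInd` (`n = 2`) and `transc_quot`, so over
`⊥` (`transc_bot`); `p = (v f)_f`, `q = (u f)_f` have entries in `⊥` (`rat_mem_bot`), and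
`l = l 0 • (p + m • q)`, `l 0 > 0`.  `p, q` are linearly independent: `u e = 1, v e = 0, u 0 = 0, v 0 = 1`
(uniqueness of the coefficients; choose them so).  `isF_of_dehn`.
-/

namespace Pool.Agent.helper37.NL

open Real Pool.Agent.helper37.NP Pool.Agent.Helper93.Tet

theorem alg_class {ι : Type*} {x : ι → ℝ} (hx : AlgebraicIndependent ℚ x) {a b c d : E}
    (h : AffineIndependent ℝ ![a, b, c, d]) (hD : dehn a b c d = 0)
    (hl : ∀ e, lenv a b c d e ∈ Submodule.span ℚ (Set.range x)) :
    (∀ e f, ∃ r : ℚ, lenv a b c d e = (r : ℝ) * lenv a b c d f) ∨ IsF (lenv a b c d) := by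
  obtain ⟨k, s, r, hs, hsp, hr⟩ := dehn_data hD
  have hT := lenv_mem h
  rw [← ang_lenv h] at hr
  generalize hll : lenv a b c d = l at hl hsp hr hT
  have hpos : ∀ e, 0 < l e := fun e => T_pos hT e
  by_cases hall : ∀ e, ∃ r : ℚ, l e = (r : ℝ) * l 0
  · left
    intro e f
    obtain ⟨r1, h1⟩ := hall e
    obtain ⟨r2, h2⟩ := hall f
    have h3 : (r2 : ℝ) ≠ 0 := by
      intro h0
      have := hpos f
      rw [h2, h0, zero_mul] at this
      exact lt_irrefl _ this
    refine ⟨r1 / r2, ?_⟩
    rw [h2, h1]
    push_cast
    field_simp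
  · right
    push Not at hall
    obtain ⟨e, he⟩ := hall
    have hli : LinearIndependent ℚ ![l e, l 0] := by
      rw [LinearIndependent.pair_iff]
      intro s t hst
      rw [Rat.smul_def, Rat.smul_def] at hst
      have hs0 : s = 0 := by
        by_contra hs0
        have hs0' : (s : ℝ) ≠ 0 := by exact_mod_cast hs0
        apply he (-t / s)
        push_cast
        field_simp
        linarith
      refine ⟨hs0, ?_⟩
      rw [hs0] at hst
      have h3 : (t : ℝ) = 0 := by
        have h4 : (t : ℝ) * l 0 = 0 := by
          push_cast at hst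
          linarith
        exact (mul_eq_zero.1 h4).resolve_right (hpos 0).ne'
      exact_mod_cast h3
    have hsp2 : ∀ f, ∃ u v : ℚ, (u : ℝ) * l e + (v : ℝ) * l 0 = l f := by
      intro f
      by_contra hno
      have hnm : l f ∉ Submodule.span ℚ (Set.range ![l e, l 0]) := by
        intro hmem
        have hrg : Set.range ![l e, l 0] = {l e, l 0} := by
          ext z
          simp
          tauto
        rw [hrg, Submodule.mem_span_pair] at hmem
        obtain ⟨u, v, huv⟩ := hmem
        rw [Rat.smul_def, Rat.smul_def] at huv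
        exact hno ⟨u, v, huv⟩
      have hli3 : LinearIndependent ℚ ![l f, l e, l 0] :=
        linearIndependent_finCons.2 ⟨hli, hnm⟩
      have hmem3 : ∀ j, (![l f, l e, l 0] : Fin 3 → ℝ) j ∈ Submodule.span ℚ (Set.range x) := by
        intro j
        fin_cases j
        · exact hl f
        · exact hl e
        · exact hl 0
      have h5 := quot_algInd (algInd_of_linInd hx hmem3 hli3)
      exact not_algInd hT s r hs hsp hr f e 0 h5
    choose u v huv using hsp2
    have hun : ∀ s t : ℚ, ∀ s' t' : ℚ, (s : ℝ) * l e + (t : ℝ) * l 0 =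
        (s' : ℝ) * l e + (t' : ℝ) * l 0 → s = s' ∧ t = t' := by
      intro s t s' t' hst
      have h6 := (LinearIndependent.pair_iff.1 hli) (s - s') (t - t') (by
        rw [Rat.smul_def, Rat.smul_def]
        push_cast
        linarith)
      exact ⟨sub_eq_zero.1 h6.1, sub_eq_zero.1 h6.2⟩
    have hue := hun (u e) (v e) 1 0 (by rw [huv e]; push_cast; ring)
    have hu0 := hun (u 0) (v 0) 0 1 (by rw [huv 0]; push_cast; ring)
    have hmem2 : ∀ j, (![l e, l 0] : Fin 2 → ℝ) j ∈ Submodule.span ℚ (Set.range x) := by
      intro j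
      fin_cases j
      · exact hl e
      · exact hl 0
    have hm : Transcendental (⊥ : Subfield ℝ) (l e / l 0) :=
      transc_bot (transc_quot (algInd_of_linInd hx hmem2 hli))
    have hlin : LinearIndependent ℝ ![(fun f => (v f : ℝ) : V6), (fun f => (u f : ℝ) : V6)] := by
      rw [LinearIndependent.pair_iff]
      intro s t hst
      have h7 := congrFun hst e
      have h8 := congrFun hst 0
      simp only [Pi.add_apply, Pi.smul_apply, smul_eq_mul, Pi.zero_apply, hue.1, hue.2, hu0.1,
        hu0.2, Rat.cast_zero, Rat.cast_one, mul_zero, mul_one, zero_add, add_zero] at h7 h8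
      exact ⟨h8, h7⟩
    rw [← hll]
    refine isF_of_dehn (K := ⊥) hm (p := fun f => (v f : ℝ)) (q := fun f => (u f : ℝ))
      (fun f => rat_mem_bot _) (fun f => rat_mem_bot _) hlin h (hpos 0) ?_ hD
    rw [hll]
    funext f
    simp only [Pi.add_apply, Pi.smul_apply, smul_eq_mul]
    have h9 := (hpos 0).ne'
    rw [← huv f]
    field_simp
    ring

end Pool.Agent.helper37.NL
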