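import Pool.Agent.helper37.NL.KPl
import Pool.Agent.helper37.NP.ZLe
import Pool.Agent.helper37.NP.Perm
import Pool.Agent.Helper93.Tet.Exist
import Pool.Agent.Helper93.Tet.Fam2

/-!
NL-K7 (KCo).  The converse: members of the two families have Dehn invariant zero, also after relabelling
and scaling.

PROOF.  Let `P : Fin 4 → E` be the four points and `p` the permutation.  (1) `lenv_perm`:
`lenv (P (p 0)) (P (p 1)) (P (p 2)) (P (p 3)) = relab p (lenv (P 0) (P 1) (P 2) (P 3))`: both are given
by `dm (lenv ..) v w = dist (P v) (P w)` (`v ≠ w`; 16 cases, `dist_comm`).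
(2) `dehn_perm`: the Dehn invariant does not change when the points are permuted: `dihedral a b c d` is
symmetric in `c, d` (`InnerProductGeometry.angle_comm`) and `dihedral a b c d = dihedral b a c d`
(for affinely independent points both are `ang` of the edge vector: `ang_lenv` for the permuted
quadruple and `ang_sab`, `ang_sbc`, `ang_scd`; it is enough to treat the three transpositions, for which
`dehn` is permuted term by term, and `Equiv.Perm` is generated by them; the hypothesis of affine
independence is invariant).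
(3) `dehn_scale`: for `k > 0` and the points `k • a, ...`: distances are multiplied by `k`, angles do not
change (`perp (k u) (k w) = k perp u w`, `InnerProductGeometry.angle_smul_smul`), so
`dehn (k • a) .. = (LinearMap of multiplication by k) (dehn a ..)`; in particular if one is zero, so is
the other.
(4) If `relab p (lenv a b c d) = k • F1v m`, then the permuted points, scaled by `1/k`, satisfy
`HasEdges .. (m+1) (m+1) m 6 (m-1) (m-1)` (`lenv` of the scaled points is `(1/k) • ..`), so their Dehn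
invariant is zero (`F1_dehn`), similarly `F2_dehn` for `F2v`.
`exists_F1`, `exists_F2`: `F1_exists`, `F2_exists`.
-/

namespace Pool.Agent.helper37.NL

open Real Pool.Agent.helper37.NP Pool.Agent.Helper93.Tet

private theorem dm_lenv (P : Fin 4 → E) (v w : Fin 4) :
    dm (lenv (P 0) (P 1) (P 2) (P 3)) v w = dist (P v) (P w) := by
  have h0 : ∀ v, dist (P v) (P v) = 0 := fun v => dist_self _
  have h10 := dist_comm (P 1) (P 0)
  have h20 := dist_comm (P 2) (P 0)
  have h30 := dist_comm (P 3) (P 0)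
  have h21 := dist_comm (P 2) (P 1)
  have h31 := dist_comm (P 3) (P 1)
  have h32 := dist_comm (P 3) (P 2)
  fin_cases v <;> fin_cases w
  · exact (h0 0).symm
  · rfl
  · rfl
  · rfl
  · exact h10.symm
  · exact (h0 1).symm
  · rfl
  · rfl
  · exact h20.symm
  · exact h21.symm
  · exact (h0 2).symm
  · rfl
  · exact h30.symm
  · exact h31.symm
  · exact h32.symm
  · exact (h0 3).symm

theorem lenv_perm (P : Fin 4 → E) (p : Equiv.Perm (Fin 4)) :
    lenv (P (p 0)) (P (p 1)) (P (p 2)) (P (p 3)) = relab p (lenv (P 0) (P 1) (P 2) (P 3)) := by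
  unfold relab
  simp only [dm_lenv]
  rfl

private theorem dih_comm (a b c d : E) : dihedral a b c d = dihedral a b d c :=
  InnerProductGeometry.angle_comm _ _

private theorem dih_rev (a b c d : E) : dihedral a b c d = dihedral b a c d := by
  by_cases h : dist a b = 0
  · rw [dist_eq_zero] at h
    subst h
    rfl
  have h' : dist b a ≠ 0 := by rwa [dist_comm]
  have e : Real.cos (dihedral a b c d) = Real.cos (dihedral b a c d) := by
    rw [cos_dihedral a b c d h, cos_dihedral b a c d h', dist_comm b a]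
    have e1 : fP (dist a b) (dist a c) (dist a d) (dist b c) (dist b d) (dist c d) =
        fP (dist a b) (dist b c) (dist b d) (dist a c) (dist a d) (dist c d) := by
      unfold fP
      field_simp
      ring
    have e2 : ∀ x y : ℝ, fQ (dist a b) x y = fQ (dist a b) y x := by
      intro x y
      unfold fQ
      field_simp
      ring
    rw [e1, e2 (dist a c), e2 (dist a d)]
  have h1 := Real.arccos_cos (InnerProductGeometry.angle_nonneg (perp (b - a) (c - a))
    (perp (b - a) (d - a))) (InnerProductGeometry.angle_le_pi _ _)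
  have h2 := Real.arccos_cos (InnerProductGeometry.angle_nonneg (perp (a - b) (c - b))
    (perp (a - b) (d - b))) (InnerProductGeometry.angle_le_pi _ _)
  have h3 : Real.arccos (Real.cos (dihedral a b c d)) = dihedral a b c d := h1
  have h4 : Real.arccos (Real.cos (dihedral b a c d)) = dihedral b a c d := h2
  rw [← h3, ← h4, e]

private theorem dehn_s01 (a b c d : E) : dehn b a c d = dehn a b c d := by
  unfold dehn
  rw [dist_comm b a, dih_rev b a c d, dih_comm c d b a]
  abel

private theorem dehn_s12 (a b c d : E) : dehn a c b d = dehn a b c d := by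
  unfold dehn
  rw [dist_comm c b, dih_rev c b a d, dih_comm a d c b]
  abel

private theorem dehn_s23 (a b c d : E) : dehn a b d c = dehn a b c d := by
  unfold dehn
  rw [dist_comm d c, dih_rev d c a b, dih_comm a b d c]
  abel

private theorem dehn_perm' (p : Equiv.Perm (Fin 4)) : ∀ P : Fin 4 → E,
    dehn (P (p 0)) (P (p 1)) (P (p 2)) (P (p 3)) = dehn (P 0) (P 1) (P 2) (P 3) := by
  have hp : p ∈ Submonoid.closure (Set.range fun i : Fin 3 => Equiv.swap i.castSucc i.succ) := by
    rw [Equiv.Perm.mclosure_swap_castSucc_succ]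
    trivial
  induction hp using Submonoid.closure_induction with
  | mem x hx =>
    obtain ⟨i, rfl⟩ := hx
    intro P
    fin_cases i
    · have e0 : Equiv.swap (Fin.castSucc (0 : Fin 3)) (Fin.succ (0 : Fin 3)) (0 : Fin 4) = 1 := by
        decide
      have e1 : Equiv.swap (Fin.castSucc (0 : Fin 3)) (Fin.succ (0 : Fin 3)) (1 : Fin 4) = 0 := by
        decide
      have e2 : Equiv.swap (Fin.castSucc (0 : Fin 3)) (Fin.succ (0 : Fin 3)) (2 : Fin 4) = 2 := by
        decide
      have e3 : Equiv.swap (Fin.castSucc (0 : Fin 3)) (Fin.succ (0 : Fin 3)) (3 : Fin 4) = 3 := by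
        decide
      change dehn (P (Equiv.swap (Fin.castSucc (0 : Fin 3)) (Fin.succ (0 : Fin 3)) 0))
        (P (Equiv.swap (Fin.castSucc (0 : Fin 3)) (Fin.succ (0 : Fin 3)) 1))
        (P (Equiv.swap (Fin.castSucc (0 : Fin 3)) (Fin.succ (0 : Fin 3)) 2))
        (P (Equiv.swap (Fin.castSucc (0 : Fin 3)) (Fin.succ (0 : Fin 3)) 3)) = _
      rw [e0, e1, e2, e3]
      exact dehn_s01 _ _ _ _
    · have e0 : Equiv.swap (Fin.castSucc (1 : Fin 3)) (Fin.succ (1 : Fin 3)) (0 : Fin 4) = 0 := by
        decide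
      have e1 : Equiv.swap (Fin.castSucc (1 : Fin 3)) (Fin.succ (1 : Fin 3)) (1 : Fin 4) = 2 := by
        decide
      have e2 : Equiv.swap (Fin.castSucc (1 : Fin 3)) (Fin.succ (1 : Fin 3)) (2 : Fin 4) = 1 := by
        decide
      have e3 : Equiv.swap (Fin.castSucc (1 : Fin 3)) (Fin.succ (1 : Fin 3)) (3 : Fin 4) = 3 := by
        decide
      change dehn (P (Equiv.swap (Fin.castSucc (1 : Fin 3)) (Fin.succ (1 : Fin 3)) 0))
        (P (Equiv.swap (Fin.castSucc (1 : Fin 3)) (Fin.succ (1 : Fin 3)) 1))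
        (P (Equiv.swap (Fin.castSucc (1 : Fin 3)) (Fin.succ (1 : Fin 3)) 2))
        (P (Equiv.swap (Fin.castSucc (1 : Fin 3)) (Fin.succ (1 : Fin 3)) 3)) = _
      rw [e0, e1, e2, e3]
      exact dehn_s12 _ _ _ _
    · have e0 : Equiv.swap (Fin.castSucc (2 : Fin 3)) (Fin.succ (2 : Fin 3)) (0 : Fin 4) = 0 := by
        decide
      have e1 : Equiv.swap (Fin.castSucc (2 : Fin 3)) (Fin.succ (2 : Fin 3)) (1 : Fin 4) = 1 := by
        decide
      have e2 : Equiv.swap (Fin.castSucc (2 : Fin 3)) (Fin.succ (2 : Fin 3)) (2 : Fin 4) = 3 := by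
        decide
      have e3 : Equiv.swap (Fin.castSucc (2 : Fin 3)) (Fin.succ (2 : Fin 3)) (3 : Fin 4) = 2 := by
        decide
      change dehn (P (Equiv.swap (Fin.castSucc (2 : Fin 3)) (Fin.succ (2 : Fin 3)) 0))
        (P (Equiv.swap (Fin.castSucc (2 : Fin 3)) (Fin.succ (2 : Fin 3)) 1))
        (P (Equiv.swap (Fin.castSucc (2 : Fin 3)) (Fin.succ (2 : Fin 3)) 2))
        (P (Equiv.swap (Fin.castSucc (2 : Fin 3)) (Fin.succ (2 : Fin 3)) 3)) = _
      rw [e0, e1, e2, e3]
      exact dehn_s23 _ _ _ _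
  | one => intro P; rfl
  | mul x y _ _ hx hy =>
    intro P
    have h1 := hy (fun i => P (x i))
    have h2 := hx P
    exact h1.trans h2

theorem dehn_perm (P : Fin 4 → E) (h : AffineIndependent ℝ P) (p : Equiv.Perm (Fin 4))
    (hD : dehn (P (p 0)) (P (p 1)) (P (p 2)) (P (p 3)) = 0) :
    dehn (P 0) (P 1) (P 2) (P 3) = 0 := by
  rw [← dehn_perm' p P]
  exact hD

private theorem dist_smul' {k : ℝ} (hk : 0 < k) (x y : E) : dist (k • x) (k • y) = k * dist x y := by
  rw [dist_smul₀, Real.norm_eq_abs, abs_of_pos hk]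

private theorem dih_smul {k : ℝ} (hk : 0 < k) (a b c d : E) :
    dihedral (k • a) (k • b) (k • c) (k • d) = dihedral a b c d := by
  have hp : ∀ u w : E, perp (k • u) (k • w) = k • perp u w := by
    intro u w
    unfold perp
    rw [real_inner_smul_left, real_inner_smul_left, real_inner_smul_right,
      real_inner_smul_right, smul_sub, smul_smul, smul_smul]
    congr 2
    by_cases h : (inner ℝ u u : ℝ) = 0
    · rw [h]; simp
    · field_simp
  unfold dihedral
  rw [← smul_sub, ← smul_sub, ← smul_sub, hp, hp]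
  rw [InnerProductGeometry.angle_smul_left_of_pos _ _ hk,
    InnerProductGeometry.angle_smul_right_of_pos _ _ hk]

theorem dehn_scale {a b c d : E} {k : ℝ} (hk : 0 < k)
    (hD : dehn (k • a) (k • b) (k • c) (k • d) = 0) : dehn a b c d = 0 := by
  let M : ℝ →+ ℝ := AddMonoidHom.mulLeft k⁻¹
  let L : ℝ →ₗ[ℤ] ℝ := M.toIntLinearMap
  have hL : ∀ x : ℝ, L (k * x) = x := by
    intro x
    change k⁻¹ * (k * x) = x
    field_simp
  have h := congrArg (LinearMap.rTensor AngleModPi L) hD
  unfold dehn at h ⊢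
  simp only [dist_smul' hk, dih_smul hk, map_add, LinearMap.rTensor_tmul, hL, map_zero] at h
  exact h

theorem dehn_of_isF {a b c d : E} (h : AffineIndependent ℝ ![a, b, c, d])
    (hF : IsF (lenv a b c d)) : dehn a b c d = 0 := by
  obtain ⟨p, k, m, hk, hm, hF⟩ := hF
  set P : Fin 4 → E := ![a, b, c, d] with hP
  have h1 : lenv (P (p 0)) (P (p 1)) (P (p 2)) (P (p 3)) = relab p (lenv a b c d) :=
    lenv_perm P p
  have hk' : 0 < k⁻¹ := inv_pos.2 hk
  have key : dehn (P (p 0)) (P (p 1)) (P (p 2)) (P (p 3)) = 0 := by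
    apply dehn_scale hk'
    have e : ∀ (x y : E) (r : ℝ), dist x y = k * r → dist (k⁻¹ • x) (k⁻¹ • y) = r := by
      intro x y r h
      rw [dist_smul' hk', h]
      field_simp
    rcases hF with hF | hF
    · rw [hF] at h1
      apply F1_dehn hm
      exact ⟨e _ _ _ (congrFun h1 0), e _ _ _ (congrFun h1 1), e _ _ _ (congrFun h1 2),
        e _ _ _ (congrFun h1 3), e _ _ _ (congrFun h1 4), e _ _ _ (congrFun h1 5)⟩
    · rw [hF] at h1
      apply F2_dehn hm
      exact ⟨e _ _ _ (congrFun h1 0), e _ _ _ (congrFun h1 1), e _ _ _ (congrFun h1 2),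
        e _ _ _ (congrFun h1 3), e _ _ _ (congrFun h1 4), e _ _ _ (congrFun h1 5)⟩
  exact dehn_perm P h p key

theorem exists_F1 {m : ℝ} (hm : 4 < m) : ∃ a b c d : E, AffineIndependent ℝ ![a, b, c, d] ∧
    lenv a b c d = F1v m ∧ dehn a b c d = 0 := by
  obtain ⟨a, b, c, d, h, hE⟩ := F1_exists hm
  refine ⟨a, b, c, d, h, ?_, F1_dehn hm hE⟩
  obtain ⟨h1, h2, h3, h4, h5, h6⟩ := hE
  unfold lenv F1v
  rw [h1, h2, h3, h4, h5, h6]

theorem exists_F2 {m : ℝ} (hm : 4 < m) : ∃ a b c d : E, AffineIndependent ℝ ![a, b, c, d] ∧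
    lenv a b c d = F2v m ∧ dehn a b c d = 0 := by
  obtain ⟨a, b, c, d, h, hE⟩ := F2_exists hm
  refine ⟨a, b, c, d, h, ?_, F2_dehn hm hE⟩
  obtain ⟨h1, h2, h3, h4, h5, h6⟩ := hE
  unfold lenv F2v
  rw [h1, h2, h3, h4, h5, h6]

end Pool.Agent.helper37.NL
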