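import Pool.Agent.helper37.NP.Bas
import Pool.Agent.Helper93.Tet.Exist

/-!
NL-E1 (Rea).  Every vector of `T` is the edge vector of a nondegenerate tetrahedron.

PROOF.  `l ∈ T`, `l0 = l 0` etc. positive (`T_pos`), `h = ha l 0 = He l0 l1 l3 > 0` (`ha_pos`), `W l > 0`.
Take `a = pt 0 0 0`, `b = pt l0 0 0`, `c = pt c0 c1 0`, `d = pt d0 d1 d2` with
`c0 = (l0² + l1² - l3²) / (2 l0)`, `c1 = √h / (2 l0)`, `d0 = (l0² + l2² - l4²) / (2 l0)`,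
`d1 = nu l 0 / (2 l0 √h)`, `d2 = √(W l / h)`.  Then (`√h² = h`, `He` expanded)
`c0² + c1² = l1²`, `(c0 - l0)² + c1² = l3²`, and with `nu_sq` at `e = 0`
(`nu² + 4 l0² W = ha hb`, `hb l 0 = He l0 l2 l4 = 4 l0² (l2² - d0²)`):
`d0² + d1² + d2² = d0² + (nu² + 4 l0² W) / (4 l0² h) = d0² + hb / (4 l0²) = l2²`,
`(d0 - l0)² + d1² + d2² = l4²`, and
`(c0 - d0)² + (c1 - d1)² + d2² = l1² + l2² - 2 (c0 d0 + c1 d1) = l5²`, because
`c1 d1 = nu / (4 l0²) = (l1² + l2² - l5²)/2 - c0 d0`.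
`dist_pt` gives the six distances and `affInd` (`b0 = l0 ≠ 0`, `c1 ≠ 0`, `d2 ≠ 0`) the affine
independence.
-/

namespace Pool.Agent.helper37.NL

open Real Pool.Agent.helper37.NP Pool.Agent.Helper93.Tet

/-- the coordinates, for six numbers -/
private theorem Rea_key {p q r s t u hh W' w x : ℝ} (hp : 0 < p) (hq : 0 < q) (hr : 0 < r)
    (hs : 0 < s) (ht : 0 < t) (hu : 0 < u) (hhh : hh = He p q s) (hx : 0 < x) (hx2 : x ^ 2 = hh)
    (hw : 0 < w) (hw2 : w ^ 2 = W' / hh)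
    (hnu : Nu p q r s t u ^ 2 + 4 * p ^ 2 * W' = hh * He p r t) :
    ∃ a b c d : E, AffineIndependent ℝ ![a, b, c, d] ∧ dist a b = p ∧ dist a c = q ∧
      dist a d = r ∧ dist b c = s ∧ dist b d = t ∧ dist c d = u := by
  have hh0 : 0 < hh := by rw [← hx2]; positivity
  set N := Nu p q r s t u with hN
  have k1 : (x / (2 * p)) ^ 2 = hh / (4 * p ^ 2) := by
    rw [div_pow, mul_pow, hx2]; norm_num
  have k2 : (N / (2 * p * x)) ^ 2 + w ^ 2 = He p r t / (4 * p ^ 2) := by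
    rw [div_pow, mul_pow, mul_pow, hx2, hw2]
    have hW : W' = (hh * He p r t - N ^ 2) / (4 * p ^ 2) := by
      rw [eq_div_iff (by positivity)]
      linarith
    rw [hW]
    field_simp
    ring
  have k3 : (x / (2 * p)) * (N / (2 * p * x)) = N / (4 * p ^ 2) := by
    field_simp
    ring
  refine ⟨pt 0 0 0, pt p 0 0, pt ((p ^ 2 + q ^ 2 - s ^ 2) / (2 * p)) (x / (2 * p)) 0,
    pt ((p ^ 2 + r ^ 2 - t ^ 2) / (2 * p)) (N / (2 * p * x)) w,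
    affInd hp.ne' (by positivity) hw.ne', ?_, ?_, ?_, ?_, ?_, ?_⟩
  · exact dist_pt hp.le (by ring)
  · refine dist_pt hq.le ?_
    have : (0 - (p ^ 2 + q ^ 2 - s ^ 2) / (2 * p)) ^ 2 + (0 - x / (2 * p)) ^ 2 + (0 - 0) ^ 2
      = ((p ^ 2 + q ^ 2 - s ^ 2) / (2 * p)) ^ 2 + (x / (2 * p)) ^ 2 := by ring
    rw [this, k1, hhh]
    unfold He
    field_simp
    ring
  · refine dist_pt hr.le ?_
    have : (0 - (p ^ 2 + r ^ 2 - t ^ 2) / (2 * p)) ^ 2 + (0 - N / (2 * p * x)) ^ 2 + (0 - w) ^ 2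
      = ((p ^ 2 + r ^ 2 - t ^ 2) / (2 * p)) ^ 2 + ((N / (2 * p * x)) ^ 2 + w ^ 2) := by ring
    rw [this, k2]
    unfold He
    field_simp
    ring
  · refine dist_pt hs.le ?_
    have : (p - (p ^ 2 + q ^ 2 - s ^ 2) / (2 * p)) ^ 2 + (0 - x / (2 * p)) ^ 2 + (0 - 0) ^ 2
      = (p - (p ^ 2 + q ^ 2 - s ^ 2) / (2 * p)) ^ 2 + (x / (2 * p)) ^ 2 := by ring
    rw [this, k1, hhh]
    unfold He
    field_simp
    ring
  · refine dist_pt ht.le ?_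
    have : (p - (p ^ 2 + r ^ 2 - t ^ 2) / (2 * p)) ^ 2 + (0 - N / (2 * p * x)) ^ 2 + (0 - w) ^ 2
      = (p - (p ^ 2 + r ^ 2 - t ^ 2) / (2 * p)) ^ 2 + ((N / (2 * p * x)) ^ 2 + w ^ 2) := by ring
    rw [this, k2]
    unfold He
    field_simp
    ring
  · refine dist_pt hu.le ?_
    have : ((p ^ 2 + q ^ 2 - s ^ 2) / (2 * p) - (p ^ 2 + r ^ 2 - t ^ 2) / (2 * p)) ^ 2
        + (x / (2 * p) - N / (2 * p * x)) ^ 2 + (0 - w) ^ 2
      = ((p ^ 2 + q ^ 2 - s ^ 2) / (2 * p) - (p ^ 2 + r ^ 2 - t ^ 2) / (2 * p)) ^ 2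
        + ((x / (2 * p)) ^ 2 - 2 * ((x / (2 * p)) * (N / (2 * p * x)))
          + ((N / (2 * p * x)) ^ 2 + w ^ 2)) := by ring
    rw [this, k1, k2, k3, hhh, hN]
    unfold He Nu
    field_simp
    ring

theorem realize {l : V6} (hl : l ∈ T) :
    ∃ a b c d : E, AffineIndependent ℝ ![a, b, c, d] ∧ lenv a b c d = l := by
  have hW : 0 < W l := hl.2
  have hh : 0 < He (l 0) (l 1) (l 3) := ha_pos hl 0
  have hnu : Nu (l 0) (l 1) (l 2) (l 3) (l 4) (l 5) ^ 2 + 4 * l 0 ^ 2 * W l =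
      He (l 0) (l 1) (l 3) * He (l 0) (l 2) (l 4) := nu_sq l 0
  obtain ⟨a, b, c, d, h, h0, h1, h2, h3, h4, h5⟩ :=
    Rea_key (x := Real.sqrt (He (l 0) (l 1) (l 3)))
      (w := Real.sqrt (W l / He (l 0) (l 1) (l 3)))
      (T_pos hl 0) (T_pos hl 1) (T_pos hl 2) (T_pos hl 3) (T_pos hl 4) (T_pos hl 5) rfl
      (Real.sqrt_pos.2 hh) (Real.sq_sqrt hh.le) (Real.sqrt_pos.2 (div_pos hW hh))
      (Real.sq_sqrt (div_pos hW hh).le) hnu
  refine ⟨a, b, c, d, h, ?_⟩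
  unfold lenv
  rw [h0, h1, h2, h3, h4, h5]
  funext e
  fin_cases e <;> rfl

end Pool.Agent.helper37.NL
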