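import Pool.Agent.helper37.NL.KPl
import Pool.Agent.helper37.NL.KCo
import Pool.Agent.helper37.NL.KLi
import Pool.Agent.helper37.NL.Rea
import Pool.Agent.helper37.NP.GSh

/-!
Relabelling is an action, and the members of the two families with sum one are shapes.
-/

namespace Pool.Agent.helper37.NL

open Real Pool.Agent.helper37.NP Pool.Agent.Helper93.Tet

theorem dm_symm (l : V6) (v w : Fin 4) : dm l v w = dm l w v := by
  fin_cases v <;> fin_cases w <;> rfl

theorem dm_self (l : V6) (v : Fin 4) : dm l v v = 0 := by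
  fin_cases v <;> rfl

theorem dm_relab (p : Equiv.Perm (Fin 4)) (l : V6) (v w : Fin 4) :
    dm (relab p l) v w = dm l (p v) (p w) := by
  by_cases h : v = w
  · subst h
    rw [dm_self, dm_self]
  · fin_cases v <;> fin_cases w <;>
      first
        | exact absurd rfl h
        | rfl
        | exact dm_symm l _ _

theorem relab_relab (p q : Equiv.Perm (Fin 4)) (l : V6) :
    relab q (relab p l) = relab (p * q) l := by
  unfold relab
  simp only [← relab.eq_def, dm_relab, Equiv.Perm.mul_apply]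

theorem relab_one (l : V6) : relab 1 l = l := by
  funext e
  fin_cases e <;> rfl

theorem relab_inv (p : Equiv.Perm (Fin 4)) (l : V6) : relab p⁻¹ (relab p l) = l := by
  rw [relab_relab, mul_inv_cancel, relab_one]

theorem mem_T_of_relab {l : V6} {p : Equiv.Perm (Fin 4)} (h : relab p l ∈ T) : l ∈ T := by
  rw [← relab_inv p l]
  exact relab_T h _

theorem isF_mem_T {l : V6} (h : IsF l) : l ∈ T := by
  obtain ⟨p, k, m, hk, hm, h⟩ := h
  rcases h with h | h
  · obtain ⟨a, b, c, d, hi, hl, -⟩ := exists_F1 hm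
    have h1 : F1v m ∈ T := by
      rw [← hl]
      exact lenv_mem hi
    exact mem_T_of_relab (p := p) (h ▸ smul_mem_T h1 hk)
  · obtain ⟨a, b, c, d, hi, hl, -⟩ := exists_F2 hm
    have h1 : F2v m ∈ T := by
      rw [← hl]
      exact lenv_mem hi
    exact mem_T_of_relab (p := p) (h ▸ smul_mem_T h1 hk)

theorem shapes_of_isF {l : V6} (h : IsF l) (hs : ∑ e, l e = 1) : l ∈ shapes := by
  obtain ⟨a, b, c, d, hi, hl⟩ := realize (isF_mem_T h)
  exact ⟨a, b, c, d, hi, dehn_of_isF hi (by rw [hl]; exact h), 1, one_pos, by rw [hl, one_smul], hs⟩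

theorem isF_of_Fam1 {l : V6} {p : Equiv.Perm (Fin 4)} (h : relab p l ∈ Fam1) : IsF l := by
  obtain ⟨k, m, hk, hm, h⟩ := h
  exact ⟨p, k, m, hk, hm, Or.inl h⟩

theorem isF_of_Fam2 {l : V6} {p : Equiv.Perm (Fin 4)} (h : relab p l ∈ Fam2) : IsF l := by
  obtain ⟨k, m, hk, hm, h⟩ := h
  exact ⟨p, k, m, hk, hm, Or.inr h⟩

theorem sum_segment {x y : V6} (hx : ∑ e, x e = 1) (hy : ∑ e, y e = 1) :
    ∀ l ∈ segment ℝ x y, ∑ e, l e = 1 := by
  rintro l ⟨a, b, -, -, hab, rfl⟩
  have h : ∑ e, (a • x + b • y) e = a * ∑ e, x e + b * ∑ e, y e := by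
    rw [Finset.mul_sum, Finset.mul_sum, ← Finset.sum_add_distrib]
    rfl
  rw [h, hx, hy, mul_one, mul_one, hab]

end Pool.Agent.helper37.NL
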