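import Pool.Agent.helper37.NL.GSe
import Pool.Agent.helper37.NL.Arc

/-!
NL-E7 (Str).  The structure of the set of shapes: points with algebraic coordinates and countably many
immersed arcs of algebraic curves over `ℚ`.

PROOF.  `transc`: for `m > 4` the vector `(5 m + 6)⁻¹ • F1v m` is a shape (`F1_exists`, `F1_dehn` as in
`one_le_dimH`, file `NP/GSh`, or `exists_F1` in `NL/Cnf`), its coordinate number `3` is `6 / (5 m + 6)`; all
values in `(0, 3 / 13)` occur, and an uncountable set contains a transcendental number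
(`Algebraic.countable`, or `m = 4 + transcendental`).
`structure_thm`: `shapes_eq` gives `γ0`.  For every `n`: if the second alternative of `GArc` holds
(immersed), put `γ n = γ0 n`.  Otherwise `γ0 n` is constant with the value `x = γ0 n 0 ∈ shapes`; if some
coordinate of `x` is transcendental put `γ n` the arc of `exists_arc` through `x` (`γ n 0 = x`), if all are
algebraic put `γ n` a fixed arc (`transc` and `exists_arc`).  All `γ n` are immersed arcs in `shapes`;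
`arc_algebraic` gives the polynomials.  Equality: `⊇` is clear.  `⊆`: `l ∈ shapes` is `γ0 n t` for some
`n, t`; in the first case `l = γ n t`; in the second `l = x = γ n 0`; in the third all coordinates of
`l = x` are algebraic.
-/

namespace Pool.Agent.helper37.NL

open Real Pool.Agent.helper37.NP Pool.Agent.Helper93.Tet

private theorem Str_exists_transc : ∃ t ∈ Set.Ioo (0 : ℝ) (3 / 13), Transcendental ℚ t := by
  by_contra hno
  push Not at hno
  have h1 : Set.Ioo (0 : ℝ) (3 / 13) ⊆ {x : ℝ | IsAlgebraic ℚ x} := by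
    intro t ht
    exact not_not.1 (hno t ht)
  have h2 : (Set.Ioo (0 : ℝ) (3 / 13)).Countable := (Algebraic.countable ℚ ℝ).mono h1
  exact Cardinal.Real.Ioo_countable_iff.1 h2 |>.not_gt (by norm_num)

theorem transc : ∃ l ∈ shapes, ∃ e : Fin 6, Transcendental ℚ (l e) := by
  obtain ⟨t, ⟨ht0, ht1⟩, htr⟩ := Str_exists_transc
  obtain ⟨m, hm, hmt⟩ : ∃ m : ℝ, 4 < m ∧ 6 / (5 * m + 6) = t := by
    refine ⟨(6 / t - 6) / 5, ?_, ?_⟩
    · have h : 26 < 6 / t := by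
        rw [lt_div_iff₀ ht0]
        linarith
      linarith
    · have h : 5 * ((6 / t - 6) / 5) + 6 = 6 / t := by ring
      rw [h]
      field_simp
  obtain ⟨a, b, c, d, hind, hE⟩ := F1_exists hm
  have hd := F1_dehn hm hE
  obtain ⟨e0, e1, e2, e3, e4, e5⟩ := hE
  have hp : 0 < 5 * m + 6 := by linarith
  refine ⟨(1 / (5 * m + 6)) • lenv a b c d, ⟨a, b, c, d, hind, hd, 1 / (5 * m + 6),
    one_div_pos.2 hp, rfl, ?_⟩, 3, ?_⟩
  · simp only [lenv, e0, e1, e2, e3, e4, e5, Fin.sum_univ_six, Pi.smul_apply, smul_eq_mul,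
      Matrix.cons_val_zero, Matrix.cons_val_one, Matrix.cons_val]
    field_simp
    ring
  · have h3 : ((1 / (5 * m + 6)) • lenv a b c d) 3 = t := by
      rw [← hmt]
      simp only [lenv, e0, e1, e2, e3, e4, e5, Pi.smul_apply, smul_eq_mul, Matrix.cons_val]
      ring
    rw [h3]
    exact htr

theorem structure_thm : ∃ γ : ℕ → ℝ → V6,
    (∀ n, AnalyticOnNhd ℝ (γ n) (Set.Ioo (-1) 1) ∧
      (∀ t ∈ Set.Ioo (-1 : ℝ) 1, deriv (γ n) t ≠ 0) ∧
      ∀ e f : Fin 6, ∃ P : MvPolynomial (Fin 2) ℚ, P ≠ 0 ∧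
        ∀ t ∈ Set.Ioo (-1 : ℝ) 1, MvPolynomial.aeval ![γ n t e, γ n t f] P = 0) ∧
    shapes = {l | l ∈ shapes ∧ ∀ e, IsAlgebraic ℚ (l e)} ∪ ⋃ n, γ n '' Set.Ioo (-1) 1 := by
  obtain ⟨γ0, h0, hS⟩ := shapes_eq
  have hmem0 : (0 : ℝ) ∈ Set.Ioo (-1 : ℝ) 1 := ⟨by norm_num, by norm_num⟩
  have key : ∀ n, ∃ γ : ℝ → V6, (AnalyticOnNhd ℝ γ (Set.Ioo (-1) 1) ∧
      (∀ t ∈ Set.Ioo (-1 : ℝ) 1, γ t ∈ shapes) ∧ ∀ t ∈ Set.Ioo (-1 : ℝ) 1, deriv γ t ≠ 0) ∧
      ∀ l ∈ γ0 n '' Set.Ioo (-1 : ℝ) 1, (∀ e, IsAlgebraic ℚ (l e)) ∨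
        l ∈ γ '' Set.Ioo (-1 : ℝ) 1 := by
    intro n
    obtain ⟨ha, hm, hc | hd⟩ := h0 n
    · by_cases hx : ∃ e : Fin 6, Transcendental ℚ (γ0 n 0 e)
      · obtain ⟨e, he⟩ := hx
        obtain ⟨γ, hγ0, h1, h2, h3⟩ := exists_arc (hm 0 hmem0) he
        refine ⟨γ, ⟨h1, h2, h3⟩, ?_⟩
        rintro l ⟨t, ht, rfl⟩
        right
        refine ⟨0, hmem0, ?_⟩
        rw [hγ0, hc t ht]
      · obtain ⟨l, hl, e, he⟩ := transc
        obtain ⟨γ, _, h1, h2, h3⟩ := exists_arc hl he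
        refine ⟨γ, ⟨h1, h2, h3⟩, ?_⟩
        rintro l ⟨t, ht, rfl⟩
        left
        intro e
        rw [hc t ht]
        by_contra hne
        exact hx ⟨e, hne⟩
    · exact ⟨γ0 n, ⟨ha, hm, hd⟩, fun l hl => Or.inr hl⟩
  choose γ hγ hcov using key
  refine ⟨γ, fun n => ⟨(hγ n).1, (hγ n).2.2, fun e f => arc_algebraic (hγ n).1 (hγ n).2.1 e f⟩, ?_⟩
  apply Set.Subset.antisymm
  · intro l hl
    have hl' := hl
    rw [hS] at hl'
    obtain ⟨n, hn⟩ := Set.mem_iUnion.1 hl'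
    rcases hcov n l hn with h | h
    · exact Or.inl ⟨hl, h⟩
    · exact Or.inr (Set.mem_iUnion.2 ⟨n, h⟩)
  · rintro l (⟨hl, _⟩ | hl)
    · exact hl
    · obtain ⟨n, t, ht, rfl⟩ := Set.mem_iUnion.1 hl
      exact (hγ n).2.1 t ht

end Pool.Agent.helper37.NL
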