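import Pool.Agent.helper37.NP.ZDa

/-!
NL-E2 (Dnv).  The converse of `dehn_data`: rational data imply Dehn invariant zero.

PROOF.  Write `lenv a b c d = ∑ i, y i • iv (s i)` (`Submodule.mem_span_range_iff_exists_fun`), so
`dist .. = ∑ i, y i * (s i e : ℝ)` for each edge number `e`.  In `ℝ ⊗[ℤ] (ℝ / πℤ)`:
`dehn = ∑_e (∑_i y i * s i e) ⊗ θ_e = ∑_i y i ⊗ (∑_e s i e • θ_e)` (`TensorProduct.add_tmul`,
`TensorProduct.smul_tmul` with integers: `(y * (n : ℝ)) = n • y`), and `∑_e s i e • θ_e` is the class of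
`dotp (iv (s i)) (angv ..) = π r i`.  With `n = (r i).den ≥ 1`: `y ⊗ [π r] = (n • (y / n)) ⊗ [π r]
= (y / n) ⊗ (n • [π r]) = (y / n) ⊗ [π * (r i).num] = 0`.
-/

namespace Pool.Agent.helper37.NL

open Real Pool.Agent.helper37.NP Pool.Agent.Helper93.Tet
open scoped TensorProduct

/-- A real number tensor a rational angle is zero. -/
private theorem tmul_rat (y : ℝ) (r : ℚ) :
    y ⊗ₜ[ℤ] (((π * (r : ℝ) : ℝ)) : AngleModPi) = 0 := by
  have hd : (r.den : ℝ) ≠ 0 := by exact_mod_cast r.den_ne_zero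
  have hy : y = (r.den : ℤ) • (y / (r.den : ℝ)) := by
    rw [zsmul_eq_mul]
    push_cast
    field_simp
  have hz : (r.den : ℤ) • (((π * (r : ℝ) : ℝ)) : AngleModPi) = 0 := by
    have h1 : (r.den : ℤ) • (((π * (r : ℝ) : ℝ)) : AngleModPi)
        = (((r.den : ℤ) • (π * (r : ℝ)) : ℝ) : AngleModPi) := rfl
    rw [h1, QuotientAddGroup.eq_zero_iff, AddSubgroup.mem_zmultiples_iff]
    refine ⟨r.num, ?_⟩
    have h2 : (r : ℝ) * (r.den : ℝ) = (r.num : ℝ) := by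
      exact_mod_cast Rat.mul_den_eq_num r
    rw [zsmul_eq_mul, zsmul_eq_mul]
    push_cast
    rw [← h2]
    ring
  rw [hy, TensorProduct.smul_tmul, hz, TensorProduct.tmul_zero]

/-- A combination `∑ y i * s i` tensor `t`. -/
private theorem tmul_comb {k : ℕ} (y : Fin k → ℝ) (s : Fin k → ℤ) (t : ℝ) :
    (∑ i, y i * (s i : ℝ)) ⊗ₜ[ℤ] ((t : ℝ) : AngleModPi)
      = ∑ i, (y i) ⊗ₜ[ℤ] ((((s i : ℝ) * t : ℝ)) : AngleModPi) := by
  rw [TensorProduct.sum_tmul]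
  refine Finset.sum_congr rfl fun i _ => ?_
  have h1 : y i * (s i : ℝ) = (s i) • y i := by
    rw [zsmul_eq_mul, mul_comm]
  have h2 : ((((s i : ℝ) * t : ℝ)) : AngleModPi) = (s i) • ((t : ℝ) : AngleModPi) := by
    rw [← zsmul_eq_mul]
    rfl
  rw [h1, TensorProduct.smul_tmul, h2]

theorem dehn_of_data {a b c d : E} {k : ℕ} (s : Fin k → Fin 6 → ℤ) (r : Fin k → ℚ)
    (hsp : lenv a b c d ∈ Submodule.span ℝ (Set.range fun i => iv (s i)))
    (hr : ∀ i, dotp (iv (s i)) (angv a b c d) = π * (r i : ℝ)) : dehn a b c d = 0 := by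
  obtain ⟨y, hy⟩ := (Submodule.mem_span_range_iff_exists_fun ℝ).1 hsp
  set θ : Fin 6 → ℝ := angv a b c d with hθ
  have hL : ∀ e, lenv a b c d e = ∑ i, y i * (s i e : ℝ) := by
    intro e
    rw [← hy]
    simp [iv, Finset.sum_apply]
  have hT : dehn a b c d =
      (lenv a b c d 0) ⊗ₜ[ℤ] ((θ 0 : ℝ) : AngleModPi)
      + (lenv a b c d 1) ⊗ₜ[ℤ] ((θ 1 : ℝ) : AngleModPi)
      + (lenv a b c d 2) ⊗ₜ[ℤ] ((θ 2 : ℝ) : AngleModPi)
      + (lenv a b c d 3) ⊗ₜ[ℤ] ((θ 3 : ℝ) : AngleModPi)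
      + (lenv a b c d 4) ⊗ₜ[ℤ] ((θ 4 : ℝ) : AngleModPi)
      + (lenv a b c d 5) ⊗ₜ[ℤ] ((θ 5 : ℝ) : AngleModPi) := rfl
  rw [hT]
  simp only [hL, tmul_comb]
  rw [← Finset.sum_add_distrib, ← Finset.sum_add_distrib, ← Finset.sum_add_distrib,
    ← Finset.sum_add_distrib, ← Finset.sum_add_distrib]
  refine Finset.sum_eq_zero fun i _ => ?_
  rw [← TensorProduct.tmul_add, ← TensorProduct.tmul_add, ← TensorProduct.tmul_add,
    ← TensorProduct.tmul_add, ← TensorProduct.tmul_add]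
  have h3 : ((((s i 0 : ℝ) * θ 0 : ℝ)) : AngleModPi) + (((s i 1 : ℝ) * θ 1 : ℝ) : AngleModPi)
      + (((s i 2 : ℝ) * θ 2 : ℝ) : AngleModPi) + (((s i 3 : ℝ) * θ 3 : ℝ) : AngleModPi)
      + (((s i 4 : ℝ) * θ 4 : ℝ) : AngleModPi) + (((s i 5 : ℝ) * θ 5 : ℝ) : AngleModPi)
      = ((π * (r i : ℝ) : ℝ) : AngleModPi) := by
    rw [← hr i]
    rfl
  rw [h3]
  exact tmul_rat _ _

end Pool.Agent.helper37.NL
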