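import Mathlib

/-!
NL-K8 (KAl).  Rational linear combinations of algebraically independent numbers (pure algebra).

PROOFS.  `algInd_of_linInd`: let `x` be algebraically independent over `ℚ` and `v 0, ..., v (n-1)` be
`ℚ`-linearly independent elements of the `ℚ`-span of the `x i`.  Finitely many `x i` are needed; write
`v = C x` with a rational matrix `C` of rank `n` (rows independent: a relation of the rows gives a relation
of the `v`).  Possible proofs: (a) the ring homomorphism `MvPolynomial (Fin n) ℚ → MvPolynomial ι ℚ`,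
`X_j ↦ ∑ C_ji X_i` is injective, because it has a left inverse (complete `C` to an invertible matrix, or
take a right inverse `D` of `C`, `C D = 1`, and compose with `X_i ↦ ∑ D_ij X_j`, which gives
`X_j ↦ ∑_i C_ji ∑_k D_ik X_k = X_j`), and evaluation at `x` is injective.  So evaluation at `v` is
injective.  (b) transcendence degree: extend `v` by some of the `x i` to a basis of the span; the
algebraic closures agree.  (a) is simplest.
`quot_algInd`: if `v 0, v 1, v 2` are algebraically independent, so are `v 0 / v 2, v 1 / v 2`.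
Proof: let `P(v0/v2, v1/v2) = 0`, `P ≠ 0` of total degree `≤ N`; multiply by `v2 ^ N`: the homogenisation
`P*(v0, v1, v2) = 0`, and `P* ≠ 0` because `P*(X, Y, 1) = P`.  Or: `v0/v2, v1/v2, v2` generate the same
field as `v0, v1, v2`, transcendence degree 3, so they are algebraically independent
(`AlgebraicIndependent` via cardinality of a generating set equal to the transcendence degree), and
restrict to the first two.
`transc_quot`: the same with two numbers.
`transc_bot`: a number transcendental over `ℚ` is transcendental over the prime field `⊥ : Subfield ℝ`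
(every element of `⊥` is a rational number: `Subfield.mem_bot`-like, `Subfield.closure`/
`Subfield.bot_eq_of_charZero : ⊥ = (algebraMap ℚ ℝ).fieldRange`).
-/

namespace Pool.Agent.helper37.NL

open MvPolynomial in
theorem algInd_of_linInd {ι : Type*} {x : ι → ℝ} (hx : AlgebraicIndependent ℚ x) {n : ℕ}
    {v : Fin n → ℝ} (hv : ∀ j, v j ∈ Submodule.span ℚ (Set.range x)) (hl : LinearIndependent ℚ v) :
    AlgebraicIndependent ℚ v := by
  classical
  -- coefficients
  have hc : ∀ j, ∃ c : ι →₀ ℚ, Finsupp.linearCombination ℚ x c = v j := by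
    intro j
    obtain ⟨c, hc⟩ := (Finsupp.mem_span_range_iff_exists_finsupp).1 (hv j)
    exact ⟨c, by rw [Finsupp.linearCombination_apply]; exact hc⟩
  choose c hc using hc
  have hcl : LinearIndependent ℚ c := by
    apply LinearIndependent.of_comp (Finsupp.linearCombination ℚ x)
    have : (⇑(Finsupp.linearCombination ℚ x) ∘ c) = v := by
      funext j; exact hc j
    rw [this]; exact hl
  -- left inverse of the coefficient map
  have hinj : LinearMap.ker (Finsupp.linearCombination ℚ c) = ⊥ := by
    rw [LinearMap.ker_eq_bot]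
    exact hcl
  obtain ⟨D, hD⟩ := LinearMap.exists_leftInverse_of_injective _ hinj
  have hD' : ∀ j, D (c j) = Finsupp.single j 1 := by
    intro j
    have := congrArg (fun f => f (Finsupp.single j (1 : ℚ))) hD
    simpa using this
  let lin : (ι →₀ ℚ) →ₗ[ℚ] MvPolynomial ι ℚ := Finsupp.linearCombination ℚ (fun i => X i)
  let lin' : (Fin n →₀ ℚ) →ₗ[ℚ] MvPolynomial (Fin n) ℚ :=
    Finsupp.linearCombination ℚ (fun i => X i)
  let Φ : MvPolynomial (Fin n) ℚ →ₐ[ℚ] MvPolynomial ι ℚ := aeval (fun j => lin (c j))
  let Ψ : MvPolynomial ι ℚ →ₐ[ℚ] MvPolynomial (Fin n) ℚ :=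
    aeval (fun i => lin' (D (Finsupp.single i 1)))
  have hΨlin : Ψ.toLinearMap ∘ₗ lin = lin' ∘ₗ D := by
    apply Finsupp.lhom_ext'
    intro i
    apply LinearMap.ext_ring
    simp [Ψ, lin, lin']
  have hΨΦ : Ψ.comp Φ = AlgHom.id ℚ _ := by
    apply MvPolynomial.algHom_ext
    intro j
    have h1 : Ψ (lin (c j)) = lin' (D (c j)) := by
      have := congrArg (fun f => f (c j)) hΨlin
      simpa using this
    have h2 : Φ (X j) = lin (c j) := by simp [Φ]
    rw [AlgHom.comp_apply, h2, h1, hD' j]
    simp [lin']
  have hΦinj : Function.Injective Φ := by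
    intro a b hab
    have := congrArg Ψ hab
    have h1 : ∀ a, Ψ (Φ a) = a := fun a => by
      have := congrArg (fun f => f a) hΨΦ
      simpa using this
    rwa [h1, h1] at this
  have hcomp : (aeval v : MvPolynomial (Fin n) ℚ →ₐ[ℚ] ℝ) = (aeval x).comp Φ := by
    apply MvPolynomial.algHom_ext
    intro j
    have h2 : Φ (X j) = lin (c j) := by simp [Φ]
    rw [AlgHom.comp_apply, h2, aeval_X, ← hc j]
    have h3 : (aeval x : MvPolynomial ι ℚ →ₐ[ℚ] ℝ).toLinearMap ∘ₗ lin =
        Finsupp.linearCombination ℚ x := by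
      apply Finsupp.lhom_ext'
      intro i
      apply LinearMap.ext_ring
      simp [lin]
    have := congrArg (fun f => f (c j)) h3
    simpa using this.symm
  unfold AlgebraicIndependent
  rw [hcomp, AlgHom.coe_comp]
  exact Function.Injective.comp hx hΦinj

open MvPolynomial in
private theorem quot_aux {n : ℕ} {v : Fin (n + 1) → ℝ} (h : AlgebraicIndependent ℚ v) :
    AlgebraicIndependent ℚ (fun i : Fin n => v i.castSucc / v (Fin.last n)) := by
  classical
  rw [algebraicIndependent_iff]
  intro P hP
  have hv0 : v (Fin.last n) ≠ 0 := h.ne_zero _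
  let Q : MvPolynomial (Fin (n + 1)) ℚ :=
    ∑ m ∈ P.support, C (coeff m P) * (∏ i : Fin n, X i.castSucc ^ m i) *
      X (Fin.last n) ^ (P.totalDegree - ∑ i, m i)
  have hdeg : ∀ m ∈ P.support, ∑ i, m i ≤ P.totalDegree := by
    intro m hm
    have := le_totalDegree hm
    rwa [Finsupp.sum_fintype _ _ (by intro; rfl)] at this
  have h1 : aeval v Q = 0 := by
    have h2 : aeval v Q = v (Fin.last n) ^ P.totalDegree *
        aeval (fun i : Fin n => v i.castSucc / v (Fin.last n)) P := by
      rw [aeval_def (fun i : Fin n => v i.castSucc / v (Fin.last n)), eval₂_eq', Finset.mul_sum]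
      simp only [Q, map_sum, map_mul, map_prod, map_pow, aeval_X, aeval_C]
      apply Finset.sum_congr rfl
      intro m hm
      have h3 : v (Fin.last n) ^ P.totalDegree =
          v (Fin.last n) ^ (∑ i, m i) * v (Fin.last n) ^ (P.totalDegree - ∑ i, m i) := by
        rw [← pow_add, Nat.add_sub_cancel' (hdeg m hm)]
      have h4 : ∏ i : Fin n, (v i.castSucc / v (Fin.last n)) ^ m i =
          (∏ i : Fin n, v i.castSucc ^ m i) / v (Fin.last n) ^ (∑ i, m i) := by
        rw [← Finset.prod_pow_eq_pow_sum, ← Finset.prod_div_distrib]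
        apply Finset.prod_congr rfl
        intro i _
        rw [div_pow]
      rw [h3, h4]
      have h5 : v (Fin.last n) ^ (∑ i, m i) ≠ 0 := pow_ne_zero _ hv0
      field_simp
    rw [h2, hP, mul_zero]
  have hQ : Q = 0 := (algebraicIndependent_iff.1 h) Q h1
  -- dehomogenise
  have h6 : aeval (Fin.snoc (fun i : Fin n => (X i : MvPolynomial (Fin n) ℚ)) 1 :
      Fin (n + 1) → MvPolynomial (Fin n) ℚ) Q = P := by
    simp only [Q, map_sum, map_mul, map_prod, map_pow, aeval_X, aeval_C, Fin.snoc_castSucc,
      Fin.snoc_last, one_pow, mul_one, algebraMap_eq]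
    conv_rhs => rw [P.as_sum]
    apply Finset.sum_congr rfl
    intro m _
    rw [monomial_eq, Finsupp.prod_fintype _ _ (by intro; simp)]
  rw [← h6, hQ, map_zero]

theorem quot_algInd {v : Fin 3 → ℝ} (h : AlgebraicIndependent ℚ v) :
    AlgebraicIndependent ℚ ![v 0 / v 2, v 1 / v 2] := by
  have h1 := quot_aux (n := 2) h
  have h2 : (fun i : Fin 2 => v i.castSucc / v (Fin.last 2)) = ![v 0 / v 2, v 1 / v 2] := by
    funext i
    fin_cases i <;> rfl
  rw [h2] at h1
  exact h1

theorem transc_quot {v : Fin 2 → ℝ} (h : AlgebraicIndependent ℚ v) :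
    Transcendental ℚ (v 0 / v 1) := by
  have h1 := quot_aux (n := 1) h
  exact h1.transcendental 0

theorem rat_mem_bot (r : ℚ) : (r : ℝ) ∈ (⊥ : Subfield ℝ) :=
  SubfieldClass.ratCast_mem _ r

theorem transc_bot {m : ℝ} (h : Transcendental ℚ m) : Transcendental (⊥ : Subfield ℝ) m := by
  intro halg
  apply h
  have hA : Algebra.IsAlgebraic ℚ (⊥ : Subfield ℝ) := by
    constructor
    rintro ⟨z, hz⟩
    have hz' := hz
    rw [Subfield.bot_eq_of_charZero] at hz'
    obtain ⟨r, hr⟩ := hz'
    have : (⟨z, hz⟩ : (⊥ : Subfield ℝ)) = algebraMap ℚ (⊥ : Subfield ℝ) r := by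
      apply Subtype.ext
      show z = _
      rw [← hr]
      simp
    rw [this]
    exact isAlgebraic_algebraMap r
  exact halg.restrictScalars ℚ

end Pool.Agent.helper37.NL
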