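import Pool.Agent.helper37.NL.PQb

/-!
NL-14 (Cub).  `Wf` has at most three zeros different from `0`.

PROOF of `cubic`.  In the notation of `PQ.shape` and with `B = (s, -a1, -a2, C + g - (2+d) s)`,
`R = (b0, b1, g - d s, -s)`:
`al = e2 B - e2 R` is a polynomial of degree `≤ 2` in `s`;
`ga = e4 B - e4 R = s (a1 a2 (C + g - (2+d) s) + b0 b1 (g - d s))`, i.e. `s` times a polynomial of
degree `≤ 1`; `be = e3 R - e3 B` has constant term `b0 b1 g - a1 a2 (C + g) = 0` (`q1`) and degree `≤ 2`,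
so `be = s (β0 + β1 s)`.  So `Wf = al ga - be²/4 = s * (polynomial of degree ≤ 3)`.  In Lean: take the
explicit coefficients (`al = α0 + α1 s + α2 s²`, `ga = s (γ0 + γ1 s)`, `be = s (β0 + β1 s)`,
`z0 = -α0 γ0`, `z1 = -(α0 γ1 + α1 γ0) + β0²/4`, `z2 = -(α1 γ1 + α2 γ0) + β0 β1 / 2`,
`z3 = -α2 γ1 + β1²/4`) and check with `linear_combination (coefficient) * q1`, or eliminate.
PROOF of `four`.  The four `s i` are zeros of `z0 + z1 s + z2 s² + z3 s³`, so `z0 = ... = z3 = 0`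
(Vandermonde, `Matrix.det_vandermonde_ne_zero_iff`, or a polynomial of degree `≤ 3` with four roots,
`Polynomial.card_roots'`, or by hand), so `Wf = 0` at `s = -1`, contradiction to `h.pos (-1)`.
-/

namespace Pool.Agent.helper37.NL

open Real Pool.Agent.helper37.NP Pool.Agent.Helper93.Tet

theorem cubic {Bx By Rx Ry : V4} (h : PQ Bx By Rx Ry) :
    ∃ z0 z1 z2 z3 : ℝ, ∀ s : ℝ, Wf (Bx - s • By) (Rx - s • Ry)
      = -s * (z0 + z1 * s + z2 * s ^ 2 + z3 * s ^ 3) := by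
  obtain ⟨a1, a2, b0, b1, g, d, -, -, -, -, -, -, hq, rfl, rfl, rfl, rfl⟩ := h.shape
  set D : ℝ := a1 + a2 + b0 + b1 + g with hD
  obtain ⟨α0, hα0⟩ : ∃ x : ℝ, x = a1 * a2 - (a1 + a2) * D - b0 * b1 - (b0 + b1) * g := ⟨_, rfl⟩
  obtain ⟨α1, hα1⟩ : ∃ x : ℝ, x = -a1 - a2 + D + (a1 + a2) * (2 + d) + (d + 1) * (b0 + b1) + g :=
    ⟨_, rfl⟩
  obtain ⟨α2, hα2⟩ : ∃ x : ℝ, x = -2 - 2 * d := ⟨_, rfl⟩
  obtain ⟨γ0, hγ0⟩ : ∃ x : ℝ, x = a1 * a2 * D + b0 * b1 * g := ⟨_, rfl⟩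
  obtain ⟨γ1, hγ1⟩ : ∃ x : ℝ, x = -(a1 * a2 * (2 + d) + b0 * b1 * d) := ⟨_, rfl⟩
  obtain ⟨β0, hβ0⟩ : ∃ x : ℝ, x = -(b0 * b1 * d) - b0 * b1 - (b0 + b1) * g
      - (a1 * a2 - (a1 + a2) * D - a1 * a2 * (2 + d)) := ⟨_, rfl⟩
  obtain ⟨β1, hβ1⟩ : ∃ x : ℝ, x = (b0 + b1) * d - (a1 + a2) * (2 + d) := ⟨_, rfl⟩
  refine ⟨-(α0 * γ0), -(α0 * γ1 + α1 * γ0) + β0 ^ 2 / 4, -(α1 * γ1 + α2 * γ0) + β0 * β1 / 2,
    -(α2 * γ1) + β1 ^ 2 / 4, fun s => ?_⟩
  have hal : al (![0, -a1, -a2, D] - s • ![-1, 0, 0, 2 + d]) (![b0, b1, g, 0] - s • ![0, 0, d, 1])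
      = α0 + α1 * s + α2 * s ^ 2 := by
    simp [al, e2]
    rw [hα0, hα1, hα2]
    ring
  have hga : ga (![0, -a1, -a2, D] - s • ![-1, 0, 0, 2 + d]) (![b0, b1, g, 0] - s • ![0, 0, d, 1])
      = s * (γ0 + γ1 * s) := by
    simp [ga, e4]
    rw [hγ0, hγ1]
    ring
  have hbe : be (![0, -a1, -a2, D] - s • ![-1, 0, 0, 2 + d]) (![b0, b1, g, 0] - s • ![0, 0, d, 1])
      = s * (β0 + β1 * s) := by
    simp [be, e3]
    rw [hβ0, hβ1]
    linear_combination hq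
  rw [Wf, hal, hga, hbe]
  ring

/-- a real polynomial of degree `≤ 3` with four distinct zeros vanishes -/
theorem cub_zero {z0 z1 z2 z3 : ℝ} (s : Fin 4 → ℝ) (hs : Function.Injective s)
    (hz : ∀ i, z0 + z1 * s i + z2 * s i ^ 2 + z3 * s i ^ 3 = 0) :
    ∀ x : ℝ, z0 + z1 * x + z2 * x ^ 2 + z3 * x ^ 3 = 0 := by
  have hV : (Matrix.vandermonde s).det ≠ 0 := Matrix.det_vandermonde_ne_zero_iff.2 hs
  have hm : (Matrix.vandermonde s).mulVec ![z0, z1, z2, z3] = 0 := by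
    funext i
    have h := hz i
    simp only [Matrix.mulVec, dotProduct, Matrix.vandermonde_apply, Fin.sum_univ_four]
    simp
    linarith
  have h0 := Matrix.eq_zero_of_mulVec_eq_zero hV hm
  have e0 : z0 = 0 := by simpa using congrFun h0 0
  have e1' : z1 = 0 := by simpa using congrFun h0 1
  have e2' : z2 = 0 := by simpa using congrFun h0 2
  have e3' : z3 = 0 := by simpa using congrFun h0 3
  intro x
  rw [e0, e1', e2', e3']
  ring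

theorem four {Bx By Rx Ry : V4} (h : PQ Bx By Rx Ry) (s : Fin 4 → ℝ)
    (hs : Function.Injective s) (h0 : ∀ i, s i ≠ 0)
    (hW : ∀ i, Wf (Bx - s i • By) (Rx - s i • Ry) = 0) : False := by
  obtain ⟨z0, z1, z2, z3, hz⟩ := cubic h
  have hz' : ∀ i, z0 + z1 * s i + z2 * s i ^ 2 + z3 * s i ^ 3 = 0 := by
    intro i
    have h1 := hW i
    rw [hz (s i)] at h1
    rcases mul_eq_zero.1 h1 with h2 | h2
    · exact absurd (neg_eq_zero.1 h2) (h0 i)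
    · exact h2
  have h1 := cub_zero s hs hz' (-1)
  have h2 := h.pos (-1) (by norm_num)
  rw [hz (-1), h1] at h2
  simp at h2

end Pool.Agent.helper37.NL
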