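import Pool.Agent.helper37.NP.Bas

/-!
NL project (MP_6c15a0_gt): classification of the straight families of tetrahedra with Dehn invariant
zero, geometric half.  MAIN THEOREM (`flat_class`, file `Fla`): let `A, B` be two linearly independent
edge vectors such that for `(x, y)` in an open set `U` the vector `x A + y B` is the edge vector of a
nondegenerate tetrahedron and the two functions `∑ A_e θ_e`, `∑ B_e θ_e` of its dihedral angles are
constant on `U`.  Then every tetrahedron in this family is, up to relabelling the vertices and scaling,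
`(m+1, m+1, m, 6, m-1, m-1)` or `(2m+2, m+4, m+6, 3m-6, m+8, 2m-2)`, `m > 4`.

NOTATION.  For an edge vector `l` put `BB l = (Q_0, Q_1, Q_2, Q_0+Q_1+Q_2)` (blue numbers) and
`sg l = (σ_0, σ_1, σ_2, σ_3)` (red numbers).  Both have the same sum; the 16 differences
`BB l i - sg l v` are (up to sign) the 16 Heron factors of the four faces.  With elementary symmetric
functions `e2, e3, e4` put for `B, R : V4` with equal sums
`P(T) = ∏(T - B_i) - ∏(T - R_v) = al T² + be T + ga`,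
`Kf B R i v = al (B_i + R_v) + be`  (it is `P'(B_i)` if `B_i = R_v`), `Wf = al ga - be²/4`; one has
`W l = Wf (BB l) (sg l)`.
-/

namespace Pool.Agent.helper37.NL

open Real Pool.Agent.helper37.NP Pool.Agent.Helper93.Tet

/-- vectors of four reals -/
abbrev V4 : Type := Fin 4 → ℝ

/-- elementary symmetric functions of four numbers -/
def e1 (x : V4) : ℝ := x 0 + x 1 + x 2 + x 3
def e2 (x : V4) : ℝ := x 0 * x 1 + x 0 * x 2 + x 0 * x 3 + x 1 * x 2 + x 1 * x 3 + x 2 * x 3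
def e3 (x : V4) : ℝ :=
  x 0 * x 1 * x 2 + x 0 * x 1 * x 3 + x 0 * x 2 * x 3 + x 1 * x 2 * x 3
def e4 (x : V4) : ℝ := x 0 * x 1 * x 2 * x 3

/-- coefficients of `P(T) = ∏(T - B_i) - ∏(T - R_v)` when the sums are equal -/
def al (B R : V4) : ℝ := e2 B - e2 R
def be (B R : V4) : ℝ := e3 R - e3 B
def ga (B R : V4) : ℝ := e4 B - e4 R

/-- `P'` at a coincidence `B_i = R_v` -/
def Kf (B R : V4) (i v : Fin 4) : ℝ := al B R * (B i + R v) + be B R

/-- minus a quarter of the discriminant of `P` -/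
noncomputable def Wf (B R : V4) : ℝ := al B R * ga B R - be B R ^ 2 / 4

/-- the blue numbers of an edge vector -/
def BB (l : V6) : V4 := ![Q l 0, Q l 1, Q l 2, Q l 0 + Q l 1 + Q l 2]

/-- polarisation of the quadratic form `∑ R_v² - ∑ B_i²` -/
def dl (B R B' R' : V4) : ℝ :=
  (R 0 * R' 0 + R 1 * R' 1 + R 2 * R' 2 + R 3 * R' 3)
    - (B 0 * B' 0 + B 1 * B' 1 + B 2 * B' 2 + B 3 * B' 3)

/-- the second variation form: `d/dτ ∑ n_e θ_e (l + τ n) = FF (BB l) (sg l) (BB n) (sg n) / (4 √W)` -/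
noncomputable def FF (B R B' R' : V4) : ℝ :=
  ∑ i, ∑ v, (B' i - R' v) ^ 2 * Kf B R i v / (B i - R v) + 2 * dl B R B' R' ^ 2

/-- The balance identity for the family `X Bx + Y By`, `X Rx + Y Ry`. -/
def Bal (Bx By Rx Ry : V4) : Prop :=
  ∀ X Y n1 n2 : ℝ, ∑ i, ∑ v,
    (if X * (Bx i - Rx v) + Y * (By i - Ry v) = 0 then
      (n1 * (Bx i - Rx v) + n2 * (By i - Ry v))
        * Kf (X • Bx + Y • By) (X • Rx + Y • Ry) i v else 0) = 0

/-- The configuration of the eight forms in coordinates adapted to a boundary ray with one zero; the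
point with parameter `s` is `(1, -s)`, the family of tetrahedra is `s < 0`. -/
structure PC (Bx By Rx Ry : V4) : Prop where
  bx0 : Bx 0 = 0
  by0 : By 0 = -1
  rx3 : Rx 3 = 0
  ry3 : Ry 3 = 1
  bx : ∀ i, i ≠ 0 → i ≠ 3 → Bx i < 0
  by' : ∀ i, i ≠ 0 → i ≠ 3 → By i ≤ 0
  rx : ∀ v, v ≠ 3 → 0 < Rx v
  ry : ∀ v, v ≠ 3 → 0 ≤ Ry v
  sx : e1 Bx = e1 Rx
  sy : e1 By = e1 Ry
  q1 : Rx 0 * Rx 1 * Rx 2 = Bx 1 * Bx 2 * Bx 3
  bal : ∀ s : ℝ, ∑ i, ∑ v,
    (if Bx i - s * By i = Rx v - s * Ry v then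
      (By i - Ry v) * Kf (Bx - s • By) (Rx - s • Ry) i v else 0) = 0
  pos : ∀ s : ℝ, s < 0 → 0 < Wf (Bx - s • By) (Rx - s • Ry)

/-- the length of the edge `vw` -/
def dm (l : V6) : Fin 4 → Fin 4 → ℝ :=
  ![![0, l 0, l 1, l 2], ![l 0, 0, l 3, l 4], ![l 1, l 3, 0, l 5], ![l 2, l 4, l 5, 0]]

/-- the edge vector after relabelling the vertices -/
def relab (p : Equiv.Perm (Fin 4)) (l : V6) : V6 :=
  ![dm l (p 0) (p 1), dm l (p 0) (p 2), dm l (p 0) (p 3), dm l (p 1) (p 2), dm l (p 1) (p 3),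
    dm l (p 2) (p 3)]

/-- the two families, edges in the order `ab, ac, ad, bc, bd, cd` -/
def F1v (m : ℝ) : V6 := ![m + 1, m + 1, m, 6, m - 1, m - 1]
def F2v (m : ℝ) : V6 := ![2 * m + 2, m + 4, m + 6, 3 * m - 6, m + 8, 2 * m - 2]

/-- `l` is a member of one of the two families, up to relabelling the vertices and scaling -/
def IsF (l : V6) : Prop :=
  ∃ (p : Equiv.Perm (Fin 4)) (k m : ℝ), 0 < k ∧ 4 < m ∧
    (relab p l = k • F1v m ∨ relab p l = k • F2v m)

/-- the same in terms of the numbers `Q`, `sg` -/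
def Conf (l : V6) : Prop :=
  ∃ (j0 : Fin 3) (v0 v2 : Fin 4) (x y : ℝ), v0 ≠ v2 ∧ 0 < x ∧ 0 < y ∧
    Q l j0 = 5 * x + y ∧ (∀ j, j ≠ j0 → Q l j = 4 * x + 2 * y) ∧
    sg l v0 = 5 * x + 3 * y ∧ sg l v2 = 7 * x + 3 * y ∧
    ∀ v, v ≠ v0 → v ≠ v2 → sg l v = 7 * x + 2 * y

/-- A flat plane: `S` is two-dimensional and the whole sector `{Q_j < c/π}` of `S` consists of edge
vectors of nondegenerate tetrahedra, with `∑ s_e θ_e = c(s)` for `s ∈ S`. -/
structure FS (S : Submodule ℝ V6) (c : V6 →ₗ[ℝ] ℝ) : Prop where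
  fin : Module.finrank ℝ S = 2
  reg : ∀ l ∈ S, (∀ j, Q l j < c l / π) → l ∈ T ∧ ∀ s ∈ S, dotp s (ang l) = c s

/-- Two boundary rays of the sector: `q, p` span `S`, all `g_j = c/π - Q_j` are nonnegative at `q` and
`p`, each `j` is positive at one of them, and both have a zero. -/
structure Rays (S : Submodule ℝ V6) (c : V6 →ₗ[ℝ] ℝ) (q p : V6) : Prop where
  qS : q ∈ S
  pS : p ∈ S
  span : ∀ s ∈ S, ∃ x y : ℝ, s = x • q + y • p
  q0 : ∀ j, Q q j ≤ c q / π
  p0 : ∀ j, Q p j ≤ c p / π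
  one : ∀ j, Q q j < c q / π ∨ Q p j < c p / π
  qz : ∃ j, Q q j = c q / π
  pz : ∃ j, Q p j = c p / π

end Pool.Agent.helper37.NL
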