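import Pool.Agent.helper37.NL.Defs
import Pool.Agent.helper37.NP.Ana

/-!
NL-01 (Der).  Derivative of the dihedral angles along a line `τ ↦ l + τ n`.

PROOFS.  `hasDerivAt_nu`, `hasDerivAt_W`: both functions are polynomials in `τ`; unfold everything
(`nu`, `Nu`, `W`, `Wsq`, `dnu`, `dNu`, `dW`, `Wp`; `(l + τ • n) i = l i + τ * n i`), take the derivative
of the polynomial with the usual `HasDerivAt` rules (each `fun τ => l i + τ * n i` has derivative `n i`)
and compare with `ring` at `τ = 0`.  Suggestion: prove first for `e = 0` a lemma with twelve real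
variables for the function `Nu (p + τ p') (q + τ q') ...` and use it six times.

`hasDerivAt_ang`: by `isOpen_T` (file `NP/Ana`) `l + τ n ∈ T` for small `τ`, so near `0` the function is
`π / 2 - arctan (nu / (2 l_e √W))` (`ang_arctan`), where `nu, l_e, W` are taken at `l + τ n`.  With
`N = nu l e`, `N' = dnu l n e`, `x = l e > 0`, `x' = n e`, `w = W l > 0`, `w' = dW l n` and
`y = N / (2 x √w)` the derivative of the argument is
`y' = (N' x √w - N (x' √w + x w' / (2 √w))) / (2 x² w)`, and `1 / (1 + y²) = 4 x² w / (4 x² w + N²)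
= 4 x² w / (ha hb)` by `nu_sq`.  So the derivative of the angle is
`- 4 x² w / (ha hb) * y' = (2 w (x' N - x N') + x N w') / (√w ha hb)`.
-/

namespace Pool.Agent.helper37.NL

open Real Pool.Agent.helper37.NP Pool.Agent.Helper93.Tet

/-- derivative of `Nu` -/
def dNu (p q r s t u p' q' r' s' t' u' : ℝ) : ℝ :=
  4 * p * p' * (q ^ 2 + r ^ 2 - u ^ 2) + 2 * p ^ 2 * (2 * q * q' + 2 * r * r' - 2 * u * u')
    - (2 * p * p' + 2 * q * q' - 2 * s * s') * (p ^ 2 + r ^ 2 - t ^ 2)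
    - (p ^ 2 + q ^ 2 - s ^ 2) * (2 * p * p' + 2 * r * r' - 2 * t * t')

/-- derivative of `nu` at `l` in the direction `n` -/
def dnu (l n : V6) : V6 :=
  ![dNu (l 0) (l 1) (l 2) (l 3) (l 4) (l 5) (n 0) (n 1) (n 2) (n 3) (n 4) (n 5),
    dNu (l 1) (l 0) (l 2) (l 3) (l 5) (l 4) (n 1) (n 0) (n 2) (n 3) (n 5) (n 4),
    dNu (l 2) (l 0) (l 1) (l 4) (l 5) (l 3) (n 2) (n 0) (n 1) (n 4) (n 5) (n 3),
    dNu (l 3) (l 0) (l 4) (l 1) (l 5) (l 2) (n 3) (n 0) (n 4) (n 1) (n 5) (n 2),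
    dNu (l 4) (l 0) (l 3) (l 2) (l 5) (l 1) (n 4) (n 0) (n 3) (n 2) (n 5) (n 1),
    dNu (l 5) (l 1) (l 3) (l 2) (l 4) (l 0) (n 5) (n 1) (n 3) (n 2) (n 4) (n 0)]

/-- partial derivatives of `Wsq` -/
def Wp (a b c d e f : ℝ) : V6 :=
  ![f * (-a + b + c + d + e - f) - a * f + b * e + c * d - b * d - c * e,
    a * f + e * (a - b + c + d - e + f) - b * e + c * d - a * d - c * f,
    a * f + b * e + d * (a + b - c - d + e + f) - c * d - a * e - b * f,
    a * f + b * e + c * (a + b - c - d + e + f) - c * d - a * b - e * f,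
    a * f + b * (a - b + c + d - e + f) - b * e + c * d - a * c - d * f,
    a * (-a + b + c + d + e - f) - a * f + b * e + c * d - b * c - d * e]

/-- derivative of `W` at `l` in the direction `n` -/
def dW (l n : V6) : ℝ :=
  ∑ e, n e * (2 * l e * Wp (l 0 ^ 2) (l 1 ^ 2) (l 2 ^ 2) (l 3 ^ 2) (l 4 ^ 2) (l 5 ^ 2) e)

/-- numerator of the derivative of the angle number `e` -/
def Me (l n : V6) (e : Fin 6) : ℝ :=
  2 * W l * (n e * nu l e - l e * dnu l n e) + l e * nu l e * dW l n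

private theorem Der_lin (l n : V6) (i : Fin 6) :
    HasDerivAt (fun τ : ℝ => (l + τ • n) i) (n i) 0 := by
  have h : HasDerivAt (fun τ : ℝ => l i + τ * n i) (1 * n i) 0 :=
    ((hasDerivAt_id (0 : ℝ)).mul_const (n i)).const_add (l i)
  rw [one_mul] at h
  exact h

private theorem Der_Nu {p q r s t u : ℝ → ℝ} {p' q' r' s' t' u' : ℝ}
    (hp : HasDerivAt p p' 0) (hq : HasDerivAt q q' 0) (hr : HasDerivAt r r' 0)
    (hs : HasDerivAt s s' 0) (ht : HasDerivAt t t' 0) (hu : HasDerivAt u u' 0) :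
    HasDerivAt (fun τ => Nu (p τ) (q τ) (r τ) (s τ) (t τ) (u τ))
      (dNu (p 0) (q 0) (r 0) (s 0) (t 0) (u 0) p' q' r' s' t' u') 0 := by
  unfold Nu dNu
  have h1 := ((hp.pow 2).const_mul 2).mul (((hq.pow 2).add (hr.pow 2)).sub (hu.pow 2))
  have h2 := (((hp.pow 2).add (hq.pow 2)).sub (hs.pow 2)).mul
    (((hp.pow 2).add (hr.pow 2)).sub (ht.pow 2))
  refine (h1.sub h2).congr_deriv ?_
  simp only [Pi.add_apply, Pi.sub_apply, Pi.pow_apply]
  push_cast
  ring

theorem hasDerivAt_nu (l n : V6) (e : Fin 6) :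
    HasDerivAt (fun τ : ℝ => nu (l + τ • n) e) (dnu l n e) 0 := by
  have h := Der_lin l n
  have h0 : ∀ i, (l + (0 : ℝ) • n) i = l i := fun i => by simp
  fin_cases e
  · have := Der_Nu (h 0) (h 1) (h 2) (h 3) (h 4) (h 5)
    simp only [h0] at this
    exact this
  · have := Der_Nu (h 1) (h 0) (h 2) (h 3) (h 5) (h 4)
    simp only [h0] at this
    exact this
  · have := Der_Nu (h 2) (h 0) (h 1) (h 4) (h 5) (h 3)
    simp only [h0] at this
    exact this
  · have := Der_Nu (h 3) (h 0) (h 4) (h 1) (h 5) (h 2)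
    simp only [h0] at this
    exact this
  · have := Der_Nu (h 4) (h 0) (h 3) (h 2) (h 5) (h 1)
    simp only [h0] at this
    exact this
  · have := Der_Nu (h 5) (h 1) (h 3) (h 2) (h 4) (h 0)
    simp only [h0] at this
    exact this

private theorem Der_Wsq {a b c d e f : ℝ → ℝ} {a' b' c' d' e' f' : ℝ}
    (ha : HasDerivAt a a' 0) (hb : HasDerivAt b b' 0) (hc : HasDerivAt c c' 0)
    (hd : HasDerivAt d d' 0) (he : HasDerivAt e e' 0) (hf : HasDerivAt f f' 0) :
    HasDerivAt (fun τ => Wsq (a τ) (b τ) (c τ) (d τ) (e τ) (f τ))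
      (a' * Wp (a 0) (b 0) (c 0) (d 0) (e 0) (f 0) 0
        + b' * Wp (a 0) (b 0) (c 0) (d 0) (e 0) (f 0) 1
        + c' * Wp (a 0) (b 0) (c 0) (d 0) (e 0) (f 0) 2
        + d' * Wp (a 0) (b 0) (c 0) (d 0) (e 0) (f 0) 3
        + e' * Wp (a 0) (b 0) (c 0) (d 0) (e 0) (f 0) 4
        + f' * Wp (a 0) (b 0) (c 0) (d 0) (e 0) (f 0) 5) 0 := by
  unfold Wsq
  have h1 := (ha.mul hf).mul (((((ha.neg.add hb).add hc).add hd).add he).sub hf)
  have h2 := (hb.mul he).mul (((((ha.sub hb).add hc).add hd).sub he).add hf)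
  have h3 := (hc.mul hd).mul (((((ha.add hb).sub hc).sub hd).add he).add hf)
  have h4 := ((((ha.mul hb).mul hd).add ((ha.mul hc).mul he)).add ((hb.mul hc).mul hf)).add
    ((hd.mul he).mul hf)
  refine (((h1.add h2).add h3).sub h4).congr_deriv ?_
  simp only [Pi.add_apply, Pi.sub_apply, Pi.neg_apply, Pi.mul_apply, Wp, Matrix.cons_val]
  ring

theorem hasDerivAt_W (l n : V6) : HasDerivAt (fun τ : ℝ => W (l + τ • n)) (dW l n) 0 := by
  have h := Der_lin l n
  have h0 : ∀ i, (l + (0 : ℝ) • n) i = l i := fun i => by simp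
  have h2 : ∀ i, HasDerivAt (fun τ : ℝ => (l + τ • n) i ^ 2) (n i * (2 * l i)) 0 := by
    intro i
    refine ((h i).pow 2).congr_deriv ?_
    simp only [h0]
    push_cast
    ring
  have h3 := Der_Wsq (h2 0) (h2 1) (h2 2) (h2 3) (h2 4) (h2 5)
  simp only [h0] at h3
  refine h3.congr_deriv ?_
  simp only [dW, Fin.sum_univ_six]
  ring

theorem hasDerivAt_ang {l : V6} (hl : l ∈ T) (n : V6) (e : Fin 6) :
    HasDerivAt (fun τ : ℝ => ang (l + τ • n) e)
      (Me l n e / (Real.sqrt (W l) * (ha l e * hb l e))) 0 := by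
  have h0 : l + (0 : ℝ) • n = l := by simp
  have hW : 0 < W l := hl.2
  have he : 0 < l e := T_pos hl e
  have hab : 0 < ha l e * hb l e := mul_pos (ha_pos hl e) (hb_pos hl e)
  obtain ⟨s, hs⟩ : ∃ s, s = Real.sqrt (W l) := ⟨_, rfl⟩
  have hs0 : 0 < s := by rw [hs]; exact Real.sqrt_pos.2 hW
  have hs2 : s ^ 2 = W l := by rw [hs, Real.sq_sqrt hW.le]
  -- near `0` the angle is given by the arctangent
  have hev : (fun τ : ℝ => ang (l + τ • n) e) =ᶠ[nhds 0] fun τ : ℝ =>
      π / 2 - Real.arctan (nu (l + τ • n) e /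
        (2 * (l + τ • n) e * Real.sqrt (W (l + τ • n)))) := by
    have hc : ContinuousAt (fun τ : ℝ => l + τ • n) 0 := by fun_prop
    have h1 : ∀ᶠ τ in nhds (0 : ℝ), l + τ • n ∈ T := by
      apply hc.eventually_mem
      rw [h0]
      exact isOpen_T.mem_nhds hl
    filter_upwards [h1] with τ hτ
    exact ang_arctan hτ e
  refine HasDerivAt.congr_of_eventuallyEq ?_ hev
  have dN := hasDerivAt_nu l n e
  have dWW := hasDerivAt_W l n
  have dx := Der_lin l n e
  have dS : HasDerivAt (fun τ : ℝ => Real.sqrt (W (l + τ • n))) (dW l n / (2 * s)) 0 := by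
    have h1 := dWW.sqrt (by rw [h0]; exact hW.ne')
    rw [h0, ← hs] at h1
    exact h1
  have dD : HasDerivAt (fun τ : ℝ => 2 * (l + τ • n) e * Real.sqrt (W (l + τ • n)))
      (2 * n e * s + 2 * l e * (dW l n / (2 * s))) 0 := by
    have h1 := (dx.const_mul 2).mul dS
    refine h1.congr_deriv ?_
    rw [h0, ← hs]
  have hD0 : 2 * (l + (0 : ℝ) • n) e * Real.sqrt (W (l + (0 : ℝ) • n)) ≠ 0 := by
    rw [h0, ← hs]
    positivity
  have dY := (dN.div dD hD0).arctan.const_sub (π / 2)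
  refine dY.congr_deriv ?_
  simp only [Pi.div_apply]
  rw [h0, ← hs]
  have hnu := nu_sq l e
  rw [← hs2] at hnu
  have hx : l e ≠ 0 := he.ne'
  have hab' : ha l e * hb l e ≠ 0 := hab.ne'
  rw [Me, ← hs2, ← hnu]
  rw [← hnu] at hab'
  have h5 : 1 + (nu l e / (2 * l e * s)) ^ 2 ≠ 0 := by positivity
  field_simp
  ring

end Pool.Agent.helper37.NL
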