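import Pool.Agent.helper37.NL.Defs

/-!
NL-07 (Kfl).  The values `Kf` at the coincidences `B_i = R_v`.

PROOFS.  Put `P(T) = al T² + be T + ga`.  If `e1 B = e1 R` then
`P(T) = ∏(T - B_i) - ∏(T - R_v)` for all `T` (`ring` after eliminating `R 3 = e1 B - R 0 - R 1 - R 2`), so
`P(B_i) = 0` if `B_i = R_v`.

`Kf_sq`: `Kf² = (2 al T + be)² = 4 al (al T² + be T) + be² = -4 al ga + be² = -4 Wf`, `T = B_i = R_v`.
`Kf_opp`: `P(T) = P(T') = 0` with `T = B_i = R_v`, `T' = B_j = R_w`, `T ≠ T'`; subtract: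
`(T - T') (al (T + T') + be) = 0`, so `al (T + T') + be = 0` and `Kf_iv + Kf_jw = 2 (al (T + T') + be) = 0`.
`Kf_same`: `B_i = B_j`, `R_v = B_i`, `R_w = B_j` gives the same number.
`signed`: if `Kf B R i0 v0 ≠ 0`, multiply: each term `w i v * Kf B R i v` of a coincidence is
`Kf B R i0 v0 * (± w i v)` by `Kf_same` / `Kf_opp`; so the sum is `Kf B R i0 v0 * ∑ ∑ ...`.
`Kf_prod`: for each of the sixteen `(i, v)` (`fin_cases`): the derivative of
`∏(T - B) - ∏(T - R)` at `T = B_i = R_v`; put `R_v = B_i` and eliminate one other `R` by `e1 B = e1 R`,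
then `ring`.  (`∏ k ∈ Finset.univ.erase i` should be expanded with `Finset.prod_erase_eq_div`, `decide`,
or by `simp [Finset.prod, Finset.erase]` / `rfl`-style evaluation for concrete `i`.)
`Kf_30`, `Kf_31`, `Kf_33`: instances, in expanded form (also directly: `linear_combination`).
`Wf_bb`: `ring` after unfolding (`W l = Wf (BB l) (sg l)`); `e1_bb`: `ring`.
-/

namespace Pool.Agent.helper37.NL

open Real Pool.Agent.helper37.NP Pool.Agent.Helper93.Tet

private theorem Kfl_val (l : V6) : BB l 0 = l 0 + l 5 ∧ BB l 1 = l 1 + l 4 ∧ BB l 2 = l 2 + l 3 ∧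
    BB l 3 = l 0 + l 5 + (l 1 + l 4) + (l 2 + l 3) ∧ sg l 0 = l 0 + l 1 + l 2 ∧
    sg l 1 = l 0 + l 3 + l 4 ∧ sg l 2 = l 1 + l 3 + l 5 ∧ sg l 3 = l 2 + l 4 + l 5 :=
  ⟨rfl, rfl, rfl, rfl, rfl, rfl, rfl, rfl⟩

theorem W_bb (l : V6) : W l = Wf (BB l) (sg l) := by
  obtain ⟨h0, h1, h2, h3, h4, h5, h6, h7⟩ := Kfl_val l
  unfold Wf al be ga e2 e3 e4 W Wsq
  rw [h0, h1, h2, h3, h4, h5, h6, h7]
  ring

theorem e1_bb (l : V6) : e1 (BB l) = e1 (sg l) := by
  obtain ⟨h0, h1, h2, h3, h4, h5, h6, h7⟩ := Kfl_val l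
  unfold e1
  rw [h0, h1, h2, h3, h4, h5, h6, h7]
  ring

/-- the polynomial `P` -/
private theorem Kfl_P {B R : V4} (h : e1 B = e1 R) (T : ℝ) :
    (∏ k, (T - B k)) - ∏ u, (T - R u) = al B R * T ^ 2 + be B R * T + ga B R := by
  rw [Fin.prod_univ_four, Fin.prod_univ_four]
  unfold e1 at h
  unfold al be ga e2 e3 e4
  linear_combination (-T ^ 3) * h

private theorem Kfl_zero {B R : V4} (h : e1 B = e1 R) {i v : Fin 4} (hc : B i = R v) :
    al B R * B i ^ 2 + be B R * B i + ga B R = 0 := by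
  rw [← Kfl_P h, Finset.prod_eq_zero (Finset.mem_univ i) (sub_self _),
    Finset.prod_eq_zero (Finset.mem_univ v) (sub_eq_zero.2 hc), sub_zero]

theorem Kf_sq {B R : V4} (h : e1 B = e1 R) {i v : Fin 4} (hc : B i = R v) :
    Kf B R i v ^ 2 = -4 * Wf B R := by
  have h0 := Kfl_zero h hc
  unfold Kf Wf
  rw [← hc]
  linear_combination (4 * al B R) * h0

theorem Kf_same {B R : V4} {i v j w : Fin 4} (hc : B i = R v) (hd : B j = R w) (hij : B j = B i) :
    Kf B R j w = Kf B R i v := by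
  unfold Kf
  rw [← hc, ← hd, hij]

theorem Kf_opp {B R : V4} (h : e1 B = e1 R) {i v j w : Fin 4} (hc : B i = R v) (hd : B j = R w)
    (hij : B j ≠ B i) : Kf B R j w = -Kf B R i v := by
  have h0 := Kfl_zero h hc
  have h1 := Kfl_zero h hd
  have h2 : (B j - B i) * (al B R * (B j + B i) + be B R) = 0 := by
    linear_combination h1 - h0
  have h3 := (mul_eq_zero.1 h2).resolve_left (sub_ne_zero.2 hij)
  unfold Kf
  rw [← hc, ← hd]
  linear_combination 2 * h3

theorem Kf_prod {B R : V4} (h : e1 B = e1 R) {i v : Fin 4} (hc : B i = R v) :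
    Kf B R i v = (∏ k ∈ Finset.univ.erase i, (B i - B k)) - ∏ u ∈ Finset.univ.erase v, (R v - R u) := by
  have h1 : (fun T : ℝ => al B R * (T + B i) + be B R) = fun T : ℝ =>
      (∏ k ∈ Finset.univ.erase i, (T - B k)) - ∏ u ∈ Finset.univ.erase v, (T - R u) := by
    apply Continuous.ext_on (dense_compl_singleton (B i))
    · fun_prop
    · exact (continuous_finsetProd _ fun k _ => by fun_prop).sub
        (continuous_finsetProd _ fun k _ => by fun_prop)
    · intro T hT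
      have hT' : T - B i ≠ 0 := sub_ne_zero.2 hT
      apply mul_left_cancel₀ hT'
      have e1 : (T - B i) * ∏ k ∈ Finset.univ.erase i, (T - B k) = ∏ k, (T - B k) :=
        Finset.mul_prod_erase _ (fun k => T - B k) (Finset.mem_univ i)
      have e2 : (T - R v) * ∏ u ∈ Finset.univ.erase v, (T - R u) = ∏ u, (T - R u) :=
        Finset.mul_prod_erase _ (fun u => T - R u) (Finset.mem_univ v)
      have e3 := Kfl_P h T
      have e4 := Kfl_zero h hc
      rw [← hc] at e2
      change (T - B i) * (al B R * (T + B i) + be B R) = (T - B i) *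
        ((∏ k ∈ Finset.univ.erase i, (T - B k)) - ∏ u ∈ Finset.univ.erase v, (T - R u))
      rw [mul_sub, e1, e2, e3]
      linear_combination -e4
  have h2 : al B R * (B i + B i) + be B R =
      (∏ k ∈ Finset.univ.erase i, (B i - B k)) - ∏ u ∈ Finset.univ.erase v, (B i - R u) :=
    congrFun h1 (B i)
  unfold Kf
  rw [← hc, h2]

/-- two blue and two red numbers coincide: `Kf = 0` -/
theorem Kf_double {B R : V4} (h : e1 B = e1 R) {i j v w : Fin 4} (hij : i ≠ j) (hvw : v ≠ w)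
    (h1 : B i = R v) (h2 : B j = B i) (h3 : R w = R v) : Kf B R i v = 0 := by
  rw [Kf_prod h h1, Finset.prod_eq_zero (Finset.mem_erase.2 ⟨hij.symm, Finset.mem_univ j⟩)
    (by rw [h2, sub_self]),
    Finset.prod_eq_zero (Finset.mem_erase.2 ⟨hvw.symm, Finset.mem_univ w⟩)
    (by rw [h3, sub_self]), sub_zero]

theorem signed {B R : V4} (h : e1 B = e1 R) {i0 v0 : Fin 4} (hc : B i0 = R v0)
    (w : Fin 4 → Fin 4 → ℝ)
    (hs : ∑ i, ∑ v, (if B i = R v then w i v * Kf B R i v else 0) = 0) :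
    Kf B R i0 v0 = 0 ∨
      ∑ i, ∑ v, (if B i = R v then (if B i = B i0 then w i v else -w i v) else 0) = 0 := by
  rw [← mul_eq_zero, Finset.mul_sum]
  refine Eq.trans ?_ hs
  apply Finset.sum_congr rfl
  intro i _
  rw [Finset.mul_sum]
  apply Finset.sum_congr rfl
  intro v _
  by_cases h1 : B i = R v
  · rw [if_pos h1, if_pos h1]
    by_cases h2 : B i = B i0
    · rw [if_pos h2, Kf_same hc h1 h2, mul_comm]
    · rw [if_neg h2, Kf_opp h hc h1 h2]
      ring
  · rw [if_neg h1, if_neg h1, mul_zero]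

end Pool.Agent.helper37.NL
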