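import Pool.Agent.helper37.NL.PQb
import Pool.Agent.helper37.NL.Kfl

/-!
NL-13 (Eqs).  Three equations.  `h : PQ Bx By Rx Ry`, `d = Ry 2 > 0`, notation of `PQ.shape`,
`A = a1 + a2`, `C = a1 + a2 + b0 + b1`.  At the parameter `s`:
`B = (s, -a1, -a2, C + g - (2 + d) s)`, `R = (b0, b1, g - d s, -s)`, `e1 B = e1 R`, and the weights
`w i v = By i - Ry v` are
`w 0 v = -1, -1, -1 - d, -2`; `w 1 v = w 2 v = 0, 0, -d, -1`; `w 3 v = 2 + d, 2 + d, 2, 1 + d`.

`K30`: if `s` is such that `B 3 = R 0` (`C + g - (2+d) s = b0`), then `Kf B R 3 0 = 0`.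
First `s > 0` (because `(2+d) s = C + g - b0 > 0`).
PROOF.  Suppose not and apply `signed` (with `(i0, v0) = (3, 0)`, `w`, `h.bal s`): the signed sum
`Σ = ∑_{coincidences} ± w` is `0`, where the sign is `+` for `B i = b0` and `-` otherwise.  We show
`Σ > 0`.
 * Coincidences with `B i ≠ b0`: then `i ≠ 3`, and all `w 0 v, w 1 v, w 2 v ≤ 0`, so these contribute
   `≥ 0`.
 * Coincidences with `B i = b0`: `i = 3` contributes at `v = 0` the weight `2 + d`, at other `v` weights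
   `≥ 0`.  `i = 1, 2` are impossible (`-a < 0 < b0`).  `i = 0` (if `s = b0`): `(0, v)` with `R v = b0`.
   If `i = 0` occurs and some `v ≠ 0` has `R v = b0`, then `Kf_double` (with `B 0 = B 3`, `R v = R 0`)
   gives `Kf B R 3 0 = 0`, excluded.  So in that case only `v = 0` and the total is `2 + d - 1 > 0`.
   (`R 3 = -s < 0` is never `b0`.)
 So `Σ ≥ 1 + d > 0`.
`K31`: the same with `b1` in place of `b0` (use `h.swapR`, or copy the proof).
`K33`: if `B 3 = R 3` (`C + g - (2+d) s = -s`, i.e. `(1+d) s = C + g`, so `s > 0`), then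
`Kf B R 3 3 = 0`.
PROOF.  The same with `(i0, v0) = (3, 3)`: coincidences with `B i ≠ -s` contribute `≥ 0` (again `i ≠ 3`).
Coincidences with `B i = -s`: `i = 3`: `v = 3` weight `1 + d`; `v = 0, 1` impossible (`b > 0 > -s`);
`v = 2` weight `2 ≥ 0`.  `i = 0` impossible.  `i = k ∈ {1, 2}` if `a_k = s`: then `v = 3` weight `-1`, and
`v = 2` is excluded by `Kf_double` (`B k = B 3`, `R 2 = R 3`).  So the total is at least
`1 + d - #{k : a_k = s}`.  If at most one `k`: `≥ d > 0`.  If both, `a1 = a2 = s`: then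
`(1 + d) s = C + g = 2 s + b0 + b1 + g > 2 s`, so `d > 1` and the total is `≥ d - 1 > 0`.

EQUATIONS.  `E0`: `K30` with `Kf_prod`:
`(B 3 - B 0)(B 3 - B 1)(B 3 - B 2) - (R 0 - R 1)(R 0 - R 2)(R 0 - R 3) = 0` with `B 3 = b0`,
`R 0 - R 2 = b0 - g + d s = C - 2 s` (from `C + g - (2+d) s = b0`), `R 0 - R 3 = b0 + s`.
`E1` the same with `0, 1` exchanged.  `E3`: `K33`:
`(-2 s)(a1 - s)(a2 - s) - (-s - b0)(-s - b1)(-s - g + d s) = 0` with `-s - g + d s = C - 2 s`
(from `C + g - (2+d) s = -s`), expanded: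
`C s² - (C (b0 + b1) - 2 (b0 b1 - a1 a2)) s - C b0 b1 = 0`.
-/

namespace Pool.Agent.helper37.NL

open Real Pool.Agent.helper37.NP Pool.Agent.Helper93.Tet

private theorem Eqs_e1 {Bx By Rx Ry : V4} (h : PQ Bx By Rx Ry) (s : ℝ) :
    e1 (Bx - s • By) = e1 (Rx - s • Ry) := by
  have h1 := h.sx
  have h2 := h.sy
  unfold e1 at h1 h2 ⊢
  simp only [Pi.sub_apply, Pi.smul_apply, smul_eq_mul]
  linear_combination h1 - s * h2

private theorem Eqs_val {Bx By Rx Ry : V4} (h : PQ Bx By Rx Ry) (s : ℝ) :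
    (Bx - s • By) 0 = s ∧ (Bx - s • By) 1 = Bx 1 ∧ (Bx - s • By) 2 = Bx 2 ∧
    (Bx - s • By) 3 = Bx 3 - s * By 3 ∧ (Rx - s • Ry) 0 = Rx 0 ∧ (Rx - s • Ry) 1 = Rx 1 ∧
    (Rx - s • Ry) 2 = Rx 2 - s * Ry 2 ∧ (Rx - s • Ry) 3 = -s := by
  simp only [Pi.sub_apply, Pi.smul_apply, smul_eq_mul, h.bx0, h.by0, h.b1, h.b2, h.r0, h.r1,
    h.rx3, h.ry3]
  refine ⟨by ring, by ring, by ring, trivial, by ring, by ring, trivial, by ring⟩

private theorem Eqs_row {B R : V4} {w : Fin 4 → Fin 4 → ℝ} {i i0 : Fin 4} (hw : ∀ v, w i v ≤ 0)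
    (hne : B i ≠ B i0) :
    0 ≤ ∑ v, (if B i = R v then (if B i = B i0 then w i v else -w i v) else 0) := by
  refine Finset.sum_nonneg fun v _ => ?_
  rw [if_neg hne]
  split_ifs
  · have := hw v
    linarith
  · exact le_rfl

private theorem Eqs_w {Bx By Rx Ry : V4} (h : PQ Bx By Rx Ry) :
    (∀ v, By 0 - Ry v ≤ 0) ∧ (∀ v, By 1 - Ry v ≤ 0) ∧ (∀ v, By 2 - Ry v ≤ 0) := by
  have hr : ∀ v, 0 ≤ Ry v := by
    intro v
    by_cases hv : v = 3
    · rw [hv, h.ry3]
      norm_num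
    · exact h.ry v hv
  refine ⟨fun v => ?_, fun v => ?_, fun v => ?_⟩
  · rw [h.by0]; linarith [hr v]
  · rw [h.b1]; linarith [hr v]
  · rw [h.b2]; linarith [hr v]

private theorem Eqs_sum {B R : V4} {w : Fin 4 → Fin 4 → ℝ} {i0 : Fin 4}
    (h : ∑ i, ∑ v, (if B i = R v then (if B i = B i0 then w i v else -w i v) else 0) = 0) :
    (∑ v, (if B 0 = R v then (if B 0 = B i0 then w 0 v else -w 0 v) else 0)) +
    (∑ v, (if B 1 = R v then (if B 1 = B i0 then w 1 v else -w 1 v) else 0)) +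
    (∑ v, (if B 2 = R v then (if B 2 = B i0 then w 2 v else -w 2 v) else 0)) +
    (∑ v, (if B 3 = R v then (if B 3 = B i0 then w 3 v else -w 3 v) else 0)) = 0 := by
  refine Eq.trans ?_ h
  exact (Fin.sum_univ_four fun i =>
    ∑ v, (if B i = R v then (if B i = B i0 then w i v else -w i v) else 0)).symm

theorem K30 {Bx By Rx Ry : V4} (h : PQ Bx By Rx Ry) (hd : 0 < Ry 2) {s : ℝ}
    (hs : Bx 3 - s * By 3 = Rx 0) : Kf (Bx - s • By) (Rx - s • Ry) 3 0 = 0 := by
  obtain ⟨vb0, vb1, vb2, vb3, vr0, vr1, vr2, vr3⟩ := Eqs_val h s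
  have he := Eqs_e1 h s
  obtain ⟨w0, w1, w2⟩ := Eqs_w h
  have hbal := h.bal s
  have hy3 := h.by3
  obtain ⟨B, hB⟩ : ∃ B, B = Bx - s • By := ⟨_, rfl⟩
  obtain ⟨R, hR⟩ : ∃ R, R = Rx - s • Ry := ⟨_, rfl⟩
  rw [← hB] at vb0 vb1 vb2 vb3 he hbal ⊢
  rw [← hR] at vr0 vr1 vr2 vr3 he hbal ⊢
  have hc : B 3 = R 0 := by rw [vb3, vr0, hs]
  have hbal' : ∑ i, ∑ v, (if B i = R v then (By i - Ry v) * Kf B R i v else 0) = 0 := by
    refine Eq.trans ?_ hbal
    refine Finset.sum_congr rfl fun i _ => Finset.sum_congr rfl fun v _ => ?_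
    rw [hB, hR]
    rfl
  rcases signed he hc (fun i v => By i - Ry v) hbal' with h1 | h1
  · exact h1
  · have h2 := Eqs_sum (w := fun i v => By i - Ry v) h1
    have hb3 : 0 < B 3 := by rw [hc, vr0]; exact h.rx 0 (by decide)
    have hn1 : B 1 ≠ B 3 := by
      have := h.bx 1 (by decide) (by decide)
      rw [vb1]
      exact ne_of_lt (by linarith)
    have hn2 : B 2 ≠ B 3 := by
      have := h.bx 2 (by decide) (by decide)
      rw [vb2]
      exact ne_of_lt (by linarith)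
    have r1 := Eqs_row (R := R) (w := fun i v => By i - Ry v) w1 hn1
    have r2 := Eqs_row (R := R) (w := fun i v => By i - Ry v) w2 hn2
    have r3 : 2 + Ry 2 ≤ ∑ v, (if B 3 = R v then (if B 3 = B 3 then By 3 - Ry v
        else -(By 3 - Ry v)) else 0) := by
      have e0 : (if B 3 = R 0 then (if B 3 = B 3 then By 3 - Ry 0
        else -(By 3 - Ry 0)) else 0) = 2 + Ry 2 := by
        rw [if_pos hc, if_pos rfl, h.r0, hy3]; ring
      have e1 : 0 ≤ (if B 3 = R 1 then (if B 3 = B 3 then By 3 - Ry 1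
        else -(By 3 - Ry 1)) else 0) := by
        rw [if_pos rfl, h.r1, hy3]
        split_ifs <;> linarith
      have e2 : 0 ≤ (if B 3 = R 2 then (if B 3 = B 3 then By 3 - Ry 2
        else -(By 3 - Ry 2)) else 0) := by
        rw [if_pos rfl, hy3]
        split_ifs <;> linarith
      have e3 : 0 ≤ (if B 3 = R 3 then (if B 3 = B 3 then By 3 - Ry 3
        else -(By 3 - Ry 3)) else 0) := by
        rw [if_pos rfl, h.ry3, hy3]
        split_ifs <;> linarith
      rw [Fin.sum_univ_four]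
      linarith
    by_cases h0 : B 0 = B 3
    · by_cases h3 : ∃ v, v ≠ 0 ∧ R v = R 0
      · obtain ⟨v, hv, hv'⟩ := h3
        exact Kf_double he (i := 3) (j := 0) (v := 0) (w := v) (by decide) (Ne.symm hv) hc h0 hv'
      · push Not at h3
        have r0 : -1 ≤ ∑ v, (if B 0 = R v then (if B 0 = B 3 then By 0 - Ry v
            else -(By 0 - Ry v)) else 0) := by
          have e : ∀ v, v ≠ 0 → (if B 0 = R v then (if B 0 = B 3 then By 0 - Ry v
            else -(By 0 - Ry v)) else 0) = 0 := by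
            intro v hv
            rw [if_neg]
            intro hcon
            exact h3 v hv (by rw [← hcon, h0, hc])
          rw [Fin.sum_univ_four, e 1 (by decide), e 2 (by decide), e 3 (by decide),
            if_pos (h0.trans hc), if_pos h0, h.by0, h.r0]
          norm_num
        linarith
    · have r0 := Eqs_row (R := R) (w := fun i v => By i - Ry v) w0 h0
      linarith

private theorem Eqs_swap (B R : V4) :
    Kf B (fun v => R (Equiv.swap 0 1 v)) 3 0 = Kf B R 3 1 := by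
  have s0 : Equiv.swap (0 : Fin 4) 1 0 = 1 := by decide
  have s1 : Equiv.swap (0 : Fin 4) 1 1 = 0 := by decide
  have s2 : Equiv.swap (0 : Fin 4) 1 2 = 2 := by decide
  have s3 : Equiv.swap (0 : Fin 4) 1 3 = 3 := by decide
  simp only [Kf, al, be, e2, e3, s0, s1, s2, s3]
  ring

theorem K31 {Bx By Rx Ry : V4} (h : PQ Bx By Rx Ry) (hd : 0 < Ry 2) {s : ℝ}
    (hs : Bx 3 - s * By 3 = Rx 1) : Kf (Bx - s • By) (Rx - s • Ry) 3 1 = 0 := by
  have s0 : Equiv.swap (0 : Fin 4) 1 0 = 1 := by decide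
  have s2 : Equiv.swap (0 : Fin 4) 1 2 = 2 := by decide
  have h1 := K30 h.swapR (by rw [s2]; exact hd) (s := s) (by rw [s0]; exact hs)
  have h2 := Eqs_swap (Bx - s • By) (Rx - s • Ry)
  rw [← h2]
  exact h1

theorem K33 {Bx By Rx Ry : V4} (h : PQ Bx By Rx Ry) (hd : 0 < Ry 2) {s : ℝ}
    (hs : Bx 3 - s * By 3 = -s) : Kf (Bx - s • By) (Rx - s • Ry) 3 3 = 0 := by
  obtain ⟨vb0, vb1, vb2, vb3, vr0, vr1, vr2, vr3⟩ := Eqs_val h s
  have he := Eqs_e1 h s
  obtain ⟨w0, w1, w2⟩ := Eqs_w h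
  have hbal := h.bal s
  have hy3 := h.by3
  have hx3 := h.bx3
  have p1 := h.bx 1 (by decide) (by decide)
  have p2 := h.bx 2 (by decide) (by decide)
  have q0 := h.rx 0 (by decide)
  have q1 := h.rx 1 (by decide)
  have q2 := h.rx 2 (by decide)
  have hs1 : (1 + Ry 2) * s = -Bx 1 - Bx 2 + Rx 0 + Rx 1 + Rx 2 := by
    rw [hx3, hy3] at hs
    linarith
  have hs0 : 0 < s := by
    have e : 0 < (1 + Ry 2) * s := by rw [hs1]; linarith
    exact pos_of_mul_pos_right e (by linarith)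
  obtain ⟨B, hB⟩ : ∃ B, B = Bx - s • By := ⟨_, rfl⟩
  obtain ⟨R, hR⟩ : ∃ R, R = Rx - s • Ry := ⟨_, rfl⟩
  rw [← hB] at vb0 vb1 vb2 vb3 he hbal ⊢
  rw [← hR] at vr0 vr1 vr2 vr3 he hbal ⊢
  have hb3 : B 3 = -s := by rw [vb3, hs]
  have hc : B 3 = R 3 := by rw [hb3, vr3]
  have hbal' : ∑ i, ∑ v, (if B i = R v then (By i - Ry v) * Kf B R i v else 0) = 0 := by
    refine Eq.trans ?_ hbal
    refine Finset.sum_congr rfl fun i _ => Finset.sum_congr rfl fun v _ => ?_
    rw [hB, hR]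
    rfl
  rcases signed he hc (fun i v => By i - Ry v) hbal' with h1 | h1
  · exact h1
  · have h2 := Eqs_sum (w := fun i v => By i - Ry v) h1
    have hn0 : B 0 ≠ B 3 := by
      rw [vb0, hb3]
      intro h
      linarith
    have r0 := Eqs_row (R := R) (w := fun i v => By i - Ry v) w0 hn0
    have r3 : 1 + Ry 2 ≤ ∑ v, (if B 3 = R v then (if B 3 = B 3 then By 3 - Ry v
        else -(By 3 - Ry v)) else 0) := by
      have e0 : 0 ≤ (if B 3 = R 0 then (if B 3 = B 3 then By 3 - Ry 0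
        else -(By 3 - Ry 0)) else 0) := by
        rw [if_pos rfl, h.r0, hy3]
        split_ifs <;> linarith
      have e1 : 0 ≤ (if B 3 = R 1 then (if B 3 = B 3 then By 3 - Ry 1
        else -(By 3 - Ry 1)) else 0) := by
        rw [if_pos rfl, h.r1, hy3]
        split_ifs <;> linarith
      have e2 : 0 ≤ (if B 3 = R 2 then (if B 3 = B 3 then By 3 - Ry 2
        else -(By 3 - Ry 2)) else 0) := by
        rw [if_pos rfl, hy3]
        split_ifs <;> linarith
      have e3 : (if B 3 = R 3 then (if B 3 = B 3 then By 3 - Ry 3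
        else -(By 3 - Ry 3)) else 0) = 1 + Ry 2 := by
        rw [if_pos hc, if_pos rfl, h.ry3, hy3]
        ring
      rw [Fin.sum_univ_four]
      linarith
    by_cases hdbl : ∃ k, (k = 1 ∨ k = 2) ∧ B k = B 3 ∧ R 2 = R 3
    · obtain ⟨k, hk, hk1, hk2⟩ := hdbl
      refine Kf_double he (i := 3) (j := k) (v := 3) (w := 2) ?_ (by decide) hc hk1 hk2
      rcases hk with hk | hk <;> rw [hk] <;> decide
    · -- the rows `1`, `2`
      have row : ∀ k, (k = 1 ∨ k = 2) → By k = 0 → B k = B 3 →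
          -1 ≤ ∑ v, (if B k = R v then (if B k = B 3 then By k - Ry v
            else -(By k - Ry v)) else 0) := by
        intro k hk hy hk3
        have f0 : B k ≠ R 0 := by
          rw [hk3, hb3, vr0]
          intro h
          linarith
        have f1 : B k ≠ R 1 := by
          rw [hk3, hb3, vr1]
          intro h
          linarith
        have f2 : B k ≠ R 2 := by
          intro h
          exact hdbl ⟨k, hk, hk3, by rw [← h, hk3, hc]⟩
        rw [Fin.sum_univ_four, if_neg f0, if_neg f1, if_neg f2, if_pos (hk3.trans hc), if_pos hk3,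
          hy, h.ry3]
        norm_num
      by_cases g1 : B 1 = B 3
      · have r1 := row 1 (Or.inl rfl) h.b1 g1
        by_cases g2 : B 2 = B 3
        · have r2 := row 2 (Or.inr rfl) h.b2 g2
          rw [vb1, hb3] at g1
          rw [vb2, hb3] at g2
          have hd1 : 1 < Ry 2 := by
            rw [g1, g2] at hs1
            by_contra hcon
            push Not at hcon
            have : Ry 2 * s ≤ 1 * s := mul_le_mul_of_nonneg_right hcon hs0.le
            linarith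
          linarith
        · have r2 := Eqs_row (R := R) (w := fun i v => By i - Ry v) w2 g2
          linarith
      · have r1 := Eqs_row (R := R) (w := fun i v => By i - Ry v) w1 g1
        by_cases g2 : B 2 = B 3
        · have r2 := row 2 (Or.inr rfl) h.b2 g2
          linarith
        · have r2 := Eqs_row (R := R) (w := fun i v => By i - Ry v) w2 g2
          linarith

private theorem Eqs_p0 (f : Fin 4 → ℝ) : ∏ k ∈ Finset.univ.erase (0 : Fin 4), f k = f 1 * f 2 * f 3 := by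
  have : (Finset.univ : Finset (Fin 4)).erase 0 = {1, 2, 3} := by decide
  rw [this, Finset.prod_insert (by decide), Finset.prod_insert (by decide), Finset.prod_singleton]
  ring

private theorem Eqs_p1 (f : Fin 4 → ℝ) : ∏ k ∈ Finset.univ.erase (1 : Fin 4), f k = f 0 * f 2 * f 3 := by
  have : (Finset.univ : Finset (Fin 4)).erase 1 = {0, 2, 3} := by decide
  rw [this, Finset.prod_insert (by decide), Finset.prod_insert (by decide), Finset.prod_singleton]
  ring

private theorem Eqs_p3 (f : Fin 4 → ℝ) : ∏ k ∈ Finset.univ.erase (3 : Fin 4), f k = f 0 * f 1 * f 2 := by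
  have : (Finset.univ : Finset (Fin 4)).erase 3 = {0, 1, 2} := by decide
  rw [this, Finset.prod_insert (by decide), Finset.prod_insert (by decide), Finset.prod_singleton]
  ring

theorem E0 {Bx By Rx Ry : V4} (h : PQ Bx By Rx Ry) (hd : 0 < Ry 2) {s : ℝ}
    (hs : Bx 3 - s * By 3 = Rx 0) :
    (Rx 0 - s) * (Rx 0 - Bx 1) * (Rx 0 - Bx 2)
      + (Rx 1 - Rx 0) * (Rx 0 + s) * (-Bx 1 - Bx 2 + Rx 0 + Rx 1 - 2 * s) = 0 := by
  have hK := K30 h hd hs
  obtain ⟨vb0, vb1, vb2, vb3, vr0, vr1, vr2, vr3⟩ := Eqs_val h s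
  rw [Kf_prod (Eqs_e1 h s) (by rw [vb3, vr0, hs]), Eqs_p3, Eqs_p0, vb0, vb1, vb2, vb3, vr0, vr1,
    vr2, vr3, hs] at hK
  have hr : Rx 0 - (Rx 2 - s * Ry 2) = -Bx 1 - Bx 2 + Rx 0 + Rx 1 - 2 * s := by
    rw [h.bx3, h.by3] at hs
    linarith
  rw [hr] at hK
  linear_combination hK

theorem E1 {Bx By Rx Ry : V4} (h : PQ Bx By Rx Ry) (hd : 0 < Ry 2) {s : ℝ}
    (hs : Bx 3 - s * By 3 = Rx 1) :
    (Rx 1 - s) * (Rx 1 - Bx 1) * (Rx 1 - Bx 2)
      + (Rx 0 - Rx 1) * (Rx 1 + s) * (-Bx 1 - Bx 2 + Rx 0 + Rx 1 - 2 * s) = 0 := by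
  have hK := K31 h hd hs
  obtain ⟨vb0, vb1, vb2, vb3, vr0, vr1, vr2, vr3⟩ := Eqs_val h s
  rw [Kf_prod (Eqs_e1 h s) (by rw [vb3, vr1, hs]), Eqs_p3, Eqs_p1, vb0, vb1, vb2, vb3, vr0, vr1,
    vr2, vr3, hs] at hK
  have hr : Rx 1 - (Rx 2 - s * Ry 2) = -Bx 1 - Bx 2 + Rx 0 + Rx 1 - 2 * s := by
    rw [h.bx3, h.by3] at hs
    linarith
  rw [hr] at hK
  linear_combination hK

theorem E3 {Bx By Rx Ry : V4} (h : PQ Bx By Rx Ry) (hd : 0 < Ry 2) {s : ℝ}
    (hs : Bx 3 - s * By 3 = -s) :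
    (-Bx 1 - Bx 2 + Rx 0 + Rx 1) * s ^ 2
      - ((-Bx 1 - Bx 2 + Rx 0 + Rx 1) * (Rx 0 + Rx 1) - 2 * (Rx 0 * Rx 1 - Bx 1 * Bx 2)) * s
      - (-Bx 1 - Bx 2 + Rx 0 + Rx 1) * (Rx 0 * Rx 1) = 0 := by
  have hK := K33 h hd hs
  obtain ⟨vb0, vb1, vb2, vb3, vr0, vr1, vr2, vr3⟩ := Eqs_val h s
  rw [Kf_prod (Eqs_e1 h s) (by rw [vb3, vr3, hs]), Eqs_p3, Eqs_p3, vb0, vb1, vb2, vb3, vr0, vr1,
    vr2, vr3, hs] at hK
  have hr : -s - (Rx 2 - s * Ry 2) = -Bx 1 - Bx 2 + Rx 0 + Rx 1 - 2 * s := by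
    rw [h.bx3, h.by3] at hs
    linarith
  rw [hr] at hK
  linear_combination hK

end Pool.Agent.helper37.NL
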