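import Mathlib

/-!
NL (MP_6c15a0_gt), star identities for the edge number 3 (edges `a, b, c, d, e, f` = `ab, ac, ad, bc,
bd, cd`) in the direction of each of the six coordinates.  Generated; `field_simp; ring`.
-/

namespace Pool.Agent.helper37.NL

set_option maxHeartbeats 4000000


theorem star3_0 (a b c d e f : ℝ) (h0 : (d+e-f) ≠ 0) (h1 : (d-a+b) ≠ 0) (h2 : (d+a-b) ≠ 0) (h3 :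
      (d-e+f) ≠ 0) (h4 : (-d+a+b) ≠ 0) (h5 : (-d+e+f) ≠ 0) (h6 : (d+e+f) ≠ 0) (h7 : (d+a+b) ≠ 0) :
    (2 * (- d * (4 * d^2 * a - 2*a * (d ^ 2 + e ^ 2 - f ^ 2))) * (a^2 * f^2 * (-a^2 + b^2 + c^2 +
      d^2 + e^2 - f^2) + b^2 * e^2 * (a^2 - b^2 + c^2 + d^2 - e^2 + f^2) + c^2 * d^2 * (a^2 + b^2
      - c^2 - d^2 + e^2 + f^2) - (a^2 * b^2 * d^2 + a^2 * c^2 * e^2 + b^2 * c^2 * f^2 + d^2 * e^2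
      * f^2)) + d * (2 * d ^ 2 * (a ^ 2 + e ^ 2 - c ^ 2) - (d ^ 2 + a ^ 2 - b ^ 2) * (d ^ 2 + e ^
      2 - f ^ 2)) * (2*a*(f^2*(-a^2+b^2+c^2+d^2+e^2-f^2) - a^2*f^2 + b^2*e^2 + c^2*d^2 - b^2*d^2 -
      c^2*e^2))) / (((d+a+b)*(d+a-b)*(d-a+b)*(-d+a+b)) * ((d+e+f)*(d+e-f)*(d-e+f)*(-d+e+f))) =
    (1/4) * (0 + ((-2*(a*f+b*e+c*d)) * (-c-e+f) + (-2*(a*b*d+a*c*e+b*c*f+d*e*f))) / (d-a+b)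
     - ((-2*(a*f+b*e+c*d)) * (-c+e-f) + (-2*(a*b*d+a*c*e+b*c*f+d*e*f))) / (d+a-b)
     + ((-2*(a*f+b*e+c*d)) * (c-e-f) + (-2*(a*b*d+a*c*e+b*c*f+d*e*f))) / (-d+a+b)
     + ((-2*(a*f+b*e+c*d)) * (c+e+f) + (-2*(a*b*d+a*c*e+b*c*f+d*e*f))) / (d+a+b)) + 2 * c * f := by
  field_simp
  ring

theorem star3_1 (a b c d e f : ℝ) (h0 : (d+e-f) ≠ 0) (h1 : (d-a+b) ≠ 0) (h2 : (d+a-b) ≠ 0) (h3 :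
      (d-e+f) ≠ 0) (h4 : (-d+a+b) ≠ 0) (h5 : (-d+e+f) ≠ 0) (h6 : (d+e+f) ≠ 0) (h7 : (d+a+b) ≠ 0) :
    (2 * (- d * (2*b * (d ^ 2 + e ^ 2 - f ^ 2))) * (a^2 * f^2 * (-a^2 + b^2 + c^2 + d^2 + e^2 -
      f^2) + b^2 * e^2 * (a^2 - b^2 + c^2 + d^2 - e^2 + f^2) + c^2 * d^2 * (a^2 + b^2 - c^2 - d^2
      + e^2 + f^2) - (a^2 * b^2 * d^2 + a^2 * c^2 * e^2 + b^2 * c^2 * f^2 + d^2 * e^2 * f^2)) + d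
      * (2 * d ^ 2 * (a ^ 2 + e ^ 2 - c ^ 2) - (d ^ 2 + a ^ 2 - b ^ 2) * (d ^ 2 + e ^ 2 - f ^ 2))
      * (2*b*(a^2*f^2 + e^2*(a^2-b^2+c^2+d^2-e^2+f^2) - b^2*e^2 + c^2*d^2 - a^2*d^2 - c^2*f^2))) /
      (((d+a+b)*(d+a-b)*(d-a+b)*(-d+a+b)) * ((d+e+f)*(d+e-f)*(d-e+f)*(-d+e+f))) =
    (1/4) * (0 - ((-2*(a*f+b*e+c*d)) * (-c-e+f) + (-2*(a*b*d+a*c*e+b*c*f+d*e*f))) / (d-a+b)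
     + ((-2*(a*f+b*e+c*d)) * (-c+e-f) + (-2*(a*b*d+a*c*e+b*c*f+d*e*f))) / (d+a-b)
     + ((-2*(a*f+b*e+c*d)) * (c-e-f) + (-2*(a*b*d+a*c*e+b*c*f+d*e*f))) / (-d+a+b)
     + ((-2*(a*f+b*e+c*d)) * (c+e+f) + (-2*(a*b*d+a*c*e+b*c*f+d*e*f))) / (d+a+b)) + 2 * c * e := by
  field_simp
  ring

theorem star3_2 (a b c d e f : ℝ) (h0 : (d+e-f) ≠ 0) (h1 : (d-a+b) ≠ 0) (h2 : (d+a-b) ≠ 0) (h3 :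
      (d-e+f) ≠ 0) (h4 : (-d+a+b) ≠ 0) (h5 : (-d+e+f) ≠ 0) (h6 : (d+e+f) ≠ 0) (h7 : (d+a+b) ≠ 0) :
    (2 * (- d * (-(4 * d^2 * c))) * (a^2 * f^2 * (-a^2 + b^2 + c^2 + d^2 + e^2 - f^2) + b^2 * e^2
      * (a^2 - b^2 + c^2 + d^2 - e^2 + f^2) + c^2 * d^2 * (a^2 + b^2 - c^2 - d^2 + e^2 + f^2) -
      (a^2 * b^2 * d^2 + a^2 * c^2 * e^2 + b^2 * c^2 * f^2 + d^2 * e^2 * f^2)) + d * (2 * d ^ 2 *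
      (a ^ 2 + e ^ 2 - c ^ 2) - (d ^ 2 + a ^ 2 - b ^ 2) * (d ^ 2 + e ^ 2 - f ^ 2)) * (2*c*(a^2*f^2
      + b^2*e^2 + d^2*(a^2+b^2-c^2-d^2+e^2+f^2) - c^2*d^2 - a^2*e^2 - b^2*f^2))) /
      (((d+a+b)*(d+a-b)*(d-a+b)*(-d+a+b)) * ((d+e+f)*(d+e-f)*(d-e+f)*(-d+e+f))) =
    (1/4) * (0 ) + 2 * c * d := by
  field_simp
  ring

theorem star3_3 (a b c d e f : ℝ) (h0 : (d+e-f) ≠ 0) (h1 : (d-a+b) ≠ 0) (h2 : (d+a-b) ≠ 0) (h3 :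
      (d-e+f) ≠ 0) (h4 : (-d+a+b) ≠ 0) (h5 : (-d+e+f) ≠ 0) (h6 : (d+e+f) ≠ 0) (h7 : (d+a+b) ≠ 0) :
    (2 * ((2 * d ^ 2 * (a ^ 2 + e ^ 2 - c ^ 2) - (d ^ 2 + a ^ 2 - b ^ 2) * (d ^ 2 + e ^ 2 - f ^
      2)) - d * (4 * d * (a ^ 2 + e ^ 2 - c ^ 2) - 2*d * (d ^ 2 + e ^ 2 - f ^ 2) - (d ^ 2 + a ^ 2
      - b ^ 2) * (2*d))) * (a^2 * f^2 * (-a^2 + b^2 + c^2 + d^2 + e^2 - f^2) + b^2 * e^2 * (a^2 -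
      b^2 + c^2 + d^2 - e^2 + f^2) + c^2 * d^2 * (a^2 + b^2 - c^2 - d^2 + e^2 + f^2) - (a^2 * b^2
      * d^2 + a^2 * c^2 * e^2 + b^2 * c^2 * f^2 + d^2 * e^2 * f^2)) + d * (2 * d ^ 2 * (a ^ 2 + e
      ^ 2 - c ^ 2) - (d ^ 2 + a ^ 2 - b ^ 2) * (d ^ 2 + e ^ 2 - f ^ 2)) * (2*d*(a^2*f^2 + b^2*e^2
      + c^2*(a^2+b^2-c^2-d^2+e^2+f^2) - c^2*d^2 - a^2*b^2 - e^2*f^2))) /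
      (((d+a+b)*(d+a-b)*(d-a+b)*(-d+a+b)) * ((d+e+f)*(d+e-f)*(d-e+f)*(-d+e+f))) =
    (1/4) * (0 - ((-2*(a*f+b*e+c*d)) * (a-b-c) + (-2*(a*b*d+a*c*e+b*c*f+d*e*f))) / (d+e-f)
     - ((-2*(a*f+b*e+c*d)) * (-c-e+f) + (-2*(a*b*d+a*c*e+b*c*f+d*e*f))) / (d-a+b)
     - ((-2*(a*f+b*e+c*d)) * (-c+e-f) + (-2*(a*b*d+a*c*e+b*c*f+d*e*f))) / (d+a-b)
     - ((-2*(a*f+b*e+c*d)) * (-a+b-c) + (-2*(a*b*d+a*c*e+b*c*f+d*e*f))) / (d-e+f)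
     - ((-2*(a*f+b*e+c*d)) * (c-e-f) + (-2*(a*b*d+a*c*e+b*c*f+d*e*f))) / (-d+a+b)
     - ((-2*(a*f+b*e+c*d)) * (-a-b+c) + (-2*(a*b*d+a*c*e+b*c*f+d*e*f))) / (-d+e+f)
     + ((-2*(a*f+b*e+c*d)) * (a+b+c) + (-2*(a*b*d+a*c*e+b*c*f+d*e*f))) / (d+e+f)
     + ((-2*(a*f+b*e+c*d)) * (c+e+f) + (-2*(a*b*d+a*c*e+b*c*f+d*e*f))) / (d+a+b)) + 2 * c * c := by
  field_simp
  ring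

theorem star3_4 (a b c d e f : ℝ) (h0 : (d+e-f) ≠ 0) (h1 : (d-a+b) ≠ 0) (h2 : (d+a-b) ≠ 0) (h3 :
      (d-e+f) ≠ 0) (h4 : (-d+a+b) ≠ 0) (h5 : (-d+e+f) ≠ 0) (h6 : (d+e+f) ≠ 0) (h7 : (d+a+b) ≠ 0) :
    (2 * (- d * (4 * d^2 * e - 2*e * (d ^ 2 + a ^ 2 - b ^ 2))) * (a^2 * f^2 * (-a^2 + b^2 + c^2 +
      d^2 + e^2 - f^2) + b^2 * e^2 * (a^2 - b^2 + c^2 + d^2 - e^2 + f^2) + c^2 * d^2 * (a^2 + b^2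
      - c^2 - d^2 + e^2 + f^2) - (a^2 * b^2 * d^2 + a^2 * c^2 * e^2 + b^2 * c^2 * f^2 + d^2 * e^2
      * f^2)) + d * (2 * d ^ 2 * (a ^ 2 + e ^ 2 - c ^ 2) - (d ^ 2 + a ^ 2 - b ^ 2) * (d ^ 2 + e ^
      2 - f ^ 2)) * (2*e*(a^2*f^2 + b^2*(a^2-b^2+c^2+d^2-e^2+f^2) - b^2*e^2 + c^2*d^2 - a^2*c^2 -
      d^2*f^2))) / (((d+a+b)*(d+a-b)*(d-a+b)*(-d+a+b)) * ((d+e+f)*(d+e-f)*(d-e+f)*(-d+e+f))) =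
    (1/4) * (0 - ((-2*(a*f+b*e+c*d)) * (a-b-c) + (-2*(a*b*d+a*c*e+b*c*f+d*e*f))) / (d+e-f)
     + ((-2*(a*f+b*e+c*d)) * (-a+b-c) + (-2*(a*b*d+a*c*e+b*c*f+d*e*f))) / (d-e+f)
     + ((-2*(a*f+b*e+c*d)) * (-a-b+c) + (-2*(a*b*d+a*c*e+b*c*f+d*e*f))) / (-d+e+f)
     + ((-2*(a*f+b*e+c*d)) * (a+b+c) + (-2*(a*b*d+a*c*e+b*c*f+d*e*f))) / (d+e+f)) + 2 * c * b := by
  field_simp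
  ring

theorem star3_5 (a b c d e f : ℝ) (h0 : (d+e-f) ≠ 0) (h1 : (d-a+b) ≠ 0) (h2 : (d+a-b) ≠ 0) (h3 :
      (d-e+f) ≠ 0) (h4 : (-d+a+b) ≠ 0) (h5 : (-d+e+f) ≠ 0) (h6 : (d+e+f) ≠ 0) (h7 : (d+a+b) ≠ 0) :
    (2 * (- d * (2*f * (d ^ 2 + a ^ 2 - b ^ 2))) * (a^2 * f^2 * (-a^2 + b^2 + c^2 + d^2 + e^2 -
      f^2) + b^2 * e^2 * (a^2 - b^2 + c^2 + d^2 - e^2 + f^2) + c^2 * d^2 * (a^2 + b^2 - c^2 - d^2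
      + e^2 + f^2) - (a^2 * b^2 * d^2 + a^2 * c^2 * e^2 + b^2 * c^2 * f^2 + d^2 * e^2 * f^2)) + d
      * (2 * d ^ 2 * (a ^ 2 + e ^ 2 - c ^ 2) - (d ^ 2 + a ^ 2 - b ^ 2) * (d ^ 2 + e ^ 2 - f ^ 2))
      * (2*f*(a^2*(-a^2+b^2+c^2+d^2+e^2-f^2) - a^2*f^2 + b^2*e^2 + c^2*d^2 - b^2*c^2 - d^2*e^2)))
      / (((d+a+b)*(d+a-b)*(d-a+b)*(-d+a+b)) * ((d+e+f)*(d+e-f)*(d-e+f)*(-d+e+f))) =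
    (1/4) * (0 + ((-2*(a*f+b*e+c*d)) * (a-b-c) + (-2*(a*b*d+a*c*e+b*c*f+d*e*f))) / (d+e-f)
     - ((-2*(a*f+b*e+c*d)) * (-a+b-c) + (-2*(a*b*d+a*c*e+b*c*f+d*e*f))) / (d-e+f)
     + ((-2*(a*f+b*e+c*d)) * (-a-b+c) + (-2*(a*b*d+a*c*e+b*c*f+d*e*f))) / (-d+e+f)
     + ((-2*(a*f+b*e+c*d)) * (a+b+c) + (-2*(a*b*d+a*c*e+b*c*f+d*e*f))) / (d+e+f)) + 2 * c * a := by
  field_simp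
  ring

end Pool.Agent.helper37.NL
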