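import Mathlib

/-!
NL (MP_6c15a0_gt), star identities for the edge number 4 (edges `a, b, c, d, e, f` = `ab, ac, ad, bc,
bd, cd`) in the direction of each of the six coordinates.  Generated; `field_simp; ring`.
-/

namespace Pool.Agent.helper37.NL

set_option maxHeartbeats 4000000


theorem star4_0 (a b c d e f : ℝ) (h0 : (e+d-f) ≠ 0) (h1 : (e-a+c) ≠ 0) (h2 : (-e+a+c) ≠ 0) (h3 :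
      (-e+d+f) ≠ 0) (h4 : (e+a-c) ≠ 0) (h5 : (e-d+f) ≠ 0) (h6 : (e+d+f) ≠ 0) (h7 : (e+a+c) ≠ 0) :
    (2 * (- e * (4 * e^2 * a - 2*a * (e ^ 2 + d ^ 2 - f ^ 2))) * (a^2 * f^2 * (-a^2 + b^2 + c^2 +
      d^2 + e^2 - f^2) + b^2 * e^2 * (a^2 - b^2 + c^2 + d^2 - e^2 + f^2) + c^2 * d^2 * (a^2 + b^2
      - c^2 - d^2 + e^2 + f^2) - (a^2 * b^2 * d^2 + a^2 * c^2 * e^2 + b^2 * c^2 * f^2 + d^2 * e^2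
      * f^2)) + e * (2 * e ^ 2 * (a ^ 2 + d ^ 2 - b ^ 2) - (e ^ 2 + a ^ 2 - c ^ 2) * (e ^ 2 + d ^
      2 - f ^ 2)) * (2*a*(f^2*(-a^2+b^2+c^2+d^2+e^2-f^2) - a^2*f^2 + b^2*e^2 + c^2*d^2 - b^2*d^2 -
      c^2*e^2))) / (((e+a+c)*(e+a-c)*(e-a+c)*(-e+a+c)) * ((e+d+f)*(e+d-f)*(e-d+f)*(-e+d+f))) =
    (1/4) * (0 + ((-2*(a*f+b*e+c*d)) * (-b-d+f) + (-2*(a*b*d+a*c*e+b*c*f+d*e*f))) / (e-a+c)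
     + ((-2*(a*f+b*e+c*d)) * (b-d-f) + (-2*(a*b*d+a*c*e+b*c*f+d*e*f))) / (-e+a+c)
     - ((-2*(a*f+b*e+c*d)) * (-b+d-f) + (-2*(a*b*d+a*c*e+b*c*f+d*e*f))) / (e+a-c)
     + ((-2*(a*f+b*e+c*d)) * (b+d+f) + (-2*(a*b*d+a*c*e+b*c*f+d*e*f))) / (e+a+c)) + 2 * b * f := by
  field_simp
  ring

theorem star4_1 (a b c d e f : ℝ) (h0 : (e+d-f) ≠ 0) (h1 : (e-a+c) ≠ 0) (h2 : (-e+a+c) ≠ 0) (h3 :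
      (-e+d+f) ≠ 0) (h4 : (e+a-c) ≠ 0) (h5 : (e-d+f) ≠ 0) (h6 : (e+d+f) ≠ 0) (h7 : (e+a+c) ≠ 0) :
    (2 * (- e * (-(4 * e^2 * b))) * (a^2 * f^2 * (-a^2 + b^2 + c^2 + d^2 + e^2 - f^2) + b^2 * e^2
      * (a^2 - b^2 + c^2 + d^2 - e^2 + f^2) + c^2 * d^2 * (a^2 + b^2 - c^2 - d^2 + e^2 + f^2) -
      (a^2 * b^2 * d^2 + a^2 * c^2 * e^2 + b^2 * c^2 * f^2 + d^2 * e^2 * f^2)) + e * (2 * e ^ 2 *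
      (a ^ 2 + d ^ 2 - b ^ 2) - (e ^ 2 + a ^ 2 - c ^ 2) * (e ^ 2 + d ^ 2 - f ^ 2)) * (2*b*(a^2*f^2
      + e^2*(a^2-b^2+c^2+d^2-e^2+f^2) - b^2*e^2 + c^2*d^2 - a^2*d^2 - c^2*f^2))) /
      (((e+a+c)*(e+a-c)*(e-a+c)*(-e+a+c)) * ((e+d+f)*(e+d-f)*(e-d+f)*(-e+d+f))) =
    (1/4) * (0 ) + 2 * b * e := by
  field_simp
  ring

theorem star4_2 (a b c d e f : ℝ) (h0 : (e+d-f) ≠ 0) (h1 : (e-a+c) ≠ 0) (h2 : (-e+a+c) ≠ 0) (h3 :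
      (-e+d+f) ≠ 0) (h4 : (e+a-c) ≠ 0) (h5 : (e-d+f) ≠ 0) (h6 : (e+d+f) ≠ 0) (h7 : (e+a+c) ≠ 0) :
    (2 * (- e * (2*c * (e ^ 2 + d ^ 2 - f ^ 2))) * (a^2 * f^2 * (-a^2 + b^2 + c^2 + d^2 + e^2 -
      f^2) + b^2 * e^2 * (a^2 - b^2 + c^2 + d^2 - e^2 + f^2) + c^2 * d^2 * (a^2 + b^2 - c^2 - d^2
      + e^2 + f^2) - (a^2 * b^2 * d^2 + a^2 * c^2 * e^2 + b^2 * c^2 * f^2 + d^2 * e^2 * f^2)) + e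
      * (2 * e ^ 2 * (a ^ 2 + d ^ 2 - b ^ 2) - (e ^ 2 + a ^ 2 - c ^ 2) * (e ^ 2 + d ^ 2 - f ^ 2))
      * (2*c*(a^2*f^2 + b^2*e^2 + d^2*(a^2+b^2-c^2-d^2+e^2+f^2) - c^2*d^2 - a^2*e^2 - b^2*f^2))) /
      (((e+a+c)*(e+a-c)*(e-a+c)*(-e+a+c)) * ((e+d+f)*(e+d-f)*(e-d+f)*(-e+d+f))) =
    (1/4) * (0 - ((-2*(a*f+b*e+c*d)) * (-b-d+f) + (-2*(a*b*d+a*c*e+b*c*f+d*e*f))) / (e-a+c)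
     + ((-2*(a*f+b*e+c*d)) * (b-d-f) + (-2*(a*b*d+a*c*e+b*c*f+d*e*f))) / (-e+a+c)
     + ((-2*(a*f+b*e+c*d)) * (-b+d-f) + (-2*(a*b*d+a*c*e+b*c*f+d*e*f))) / (e+a-c)
     + ((-2*(a*f+b*e+c*d)) * (b+d+f) + (-2*(a*b*d+a*c*e+b*c*f+d*e*f))) / (e+a+c)) + 2 * b * d := by
  field_simp
  ring

theorem star4_3 (a b c d e f : ℝ) (h0 : (e+d-f) ≠ 0) (h1 : (e-a+c) ≠ 0) (h2 : (-e+a+c) ≠ 0) (h3 :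
      (-e+d+f) ≠ 0) (h4 : (e+a-c) ≠ 0) (h5 : (e-d+f) ≠ 0) (h6 : (e+d+f) ≠ 0) (h7 : (e+a+c) ≠ 0) :
    (2 * (- e * (4 * e^2 * d - 2*d * (e ^ 2 + a ^ 2 - c ^ 2))) * (a^2 * f^2 * (-a^2 + b^2 + c^2 +
      d^2 + e^2 - f^2) + b^2 * e^2 * (a^2 - b^2 + c^2 + d^2 - e^2 + f^2) + c^2 * d^2 * (a^2 + b^2
      - c^2 - d^2 + e^2 + f^2) - (a^2 * b^2 * d^2 + a^2 * c^2 * e^2 + b^2 * c^2 * f^2 + d^2 * e^2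
      * f^2)) + e * (2 * e ^ 2 * (a ^ 2 + d ^ 2 - b ^ 2) - (e ^ 2 + a ^ 2 - c ^ 2) * (e ^ 2 + d ^
      2 - f ^ 2)) * (2*d*(a^2*f^2 + b^2*e^2 + c^2*(a^2+b^2-c^2-d^2+e^2+f^2) - c^2*d^2 - a^2*b^2 -
      e^2*f^2))) / (((e+a+c)*(e+a-c)*(e-a+c)*(-e+a+c)) * ((e+d+f)*(e+d-f)*(e-d+f)*(-e+d+f))) =
    (1/4) * (0 - ((-2*(a*f+b*e+c*d)) * (a-b-c) + (-2*(a*b*d+a*c*e+b*c*f+d*e*f))) / (e+d-f)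
     + ((-2*(a*f+b*e+c*d)) * (-a+b-c) + (-2*(a*b*d+a*c*e+b*c*f+d*e*f))) / (-e+d+f)
     + ((-2*(a*f+b*e+c*d)) * (-a-b+c) + (-2*(a*b*d+a*c*e+b*c*f+d*e*f))) / (e-d+f)
     + ((-2*(a*f+b*e+c*d)) * (a+b+c) + (-2*(a*b*d+a*c*e+b*c*f+d*e*f))) / (e+d+f)) + 2 * b * c := by
  field_simp
  ring

theorem star4_4 (a b c d e f : ℝ) (h0 : (e+d-f) ≠ 0) (h1 : (e-a+c) ≠ 0) (h2 : (-e+a+c) ≠ 0) (h3 :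
      (-e+d+f) ≠ 0) (h4 : (e+a-c) ≠ 0) (h5 : (e-d+f) ≠ 0) (h6 : (e+d+f) ≠ 0) (h7 : (e+a+c) ≠ 0) :
    (2 * ((2 * e ^ 2 * (a ^ 2 + d ^ 2 - b ^ 2) - (e ^ 2 + a ^ 2 - c ^ 2) * (e ^ 2 + d ^ 2 - f ^
      2)) - e * (4 * e * (a ^ 2 + d ^ 2 - b ^ 2) - 2*e * (e ^ 2 + d ^ 2 - f ^ 2) - (e ^ 2 + a ^ 2
      - c ^ 2) * (2*e))) * (a^2 * f^2 * (-a^2 + b^2 + c^2 + d^2 + e^2 - f^2) + b^2 * e^2 * (a^2 -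
      b^2 + c^2 + d^2 - e^2 + f^2) + c^2 * d^2 * (a^2 + b^2 - c^2 - d^2 + e^2 + f^2) - (a^2 * b^2
      * d^2 + a^2 * c^2 * e^2 + b^2 * c^2 * f^2 + d^2 * e^2 * f^2)) + e * (2 * e ^ 2 * (a ^ 2 + d
      ^ 2 - b ^ 2) - (e ^ 2 + a ^ 2 - c ^ 2) * (e ^ 2 + d ^ 2 - f ^ 2)) * (2*e*(a^2*f^2 +
      b^2*(a^2-b^2+c^2+d^2-e^2+f^2) - b^2*e^2 + c^2*d^2 - a^2*c^2 - d^2*f^2))) /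
      (((e+a+c)*(e+a-c)*(e-a+c)*(-e+a+c)) * ((e+d+f)*(e+d-f)*(e-d+f)*(-e+d+f))) =
    (1/4) * (0 - ((-2*(a*f+b*e+c*d)) * (a-b-c) + (-2*(a*b*d+a*c*e+b*c*f+d*e*f))) / (e+d-f)
     - ((-2*(a*f+b*e+c*d)) * (-b-d+f) + (-2*(a*b*d+a*c*e+b*c*f+d*e*f))) / (e-a+c)
     - ((-2*(a*f+b*e+c*d)) * (b-d-f) + (-2*(a*b*d+a*c*e+b*c*f+d*e*f))) / (-e+a+c)
     - ((-2*(a*f+b*e+c*d)) * (-a+b-c) + (-2*(a*b*d+a*c*e+b*c*f+d*e*f))) / (-e+d+f)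
     - ((-2*(a*f+b*e+c*d)) * (-b+d-f) + (-2*(a*b*d+a*c*e+b*c*f+d*e*f))) / (e+a-c)
     - ((-2*(a*f+b*e+c*d)) * (-a-b+c) + (-2*(a*b*d+a*c*e+b*c*f+d*e*f))) / (e-d+f)
     + ((-2*(a*f+b*e+c*d)) * (a+b+c) + (-2*(a*b*d+a*c*e+b*c*f+d*e*f))) / (e+d+f)
     + ((-2*(a*f+b*e+c*d)) * (b+d+f) + (-2*(a*b*d+a*c*e+b*c*f+d*e*f))) / (e+a+c)) + 2 * b * b := by
  field_simp
  ring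

theorem star4_5 (a b c d e f : ℝ) (h0 : (e+d-f) ≠ 0) (h1 : (e-a+c) ≠ 0) (h2 : (-e+a+c) ≠ 0) (h3 :
      (-e+d+f) ≠ 0) (h4 : (e+a-c) ≠ 0) (h5 : (e-d+f) ≠ 0) (h6 : (e+d+f) ≠ 0) (h7 : (e+a+c) ≠ 0) :
    (2 * (- e * (2*f * (e ^ 2 + a ^ 2 - c ^ 2))) * (a^2 * f^2 * (-a^2 + b^2 + c^2 + d^2 + e^2 -
      f^2) + b^2 * e^2 * (a^2 - b^2 + c^2 + d^2 - e^2 + f^2) + c^2 * d^2 * (a^2 + b^2 - c^2 - d^2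
      + e^2 + f^2) - (a^2 * b^2 * d^2 + a^2 * c^2 * e^2 + b^2 * c^2 * f^2 + d^2 * e^2 * f^2)) + e
      * (2 * e ^ 2 * (a ^ 2 + d ^ 2 - b ^ 2) - (e ^ 2 + a ^ 2 - c ^ 2) * (e ^ 2 + d ^ 2 - f ^ 2))
      * (2*f*(a^2*(-a^2+b^2+c^2+d^2+e^2-f^2) - a^2*f^2 + b^2*e^2 + c^2*d^2 - b^2*c^2 - d^2*e^2)))
      / (((e+a+c)*(e+a-c)*(e-a+c)*(-e+a+c)) * ((e+d+f)*(e+d-f)*(e-d+f)*(-e+d+f))) =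
    (1/4) * (0 + ((-2*(a*f+b*e+c*d)) * (a-b-c) + (-2*(a*b*d+a*c*e+b*c*f+d*e*f))) / (e+d-f)
     + ((-2*(a*f+b*e+c*d)) * (-a+b-c) + (-2*(a*b*d+a*c*e+b*c*f+d*e*f))) / (-e+d+f)
     - ((-2*(a*f+b*e+c*d)) * (-a-b+c) + (-2*(a*b*d+a*c*e+b*c*f+d*e*f))) / (e-d+f)
     + ((-2*(a*f+b*e+c*d)) * (a+b+c) + (-2*(a*b*d+a*c*e+b*c*f+d*e*f))) / (e+d+f)) + 2 * b * a := by
  field_simp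
  ring

end Pool.Agent.helper37.NL
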