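import Pool.Agent.helper37.NL.SvD
import Pool.Agent.helper37.NL.St3
import Pool.Agent.helper37.NL.St4
import Pool.Agent.helper37.NL.St5

/-!
NL-04 (SvB).  The star identities for the edges number 3, 4, 5 in vector form.

PROOF.  Both sides are linear in `n` (`Me` is linear in `(n, dnu l n, dW l n)`, and `dnu`, `dW` are
linear in `n`).  For the six unit directions they are the generated theorems `star3_0, ...,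
star3_5` (files `St3`, `St4`, `St5`, already proved there by `field_simp; ring`), applied to
`a = l 0, b = l 1, c = l 2, d = l 3, e = l 4, f = l 5`.  The eight hypotheses `h0, ..., h7` are the
Heron factors `BB l i - sg l v` up to sign; they are nonzero (`T_pos`, definition of `T`, or
`BB_sub_ne`).  In the generated form the numbers `al`, `be` are written as
`al (BB l) (sg l) = -2 (l0 l5 + l1 l4 + l2 l3)` and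
`Kf (BB l) (sg l) i v = al * (BB l i + sg l v - (Q l 0 + Q l 1 + Q l 2))
  - 2 (l0 l1 l3 + l0 l2 l4 + l1 l2 l5 + l3 l4 l5)` (both by `ring`).
So: write `a, ..., f` for `l 0, ..., l 5`, expand `Rs` (only eight pairs `(i, v)` have `ep i v e ≠ 0`),
and check `goal = n 0 * star_0 + ... + n 5 * star_5`.  A convenient way: show
`Rs l n e = ∑ f, n f * Rs l (Pi.single f 1) e` and the same for the left side, then `congr` with the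
generated theorems; or state for real variables `x0 ... x5` (the values `n f`)
`linear_combination x0 * star_0 + ... + x5 * star_5` after clearing nothing (the denominators are the
same atoms on both sides, if the differences `BB l i - sg l v` have first been rewritten as
`±` the same factors as in the generated theorem, `div_neg`/`neg_div`).
-/

namespace Pool.Agent.helper37.NL

open Real Pool.Agent.helper37.NP Pool.Agent.Helper93.Tet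

/-- the formula for `Kf` at an edge vector -/
private theorem SvB_Kf (l : V6) (i v : Fin 4) :
    Kf (BB l) (sg l) i v = (-2 * (l 0 * l 5 + l 1 * l 4 + l 2 * l 3)) *
      (BB l i + sg l v - (Q l 0 + Q l 1 + Q l 2)) +
      (-2 * (l 0 * l 1 * l 3 + l 0 * l 2 * l 4 + l 1 * l 2 * l 5 + l 3 * l 4 * l 5)) := by
  have b0 : BB l 0 = l 0 + l 5 := rfl
  have b1 : BB l 1 = l 1 + l 4 := rfl
  have b2 : BB l 2 = l 2 + l 3 := rfl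
  have b3 : BB l 3 = (l 0 + l 5) + (l 1 + l 4) + (l 2 + l 3) := rfl
  have s0 : sg l 0 = l 0 + l 1 + l 2 := rfl
  have s1 : sg l 1 = l 0 + l 3 + l 4 := rfl
  have s2 : sg l 2 = l 1 + l 3 + l 5 := rfl
  have s3 : sg l 3 = l 2 + l 4 + l 5 := rfl
  have q0 : Q l 0 = l 0 + l 5 := rfl
  have q1 : Q l 1 = l 1 + l 4 := rfl
  have q2 : Q l 2 = l 2 + l 3 := rfl
  have ha : al (BB l) (sg l) = -2 * (l 0 * l 5 + l 1 * l 4 + l 2 * l 3) := by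
    unfold al e2
    rw [b0, b1, b2, b3, s0, s1, s2, s3]
    ring
  have hb : be (BB l) (sg l) = (-2 * (l 0 * l 5 + l 1 * l 4 + l 2 * l 3)) *
      (- (Q l 0 + Q l 1 + Q l 2)) +
      (-2 * (l 0 * l 1 * l 3 + l 0 * l 2 * l 4 + l 1 * l 2 * l 5 + l 3 * l 4 * l 5)) := by
    unfold be e3
    rw [b0, b1, b2, b3, s0, s1, s2, s3, q0, q1, q2]
    ring
  unfold Kf
  rw [ha, hb]
  ring

/-- the derivative of `W` written out -/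
private theorem SvB_dW (l n : V6) : dW l n =
    n 0 * (2 * l 0 * (l 5 ^ 2 * (-l 0 ^ 2 + l 1 ^ 2 + l 2 ^ 2 + l 3 ^ 2 + l 4 ^ 2 - l 5 ^ 2)
      - l 0 ^ 2 * l 5 ^ 2 + l 1 ^ 2 * l 4 ^ 2 + l 2 ^ 2 * l 3 ^ 2 - l 1 ^ 2 * l 3 ^ 2
      - l 2 ^ 2 * l 4 ^ 2)) +
    n 1 * (2 * l 1 * (l 0 ^ 2 * l 5 ^ 2 + l 4 ^ 2 * (l 0 ^ 2 - l 1 ^ 2 + l 2 ^ 2 + l 3 ^ 2
      - l 4 ^ 2 + l 5 ^ 2) - l 1 ^ 2 * l 4 ^ 2 + l 2 ^ 2 * l 3 ^ 2 - l 0 ^ 2 * l 3 ^ 2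
      - l 2 ^ 2 * l 5 ^ 2)) +
    n 2 * (2 * l 2 * (l 0 ^ 2 * l 5 ^ 2 + l 1 ^ 2 * l 4 ^ 2 + l 3 ^ 2 * (l 0 ^ 2 + l 1 ^ 2
      - l 2 ^ 2 - l 3 ^ 2 + l 4 ^ 2 + l 5 ^ 2) - l 2 ^ 2 * l 3 ^ 2 - l 0 ^ 2 * l 4 ^ 2
      - l 1 ^ 2 * l 5 ^ 2)) +
    n 3 * (2 * l 3 * (l 0 ^ 2 * l 5 ^ 2 + l 1 ^ 2 * l 4 ^ 2 + l 2 ^ 2 * (l 0 ^ 2 + l 1 ^ 2
      - l 2 ^ 2 - l 3 ^ 2 + l 4 ^ 2 + l 5 ^ 2) - l 2 ^ 2 * l 3 ^ 2 - l 0 ^ 2 * l 1 ^ 2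
      - l 4 ^ 2 * l 5 ^ 2)) +
    n 4 * (2 * l 4 * (l 0 ^ 2 * l 5 ^ 2 + l 1 ^ 2 * (l 0 ^ 2 - l 1 ^ 2 + l 2 ^ 2 + l 3 ^ 2
      - l 4 ^ 2 + l 5 ^ 2) - l 1 ^ 2 * l 4 ^ 2 + l 2 ^ 2 * l 3 ^ 2 - l 0 ^ 2 * l 2 ^ 2
      - l 3 ^ 2 * l 5 ^ 2)) +
    n 5 * (2 * l 5 * (l 0 ^ 2 * (-l 0 ^ 2 + l 1 ^ 2 + l 2 ^ 2 + l 3 ^ 2 + l 4 ^ 2 - l 5 ^ 2)
      - l 0 ^ 2 * l 5 ^ 2 + l 1 ^ 2 * l 4 ^ 2 + l 2 ^ 2 * l 3 ^ 2 - l 1 ^ 2 * l 2 ^ 2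
      - l 3 ^ 2 * l 4 ^ 2)) := by
  unfold dW
  rw [Fin.sum_univ_six]
  rfl

private theorem SvB_comb (M D x0 x1 x2 x3 x4 x5 N0 N1 N2 N3 N4 N5 R0 R1 R2 R3 R4 R5 : ℝ)
    (hM : M = x0 * N0 + x1 * N1 + x2 * N2 + x3 * N3 + x4 * N4 + x5 * N5)
    (s0 : N0 / D = R0) (s1 : N1 / D = R1) (s2 : N2 / D = R2) (s3 : N3 / D = R3)
    (s4 : N4 / D = R4) (s5 : N5 / D = R5) :
    M / D = x0 * R0 + x1 * R1 + x2 * R2 + x3 * R3 + x4 * R4 + x5 * R5 := by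
  rw [hM, ← s0, ← s1, ← s2, ← s3, ← s4, ← s5]
  ring

theorem star_3 {l : V6} (hl : l ∈ T) (n : V6) :
    Me l n 3 / (ha l 3 * hb l 3) = Rs l n 3 := by
  have b01 : BB l 0 - sg l 1 = -(l 3+l 4-l 5) := by
    change (l 0 + l 5) - (l 0 + l 3 + l 4) = _
    ring
  have b02 : BB l 0 - sg l 2 = -(l 3-l 0+l 1) := by
    change (l 0 + l 5) - (l 1 + l 3 + l 5) = _
    ring
  have b11 : BB l 1 - sg l 1 = -(l 3+l 0-l 1) := by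
    change (l 1 + l 4) - (l 0 + l 3 + l 4) = _
    ring
  have b12 : BB l 1 - sg l 2 = -(l 3-l 4+l 5) := by
    change (l 1 + l 4) - (l 1 + l 3 + l 5) = _
    ring
  have b20 : BB l 2 - sg l 0 = -(-l 3+l 0+l 1) := by
    change (l 2 + l 3) - (l 0 + l 1 + l 2) = _
    ring
  have b23 : BB l 2 - sg l 3 = -(-l 3+l 4+l 5) := by
    change (l 2 + l 3) - (l 2 + l 4 + l 5) = _
    ring
  have b30 : BB l 3 - sg l 0 = (l 3+l 4+l 5) := by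
    change ((l 0 + l 5) + (l 1 + l 4) + (l 2 + l 3)) - (l 0 + l 1 + l 2) = _
    ring
  have b33 : BB l 3 - sg l 3 = (l 3+l 0+l 1) := by
    change ((l 0 + l 5) + (l 1 + l 4) + (l 2 + l 3)) - (l 2 + l 4 + l 5) = _
    ring
  have h0 : (l 3+l 4-l 5) ≠ 0 := by
    have h := BB_sub_ne hl 0 1
    rw [b01] at h
    exact neg_ne_zero.1 h
  have h1 : (l 3-l 0+l 1) ≠ 0 := by
    have h := BB_sub_ne hl 0 2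
    rw [b02] at h
    exact neg_ne_zero.1 h
  have h2 : (l 3+l 0-l 1) ≠ 0 := by
    have h := BB_sub_ne hl 1 1
    rw [b11] at h
    exact neg_ne_zero.1 h
  have h3 : (l 3-l 4+l 5) ≠ 0 := by
    have h := BB_sub_ne hl 1 2
    rw [b12] at h
    exact neg_ne_zero.1 h
  have h4 : (-l 3+l 0+l 1) ≠ 0 := by
    have h := BB_sub_ne hl 2 0
    rw [b20] at h
    exact neg_ne_zero.1 h
  have h5 : (-l 3+l 4+l 5) ≠ 0 := by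
    have h := BB_sub_ne hl 2 3
    rw [b23] at h
    exact neg_ne_zero.1 h
  have h6 : (l 3+l 4+l 5) ≠ 0 := by
    have h := BB_sub_ne hl 3 0
    rw [b30] at h
    exact h
  have h7 : (l 3+l 0+l 1) ≠ 0 := by
    have h := BB_sub_ne hl 3 3
    rw [b33] at h
    exact h
  have z01 : ep 0 1 3 * (BB n 0 - sg n 1) * Kf (BB l) (sg l) 0 1 / (BB l 0 - sg l 1) =
      (1 : ℝ) * ((-1 : ℝ) * n 3 + (-1 : ℝ) * n 4 + (1 : ℝ) * n 5) * (((-2*(l 0*l 5+l 1*l 4+l 2*l 3)) * (l 0-l 1-l 2) + (-2*(l 0*l 1*l 3+l 0*l 2*l 4+l 1*l 2*l 5+l 3*l 4*l 5))) / (l 3+l 4-l 5)) := by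
    have e1 : ep 0 1 3 = (-1 : ℝ) := rfl
    have e2 : BB n 0 - sg n 1 = (-1 : ℝ) * n 3 + (-1 : ℝ) * n 4 + (1 : ℝ) * n 5 := by
      change (n 0 + n 5) - (n 0 + n 3 + n 4) = _
      ring
    have e3 : Kf (BB l) (sg l) 0 1 = ((-2*(l 0*l 5+l 1*l 4+l 2*l 3)) * (l 0-l 1-l 2) + (-2*(l 0*l 1*l 3+l 0*l 2*l 4+l 1*l 2*l 5+l 3*l 4*l 5))) := by
      rw [SvB_Kf]
      change _ * ((l 0 + l 5) + (l 0 + l 3 + l 4) - ((l 0 + l 5) + (l 1 + l 4) + (l 2 + l 3))) + _ = _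
      ring
    rw [e1, e2, e3, b01, div_neg, mul_div_assoc]
    ring
  have z02 : ep 0 2 3 * (BB n 0 - sg n 2) * Kf (BB l) (sg l) 0 2 / (BB l 0 - sg l 2) =
      (1 : ℝ) * ((1 : ℝ) * n 0 + (-1 : ℝ) * n 1 + (-1 : ℝ) * n 3) * (((-2*(l 0*l 5+l 1*l 4+l 2*l 3)) * (-l 2-l 4+l 5) + (-2*(l 0*l 1*l 3+l 0*l 2*l 4+l 1*l 2*l 5+l 3*l 4*l 5))) / (l 3-l 0+l 1)) := by
    have e1 : ep 0 2 3 = (-1 : ℝ) := rfl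
    have e2 : BB n 0 - sg n 2 = (1 : ℝ) * n 0 + (-1 : ℝ) * n 1 + (-1 : ℝ) * n 3 := by
      change (n 0 + n 5) - (n 1 + n 3 + n 5) = _
      ring
    have e3 : Kf (BB l) (sg l) 0 2 = ((-2*(l 0*l 5+l 1*l 4+l 2*l 3)) * (-l 2-l 4+l 5) + (-2*(l 0*l 1*l 3+l 0*l 2*l 4+l 1*l 2*l 5+l 3*l 4*l 5))) := by
      rw [SvB_Kf]
      change _ * ((l 0 + l 5) + (l 1 + l 3 + l 5) - ((l 0 + l 5) + (l 1 + l 4) + (l 2 + l 3))) + _ = _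
      ring
    rw [e1, e2, e3, b02, div_neg, mul_div_assoc]
    ring
  have z11 : ep 1 1 3 * (BB n 1 - sg n 1) * Kf (BB l) (sg l) 1 1 / (BB l 1 - sg l 1) =
      (1 : ℝ) * ((-1 : ℝ) * n 0 + (1 : ℝ) * n 1 + (-1 : ℝ) * n 3) * (((-2*(l 0*l 5+l 1*l 4+l 2*l 3)) * (-l 2+l 4-l 5) + (-2*(l 0*l 1*l 3+l 0*l 2*l 4+l 1*l 2*l 5+l 3*l 4*l 5))) / (l 3+l 0-l 1)) := by
    have e1 : ep 1 1 3 = (-1 : ℝ) := rfl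
    have e2 : BB n 1 - sg n 1 = (-1 : ℝ) * n 0 + (1 : ℝ) * n 1 + (-1 : ℝ) * n 3 := by
      change (n 1 + n 4) - (n 0 + n 3 + n 4) = _
      ring
    have e3 : Kf (BB l) (sg l) 1 1 = ((-2*(l 0*l 5+l 1*l 4+l 2*l 3)) * (-l 2+l 4-l 5) + (-2*(l 0*l 1*l 3+l 0*l 2*l 4+l 1*l 2*l 5+l 3*l 4*l 5))) := by
      rw [SvB_Kf]
      change _ * ((l 1 + l 4) + (l 0 + l 3 + l 4) - ((l 0 + l 5) + (l 1 + l 4) + (l 2 + l 3))) + _ = _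
      ring
    rw [e1, e2, e3, b11, div_neg, mul_div_assoc]
    ring
  have z12 : ep 1 2 3 * (BB n 1 - sg n 2) * Kf (BB l) (sg l) 1 2 / (BB l 1 - sg l 2) =
      (1 : ℝ) * ((-1 : ℝ) * n 3 + (1 : ℝ) * n 4 + (-1 : ℝ) * n 5) * (((-2*(l 0*l 5+l 1*l 4+l 2*l 3)) * (-l 0+l 1-l 2) + (-2*(l 0*l 1*l 3+l 0*l 2*l 4+l 1*l 2*l 5+l 3*l 4*l 5))) / (l 3-l 4+l 5)) := by
    have e1 : ep 1 2 3 = (-1 : ℝ) := rfl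
    have e2 : BB n 1 - sg n 2 = (-1 : ℝ) * n 3 + (1 : ℝ) * n 4 + (-1 : ℝ) * n 5 := by
      change (n 1 + n 4) - (n 1 + n 3 + n 5) = _
      ring
    have e3 : Kf (BB l) (sg l) 1 2 = ((-2*(l 0*l 5+l 1*l 4+l 2*l 3)) * (-l 0+l 1-l 2) + (-2*(l 0*l 1*l 3+l 0*l 2*l 4+l 1*l 2*l 5+l 3*l 4*l 5))) := by
      rw [SvB_Kf]
      change _ * ((l 1 + l 4) + (l 1 + l 3 + l 5) - ((l 0 + l 5) + (l 1 + l 4) + (l 2 + l 3))) + _ = _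
      ring
    rw [e1, e2, e3, b12, div_neg, mul_div_assoc]
    ring
  have z20 : ep 2 0 3 * (BB n 2 - sg n 0) * Kf (BB l) (sg l) 2 0 / (BB l 2 - sg l 0) =
      (-1 : ℝ) * ((-1 : ℝ) * n 0 + (-1 : ℝ) * n 1 + (1 : ℝ) * n 3) * (((-2*(l 0*l 5+l 1*l 4+l 2*l 3)) * (l 2-l 4-l 5) + (-2*(l 0*l 1*l 3+l 0*l 2*l 4+l 1*l 2*l 5+l 3*l 4*l 5))) / (-l 3+l 0+l 1)) := by
    have e1 : ep 2 0 3 = (1 : ℝ) := rfl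
    have e2 : BB n 2 - sg n 0 = (-1 : ℝ) * n 0 + (-1 : ℝ) * n 1 + (1 : ℝ) * n 3 := by
      change (n 2 + n 3) - (n 0 + n 1 + n 2) = _
      ring
    have e3 : Kf (BB l) (sg l) 2 0 = ((-2*(l 0*l 5+l 1*l 4+l 2*l 3)) * (l 2-l 4-l 5) + (-2*(l 0*l 1*l 3+l 0*l 2*l 4+l 1*l 2*l 5+l 3*l 4*l 5))) := by
      rw [SvB_Kf]
      change _ * ((l 2 + l 3) + (l 0 + l 1 + l 2) - ((l 0 + l 5) + (l 1 + l 4) + (l 2 + l 3))) + _ = _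
      ring
    rw [e1, e2, e3, b20, div_neg, mul_div_assoc]
    ring
  have z23 : ep 2 3 3 * (BB n 2 - sg n 3) * Kf (BB l) (sg l) 2 3 / (BB l 2 - sg l 3) =
      (-1 : ℝ) * ((1 : ℝ) * n 3 + (-1 : ℝ) * n 4 + (-1 : ℝ) * n 5) * (((-2*(l 0*l 5+l 1*l 4+l 2*l 3)) * (-l 0-l 1+l 2) + (-2*(l 0*l 1*l 3+l 0*l 2*l 4+l 1*l 2*l 5+l 3*l 4*l 5))) / (-l 3+l 4+l 5)) := by
    have e1 : ep 2 3 3 = (1 : ℝ) := rfl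
    have e2 : BB n 2 - sg n 3 = (1 : ℝ) * n 3 + (-1 : ℝ) * n 4 + (-1 : ℝ) * n 5 := by
      change (n 2 + n 3) - (n 2 + n 4 + n 5) = _
      ring
    have e3 : Kf (BB l) (sg l) 2 3 = ((-2*(l 0*l 5+l 1*l 4+l 2*l 3)) * (-l 0-l 1+l 2) + (-2*(l 0*l 1*l 3+l 0*l 2*l 4+l 1*l 2*l 5+l 3*l 4*l 5))) := by
      rw [SvB_Kf]
      change _ * ((l 2 + l 3) + (l 2 + l 4 + l 5) - ((l 0 + l 5) + (l 1 + l 4) + (l 2 + l 3))) + _ = _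
      ring
    rw [e1, e2, e3, b23, div_neg, mul_div_assoc]
    ring
  have z30 : ep 3 0 3 * (BB n 3 - sg n 0) * Kf (BB l) (sg l) 3 0 / (BB l 3 - sg l 0) =
      (1 : ℝ) * ((1 : ℝ) * n 3 + (1 : ℝ) * n 4 + (1 : ℝ) * n 5) * (((-2*(l 0*l 5+l 1*l 4+l 2*l 3)) * (l 0+l 1+l 2) + (-2*(l 0*l 1*l 3+l 0*l 2*l 4+l 1*l 2*l 5+l 3*l 4*l 5))) / (l 3+l 4+l 5)) := by
    have e1 : ep 3 0 3 = (1 : ℝ) := rfl
    have e2 : BB n 3 - sg n 0 = (1 : ℝ) * n 3 + (1 : ℝ) * n 4 + (1 : ℝ) * n 5 := by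
      change ((n 0 + n 5) + (n 1 + n 4) + (n 2 + n 3)) - (n 0 + n 1 + n 2) = _
      ring
    have e3 : Kf (BB l) (sg l) 3 0 = ((-2*(l 0*l 5+l 1*l 4+l 2*l 3)) * (l 0+l 1+l 2) + (-2*(l 0*l 1*l 3+l 0*l 2*l 4+l 1*l 2*l 5+l 3*l 4*l 5))) := by
      rw [SvB_Kf]
      change _ * (((l 0 + l 5) + (l 1 + l 4) + (l 2 + l 3)) + (l 0 + l 1 + l 2) - ((l 0 + l 5) + (l 1 + l 4) + (l 2 + l 3))) + _ = _
      ring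
    rw [e1, e2, e3, b30, mul_div_assoc]
  have z33 : ep 3 3 3 * (BB n 3 - sg n 3) * Kf (BB l) (sg l) 3 3 / (BB l 3 - sg l 3) =
      (1 : ℝ) * ((1 : ℝ) * n 0 + (1 : ℝ) * n 1 + (1 : ℝ) * n 3) * (((-2*(l 0*l 5+l 1*l 4+l 2*l 3)) * (l 2+l 4+l 5) + (-2*(l 0*l 1*l 3+l 0*l 2*l 4+l 1*l 2*l 5+l 3*l 4*l 5))) / (l 3+l 0+l 1)) := by
    have e1 : ep 3 3 3 = (1 : ℝ) := rfl
    have e2 : BB n 3 - sg n 3 = (1 : ℝ) * n 0 + (1 : ℝ) * n 1 + (1 : ℝ) * n 3 := by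
      change ((n 0 + n 5) + (n 1 + n 4) + (n 2 + n 3)) - (n 2 + n 4 + n 5) = _
      ring
    have e3 : Kf (BB l) (sg l) 3 3 = ((-2*(l 0*l 5+l 1*l 4+l 2*l 3)) * (l 2+l 4+l 5) + (-2*(l 0*l 1*l 3+l 0*l 2*l 4+l 1*l 2*l 5+l 3*l 4*l 5))) := by
      rw [SvB_Kf]
      change _ * (((l 0 + l 5) + (l 1 + l 4) + (l 2 + l 3)) + (l 2 + l 4 + l 5) - ((l 0 + l 5) + (l 1 + l 4) + (l 2 + l 3))) + _ = _
      ring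
    rw [e1, e2, e3, b33, mul_div_assoc]
  have z00 : ep 0 0 3 * (BB n 0 - sg n 0) * Kf (BB l) (sg l) 0 0 / (BB l 0 - sg l 0) =
      0 := by
    have e1 : ep 0 0 3 = (0 : ℝ) := rfl
    rw [e1, zero_mul, zero_mul, zero_div]
  have z03 : ep 0 3 3 * (BB n 0 - sg n 3) * Kf (BB l) (sg l) 0 3 / (BB l 0 - sg l 3) =
      0 := by
    have e1 : ep 0 3 3 = (0 : ℝ) := rfl
    rw [e1, zero_mul, zero_mul, zero_div]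
  have z10 : ep 1 0 3 * (BB n 1 - sg n 0) * Kf (BB l) (sg l) 1 0 / (BB l 1 - sg l 0) =
      0 := by
    have e1 : ep 1 0 3 = (0 : ℝ) := rfl
    rw [e1, zero_mul, zero_mul, zero_div]
  have z13 : ep 1 3 3 * (BB n 1 - sg n 3) * Kf (BB l) (sg l) 1 3 / (BB l 1 - sg l 3) =
      0 := by
    have e1 : ep 1 3 3 = (0 : ℝ) := rfl
    rw [e1, zero_mul, zero_mul, zero_div]
  have z21 : ep 2 1 3 * (BB n 2 - sg n 1) * Kf (BB l) (sg l) 2 1 / (BB l 2 - sg l 1) =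
      0 := by
    have e1 : ep 2 1 3 = (0 : ℝ) := rfl
    rw [e1, zero_mul, zero_mul, zero_div]
  have z22 : ep 2 2 3 * (BB n 2 - sg n 2) * Kf (BB l) (sg l) 2 2 / (BB l 2 - sg l 2) =
      0 := by
    have e1 : ep 2 2 3 = (0 : ℝ) := rfl
    rw [e1, zero_mul, zero_mul, zero_div]
  have z31 : ep 3 1 3 * (BB n 3 - sg n 1) * Kf (BB l) (sg l) 3 1 / (BB l 3 - sg l 1) =
      0 := by
    have e1 : ep 3 1 3 = (0 : ℝ) := rfl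
    rw [e1, zero_mul, zero_mul, zero_div]
  have z32 : ep 3 2 3 * (BB n 3 - sg n 2) * Kf (BB l) (sg l) 3 2 / (BB l 3 - sg l 2) =
      0 := by
    have e1 : ep 3 2 3 = (0 : ℝ) := rfl
    rw [e1, zero_mul, zero_mul, zero_div]
  have hR : Rs l n 3 = (1 / 4) * (((ep 0 0 3 * (BB n 0 - sg n 0) * Kf (BB l) (sg l) 0 0 / (BB l 0 - sg l 0)) + (ep 0 1 3 * (BB n 0 - sg n 1) * Kf (BB l) (sg l) 0 1 / (BB l 0 - sg l 1)) + (ep 0 2 3 * (BB n 0 - sg n 2) * Kf (BB l) (sg l) 0 2 / (BB l 0 - sg l 2)) + (ep 0 3 3 * (BB n 0 - sg n 3) * Kf (BB l) (sg l) 0 3 / (BB l 0 - sg l 3))) + ((ep 1 0 3 * (BB n 1 - sg n 0) * Kf (BB l) (sg l) 1 0 / (BB l 1 - sg l 0)) + (ep 1 1 3 * (BB n 1 - sg n 1) * Kf (BB l) (sg l) 1 1 / (BB l 1 - sg l 1)) + (ep 1 2 3 * (BB n 1 - sg n 2) * Kf (BB l) (sg l) 1 2 / (BB l 1 - sg l 2))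 + (ep 1 3 3 * (BB n 1 - sg n 3) * Kf (BB l) (sg l) 1 3 / (BB l 1 - sg l 3))) + ((ep 2 0 3 * (BB n 2 - sg n 0) * Kf (BB l) (sg l) 2 0 / (BB l 2 - sg l 0)) + (ep 2 1 3 * (BB n 2 - sg n 1) * Kf (BB l) (sg l) 2 1 / (BB l 2 - sg l 1)) + (ep 2 2 3 * (BB n 2 - sg n 2) * Kf (BB l) (sg l) 2 2 / (BB l 2 - sg l 2)) + (ep 2 3 3 * (BB n 2 - sg n 3) * Kf (BB l) (sg l) 2 3 / (BB l 2 - sg l 3))) + ((ep 3 0 3 * (BB n 3 - sg n 0) * Kf (BB l) (sg l) 3 0 / (BB l 3 - sg l 0)) + (ep 3 1 3 * (BB n 3 - sg n 1) * Kf (BB l) (sg l) 3 1 / (BB l 3 - sg l 1)) + (ep 3 2 3 * (BB n 3 - sg n 2) * Kf (BB l) (sg l) 3 2 / (BB l 3 - sg l 2)) + (ep 3 3 3 * (BB n 3 - sg n 3) * Kf (BB l) (sg l) 3 3 / (BB l 3 - sg l 3)))) + 2 * l 2 * hyp l n := by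
    unfold Rs
    simp only [Fin.sum_univ_four]
    rfl
  rw [z00, z01, z02, z03, z10, z11, z12, z13, z20, z21, z22, z23, z30, z31, z32, z33] at hR
  have s0 := star3_0 (l 0) (l 1) (l 2) (l 3) (l 4) (l 5) h0 h1 h2 h3 h4 h5 h6 h7
  have s1 := star3_1 (l 0) (l 1) (l 2) (l 3) (l 4) (l 5) h0 h1 h2 h3 h4 h5 h6 h7
  have s2 := star3_2 (l 0) (l 1) (l 2) (l 3) (l 4) (l 5) h0 h1 h2 h3 h4 h5 h6 h7
  have s3 := star3_3 (l 0) (l 1) (l 2) (l 3) (l 4) (l 5) h0 h1 h2 h3 h4 h5 h6 h7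
  have s4 := star3_4 (l 0) (l 1) (l 2) (l 3) (l 4) (l 5) h0 h1 h2 h3 h4 h5 h6 h7
  have s5 := star3_5 (l 0) (l 1) (l 2) (l 3) (l 4) (l 5) h0 h1 h2 h3 h4 h5 h6 h7
  have hD : ha l 3 * hb l 3 = (((l 3+l 0+l 1)*(l 3+l 0-l 1)*(l 3-l 0+l 1)*(-l 3+l 0+l 1)) * ((l 3+l 4+l 5)*(l 3+l 4-l 5)*(l 3-l 4+l 5)*(-l 3+l 4+l 5))) := rfl
  rw [hD]
  refine (SvB_comb _ _ (n 0) (n 1) (n 2) (n 3) (n 4) (n 5) _ _ _ _ _ _ _ _ _ _ _ _ ?_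
    s0 s1 s2 s3 s4 s5).trans ?_
  · have m1 : nu l 3 = Nu (l 3) (l 0) (l 4) (l 1) (l 5) (l 2) := rfl
    have m2 : dnu l n 3 = dNu (l 3) (l 0) (l 4) (l 1) (l 5) (l 2) (n 3) (n 0) (n 4) (n 1) (n 5) (n 2) := rfl
    unfold Me
    rw [m1, m2, SvB_dW]
    unfold W Wsq Nu dNu
    clear s0 s1 s2 s3 s4 s5 hR hD
    ring
  rw [hR]
  unfold hyp
  generalize ((-2*(l 0*l 5+l 1*l 4+l 2*l 3)) * (l 0-l 1-l 2) + (-2*(l 0*l 1*l 3+l 0*l 2*l 4+l 1*l 2*l 5+l 3*l 4*l 5))) / (l 3+l 4-l 5) = t0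
  generalize ((-2*(l 0*l 5+l 1*l 4+l 2*l 3)) * (-l 2-l 4+l 5) + (-2*(l 0*l 1*l 3+l 0*l 2*l 4+l 1*l 2*l 5+l 3*l 4*l 5))) / (l 3-l 0+l 1) = t1
  generalize ((-2*(l 0*l 5+l 1*l 4+l 2*l 3)) * (-l 2+l 4-l 5) + (-2*(l 0*l 1*l 3+l 0*l 2*l 4+l 1*l 2*l 5+l 3*l 4*l 5))) / (l 3+l 0-l 1) = t2
  generalize ((-2*(l 0*l 5+l 1*l 4+l 2*l 3)) * (-l 0+l 1-l 2) + (-2*(l 0*l 1*l 3+l 0*l 2*l 4+l 1*l 2*l 5+l 3*l 4*l 5))) / (l 3-l 4+l 5) = t3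
  generalize ((-2*(l 0*l 5+l 1*l 4+l 2*l 3)) * (l 2-l 4-l 5) + (-2*(l 0*l 1*l 3+l 0*l 2*l 4+l 1*l 2*l 5+l 3*l 4*l 5))) / (-l 3+l 0+l 1) = t4
  generalize ((-2*(l 0*l 5+l 1*l 4+l 2*l 3)) * (-l 0-l 1+l 2) + (-2*(l 0*l 1*l 3+l 0*l 2*l 4+l 1*l 2*l 5+l 3*l 4*l 5))) / (-l 3+l 4+l 5) = t5
  generalize ((-2*(l 0*l 5+l 1*l 4+l 2*l 3)) * (l 0+l 1+l 2) + (-2*(l 0*l 1*l 3+l 0*l 2*l 4+l 1*l 2*l 5+l 3*l 4*l 5))) / (l 3+l 4+l 5) = t6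
  generalize ((-2*(l 0*l 5+l 1*l 4+l 2*l 3)) * (l 2+l 4+l 5) + (-2*(l 0*l 1*l 3+l 0*l 2*l 4+l 1*l 2*l 5+l 3*l 4*l 5))) / (l 3+l 0+l 1) = t7
  ring

theorem star_4 {l : V6} (hl : l ∈ T) (n : V6) :
    Me l n 4 / (ha l 4 * hb l 4) = Rs l n 4 := by
  have b01 : BB l 0 - sg l 1 = -(l 4+l 3-l 5) := by
    change (l 0 + l 5) - (l 0 + l 3 + l 4) = _
    ring
  have b03 : BB l 0 - sg l 3 = -(l 4-l 0+l 2) := by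
    change (l 0 + l 5) - (l 2 + l 4 + l 5) = _
    ring
  have b10 : BB l 1 - sg l 0 = -(-l 4+l 0+l 2) := by
    change (l 1 + l 4) - (l 0 + l 1 + l 2) = _
    ring
  have b12 : BB l 1 - sg l 2 = -(-l 4+l 3+l 5) := by
    change (l 1 + l 4) - (l 1 + l 3 + l 5) = _
    ring
  have b21 : BB l 2 - sg l 1 = -(l 4+l 0-l 2) := by
    change (l 2 + l 3) - (l 0 + l 3 + l 4) = _
    ring
  have b23 : BB l 2 - sg l 3 = -(l 4-l 3+l 5) := by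
    change (l 2 + l 3) - (l 2 + l 4 + l 5) = _
    ring
  have b30 : BB l 3 - sg l 0 = (l 4+l 3+l 5) := by
    change ((l 0 + l 5) + (l 1 + l 4) + (l 2 + l 3)) - (l 0 + l 1 + l 2) = _
    ring
  have b32 : BB l 3 - sg l 2 = (l 4+l 0+l 2) := by
    change ((l 0 + l 5) + (l 1 + l 4) + (l 2 + l 3)) - (l 1 + l 3 + l 5) = _
    ring
  have h0 : (l 4+l 3-l 5) ≠ 0 := by
    have h := BB_sub_ne hl 0 1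
    rw [b01] at h
    exact neg_ne_zero.1 h
  have h1 : (l 4-l 0+l 2) ≠ 0 := by
    have h := BB_sub_ne hl 0 3
    rw [b03] at h
    exact neg_ne_zero.1 h
  have h2 : (-l 4+l 0+l 2) ≠ 0 := by
    have h := BB_sub_ne hl 1 0
    rw [b10] at h
    exact neg_ne_zero.1 h
  have h3 : (-l 4+l 3+l 5) ≠ 0 := by
    have h := BB_sub_ne hl 1 2
    rw [b12] at h
    exact neg_ne_zero.1 h
  have h4 : (l 4+l 0-l 2) ≠ 0 := by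
    have h := BB_sub_ne hl 2 1
    rw [b21] at h
    exact neg_ne_zero.1 h
  have h5 : (l 4-l 3+l 5) ≠ 0 := by
    have h := BB_sub_ne hl 2 3
    rw [b23] at h
    exact neg_ne_zero.1 h
  have h6 : (l 4+l 3+l 5) ≠ 0 := by
    have h := BB_sub_ne hl 3 0
    rw [b30] at h
    exact h
  have h7 : (l 4+l 0+l 2) ≠ 0 := by
    have h := BB_sub_ne hl 3 2
    rw [b32] at h
    exact h
  have z01 : ep 0 1 4 * (BB n 0 - sg n 1) * Kf (BB l) (sg l) 0 1 / (BB l 0 - sg l 1) =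
      (1 : ℝ) * ((-1 : ℝ) * n 3 + (-1 : ℝ) * n 4 + (1 : ℝ) * n 5) * (((-2*(l 0*l 5+l 1*l 4+l 2*l 3)) * (l 0-l 1-l 2) + (-2*(l 0*l 1*l 3+l 0*l 2*l 4+l 1*l 2*l 5+l 3*l 4*l 5))) / (l 4+l 3-l 5)) := by
    have e1 : ep 0 1 4 = (-1 : ℝ) := rfl
    have e2 : BB n 0 - sg n 1 = (-1 : ℝ) * n 3 + (-1 : ℝ) * n 4 + (1 : ℝ) * n 5 := by
      change (n 0 + n 5) - (n 0 + n 3 + n 4) = _
      ring
    have e3 : Kf (BB l) (sg l) 0 1 = ((-2*(l 0*l 5+l 1*l 4+l 2*l 3)) * (l 0-l 1-l 2) + (-2*(l 0*l 1*l 3+l 0*l 2*l 4+l 1*l 2*l 5+l 3*l 4*l 5))) := by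
      rw [SvB_Kf]
      change _ * ((l 0 + l 5) + (l 0 + l 3 + l 4) - ((l 0 + l 5) + (l 1 + l 4) + (l 2 + l 3))) + _ = _
      ring
    rw [e1, e2, e3, b01, div_neg, mul_div_assoc]
    ring
  have z03 : ep 0 3 4 * (BB n 0 - sg n 3) * Kf (BB l) (sg l) 0 3 / (BB l 0 - sg l 3) =
      (1 : ℝ) * ((1 : ℝ) * n 0 + (-1 : ℝ) * n 2 + (-1 : ℝ) * n 4) * (((-2*(l 0*l 5+l 1*l 4+l 2*l 3)) * (-l 1-l 3+l 5) + (-2*(l 0*l 1*l 3+l 0*l 2*l 4+l 1*l 2*l 5+l 3*l 4*l 5))) / (l 4-l 0+l 2)) := by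
    have e1 : ep 0 3 4 = (-1 : ℝ) := rfl
    have e2 : BB n 0 - sg n 3 = (1 : ℝ) * n 0 + (-1 : ℝ) * n 2 + (-1 : ℝ) * n 4 := by
      change (n 0 + n 5) - (n 2 + n 4 + n 5) = _
      ring
    have e3 : Kf (BB l) (sg l) 0 3 = ((-2*(l 0*l 5+l 1*l 4+l 2*l 3)) * (-l 1-l 3+l 5) + (-2*(l 0*l 1*l 3+l 0*l 2*l 4+l 1*l 2*l 5+l 3*l 4*l 5))) := by
      rw [SvB_Kf]
      change _ * ((l 0 + l 5) + (l 2 + l 4 + l 5) - ((l 0 + l 5) + (l 1 + l 4) + (l 2 + l 3))) + _ = _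
      ring
    rw [e1, e2, e3, b03, div_neg, mul_div_assoc]
    ring
  have z10 : ep 1 0 4 * (BB n 1 - sg n 0) * Kf (BB l) (sg l) 1 0 / (BB l 1 - sg l 0) =
      (-1 : ℝ) * ((-1 : ℝ) * n 0 + (-1 : ℝ) * n 2 + (1 : ℝ) * n 4) * (((-2*(l 0*l 5+l 1*l 4+l 2*l 3)) * (l 1-l 3-l 5) + (-2*(l 0*l 1*l 3+l 0*l 2*l 4+l 1*l 2*l 5+l 3*l 4*l 5))) / (-l 4+l 0+l 2)) := by
    have e1 : ep 1 0 4 = (1 : ℝ) := rfl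
    have e2 : BB n 1 - sg n 0 = (-1 : ℝ) * n 0 + (-1 : ℝ) * n 2 + (1 : ℝ) * n 4 := by
      change (n 1 + n 4) - (n 0 + n 1 + n 2) = _
      ring
    have e3 : Kf (BB l) (sg l) 1 0 = ((-2*(l 0*l 5+l 1*l 4+l 2*l 3)) * (l 1-l 3-l 5) + (-2*(l 0*l 1*l 3+l 0*l 2*l 4+l 1*l 2*l 5+l 3*l 4*l 5))) := by
      rw [SvB_Kf]
      change _ * ((l 1 + l 4) + (l 0 + l 1 + l 2) - ((l 0 + l 5) + (l 1 + l 4) + (l 2 + l 3))) + _ = _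
      ring
    rw [e1, e2, e3, b10, div_neg, mul_div_assoc]
    ring
  have z12 : ep 1 2 4 * (BB n 1 - sg n 2) * Kf (BB l) (sg l) 1 2 / (BB l 1 - sg l 2) =
      (-1 : ℝ) * ((-1 : ℝ) * n 3 + (1 : ℝ) * n 4 + (-1 : ℝ) * n 5) * (((-2*(l 0*l 5+l 1*l 4+l 2*l 3)) * (-l 0+l 1-l 2) + (-2*(l 0*l 1*l 3+l 0*l 2*l 4+l 1*l 2*l 5+l 3*l 4*l 5))) / (-l 4+l 3+l 5)) := by
    have e1 : ep 1 2 4 = (1 : ℝ) := rfl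
    have e2 : BB n 1 - sg n 2 = (-1 : ℝ) * n 3 + (1 : ℝ) * n 4 + (-1 : ℝ) * n 5 := by
      change (n 1 + n 4) - (n 1 + n 3 + n 5) = _
      ring
    have e3 : Kf (BB l) (sg l) 1 2 = ((-2*(l 0*l 5+l 1*l 4+l 2*l 3)) * (-l 0+l 1-l 2) + (-2*(l 0*l 1*l 3+l 0*l 2*l 4+l 1*l 2*l 5+l 3*l 4*l 5))) := by
      rw [SvB_Kf]
      change _ * ((l 1 + l 4) + (l 1 + l 3 + l 5) - ((l 0 + l 5) + (l 1 + l 4) + (l 2 + l 3))) + _ = _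
      ring
    rw [e1, e2, e3, b12, div_neg, mul_div_assoc]
    ring
  have z21 : ep 2 1 4 * (BB n 2 - sg n 1) * Kf (BB l) (sg l) 2 1 / (BB l 2 - sg l 1) =
      (1 : ℝ) * ((-1 : ℝ) * n 0 + (1 : ℝ) * n 2 + (-1 : ℝ) * n 4) * (((-2*(l 0*l 5+l 1*l 4+l 2*l 3)) * (-l 1+l 3-l 5) + (-2*(l 0*l 1*l 3+l 0*l 2*l 4+l 1*l 2*l 5+l 3*l 4*l 5))) / (l 4+l 0-l 2)) := by
    have e1 : ep 2 1 4 = (-1 : ℝ) := rfl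
    have e2 : BB n 2 - sg n 1 = (-1 : ℝ) * n 0 + (1 : ℝ) * n 2 + (-1 : ℝ) * n 4 := by
      change (n 2 + n 3) - (n 0 + n 3 + n 4) = _
      ring
    have e3 : Kf (BB l) (sg l) 2 1 = ((-2*(l 0*l 5+l 1*l 4+l 2*l 3)) * (-l 1+l 3-l 5) + (-2*(l 0*l 1*l 3+l 0*l 2*l 4+l 1*l 2*l 5+l 3*l 4*l 5))) := by
      rw [SvB_Kf]
      change _ * ((l 2 + l 3) + (l 0 + l 3 + l 4) - ((l 0 + l 5) + (l 1 + l 4) + (l 2 + l 3))) + _ = _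
      ring
    rw [e1, e2, e3, b21, div_neg, mul_div_assoc]
    ring
  have z23 : ep 2 3 4 * (BB n 2 - sg n 3) * Kf (BB l) (sg l) 2 3 / (BB l 2 - sg l 3) =
      (1 : ℝ) * ((1 : ℝ) * n 3 + (-1 : ℝ) * n 4 + (-1 : ℝ) * n 5) * (((-2*(l 0*l 5+l 1*l 4+l 2*l 3)) * (-l 0-l 1+l 2) + (-2*(l 0*l 1*l 3+l 0*l 2*l 4+l 1*l 2*l 5+l 3*l 4*l 5))) / (l 4-l 3+l 5)) := by
    have e1 : ep 2 3 4 = (-1 : ℝ) := rfl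
    have e2 : BB n 2 - sg n 3 = (1 : ℝ) * n 3 + (-1 : ℝ) * n 4 + (-1 : ℝ) * n 5 := by
      change (n 2 + n 3) - (n 2 + n 4 + n 5) = _
      ring
    have e3 : Kf (BB l) (sg l) 2 3 = ((-2*(l 0*l 5+l 1*l 4+l 2*l 3)) * (-l 0-l 1+l 2) + (-2*(l 0*l 1*l 3+l 0*l 2*l 4+l 1*l 2*l 5+l 3*l 4*l 5))) := by
      rw [SvB_Kf]
      change _ * ((l 2 + l 3) + (l 2 + l 4 + l 5) - ((l 0 + l 5) + (l 1 + l 4) + (l 2 + l 3))) + _ = _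
      ring
    rw [e1, e2, e3, b23, div_neg, mul_div_assoc]
    ring
  have z30 : ep 3 0 4 * (BB n 3 - sg n 0) * Kf (BB l) (sg l) 3 0 / (BB l 3 - sg l 0) =
      (1 : ℝ) * ((1 : ℝ) * n 3 + (1 : ℝ) * n 4 + (1 : ℝ) * n 5) * (((-2*(l 0*l 5+l 1*l 4+l 2*l 3)) * (l 0+l 1+l 2) + (-2*(l 0*l 1*l 3+l 0*l 2*l 4+l 1*l 2*l 5+l 3*l 4*l 5))) / (l 4+l 3+l 5)) := by
    have e1 : ep 3 0 4 = (1 : ℝ) := rfl
    have e2 : BB n 3 - sg n 0 = (1 : ℝ) * n 3 + (1 : ℝ) * n 4 + (1 : ℝ) * n 5 := by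
      change ((n 0 + n 5) + (n 1 + n 4) + (n 2 + n 3)) - (n 0 + n 1 + n 2) = _
      ring
    have e3 : Kf (BB l) (sg l) 3 0 = ((-2*(l 0*l 5+l 1*l 4+l 2*l 3)) * (l 0+l 1+l 2) + (-2*(l 0*l 1*l 3+l 0*l 2*l 4+l 1*l 2*l 5+l 3*l 4*l 5))) := by
      rw [SvB_Kf]
      change _ * (((l 0 + l 5) + (l 1 + l 4) + (l 2 + l 3)) + (l 0 + l 1 + l 2) - ((l 0 + l 5) + (l 1 + l 4) + (l 2 + l 3))) + _ = _
      ring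
    rw [e1, e2, e3, b30, mul_div_assoc]
  have z32 : ep 3 2 4 * (BB n 3 - sg n 2) * Kf (BB l) (sg l) 3 2 / (BB l 3 - sg l 2) =
      (1 : ℝ) * ((1 : ℝ) * n 0 + (1 : ℝ) * n 2 + (1 : ℝ) * n 4) * (((-2*(l 0*l 5+l 1*l 4+l 2*l 3)) * (l 1+l 3+l 5) + (-2*(l 0*l 1*l 3+l 0*l 2*l 4+l 1*l 2*l 5+l 3*l 4*l 5))) / (l 4+l 0+l 2)) := by
    have e1 : ep 3 2 4 = (1 : ℝ) := rfl
    have e2 : BB n 3 - sg n 2 = (1 : ℝ) * n 0 + (1 : ℝ) * n 2 + (1 : ℝ) * n 4 := by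
      change ((n 0 + n 5) + (n 1 + n 4) + (n 2 + n 3)) - (n 1 + n 3 + n 5) = _
      ring
    have e3 : Kf (BB l) (sg l) 3 2 = ((-2*(l 0*l 5+l 1*l 4+l 2*l 3)) * (l 1+l 3+l 5) + (-2*(l 0*l 1*l 3+l 0*l 2*l 4+l 1*l 2*l 5+l 3*l 4*l 5))) := by
      rw [SvB_Kf]
      change _ * (((l 0 + l 5) + (l 1 + l 4) + (l 2 + l 3)) + (l 1 + l 3 + l 5) - ((l 0 + l 5) + (l 1 + l 4) + (l 2 + l 3))) + _ = _
      ring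
    rw [e1, e2, e3, b32, mul_div_assoc]
  have z00 : ep 0 0 4 * (BB n 0 - sg n 0) * Kf (BB l) (sg l) 0 0 / (BB l 0 - sg l 0) =
      0 := by
    have e1 : ep 0 0 4 = (0 : ℝ) := rfl
    rw [e1, zero_mul, zero_mul, zero_div]
  have z02 : ep 0 2 4 * (BB n 0 - sg n 2) * Kf (BB l) (sg l) 0 2 / (BB l 0 - sg l 2) =
      0 := by
    have e1 : ep 0 2 4 = (0 : ℝ) := rfl
    rw [e1, zero_mul, zero_mul, zero_div]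
  have z11 : ep 1 1 4 * (BB n 1 - sg n 1) * Kf (BB l) (sg l) 1 1 / (BB l 1 - sg l 1) =
      0 := by
    have e1 : ep 1 1 4 = (0 : ℝ) := rfl
    rw [e1, zero_mul, zero_mul, zero_div]
  have z13 : ep 1 3 4 * (BB n 1 - sg n 3) * Kf (BB l) (sg l) 1 3 / (BB l 1 - sg l 3) =
      0 := by
    have e1 : ep 1 3 4 = (0 : ℝ) := rfl
    rw [e1, zero_mul, zero_mul, zero_div]
  have z20 : ep 2 0 4 * (BB n 2 - sg n 0) * Kf (BB l) (sg l) 2 0 / (BB l 2 - sg l 0) =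
      0 := by
    have e1 : ep 2 0 4 = (0 : ℝ) := rfl
    rw [e1, zero_mul, zero_mul, zero_div]
  have z22 : ep 2 2 4 * (BB n 2 - sg n 2) * Kf (BB l) (sg l) 2 2 / (BB l 2 - sg l 2) =
      0 := by
    have e1 : ep 2 2 4 = (0 : ℝ) := rfl
    rw [e1, zero_mul, zero_mul, zero_div]
  have z31 : ep 3 1 4 * (BB n 3 - sg n 1) * Kf (BB l) (sg l) 3 1 / (BB l 3 - sg l 1) =
      0 := by
    have e1 : ep 3 1 4 = (0 : ℝ) := rfl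
    rw [e1, zero_mul, zero_mul, zero_div]
  have z33 : ep 3 3 4 * (BB n 3 - sg n 3) * Kf (BB l) (sg l) 3 3 / (BB l 3 - sg l 3) =
      0 := by
    have e1 : ep 3 3 4 = (0 : ℝ) := rfl
    rw [e1, zero_mul, zero_mul, zero_div]
  have hR : Rs l n 4 = (1 / 4) * (((ep 0 0 4 * (BB n 0 - sg n 0) * Kf (BB l) (sg l) 0 0 / (BB l 0 - sg l 0)) + (ep 0 1 4 * (BB n 0 - sg n 1) * Kf (BB l) (sg l) 0 1 / (BB l 0 - sg l 1)) + (ep 0 2 4 * (BB n 0 - sg n 2) * Kf (BB l) (sg l) 0 2 / (BB l 0 - sg l 2)) + (ep 0 3 4 * (BB n 0 - sg n 3) * Kf (BB l) (sg l) 0 3 / (BB l 0 - sg l 3))) + ((ep 1 0 4 * (BB n 1 - sg n 0) * Kf (BB l) (sg l) 1 0 / (BB l 1 - sg l 0)) + (ep 1 1 4 * (BB n 1 - sg n 1) * Kf (BB l) (sg l) 1 1 / (BB l 1 - sg l 1)) + (ep 1 2 4 * (BB n 1 - sg n 2) * Kf (BB l) (sg l) 1 2 / (BB l 1 - sg l 2))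 + (ep 1 3 4 * (BB n 1 - sg n 3) * Kf (BB l) (sg l) 1 3 / (BB l 1 - sg l 3))) + ((ep 2 0 4 * (BB n 2 - sg n 0) * Kf (BB l) (sg l) 2 0 / (BB l 2 - sg l 0)) + (ep 2 1 4 * (BB n 2 - sg n 1) * Kf (BB l) (sg l) 2 1 / (BB l 2 - sg l 1)) + (ep 2 2 4 * (BB n 2 - sg n 2) * Kf (BB l) (sg l) 2 2 / (BB l 2 - sg l 2)) + (ep 2 3 4 * (BB n 2 - sg n 3) * Kf (BB l) (sg l) 2 3 / (BB l 2 - sg l 3))) + ((ep 3 0 4 * (BB n 3 - sg n 0) * Kf (BB l) (sg l) 3 0 / (BB l 3 - sg l 0)) + (ep 3 1 4 * (BB n 3 - sg n 1) * Kf (BB l) (sg l) 3 1 / (BB l 3 - sg l 1)) + (ep 3 2 4 * (BB n 3 - sg n 2) * Kf (BB l) (sg l) 3 2 / (BB l 3 - sg l 2)) + (ep 3 3 4 * (BB n 3 - sg n 3) * Kf (BB l) (sg l) 3 3 / (BB l 3 - sg l 3)))) + 2 * l 1 * hyp l n := by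
    unfold Rs
    simp only [Fin.sum_univ_four]
    rfl
  rw [z00, z01, z02, z03, z10, z11, z12, z13, z20, z21, z22, z23, z30, z31, z32, z33] at hR
  have s0 := star4_0 (l 0) (l 1) (l 2) (l 3) (l 4) (l 5) h0 h1 h2 h3 h4 h5 h6 h7
  have s1 := star4_1 (l 0) (l 1) (l 2) (l 3) (l 4) (l 5) h0 h1 h2 h3 h4 h5 h6 h7
  have s2 := star4_2 (l 0) (l 1) (l 2) (l 3) (l 4) (l 5) h0 h1 h2 h3 h4 h5 h6 h7
  have s3 := star4_3 (l 0) (l 1) (l 2) (l 3) (l 4) (l 5) h0 h1 h2 h3 h4 h5 h6 h7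
  have s4 := star4_4 (l 0) (l 1) (l 2) (l 3) (l 4) (l 5) h0 h1 h2 h3 h4 h5 h6 h7
  have s5 := star4_5 (l 0) (l 1) (l 2) (l 3) (l 4) (l 5) h0 h1 h2 h3 h4 h5 h6 h7
  have hD : ha l 4 * hb l 4 = (((l 4+l 0+l 2)*(l 4+l 0-l 2)*(l 4-l 0+l 2)*(-l 4+l 0+l 2)) * ((l 4+l 3+l 5)*(l 4+l 3-l 5)*(l 4-l 3+l 5)*(-l 4+l 3+l 5))) := rfl
  rw [hD]
  refine (SvB_comb _ _ (n 0) (n 1) (n 2) (n 3) (n 4) (n 5) _ _ _ _ _ _ _ _ _ _ _ _ ?_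
    s0 s1 s2 s3 s4 s5).trans ?_
  · have m1 : nu l 4 = Nu (l 4) (l 0) (l 3) (l 2) (l 5) (l 1) := rfl
    have m2 : dnu l n 4 = dNu (l 4) (l 0) (l 3) (l 2) (l 5) (l 1) (n 4) (n 0) (n 3) (n 2) (n 5) (n 1) := rfl
    unfold Me
    rw [m1, m2, SvB_dW]
    unfold W Wsq Nu dNu
    clear s0 s1 s2 s3 s4 s5 hR hD
    ring
  rw [hR]
  unfold hyp
  generalize ((-2*(l 0*l 5+l 1*l 4+l 2*l 3)) * (l 0-l 1-l 2) + (-2*(l 0*l 1*l 3+l 0*l 2*l 4+l 1*l 2*l 5+l 3*l 4*l 5))) / (l 4+l 3-l 5) = t0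
  generalize ((-2*(l 0*l 5+l 1*l 4+l 2*l 3)) * (-l 1-l 3+l 5) + (-2*(l 0*l 1*l 3+l 0*l 2*l 4+l 1*l 2*l 5+l 3*l 4*l 5))) / (l 4-l 0+l 2) = t1
  generalize ((-2*(l 0*l 5+l 1*l 4+l 2*l 3)) * (l 1-l 3-l 5) + (-2*(l 0*l 1*l 3+l 0*l 2*l 4+l 1*l 2*l 5+l 3*l 4*l 5))) / (-l 4+l 0+l 2) = t2
  generalize ((-2*(l 0*l 5+l 1*l 4+l 2*l 3)) * (-l 0+l 1-l 2) + (-2*(l 0*l 1*l 3+l 0*l 2*l 4+l 1*l 2*l 5+l 3*l 4*l 5))) / (-l 4+l 3+l 5) = t3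
  generalize ((-2*(l 0*l 5+l 1*l 4+l 2*l 3)) * (-l 1+l 3-l 5) + (-2*(l 0*l 1*l 3+l 0*l 2*l 4+l 1*l 2*l 5+l 3*l 4*l 5))) / (l 4+l 0-l 2) = t4
  generalize ((-2*(l 0*l 5+l 1*l 4+l 2*l 3)) * (-l 0-l 1+l 2) + (-2*(l 0*l 1*l 3+l 0*l 2*l 4+l 1*l 2*l 5+l 3*l 4*l 5))) / (l 4-l 3+l 5) = t5
  generalize ((-2*(l 0*l 5+l 1*l 4+l 2*l 3)) * (l 0+l 1+l 2) + (-2*(l 0*l 1*l 3+l 0*l 2*l 4+l 1*l 2*l 5+l 3*l 4*l 5))) / (l 4+l 3+l 5) = t6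
  generalize ((-2*(l 0*l 5+l 1*l 4+l 2*l 3)) * (l 1+l 3+l 5) + (-2*(l 0*l 1*l 3+l 0*l 2*l 4+l 1*l 2*l 5+l 3*l 4*l 5))) / (l 4+l 0+l 2) = t7
  ring

theorem star_5 {l : V6} (hl : l ∈ T) (n : V6) :
    Me l n 5 / (ha l 5 * hb l 5) = Rs l n 5 := by
  have b00 : BB l 0 - sg l 0 = -(-l 5+l 1+l 2) := by
    change (l 0 + l 5) - (l 0 + l 1 + l 2) = _
    ring
  have b01 : BB l 0 - sg l 1 = -(-l 5+l 3+l 4) := by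
    change (l 0 + l 5) - (l 0 + l 3 + l 4) = _
    ring
  have b12 : BB l 1 - sg l 2 = -(l 5+l 3-l 4) := by
    change (l 1 + l 4) - (l 1 + l 3 + l 5) = _
    ring
  have b13 : BB l 1 - sg l 3 = -(l 5-l 1+l 2) := by
    change (l 1 + l 4) - (l 2 + l 4 + l 5) = _
    ring
  have b22 : BB l 2 - sg l 2 = -(l 5+l 1-l 2) := by
    change (l 2 + l 3) - (l 1 + l 3 + l 5) = _
    ring
  have b23 : BB l 2 - sg l 3 = -(l 5-l 3+l 4) := by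
    change (l 2 + l 3) - (l 2 + l 4 + l 5) = _
    ring
  have b30 : BB l 3 - sg l 0 = (l 5+l 3+l 4) := by
    change ((l 0 + l 5) + (l 1 + l 4) + (l 2 + l 3)) - (l 0 + l 1 + l 2) = _
    ring
  have b31 : BB l 3 - sg l 1 = (l 5+l 1+l 2) := by
    change ((l 0 + l 5) + (l 1 + l 4) + (l 2 + l 3)) - (l 0 + l 3 + l 4) = _
    ring
  have h0 : (-l 5+l 1+l 2) ≠ 0 := by
    have h := BB_sub_ne hl 0 0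
    rw [b00] at h
    exact neg_ne_zero.1 h
  have h1 : (-l 5+l 3+l 4) ≠ 0 := by
    have h := BB_sub_ne hl 0 1
    rw [b01] at h
    exact neg_ne_zero.1 h
  have h2 : (l 5+l 3-l 4) ≠ 0 := by
    have h := BB_sub_ne hl 1 2
    rw [b12] at h
    exact neg_ne_zero.1 h
  have h3 : (l 5-l 1+l 2) ≠ 0 := by
    have h := BB_sub_ne hl 1 3
    rw [b13] at h
    exact neg_ne_zero.1 h
  have h4 : (l 5+l 1-l 2) ≠ 0 := by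
    have h := BB_sub_ne hl 2 2
    rw [b22] at h
    exact neg_ne_zero.1 h
  have h5 : (l 5-l 3+l 4) ≠ 0 := by
    have h := BB_sub_ne hl 2 3
    rw [b23] at h
    exact neg_ne_zero.1 h
  have h6 : (l 5+l 3+l 4) ≠ 0 := by
    have h := BB_sub_ne hl 3 0
    rw [b30] at h
    exact h
  have h7 : (l 5+l 1+l 2) ≠ 0 := by
    have h := BB_sub_ne hl 3 1
    rw [b31] at h
    exact h
  have z00 : ep 0 0 5 * (BB n 0 - sg n 0) * Kf (BB l) (sg l) 0 0 / (BB l 0 - sg l 0) =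
      (-1 : ℝ) * ((-1 : ℝ) * n 1 + (-1 : ℝ) * n 2 + (1 : ℝ) * n 5) * (((-2*(l 0*l 5+l 1*l 4+l 2*l 3)) * (l 0-l 3-l 4) + (-2*(l 0*l 1*l 3+l 0*l 2*l 4+l 1*l 2*l 5+l 3*l 4*l 5))) / (-l 5+l 1+l 2)) := by
    have e1 : ep 0 0 5 = (1 : ℝ) := rfl
    have e2 : BB n 0 - sg n 0 = (-1 : ℝ) * n 1 + (-1 : ℝ) * n 2 + (1 : ℝ) * n 5 := by
      change (n 0 + n 5) - (n 0 + n 1 + n 2) = _
      ring
    have e3 : Kf (BB l) (sg l) 0 0 = ((-2*(l 0*l 5+l 1*l 4+l 2*l 3)) * (l 0-l 3-l 4) + (-2*(l 0*l 1*l 3+l 0*l 2*l 4+l 1*l 2*l 5+l 3*l 4*l 5))) := by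
      rw [SvB_Kf]
      change _ * ((l 0 + l 5) + (l 0 + l 1 + l 2) - ((l 0 + l 5) + (l 1 + l 4) + (l 2 + l 3))) + _ = _
      ring
    rw [e1, e2, e3, b00, div_neg, mul_div_assoc]
    ring
  have z01 : ep 0 1 5 * (BB n 0 - sg n 1) * Kf (BB l) (sg l) 0 1 / (BB l 0 - sg l 1) =
      (-1 : ℝ) * ((-1 : ℝ) * n 3 + (-1 : ℝ) * n 4 + (1 : ℝ) * n 5) * (((-2*(l 0*l 5+l 1*l 4+l 2*l 3)) * (l 0-l 1-l 2) + (-2*(l 0*l 1*l 3+l 0*l 2*l 4+l 1*l 2*l 5+l 3*l 4*l 5))) / (-l 5+l 3+l 4)) := by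
    have e1 : ep 0 1 5 = (1 : ℝ) := rfl
    have e2 : BB n 0 - sg n 1 = (-1 : ℝ) * n 3 + (-1 : ℝ) * n 4 + (1 : ℝ) * n 5 := by
      change (n 0 + n 5) - (n 0 + n 3 + n 4) = _
      ring
    have e3 : Kf (BB l) (sg l) 0 1 = ((-2*(l 0*l 5+l 1*l 4+l 2*l 3)) * (l 0-l 1-l 2) + (-2*(l 0*l 1*l 3+l 0*l 2*l 4+l 1*l 2*l 5+l 3*l 4*l 5))) := by
      rw [SvB_Kf]
      change _ * ((l 0 + l 5) + (l 0 + l 3 + l 4) - ((l 0 + l 5) + (l 1 + l 4) + (l 2 + l 3))) + _ = _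
      ring
    rw [e1, e2, e3, b01, div_neg, mul_div_assoc]
    ring
  have z12 : ep 1 2 5 * (BB n 1 - sg n 2) * Kf (BB l) (sg l) 1 2 / (BB l 1 - sg l 2) =
      (1 : ℝ) * ((-1 : ℝ) * n 3 + (1 : ℝ) * n 4 + (-1 : ℝ) * n 5) * (((-2*(l 0*l 5+l 1*l 4+l 2*l 3)) * (-l 0+l 1-l 2) + (-2*(l 0*l 1*l 3+l 0*l 2*l 4+l 1*l 2*l 5+l 3*l 4*l 5))) / (l 5+l 3-l 4)) := by
    have e1 : ep 1 2 5 = (-1 : ℝ) := rfl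
    have e2 : BB n 1 - sg n 2 = (-1 : ℝ) * n 3 + (1 : ℝ) * n 4 + (-1 : ℝ) * n 5 := by
      change (n 1 + n 4) - (n 1 + n 3 + n 5) = _
      ring
    have e3 : Kf (BB l) (sg l) 1 2 = ((-2*(l 0*l 5+l 1*l 4+l 2*l 3)) * (-l 0+l 1-l 2) + (-2*(l 0*l 1*l 3+l 0*l 2*l 4+l 1*l 2*l 5+l 3*l 4*l 5))) := by
      rw [SvB_Kf]
      change _ * ((l 1 + l 4) + (l 1 + l 3 + l 5) - ((l 0 + l 5) + (l 1 + l 4) + (l 2 + l 3))) + _ = _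
      ring
    rw [e1, e2, e3, b12, div_neg, mul_div_assoc]
    ring
  have z13 : ep 1 3 5 * (BB n 1 - sg n 3) * Kf (BB l) (sg l) 1 3 / (BB l 1 - sg l 3) =
      (1 : ℝ) * ((1 : ℝ) * n 1 + (-1 : ℝ) * n 2 + (-1 : ℝ) * n 5) * (((-2*(l 0*l 5+l 1*l 4+l 2*l 3)) * (-l 0-l 3+l 4) + (-2*(l 0*l 1*l 3+l 0*l 2*l 4+l 1*l 2*l 5+l 3*l 4*l 5))) / (l 5-l 1+l 2)) := by
    have e1 : ep 1 3 5 = (-1 : ℝ) := rfl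
    have e2 : BB n 1 - sg n 3 = (1 : ℝ) * n 1 + (-1 : ℝ) * n 2 + (-1 : ℝ) * n 5 := by
      change (n 1 + n 4) - (n 2 + n 4 + n 5) = _
      ring
    have e3 : Kf (BB l) (sg l) 1 3 = ((-2*(l 0*l 5+l 1*l 4+l 2*l 3)) * (-l 0-l 3+l 4) + (-2*(l 0*l 1*l 3+l 0*l 2*l 4+l 1*l 2*l 5+l 3*l 4*l 5))) := by
      rw [SvB_Kf]
      change _ * ((l 1 + l 4) + (l 2 + l 4 + l 5) - ((l 0 + l 5) + (l 1 + l 4) + (l 2 + l 3))) + _ = _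
      ring
    rw [e1, e2, e3, b13, div_neg, mul_div_assoc]
    ring
  have z22 : ep 2 2 5 * (BB n 2 - sg n 2) * Kf (BB l) (sg l) 2 2 / (BB l 2 - sg l 2) =
      (1 : ℝ) * ((-1 : ℝ) * n 1 + (1 : ℝ) * n 2 + (-1 : ℝ) * n 5) * (((-2*(l 0*l 5+l 1*l 4+l 2*l 3)) * (-l 0+l 3-l 4) + (-2*(l 0*l 1*l 3+l 0*l 2*l 4+l 1*l 2*l 5+l 3*l 4*l 5))) / (l 5+l 1-l 2)) := by
    have e1 : ep 2 2 5 = (-1 : ℝ) := rfl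
    have e2 : BB n 2 - sg n 2 = (-1 : ℝ) * n 1 + (1 : ℝ) * n 2 + (-1 : ℝ) * n 5 := by
      change (n 2 + n 3) - (n 1 + n 3 + n 5) = _
      ring
    have e3 : Kf (BB l) (sg l) 2 2 = ((-2*(l 0*l 5+l 1*l 4+l 2*l 3)) * (-l 0+l 3-l 4) + (-2*(l 0*l 1*l 3+l 0*l 2*l 4+l 1*l 2*l 5+l 3*l 4*l 5))) := by
      rw [SvB_Kf]
      change _ * ((l 2 + l 3) + (l 1 + l 3 + l 5) - ((l 0 + l 5) + (l 1 + l 4) + (l 2 + l 3))) + _ = _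
      ring
    rw [e1, e2, e3, b22, div_neg, mul_div_assoc]
    ring
  have z23 : ep 2 3 5 * (BB n 2 - sg n 3) * Kf (BB l) (sg l) 2 3 / (BB l 2 - sg l 3) =
      (1 : ℝ) * ((1 : ℝ) * n 3 + (-1 : ℝ) * n 4 + (-1 : ℝ) * n 5) * (((-2*(l 0*l 5+l 1*l 4+l 2*l 3)) * (-l 0-l 1+l 2) + (-2*(l 0*l 1*l 3+l 0*l 2*l 4+l 1*l 2*l 5+l 3*l 4*l 5))) / (l 5-l 3+l 4)) := by
    have e1 : ep 2 3 5 = (-1 : ℝ) := rfl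
    have e2 : BB n 2 - sg n 3 = (1 : ℝ) * n 3 + (-1 : ℝ) * n 4 + (-1 : ℝ) * n 5 := by
      change (n 2 + n 3) - (n 2 + n 4 + n 5) = _
      ring
    have e3 : Kf (BB l) (sg l) 2 3 = ((-2*(l 0*l 5+l 1*l 4+l 2*l 3)) * (-l 0-l 1+l 2) + (-2*(l 0*l 1*l 3+l 0*l 2*l 4+l 1*l 2*l 5+l 3*l 4*l 5))) := by
      rw [SvB_Kf]
      change _ * ((l 2 + l 3) + (l 2 + l 4 + l 5) - ((l 0 + l 5) + (l 1 + l 4) + (l 2 + l 3))) + _ = _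
      ring
    rw [e1, e2, e3, b23, div_neg, mul_div_assoc]
    ring
  have z30 : ep 3 0 5 * (BB n 3 - sg n 0) * Kf (BB l) (sg l) 3 0 / (BB l 3 - sg l 0) =
      (1 : ℝ) * ((1 : ℝ) * n 3 + (1 : ℝ) * n 4 + (1 : ℝ) * n 5) * (((-2*(l 0*l 5+l 1*l 4+l 2*l 3)) * (l 0+l 1+l 2) + (-2*(l 0*l 1*l 3+l 0*l 2*l 4+l 1*l 2*l 5+l 3*l 4*l 5))) / (l 5+l 3+l 4)) := by
    have e1 : ep 3 0 5 = (1 : ℝ) := rfl
    have e2 : BB n 3 - sg n 0 = (1 : ℝ) * n 3 + (1 : ℝ) * n 4 + (1 : ℝ) * n 5 := by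
      change ((n 0 + n 5) + (n 1 + n 4) + (n 2 + n 3)) - (n 0 + n 1 + n 2) = _
      ring
    have e3 : Kf (BB l) (sg l) 3 0 = ((-2*(l 0*l 5+l 1*l 4+l 2*l 3)) * (l 0+l 1+l 2) + (-2*(l 0*l 1*l 3+l 0*l 2*l 4+l 1*l 2*l 5+l 3*l 4*l 5))) := by
      rw [SvB_Kf]
      change _ * (((l 0 + l 5) + (l 1 + l 4) + (l 2 + l 3)) + (l 0 + l 1 + l 2) - ((l 0 + l 5) + (l 1 + l 4) + (l 2 + l 3))) + _ = _
      ring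
    rw [e1, e2, e3, b30, mul_div_assoc]
  have z31 : ep 3 1 5 * (BB n 3 - sg n 1) * Kf (BB l) (sg l) 3 1 / (BB l 3 - sg l 1) =
      (1 : ℝ) * ((1 : ℝ) * n 1 + (1 : ℝ) * n 2 + (1 : ℝ) * n 5) * (((-2*(l 0*l 5+l 1*l 4+l 2*l 3)) * (l 0+l 3+l 4) + (-2*(l 0*l 1*l 3+l 0*l 2*l 4+l 1*l 2*l 5+l 3*l 4*l 5))) / (l 5+l 1+l 2)) := by
    have e1 : ep 3 1 5 = (1 : ℝ) := rfl
    have e2 : BB n 3 - sg n 1 = (1 : ℝ) * n 1 + (1 : ℝ) * n 2 + (1 : ℝ) * n 5 := by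
      change ((n 0 + n 5) + (n 1 + n 4) + (n 2 + n 3)) - (n 0 + n 3 + n 4) = _
      ring
    have e3 : Kf (BB l) (sg l) 3 1 = ((-2*(l 0*l 5+l 1*l 4+l 2*l 3)) * (l 0+l 3+l 4) + (-2*(l 0*l 1*l 3+l 0*l 2*l 4+l 1*l 2*l 5+l 3*l 4*l 5))) := by
      rw [SvB_Kf]
      change _ * (((l 0 + l 5) + (l 1 + l 4) + (l 2 + l 3)) + (l 0 + l 3 + l 4) - ((l 0 + l 5) + (l 1 + l 4) + (l 2 + l 3))) + _ = _
      ring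
    rw [e1, e2, e3, b31, mul_div_assoc]
  have z02 : ep 0 2 5 * (BB n 0 - sg n 2) * Kf (BB l) (sg l) 0 2 / (BB l 0 - sg l 2) =
      0 := by
    have e1 : ep 0 2 5 = (0 : ℝ) := rfl
    rw [e1, zero_mul, zero_mul, zero_div]
  have z03 : ep 0 3 5 * (BB n 0 - sg n 3) * Kf (BB l) (sg l) 0 3 / (BB l 0 - sg l 3) =
      0 := by
    have e1 : ep 0 3 5 = (0 : ℝ) := rfl
    rw [e1, zero_mul, zero_mul, zero_div]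
  have z10 : ep 1 0 5 * (BB n 1 - sg n 0) * Kf (BB l) (sg l) 1 0 / (BB l 1 - sg l 0) =
      0 := by
    have e1 : ep 1 0 5 = (0 : ℝ) := rfl
    rw [e1, zero_mul, zero_mul, zero_div]
  have z11 : ep 1 1 5 * (BB n 1 - sg n 1) * Kf (BB l) (sg l) 1 1 / (BB l 1 - sg l 1) =
      0 := by
    have e1 : ep 1 1 5 = (0 : ℝ) := rfl
    rw [e1, zero_mul, zero_mul, zero_div]
  have z20 : ep 2 0 5 * (BB n 2 - sg n 0) * Kf (BB l) (sg l) 2 0 / (BB l 2 - sg l 0) =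
      0 := by
    have e1 : ep 2 0 5 = (0 : ℝ) := rfl
    rw [e1, zero_mul, zero_mul, zero_div]
  have z21 : ep 2 1 5 * (BB n 2 - sg n 1) * Kf (BB l) (sg l) 2 1 / (BB l 2 - sg l 1) =
      0 := by
    have e1 : ep 2 1 5 = (0 : ℝ) := rfl
    rw [e1, zero_mul, zero_mul, zero_div]
  have z32 : ep 3 2 5 * (BB n 3 - sg n 2) * Kf (BB l) (sg l) 3 2 / (BB l 3 - sg l 2) =
      0 := by
    have e1 : ep 3 2 5 = (0 : ℝ) := rfl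
    rw [e1, zero_mul, zero_mul, zero_div]
  have z33 : ep 3 3 5 * (BB n 3 - sg n 3) * Kf (BB l) (sg l) 3 3 / (BB l 3 - sg l 3) =
      0 := by
    have e1 : ep 3 3 5 = (0 : ℝ) := rfl
    rw [e1, zero_mul, zero_mul, zero_div]
  have hR : Rs l n 5 = (1 / 4) * (((ep 0 0 5 * (BB n 0 - sg n 0) * Kf (BB l) (sg l) 0 0 / (BB l 0 - sg l 0)) + (ep 0 1 5 * (BB n 0 - sg n 1) * Kf (BB l) (sg l) 0 1 / (BB l 0 - sg l 1)) + (ep 0 2 5 * (BB n 0 - sg n 2) * Kf (BB l) (sg l) 0 2 / (BB l 0 - sg l 2)) + (ep 0 3 5 * (BB n 0 - sg n 3) * Kf (BB l) (sg l) 0 3 / (BB l 0 - sg l 3))) + ((ep 1 0 5 * (BB n 1 - sg n 0) * Kf (BB l) (sg l) 1 0 / (BB l 1 - sg l 0)) + (ep 1 1 5 * (BB n 1 - sg n 1) * Kf (BB l) (sg l) 1 1 / (BB l 1 - sg l 1)) + (ep 1 2 5 * (BB n 1 - sg n 2) * Kf (BB l) (sg l) 1 2 / (BB l 1 - sg l 2))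 + (ep 1 3 5 * (BB n 1 - sg n 3) * Kf (BB l) (sg l) 1 3 / (BB l 1 - sg l 3))) + ((ep 2 0 5 * (BB n 2 - sg n 0) * Kf (BB l) (sg l) 2 0 / (BB l 2 - sg l 0)) + (ep 2 1 5 * (BB n 2 - sg n 1) * Kf (BB l) (sg l) 2 1 / (BB l 2 - sg l 1)) + (ep 2 2 5 * (BB n 2 - sg n 2) * Kf (BB l) (sg l) 2 2 / (BB l 2 - sg l 2)) + (ep 2 3 5 * (BB n 2 - sg n 3) * Kf (BB l) (sg l) 2 3 / (BB l 2 - sg l 3))) + ((ep 3 0 5 * (BB n 3 - sg n 0) * Kf (BB l) (sg l) 3 0 / (BB l 3 - sg l 0)) + (ep 3 1 5 * (BB n 3 - sg n 1) * Kf (BB l) (sg l) 3 1 / (BB l 3 - sg l 1)) + (ep 3 2 5 * (BB n 3 - sg n 2) * Kf (BB l) (sg l) 3 2 / (BB l 3 - sg l 2)) + (ep 3 3 5 * (BB n 3 - sg n 3) * Kf (BB l) (sg l) 3 3 / (BB l 3 - sg l 3)))) + 2 * l 0 * hyp l n := by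
    unfold Rs
    simp only [Fin.sum_univ_four]
    rfl
  rw [z00, z01, z02, z03, z10, z11, z12, z13, z20, z21, z22, z23, z30, z31, z32, z33] at hR
  have s0 := star5_0 (l 0) (l 1) (l 2) (l 3) (l 4) (l 5) h0 h1 h2 h3 h4 h5 h6 h7
  have s1 := star5_1 (l 0) (l 1) (l 2) (l 3) (l 4) (l 5) h0 h1 h2 h3 h4 h5 h6 h7
  have s2 := star5_2 (l 0) (l 1) (l 2) (l 3) (l 4) (l 5) h0 h1 h2 h3 h4 h5 h6 h7
  have s3 := star5_3 (l 0) (l 1) (l 2) (l 3) (l 4) (l 5) h0 h1 h2 h3 h4 h5 h6 h7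
  have s4 := star5_4 (l 0) (l 1) (l 2) (l 3) (l 4) (l 5) h0 h1 h2 h3 h4 h5 h6 h7
  have s5 := star5_5 (l 0) (l 1) (l 2) (l 3) (l 4) (l 5) h0 h1 h2 h3 h4 h5 h6 h7
  have hD : ha l 5 * hb l 5 = (((l 5+l 1+l 2)*(l 5+l 1-l 2)*(l 5-l 1+l 2)*(-l 5+l 1+l 2)) * ((l 5+l 3+l 4)*(l 5+l 3-l 4)*(l 5-l 3+l 4)*(-l 5+l 3+l 4))) := rfl
  rw [hD]
  refine (SvB_comb _ _ (n 0) (n 1) (n 2) (n 3) (n 4) (n 5) _ _ _ _ _ _ _ _ _ _ _ _ ?_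
    s0 s1 s2 s3 s4 s5).trans ?_
  · have m1 : nu l 5 = Nu (l 5) (l 1) (l 3) (l 2) (l 4) (l 0) := rfl
    have m2 : dnu l n 5 = dNu (l 5) (l 1) (l 3) (l 2) (l 4) (l 0) (n 5) (n 1) (n 3) (n 2) (n 4) (n 0) := rfl
    unfold Me
    rw [m1, m2, SvB_dW]
    unfold W Wsq Nu dNu
    clear s0 s1 s2 s3 s4 s5 hR hD
    ring
  rw [hR]
  unfold hyp
  generalize ((-2*(l 0*l 5+l 1*l 4+l 2*l 3)) * (l 0-l 3-l 4) + (-2*(l 0*l 1*l 3+l 0*l 2*l 4+l 1*l 2*l 5+l 3*l 4*l 5))) / (-l 5+l 1+l 2) = t0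
  generalize ((-2*(l 0*l 5+l 1*l 4+l 2*l 3)) * (l 0-l 1-l 2) + (-2*(l 0*l 1*l 3+l 0*l 2*l 4+l 1*l 2*l 5+l 3*l 4*l 5))) / (-l 5+l 3+l 4) = t1
  generalize ((-2*(l 0*l 5+l 1*l 4+l 2*l 3)) * (-l 0+l 1-l 2) + (-2*(l 0*l 1*l 3+l 0*l 2*l 4+l 1*l 2*l 5+l 3*l 4*l 5))) / (l 5+l 3-l 4) = t2
  generalize ((-2*(l 0*l 5+l 1*l 4+l 2*l 3)) * (-l 0-l 3+l 4) + (-2*(l 0*l 1*l 3+l 0*l 2*l 4+l 1*l 2*l 5+l 3*l 4*l 5))) / (l 5-l 1+l 2) = t3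
  generalize ((-2*(l 0*l 5+l 1*l 4+l 2*l 3)) * (-l 0+l 3-l 4) + (-2*(l 0*l 1*l 3+l 0*l 2*l 4+l 1*l 2*l 5+l 3*l 4*l 5))) / (l 5+l 1-l 2) = t4
  generalize ((-2*(l 0*l 5+l 1*l 4+l 2*l 3)) * (-l 0-l 1+l 2) + (-2*(l 0*l 1*l 3+l 0*l 2*l 4+l 1*l 2*l 5+l 3*l 4*l 5))) / (l 5-l 3+l 4) = t5
  generalize ((-2*(l 0*l 5+l 1*l 4+l 2*l 3)) * (l 0+l 1+l 2) + (-2*(l 0*l 1*l 3+l 0*l 2*l 4+l 1*l 2*l 5+l 3*l 4*l 5))) / (l 5+l 3+l 4) = t6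
  generalize ((-2*(l 0*l 5+l 1*l 4+l 2*l 3)) * (l 0+l 3+l 4) + (-2*(l 0*l 1*l 3+l 0*l 2*l 4+l 1*l 2*l 5+l 3*l 4*l 5))) / (l 5+l 1+l 2) = t7
  ring

end Pool.Agent.helper37.NL
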