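import Pool.Agent.helper37.NL.SvA
import Pool.Agent.helper37.NL.SvB

/-!
NL-05 (FFd).  The second variation form.

PROOF of `FF_deriv`.  `dotp n (ang (l + τ n)) = ∑_e n_e ang_e(l + τ n)`, so by `hasDerivAt_ang` the
derivative at `0` is `∑_e n_e Me l n e / (√W (ha hb))`, which by the star identities (`star_0, ...,
star_5`) is `(1 / √W) ∑_e n_e Rs l n e`.  By `ep_sum`
`∑_e n_e Rs l n e = (1/4) ∑_{i,v} (BB n i - sg n v)² Kf / (BB l i - sg l v) + 2 (hyp l n)²`
(because also `∑_e n_e l (op e) = hyp l n`), and `dl (BB l) (sg l) (BB n) (sg n) = -2 hyp l n`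
(`dl_eq`, `ring`), so this is `FF / 4`.
-/

namespace Pool.Agent.helper37.NL

open Real Pool.Agent.helper37.NP Pool.Agent.Helper93.Tet

theorem dl_eq (l n : V6) : dl (BB l) (sg l) (BB n) (sg n) = -2 * hyp l n := by
  simp only [dl, BB, sg, Q, hyp, Matrix.cons_val]
  ring

private theorem FFd_sum (l n : V6) :
    n 0 * Rs l n 0 + n 1 * Rs l n 1 + n 2 * Rs l n 2 + n 3 * Rs l n 3 + n 4 * Rs l n 4
      + n 5 * Rs l n 5 = FF (BB l) (sg l) (BB n) (sg n) / 4 := by
  have hop : ∀ e : Fin 6, Rs l n e = (1 / 4) * (∑ i, ∑ v,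
      ep i v e * ((BB n i - sg n v) * Kf (BB l) (sg l) i v / (BB l i - sg l v)))
        + 2 * l (op e) * hyp l n := by
    intro e
    unfold Rs
    congr 2
    refine Finset.sum_congr rfl fun i _ => Finset.sum_congr rfl fun v _ => ?_
    ring
  have hFF : FF (BB l) (sg l) (BB n) (sg n) = (∑ i, ∑ v,
      (n 0 * ep i v 0 + n 1 * ep i v 1 + n 2 * ep i v 2 + n 3 * ep i v 3 + n 4 * ep i v 4
        + n 5 * ep i v 5) *
        ((BB n i - sg n v) * Kf (BB l) (sg l) i v / (BB l i - sg l v))) + 8 * hyp l n ^ 2 := by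
    unfold FF
    rw [dl_eq]
    have : (2 : ℝ) * (-2 * hyp l n) ^ 2 = 8 * hyp l n ^ 2 := by ring
    rw [this]
    congr 1
    refine Finset.sum_congr rfl fun i _ => Finset.sum_congr rfl fun v _ => ?_
    rw [ep_sum]
    ring
  have hs : (∑ i, ∑ v,
      (n 0 * ep i v 0 + n 1 * ep i v 1 + n 2 * ep i v 2 + n 3 * ep i v 3 + n 4 * ep i v 4
        + n 5 * ep i v 5) *
        ((BB n i - sg n v) * Kf (BB l) (sg l) i v / (BB l i - sg l v)))
      = n 0 * (∑ i, ∑ v, ep i v 0 * ((BB n i - sg n v) * Kf (BB l) (sg l) i v / (BB l i - sg l v)))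
      + n 1 * (∑ i, ∑ v, ep i v 1 * ((BB n i - sg n v) * Kf (BB l) (sg l) i v / (BB l i - sg l v)))
      + n 2 * (∑ i, ∑ v, ep i v 2 * ((BB n i - sg n v) * Kf (BB l) (sg l) i v / (BB l i - sg l v)))
      + n 3 * (∑ i, ∑ v, ep i v 3 * ((BB n i - sg n v) * Kf (BB l) (sg l) i v / (BB l i - sg l v)))
      + n 4 * (∑ i, ∑ v, ep i v 4 * ((BB n i - sg n v) * Kf (BB l) (sg l) i v / (BB l i - sg l v)))
      + n 5 * (∑ i, ∑ v, ep i v 5 *
          ((BB n i - sg n v) * Kf (BB l) (sg l) i v / (BB l i - sg l v))) := by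
    simp only [Finset.mul_sum, ← Finset.sum_add_distrib]
    refine Finset.sum_congr rfl fun i _ => Finset.sum_congr rfl fun v _ => ?_
    ring
  rw [hFF, hs]
  simp only [hop]
  have h0 : l (op 0) = l 5 := rfl
  have h1 : l (op 1) = l 4 := rfl
  have h2 : l (op 2) = l 3 := rfl
  have h3 : l (op 3) = l 2 := rfl
  have h4 : l (op 4) = l 1 := rfl
  have h5 : l (op 5) = l 0 := rfl
  rw [h0, h1, h2, h3, h4, h5]
  have hh : hyp l n =
    n 0 * l 5 + n 1 * l 4 + n 2 * l 3 + n 3 * l 2 + n 4 * l 1 + n 5 * l 0 := rfl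
  linear_combination (-2 * hyp l n) * hh

theorem FF_deriv {l : V6} (hl : l ∈ T) (n : V6) :
    HasDerivAt (fun τ : ℝ => dotp n (ang (l + τ • n)))
      (FF (BB l) (sg l) (BB n) (sg n) / (4 * Real.sqrt (W l))) 0 := by
  have hA : ∀ e : Fin 6, HasDerivAt (fun τ : ℝ => ang (l + τ • n) e)
      (Rs l n e / Real.sqrt (W l)) 0 := by
    intro e
    have h := hasDerivAt_ang hl n e
    refine h.congr_deriv ?_
    have hR : Me l n e / (ha l e * hb l e) = Rs l n e := by
      fin_cases e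
      · exact star_0 hl n
      · exact star_1 hl n
      · exact star_2 hl n
      · exact star_3 hl n
      · exact star_4 hl n
      · exact star_5 hl n
    rw [← hR, div_div, mul_comm (Real.sqrt (W l))]
  have h := ((((((hA 0).const_mul (n 0)).add ((hA 1).const_mul (n 1))).add
    ((hA 2).const_mul (n 2))).add ((hA 3).const_mul (n 3))).add
    ((hA 4).const_mul (n 4))).add ((hA 5).const_mul (n 5))
  refine HasDerivAt.congr_deriv h ?_
  have hs := FFd_sum l n
  have hW : Real.sqrt (W l) ≠ 0 := (Real.sqrt_pos.2 hl.2).ne'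
  rw [← div_div, ← hs]
  field_simp

end Pool.Agent.helper37.NL
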