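import Pool.Agent.helper37.NL.FFd
import Pool.Agent.helper37.NP.ZFd

/-!
NL-06 (FFz).  On a flat plane the second variation form vanishes.

PROOF.  Let `u ∈ S` lie in the sector, `n ∈ S`.  For small `τ` also `u + τ n` is in `S` and in the sector
(finitely many strict inequalities between continuous functions), so `dotp n (ang (u + τ n)) = c n` by
`h.reg`: the function of `FF_deriv` is constant near `0`, its derivative is `0`
(`HasDerivAt.unique` with the derivative of an eventually constant function), and `√W > 0` because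
`u ∈ T`.
-/

namespace Pool.Agent.helper37.NL

open Real Pool.Agent.helper37.NP Pool.Agent.Helper93.Tet

private theorem ffz_Q (u n : V6) (τ : ℝ) (j : Fin 3) :
    Q (u + τ • n) j = Q u j + τ * Q n j := by
  fin_cases j <;> simp [Q] <;> ring

theorem FF_zero {S : Submodule ℝ V6} {c : V6 →ₗ[ℝ] ℝ} (h : FS S c) {u n : V6} (hu : u ∈ S)
    (hu' : ∀ j, Q u j < c u / π) (hn : n ∈ S) : FF (BB u) (sg u) (BB n) (sg n) = 0 := by
  have hT : u ∈ T := (h.reg u hu hu').1
  have hd := FF_deriv hT n
  have hev : ∀ᶠ τ : ℝ in nhds 0, ∀ j, Q (u + τ • n) j < c (u + τ • n) / π := by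
    rw [Filter.eventually_all]
    intro j
    have h1 : ContinuousAt (fun τ : ℝ => Q u j + τ * Q n j) 0 := by fun_prop
    have h2 : ContinuousAt (fun τ : ℝ => (c u + τ * c n) / π) 0 := by fun_prop
    have h3 : Q u j + (0 : ℝ) * Q n j < (c u + 0 * c n) / π := by
      simpa using hu' j
    filter_upwards [h1.eventually_lt h2 h3] with τ hτ
    rw [ffz_Q, map_add, map_smul, smul_eq_mul]
    exact hτ
  have hconst : (fun τ : ℝ => dotp n (ang (u + τ • n))) =ᶠ[nhds 0] fun _ => c n := by
    filter_upwards [hev] with τ hτ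
    exact (h.reg (u + τ • n) (S.add_mem hu (S.smul_mem τ hn)) hτ).2 n hn
  have hd0 : HasDerivAt (fun τ : ℝ => dotp n (ang (u + τ • n))) 0 0 :=
    (hasDerivAt_const (0 : ℝ) (c n)).congr_of_eventuallyEq hconst
  have h0 := hd.unique hd0
  have hW : 0 < Real.sqrt (W u) := Real.sqrt_pos.mpr hT.2
  rcases div_eq_zero_iff.mp h0 with h1 | h1
  · exact h1
  · exfalso
    linarith

end Pool.Agent.helper37.NL
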