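import Pool.Agent.helper37.NL.Kfl

/-!
NL-09 (Fcl).  The first class.  At the smallest `m > 0` for which the point `s = m` has a coincidence,
the weights balance.

SETTING.  `h : PC Bx By Rx Ry`.  Put `m = min` of the five positive numbers `Rx v / (1 + Ry v)`
(`v = 0, 1, 2`) and `-Bx k / (1 - By k)` (`k = 1, 2`) (denominators `≥ 1`, numerators positive).  So
`m (1 + Ry v) ≤ Rx v`, `m (1 - By k) ≤ -Bx k`, and at least one of the five is an equality.

PROOF.  Look at `s = m`: `B = Bx - m By`, `R = Rx - m Ry`, `e1 B = e1 R`.  Then `B 0 = m`, `R 3 = -m`,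
`R v ≥ m` for `v = 0, 1, 2` with equality iff `Rx v = m (1 + Ry v)`; `B k ≤ -m` for `k = 1, 2` with
equality iff `-Bx k = m (1 - By k)`; and `B 3 = R 0 + R 1 + R 2 + R 3 - B 0 - B 1 - B 2
= (R 0 + R 1 + R 2) - 2 m - B 1 - B 2`, so for `v ≠ 3`:
`B 3 - R v = (sum of the other two R) - 2 m - B 1 - B 2 ≥ 2m - 2m + 2m > 0`, and `B 3 > R 3`.
So the coincidences `B i = R v` are exactly: `(0, v)` with `v ≠ 3` in the class and `(k, 3)` with
`k ∈ {1, 2}` in the class (`0 ≠ 3`: `m ≠ -m`; `(k, v)`: `B k ≤ -m < m ≤ R v`).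

Signs.  For a coincidence `(0, v)` (`Kf_prod`):
`∏_{k≠0} (B 0 - B k) = (m - B 1)(m - B 2)(m - B 3) < 0` (two factors `≥ 2m`, and `B 3 > R v = m`), and
`∏_{u≠v} (R v - R u) = (m - R u)(m - R u')(2 m) ≥ 0`; so `Kf 0 v < 0`.
For `(k, 3)`: `∏_{j≠k} (B k - B j) = (-2m)(-m - B k')(-m - B 3) ≥ 0` (`-m - B k' ≥ 0`, `-m - B 3 < 0`)
and `∏_{u≠3} (R 3 - R u) = -∏ (m + R u) < 0`; so `Kf k 3 > 0`.
By `Kf_sq` all these values have the same square `κ²`, `κ > 0`: `Kf 0 v = -κ`, `Kf k 3 = κ`.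
The weights `By i - Ry v` are `-(1 + Ry v)` for `(0, v)` and `By k - 1 = -(1 - By k)` for `(k, 3)`.
So `h.bal m` says
`κ ∑_{v in the class} (1 + Ry v) - κ ∑_{k in the class} (1 - By k) = 0`, hence the two sums are equal;
since the class is not empty and all weights are positive, both are positive.
(`Kf (Bx - m • By) (Rx - m • Ry)` etc.: `(Bx - m • By) i = Bx i - m * By i` by `simp`.)
-/

namespace Pool.Agent.helper37.NL

open Real Pool.Agent.helper37.NP Pool.Agent.Helper93.Tet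

private theorem Fcl_min {Bx By Rx Ry : V4} (h : PC Bx By Rx Ry) :
    ∃ m : ℝ, 0 < m ∧ (∀ v, v ≠ 3 → m * (1 + Ry v) ≤ Rx v) ∧
      (∀ k, k ≠ 0 → k ≠ 3 → m * (1 - By k) ≤ -Bx k) ∧
      (Rx 0 = m * (1 + Ry 0) ∨ Rx 1 = m * (1 + Ry 1) ∨ Rx 2 = m * (1 + Ry 2) ∨
        -Bx 1 = m * (1 - By 1) ∨ -Bx 2 = m * (1 - By 2)) := by
  have r0 := h.rx 0 (by decide)
  have r1 := h.rx 1 (by decide)
  have r2 := h.rx 2 (by decide)
  have s0 := h.ry 0 (by decide)
  have s1 := h.ry 1 (by decide)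
  have s2 := h.ry 2 (by decide)
  have b1 := h.bx 1 (by decide) (by decide)
  have b2 := h.bx 2 (by decide) (by decide)
  have c1 := h.by' 1 (by decide) (by decide)
  have c2 := h.by' 2 (by decide) (by decide)
  let p : Fin 5 → ℝ := ![Rx 0, Rx 1, Rx 2, -Bx 1, -Bx 2]
  let q : Fin 5 → ℝ := ![1 + Ry 0, 1 + Ry 1, 1 + Ry 2, 1 - By 1, 1 - By 2]
  have hp : ∀ j, 0 < p j := by
    intro j
    fin_cases j
    · exact r0
    · exact r1
    · exact r2
    · show 0 < -Bx 1
      linarith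
    · show 0 < -Bx 2
      linarith
  have hq : ∀ j, 0 < q j := by
    intro j
    fin_cases j
    · show 0 < 1 + Ry 0
      linarith
    · show 0 < 1 + Ry 1
      linarith
    · show 0 < 1 + Ry 2
      linarith
    · show 0 < 1 - By 1
      linarith
    · show 0 < 1 - By 2
      linarith
  obtain ⟨j0, -, hj0⟩ := Finset.exists_min_image (Finset.univ : Finset (Fin 5)) (fun j => p j / q j)
    ⟨0, Finset.mem_univ _⟩
  have hle : ∀ j, p j0 / q j0 * q j ≤ p j := by
    intro j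
    have := hj0 j (Finset.mem_univ _)
    rwa [le_div_iff₀ (hq j)] at this
  have heq : p j0 = p j0 / q j0 * q j0 := (div_mul_cancel₀ _ (hq j0).ne').symm
  refine ⟨p j0 / q j0, div_pos (hp j0) (hq j0), ?_, ?_, ?_⟩
  · intro v hv
    fin_cases v
    · exact hle 0
    · exact hle 1
    · exact hle 2
    · exact absurd rfl hv
  · intro k hk hk'
    fin_cases k
    · exact absurd rfl hk
    · exact hle 3
    · exact hle 4
    · exact absurd rfl hk'
  · revert heq
    generalize p j0 / q j0 = m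
    intro heq
    fin_cases j0
    · exact Or.inl heq
    · exact Or.inr (Or.inl heq)
    · exact Or.inr (Or.inr (Or.inl heq))
    · exact Or.inr (Or.inr (Or.inr (Or.inl heq)))
    · exact Or.inr (Or.inr (Or.inr (Or.inr heq)))

private theorem Fcl_e0 (f : Fin 4 → ℝ) : ∏ k ∈ Finset.univ.erase (0 : Fin 4), f k = f 1 * f 2 * f 3 := by
  rw [show Finset.univ.erase (0 : Fin 4) = {1, 2, 3} by decide,
    Finset.prod_insert (by decide), Finset.prod_insert (by decide), Finset.prod_singleton]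
  ring
private theorem Fcl_e1 (f : Fin 4 → ℝ) : ∏ k ∈ Finset.univ.erase (1 : Fin 4), f k = f 0 * f 2 * f 3 := by
  rw [show Finset.univ.erase (1 : Fin 4) = {0, 2, 3} by decide,
    Finset.prod_insert (by decide), Finset.prod_insert (by decide), Finset.prod_singleton]
  ring
private theorem Fcl_e2 (f : Fin 4 → ℝ) : ∏ k ∈ Finset.univ.erase (2 : Fin 4), f k = f 0 * f 1 * f 3 := by
  rw [show Finset.univ.erase (2 : Fin 4) = {0, 1, 3} by decide,
    Finset.prod_insert (by decide), Finset.prod_insert (by decide), Finset.prod_singleton]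
  ring
private theorem Fcl_e3 (f : Fin 4 → ℝ) : ∏ k ∈ Finset.univ.erase (3 : Fin 4), f k = f 0 * f 1 * f 2 := by
  rw [show Finset.univ.erase (3 : Fin 4) = {0, 1, 2} by decide,
    Finset.prod_insert (by decide), Finset.prod_insert (by decide), Finset.prod_singleton]
  ring

/-- signs of `Kf` at a first coincidence, in terms of the eight numbers -/
private theorem Fcl_neg {m x1 x2 x3 u u' : ℝ} (hm : 0 < m) (h1 : x1 ≤ -m) (h2 : x2 ≤ -m)
    (h3 : m < x3) (hu : m ≤ u) (hu' : m ≤ u') :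
    (m - x1) * (m - x2) * (m - x3) - (m - u) * (m - u') * (m - -m) < 0 := by
  have a : 0 < (m - x1) * (m - x2) := mul_pos (by linarith) (by linarith)
  have b : (m - x1) * (m - x2) * (m - x3) < 0 := mul_neg_of_pos_of_neg a (by linarith)
  have c : 0 ≤ (m - u) * (m - u') := mul_nonneg_of_nonpos_of_nonpos (by linarith) (by linarith)
  have d : 0 ≤ (m - u) * (m - u') * (m - -m) := mul_nonneg c (by linarith)
  linarith

private theorem Fcl_pos {m x x3 u0 u1 u2 : ℝ} (hm : 0 < m) (h1 : x ≤ -m)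
    (h3 : m < x3) (h0 : m ≤ u0) (h1' : m ≤ u1) (h2' : m ≤ u2) :
    0 < (-m - m) * (-m - x) * (-m - x3) - (-m - u0) * (-m - u1) * (-m - u2) := by
  have a : (-m - m) * (-m - x) ≤ 0 := mul_nonpos_of_nonpos_of_nonneg (by linarith) (by linarith)
  have b : 0 ≤ (-m - m) * (-m - x) * (-m - x3) := mul_nonneg_of_nonpos_of_nonpos a (by linarith)
  have c : 0 < (-m - u0) * (-m - u1) := mul_pos_of_neg_of_neg (by linarith) (by linarith)
  have d : (-m - u0) * (-m - u1) * (-m - u2) < 0 := mul_neg_of_pos_of_neg c (by linarith)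
  linarith

theorem fc {Bx By Rx Ry : V4} (h : PC Bx By Rx Ry) :
    ∃ m : ℝ, 0 < m ∧ (∀ v, v ≠ 3 → m * (1 + Ry v) ≤ Rx v) ∧
      (∀ k, k ≠ 0 → k ≠ 3 → m * (1 - By k) ≤ -Bx k) ∧
      (if Rx 0 = m * (1 + Ry 0) then 1 + Ry 0 else 0)
        + (if Rx 1 = m * (1 + Ry 1) then 1 + Ry 1 else 0)
        + (if Rx 2 = m * (1 + Ry 2) then 1 + Ry 2 else 0)
        = (if -Bx 1 = m * (1 - By 1) then 1 - By 1 else 0)
          + (if -Bx 2 = m * (1 - By 2) then 1 - By 2 else 0) ∧
      0 < (if -Bx 1 = m * (1 - By 1) then 1 - By 1 else 0)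
          + (if -Bx 2 = m * (1 - By 2) then 1 - By 2 else 0) := by
  obtain ⟨m, hm, hr, hb, hc⟩ := Fcl_min h
  refine ⟨m, hm, hr, hb, ?_⟩
  have r0 := hr 0 (by decide)
  have r1 := hr 1 (by decide)
  have r2 := hr 2 (by decide)
  have b1 := hb 1 (by decide) (by decide)
  have b2 := hb 2 (by decide) (by decide)
  have s0 := h.ry 0 (by decide)
  have s1 := h.ry 1 (by decide)
  have s2 := h.ry 2 (by decide)
  have c1 := h.by' 1 (by decide) (by decide)
  have c2 := h.by' 2 (by decide) (by decide)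
  have hbal := h.bal m
  set B : V4 := Bx - m • By with hB
  set R : V4 := Rx - m • Ry with hR
  have eB : ∀ i, Bx i - m * By i = B i := fun i => by simp [hB]
  have eR : ∀ i, Rx i - m * Ry i = R i := fun i => by simp [hR]
  have B0 : B 0 = m := by rw [← eB, h.bx0, h.by0]; ring
  have R3 : R 3 = -m := by rw [← eR, h.rx3, h.ry3]; ring
  have B1 : B 1 ≤ -m := by rw [← eB]; linarith
  have B2 : B 2 ≤ -m := by rw [← eB]; linarith
  have R0 : m ≤ R 0 := by rw [← eR]; linarith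
  have R1 : m ≤ R 1 := by rw [← eR]; linarith
  have R2 : m ≤ R 2 := by rw [← eR]; linarith
  have hsum : e1 B = e1 R := by
    have hx := h.sx
    have hy := h.sy
    unfold e1 at hx hy ⊢
    rw [← eB, ← eB, ← eB, ← eB, ← eR, ← eR, ← eR, ← eR]
    linear_combination hx - m * hy
  have hsum' : B 0 + B 1 + B 2 + B 3 = R 0 + R 1 + R 2 + R 3 := hsum
  have i0 : R 0 = m ↔ Rx 0 = m * (1 + Ry 0) := by
    rw [← eR]; constructor <;> intro hh <;> linarith
  have i1 : R 1 = m ↔ Rx 1 = m * (1 + Ry 1) := by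
    rw [← eR]; constructor <;> intro hh <;> linarith
  have i2 : R 2 = m ↔ Rx 2 = m * (1 + Ry 2) := by
    rw [← eR]; constructor <;> intro hh <;> linarith
  have j1 : B 1 = -m ↔ -Bx 1 = m * (1 - By 1) := by
    rw [← eB]; constructor <;> intro hh <;> linarith
  have j2 : B 2 = -m ↔ -Bx 2 = m * (1 - By 2) := by
    rw [← eB]; constructor <;> intro hh <;> linarith
  have B3 : R 0 < B 3 ∧ R 1 < B 3 ∧ R 2 < B 3 ∧ m < B 3 := by
    refine ⟨?_, ?_, ?_, ?_⟩ <;> linarith
  obtain ⟨B30, B31, B32, B3m⟩ := B3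
  -- the signs
  have k0 : R 0 = m → Kf B R 0 0 < 0 := by
    intro hh
    rw [Kf_prod hsum (B0.trans hh.symm), Fcl_e0, Fcl_e0, B0, hh, R3]
    exact Fcl_neg hm B1 B2 B3m R1 R2
  have k1 : R 1 = m → Kf B R 0 1 < 0 := by
    intro hh
    rw [Kf_prod hsum (B0.trans hh.symm), Fcl_e0, Fcl_e1, B0, hh, R3]
    exact Fcl_neg hm B1 B2 B3m R0 R2
  have k2 : R 2 = m → Kf B R 0 2 < 0 := by
    intro hh
    rw [Kf_prod hsum (B0.trans hh.symm), Fcl_e0, Fcl_e2, B0, hh, R3]
    exact Fcl_neg hm B1 B2 B3m R0 R1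
  have l1 : B 1 = -m → 0 < Kf B R 1 3 := by
    intro hh
    rw [Kf_prod hsum (hh.trans R3.symm), Fcl_e1, Fcl_e3, B0, hh, R3]
    exact Fcl_pos hm B2 B3m R0 R1 R2
  have l2 : B 2 = -m → 0 < Kf B R 2 3 := by
    intro hh
    rw [Kf_prod hsum (hh.trans R3.symm), Fcl_e2, Fcl_e3, B0, hh, R3]
    exact Fcl_pos hm B1 B3m R0 R1 R2
  -- the common square
  set κ : ℝ := √(-4 * Wf B R) with hκ
  have n0 : R 0 = m → Kf B R 0 0 = -κ := by
    intro hh
    have h1 := Kf_sq hsum (B0.trans hh.symm)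
    have h2 := k0 hh
    rw [hκ, ← h1, Real.sqrt_sq_eq_abs, abs_of_neg h2, neg_neg]
  have n1 : R 1 = m → Kf B R 0 1 = -κ := by
    intro hh
    have h1 := Kf_sq hsum (B0.trans hh.symm)
    have h2 := k1 hh
    rw [hκ, ← h1, Real.sqrt_sq_eq_abs, abs_of_neg h2, neg_neg]
  have n2 : R 2 = m → Kf B R 0 2 = -κ := by
    intro hh
    have h1 := Kf_sq hsum (B0.trans hh.symm)
    have h2 := k2 hh
    rw [hκ, ← h1, Real.sqrt_sq_eq_abs, abs_of_neg h2, neg_neg]
  have p1 : B 1 = -m → Kf B R 1 3 = κ := by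
    intro hh
    have h1 := Kf_sq hsum (hh.trans R3.symm)
    have h2 := l1 hh
    rw [hκ, ← h1, Real.sqrt_sq_eq_abs, abs_of_pos h2]
  have p2 : B 2 = -m → Kf B R 2 3 = κ := by
    intro hh
    have h1 := Kf_sq hsum (hh.trans R3.symm)
    have h2 := l2 hh
    rw [hκ, ← h1, Real.sqrt_sq_eq_abs, abs_of_pos h2]
  have hκ0 : 0 < κ := by
    rcases hc with hh | hh | hh | hh | hh
    · have h1 := k0 (i0.mpr hh)
      have h2 := n0 (i0.mpr hh)
      linarith
    · have h1 := k1 (i1.mpr hh)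
      have h2 := n1 (i1.mpr hh)
      linarith
    · have h1 := k2 (i2.mpr hh)
      have h2 := n2 (i2.mpr hh)
      linarith
    · have h1 := l1 (j1.mpr hh)
      have h2 := p1 (j1.mpr hh)
      linarith
    · have h1 := l2 (j2.mpr hh)
      have h2 := p2 (j2.mpr hh)
      linarith
  -- the terms
  have t0 : (if B 0 = R 0 then (By 0 - Ry 0) * Kf B R 0 0 else 0)
      = κ * (if Rx 0 = m * (1 + Ry 0) then 1 + Ry 0 else 0) := by
    rw [B0]
    by_cases hh : R 0 = m
    · rw [if_pos hh.symm, if_pos (i0.mp hh), n0 hh, h.by0]; ring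
    · rw [if_neg (fun e => hh e.symm), if_neg (fun e => hh (i0.mpr e))]; ring
  have t1 : (if B 0 = R 1 then (By 0 - Ry 1) * Kf B R 0 1 else 0)
      = κ * (if Rx 1 = m * (1 + Ry 1) then 1 + Ry 1 else 0) := by
    rw [B0]
    by_cases hh : R 1 = m
    · rw [if_pos hh.symm, if_pos (i1.mp hh), n1 hh, h.by0]; ring
    · rw [if_neg (fun e => hh e.symm), if_neg (fun e => hh (i1.mpr e))]; ring
  have t2 : (if B 0 = R 2 then (By 0 - Ry 2) * Kf B R 0 2 else 0)
      = κ * (if Rx 2 = m * (1 + Ry 2) then 1 + Ry 2 else 0) := by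
    rw [B0]
    by_cases hh : R 2 = m
    · rw [if_pos hh.symm, if_pos (i2.mp hh), n2 hh, h.by0]; ring
    · rw [if_neg (fun e => hh e.symm), if_neg (fun e => hh (i2.mpr e))]; ring
  have u1 : (if B 1 = R 3 then (By 1 - Ry 3) * Kf B R 1 3 else 0)
      = -κ * (if -Bx 1 = m * (1 - By 1) then 1 - By 1 else 0) := by
    rw [R3]
    by_cases hh : B 1 = -m
    · rw [if_pos hh, if_pos (j1.mp hh), p1 hh, h.ry3]; ring
    · rw [if_neg hh, if_neg (fun e => hh (j1.mpr e))]; ring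
  have u2 : (if B 2 = R 3 then (By 2 - Ry 3) * Kf B R 2 3 else 0)
      = -κ * (if -Bx 2 = m * (1 - By 2) then 1 - By 2 else 0) := by
    rw [R3]
    by_cases hh : B 2 = -m
    · rw [if_pos hh, if_pos (j2.mp hh), p2 hh, h.ry3]; ring
    · rw [if_neg hh, if_neg (fun e => hh (j2.mpr e))]; ring
  have z03 : ¬ B 0 = R 3 := by rw [B0, R3]; intro e; linarith
  have z10 : ¬ B 1 = R 0 := by intro e; linarith
  have z11 : ¬ B 1 = R 1 := by intro e; linarith
  have z12 : ¬ B 1 = R 2 := by intro e; linarith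
  have z20 : ¬ B 2 = R 0 := by intro e; linarith
  have z21 : ¬ B 2 = R 1 := by intro e; linarith
  have z22 : ¬ B 2 = R 2 := by intro e; linarith
  have z30 : ¬ B 3 = R 0 := by intro e; linarith
  have z31 : ¬ B 3 = R 1 := by intro e; linarith
  have z32 : ¬ B 3 = R 2 := by intro e; linarith
  have z33 : ¬ B 3 = R 3 := by intro e; linarith
  simp only [eB, eR, Fin.sum_univ_four] at hbal
  rw [t0, t1, t2, u1, u2, if_neg z03, if_neg z10, if_neg z11, if_neg z12, if_neg z20, if_neg z21,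
    if_neg z22, if_neg z30, if_neg z31, if_neg z32, if_neg z33] at hbal
  have hfin : (if Rx 0 = m * (1 + Ry 0) then 1 + Ry 0 else 0)
        + (if Rx 1 = m * (1 + Ry 1) then 1 + Ry 1 else 0)
        + (if Rx 2 = m * (1 + Ry 2) then 1 + Ry 2 else 0)
        = (if -Bx 1 = m * (1 - By 1) then 1 - By 1 else 0)
          + (if -Bx 2 = m * (1 - By 2) then 1 - By 2 else 0) := by
    apply mul_left_cancel₀ hκ0.ne'
    linarith
  refine ⟨hfin, ?_⟩
  have g0 : (0 : ℝ) ≤ if Rx 0 = m * (1 + Ry 0) then 1 + Ry 0 else 0 := by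
    split_ifs <;> linarith
  have g1 : (0 : ℝ) ≤ if Rx 1 = m * (1 + Ry 1) then 1 + Ry 1 else 0 := by
    split_ifs <;> linarith
  have g2 : (0 : ℝ) ≤ if Rx 2 = m * (1 + Ry 2) then 1 + Ry 2 else 0 := by
    split_ifs <;> linarith
  have g3 : (0 : ℝ) ≤ if -Bx 1 = m * (1 - By 1) then 1 - By 1 else 0 := by
    split_ifs <;> linarith
  have g4 : (0 : ℝ) ≤ if -Bx 2 = m * (1 - By 2) then 1 - By 2 else 0 := by
    split_ifs <;> linarith
  rcases hc with hh | hh | hh | hh | hh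
  · rw [← hfin, if_pos hh]; linarith
  · rw [← hfin, if_pos hh]; linarith
  · rw [← hfin, if_pos hh]; linarith
  · rw [if_pos hh]; linarith
  · rw [if_pos hh]; linarith

end Pool.Agent.helper37.NL
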