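import Pool.Agent.helper37.NP.GMa

/-!
NL-E3 (GEq).  Real-analytic sets without surfaces ARE countable unions of analytic arcs.

This is the file `Pool/Agent/helper37/NP/GAr.lean` (complete there) with the arcs required to lie in the
set `Z`; copy and adapt.  `GArc Z γ`: `γ` is analytic on `(-1, 1)`, has values in `Z` there, and is either
constant or has nowhere vanishing derivative.  `ArcsIn Z A`: `A` is covered by countably many such arcs
(index set `I ⊆ ℕ`, possibly empty).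
PROOFS.
* `ArcsIn.mono`, `ArcsIn.empty` (`I = ∅`), `ArcsIn.iUnion` (countable index type `ι`: inject `ι × ℕ` into
  `ℕ`; or use a surjection `ℕ → ι` and `Nat.unpair`), `ArcsIn.union`, `ArcsIn.of_local`
  (`TopologicalSpace.countable_cover_nhdsWithin`) as for `Arcs`.
* `ArcsIn.of_param`: `K` has dimension `0` or `1`, `φ (ball y0 ε) ⊆ Z`, `fderiv ℝ φ y` injective for `y` in
  the ball.  Dimension `0`: the constant arc `φ y0`.  Dimension `1`: `v` spans `K`; the arc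
  `t ↦ φ (y0 + (t * (ε / ‖v‖)) • v)`, its derivative is `fderiv ℝ φ (..) ((ε / ‖v‖) • v) ≠ 0` by injectivity.
* `arcsIn_of_no_surface`: exactly the proof of `arcs_of_no_surface` with `Arcs` replaced by `ArcsIn Z`:
  `S = {x ∈ Z | ∀ V ∈ 𝓝 x, ¬ ArcsIn Z (Z ∩ V)}`, `local_structure` for `S` gives `φ` with
  `φ (ball) ⊆ Z` (it satisfies `φ y ∈ O` and `f i (φ y) = 0`) and injective derivatives, `S ∩ V ⊆ φ (ball)`.
* `ArcsIn.eq`: if `ArcsIn Z Z` and `Z` is nonempty then `Z = ⋃ n, γ n '' Ioo (-1) 1` for a sequence of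
  `GArc`s (replace missing indices by the constant arc at a point of `Z`).
-/

namespace Pool.Agent.helper37.NL

open Filter Topology Pool.Agent.helper37.NP

variable {X : Type*} [NormedAddCommGroup X] [NormedSpace ℝ X]

/-- an analytic arc in `Z`, constant or immersed -/
def GArc (Z : Set X) (γ : ℝ → X) : Prop :=
  AnalyticOnNhd ℝ γ (Set.Ioo (-1) 1) ∧ (∀ t ∈ Set.Ioo (-1 : ℝ) 1, γ t ∈ Z) ∧
    ((∀ t ∈ Set.Ioo (-1 : ℝ) 1, γ t = γ 0) ∨ ∀ t ∈ Set.Ioo (-1 : ℝ) 1, deriv γ t ≠ 0)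

/-- `A` is covered by countably many such arcs -/
def ArcsIn (Z A : Set X) : Prop :=
  ∃ (I : Set ℕ) (γ : ℕ → ℝ → X), (∀ n ∈ I, GArc Z (γ n)) ∧
    A ⊆ ⋃ n ∈ I, γ n '' Set.Ioo (-1) 1

theorem GArc.mono {Z Z' : Set X} {γ : ℝ → X} (h : GArc Z γ) (hZ : Z ⊆ Z') : GArc Z' γ :=
  ⟨h.1, fun t ht => hZ (h.2.1 t ht), h.2.2⟩

private theorem garc_const {Z : Set X} {x : X} (hx : x ∈ Z) : GArc Z (fun _ => x) :=
  ⟨analyticOnNhd_const, fun _ _ => hx, Or.inl fun _ _ => rfl⟩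

theorem ArcsIn.mono {Z Z' A B : Set X} (h : ArcsIn Z B) (hZ : Z ⊆ Z') (hAB : A ⊆ B) :
    ArcsIn Z' A := by
  obtain ⟨I, γ, h1, h2⟩ := h
  exact ⟨I, γ, fun n hn => (h1 n hn).mono hZ, hAB.trans h2⟩

private theorem arcsIn_empty {Z : Set X} : ArcsIn Z (∅ : Set X) :=
  ⟨∅, fun _ _ => 0, fun _ h => absurd h (Set.notMem_empty _), Set.empty_subset _⟩

theorem ArcsIn.iUnion {ι : Type*} [Countable ι] {Z : Set X} {A : ι → Set X}
    (h : ∀ i, ArcsIn Z (A i)) : ArcsIn Z (⋃ i, A i) := by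
  rcases isEmpty_or_nonempty ι with hι | hι
  · rw [Set.iUnion_of_empty]
    exact arcsIn_empty
  obtain ⟨e, he⟩ := exists_surjective_nat ι
  choose I γ h1 h2 using h
  refine ⟨{n | n.unpair.2 ∈ I (e n.unpair.1)}, fun n => γ (e n.unpair.1) n.unpair.2,
    fun n hn => h1 _ _ hn, ?_⟩
  intro x hx
  rw [Set.mem_iUnion] at hx
  obtain ⟨i, hi⟩ := hx
  obtain ⟨m, rfl⟩ := he i
  have h3 := h2 _ hi
  rw [Set.mem_iUnion₂] at h3
  obtain ⟨k, hk, hk'⟩ := h3
  rw [Set.mem_iUnion₂]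
  refine ⟨Nat.pair m k, ?_, ?_⟩
  · change (Nat.pair m k).unpair.2 ∈ I (e (Nat.pair m k).unpair.1)
    rw [Nat.unpair_pair]
    exact hk
  · simpa only [Nat.unpair_pair] using hk'

private theorem arcsIn_union {Z A B : Set X} (hA : ArcsIn Z A) (hB : ArcsIn Z B) :
    ArcsIn Z (A ∪ B) := by
  rw [Set.union_eq_iUnion]
  refine ArcsIn.iUnion fun b => ?_
  cases b
  · exact hB
  · exact hA

private theorem arcsIn_of_local [SecondCountableTopology X] {Z A : Set X}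
    (h : ∀ x ∈ A, ∃ V ∈ 𝓝 x, ArcsIn Z (A ∩ V)) : ArcsIn Z A := by
  classical
  have h' : ∀ x : X, ∃ V : Set X, x ∈ A → V ∈ 𝓝 x ∧ ArcsIn Z (A ∩ V) := by
    intro x
    by_cases hx : x ∈ A
    · obtain ⟨V, h1, h2⟩ := h x hx
      exact ⟨V, fun _ => ⟨h1, h2⟩⟩
    · exact ⟨∅, fun h => absurd h hx⟩
  choose V hV using h'
  obtain ⟨t, ht, htc, hcov⟩ := TopologicalSpace.countable_cover_nhdsWithin (f := V) (s := A)
    fun x hx => mem_nhdsWithin_of_mem_nhds (hV x hx).1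
  have := htc.to_subtype
  have h3 : ArcsIn Z (⋃ x : t, A ∩ V x) := ArcsIn.iUnion fun x => (hV x (ht x.2)).2
  refine h3.mono subset_rfl ?_
  intro x hx
  have h4 := hcov hx
  rw [Set.mem_iUnion₂] at h4
  obtain ⟨y, hy, hxy⟩ := h4
  rw [Set.mem_iUnion]
  exact ⟨⟨y, hy⟩, hx, hxy⟩

private theorem arcsIn_of_param {Z : Set X} {K : Type*} [NormedAddCommGroup K] [NormedSpace ℝ K]
    [FiniteDimensional ℝ K] (hK : Module.finrank ℝ K ≤ 1) {φ : K → X} {y0 : K} {ε : ℝ}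
    (hε : 0 < ε) (hφ : AnalyticOnNhd ℝ φ (Metric.ball y0 ε))
    (hφ' : ∀ y ∈ Metric.ball y0 ε, Function.Injective (fderiv ℝ φ y) ∧ φ y ∈ Z) :
    ArcsIn Z (φ '' Metric.ball y0 ε) := by
  rcases Nat.le_one_iff_eq_zero_or_eq_one.1 hK with h0 | h1
  · have := Module.finrank_zero_iff.1 h0
    refine ⟨Set.univ, fun _ _ => φ y0, fun _ _ =>
      garc_const (hφ' y0 (Metric.mem_ball_self hε)).2, ?_⟩
    rintro _ ⟨y, -, rfl⟩
    rw [Set.mem_iUnion₂]
    exact ⟨0, Set.mem_univ _, 0, by norm_num, by rw [Subsingleton.elim y y0]⟩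
  · obtain ⟨v, hv, hspan⟩ := finrank_eq_one_iff'.1 h1
    have hv0 : 0 < ‖v‖ := norm_pos_iff.2 hv
    have hball : ∀ t ∈ Set.Ioo (-1 : ℝ) 1, y0 + (t * (ε / ‖v‖)) • v ∈ Metric.ball y0 ε := by
      intro t ht
      rw [Metric.mem_ball, dist_eq_norm, add_sub_cancel_left, norm_smul, norm_mul, norm_div,
        norm_norm, Real.norm_of_nonneg hε.le, mul_assoc, div_mul_cancel₀ _ hv0.ne']
      have : ‖t‖ < 1 := by
        rw [Real.norm_eq_abs, abs_lt]
        exact ht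
      nlinarith
    refine ⟨Set.univ, fun _ t => φ (y0 + (t * (ε / ‖v‖)) • v), fun _ _ => ⟨?_, ?_, ?_⟩, ?_⟩
    · have h2 : AnalyticOnNhd ℝ (fun t : ℝ => y0 + (t * (ε / ‖v‖)) • v) (Set.Ioo (-1) 1) := by
        refine analyticOnNhd_const.add ?_
        exact (analyticOnNhd_id.mul analyticOnNhd_const).smul analyticOnNhd_const
      exact hφ.comp h2 hball
    · intro t ht
      exact (hφ' _ (hball t ht)).2
    · right
      intro t ht
      have h3 : HasDerivAt (fun t : ℝ => y0 + (t * (ε / ‖v‖)) • v) ((ε / ‖v‖) • v) t := by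
        have h4 : HasDerivAt (fun t : ℝ => t * (ε / ‖v‖)) (1 * (ε / ‖v‖)) t :=
          (hasDerivAt_id t).mul_const _
        rw [one_mul] at h4
        exact (h4.smul_const v).const_add y0
      have h5 := (hφ _ (hball t ht)).differentiableAt.hasFDerivAt.comp_hasDerivAt t h3
      rw [show (fun t : ℝ => φ (y0 + (t * (ε / ‖v‖)) • v))
        = φ ∘ fun t : ℝ => y0 + (t * (ε / ‖v‖)) • v from rfl, h5.deriv]
      intro h6
      have h7 := (hφ' _ (hball t ht)).1 (h6.trans (map_zero _).symm)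
      rcases smul_eq_zero.1 h7 with h8 | h8
      · exact (div_pos hε hv0).ne' h8
      · exact hv h8
    · rintro _ ⟨y, hy, rfl⟩
      obtain ⟨c, hc⟩ := hspan (y - y0)
      rw [Set.mem_iUnion₂]
      refine ⟨0, Set.mem_univ _, c * (‖v‖ / ε), ?_, ?_⟩
      · rw [Metric.mem_ball, dist_eq_norm, ← hc, norm_smul, Real.norm_eq_abs] at hy
        have h3 : |c * (‖v‖ / ε)| < 1 := by
          rw [abs_mul, abs_of_pos (div_pos hv0 hε), ← mul_div_assoc, div_lt_one hε]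
          exact hy
        exact abs_lt.1 h3
      · change φ (y0 + (c * (‖v‖ / ε) * (ε / ‖v‖)) • v) = φ y
        have h4 : c * (‖v‖ / ε) * (ε / ‖v‖) = c := by
          field_simp
        rw [h4, hc, add_sub_cancel]

theorem ArcsIn.eq {Z : Set X} (h : ArcsIn Z Z) (hne : Z.Nonempty) :
    ∃ γ : ℕ → ℝ → X, (∀ n, GArc Z (γ n)) ∧ Z = ⋃ n, γ n '' Set.Ioo (-1) 1 := by
  classical
  obtain ⟨z, hz⟩ := hne
  obtain ⟨I, γ, h1, h2⟩ := h
  have h3 : ∀ n, GArc Z (if n ∈ I then γ n else fun _ => z) := by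
    intro n
    split_ifs with hn
    · exact h1 n hn
    · exact garc_const hz
  refine ⟨fun n => if n ∈ I then γ n else fun _ => z, h3, Set.Subset.antisymm ?_ ?_⟩
  · intro x hx
    have h4 := h2 hx
    rw [Set.mem_iUnion₂] at h4
    obtain ⟨n, hn, hx'⟩ := h4
    rw [Set.mem_iUnion]
    refine ⟨n, ?_⟩
    change x ∈ (if n ∈ I then γ n else fun _ => z) '' Set.Ioo (-1) 1
    rw [if_pos hn]
    exact hx'
  · refine Set.iUnion_subset fun n => ?_
    rintro _ ⟨t, ht, rfl⟩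
    exact (h3 n).2.1 t ht

theorem arcsIn_of_no_surface [FiniteDimensional ℝ X] {O : Set X} (hO : IsOpen O) {ι : Type*}
    (f : ι → X → ℝ) (hf : ∀ i, AnalyticOnNhd ℝ (f i) O)
    (hno : ∀ (K : Submodule ℝ X) (y0 : K) (ε : ℝ) (φ : K → X), 2 ≤ Module.finrank ℝ K → 0 < ε →
      AnalyticOnNhd ℝ φ (Metric.ball y0 ε) →
      (∀ y ∈ Metric.ball y0 ε, Function.Injective (fderiv ℝ φ y) ∧ φ y ∈ O ∧
        ∀ i, f i (φ y) = 0) → False) :
    ArcsIn {x | x ∈ O ∧ ∀ i, f i x = 0} {x | x ∈ O ∧ ∀ i, f i x = 0} := by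
  have : SecondCountableTopology X := by
    have : ProperSpace X := FiniteDimensional.proper_real X
    infer_instance
  set Z : Set X := {x | x ∈ O ∧ ∀ i, f i x = 0} with hZ
  set S : Set X := {x | x ∈ Z ∧ ∀ V ∈ 𝓝 x, ¬ ArcsIn Z (Z ∩ V)} with hS
  have hSZ : S ⊆ Z := fun x hx => hx.1
  have hgood : ArcsIn Z (Z \ S) := by
    refine arcsIn_of_local ?_
    rintro x ⟨hx, hxS⟩
    have : ∃ V ∈ 𝓝 x, ArcsIn Z (Z ∩ V) := by
      by_contra hcon
      push Not at hcon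
      exact hxS ⟨hx, hcon⟩
    obtain ⟨V, hV, hV'⟩ := this
    exact ⟨V, hV, hV'.mono subset_rfl (Set.inter_subset_inter_left _ Set.sdiff_subset)⟩
  rcases S.eq_empty_or_nonempty with hE | hne
  · rwa [hE, Set.sdiff_empty] at hgood
  · exfalso
    obtain ⟨x0, K, y0, ε, φ, V, hx0, hε, hV, hxV, hφ, hφ', hSV⟩ :=
      local_structure hO f hf S hne (fun x hx => (hSZ hx).1) (fun x hx => (hSZ hx).2)
    have hbad : ¬ ArcsIn Z (S ∩ V) := by
      intro h
      refine hx0.2 V (hV.mem_nhds hxV) ((arcsIn_union hgood h).mono subset_rfl ?_)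
      rintro x ⟨hx, hx'⟩
      by_cases hxS : x ∈ S
      · exact Or.inr ⟨hxS, hx'⟩
      · exact Or.inl ⟨hx, hxS⟩
    have hK : 2 ≤ Module.finrank ℝ K := by
      by_contra hlt
      exact hbad ((arcsIn_of_param (by omega) hε hφ
        fun y hy => ⟨(hφ' y hy).1, (hφ' y hy).2⟩).mono subset_rfl hSV)
    exact hno K y0 ε φ hK hε hφ hφ'

end Pool.Agent.helper37.NL
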