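import Pool.Agent.helper37.NL.GEq
import Pool.Agent.helper37.NL.Rea
import Pool.Agent.helper37.NL.Dnv
import Pool.Agent.helper37.NP.GZe
import Pool.Agent.helper37.NP.GSh

/-!
NL-E4 (GSe).  The set of shapes IS a countable union of analytic arcs.

PROOF.  `arcsIn_data`: the proof of `arcs_data` (file `NP/GZe`) with `arcs_of_no_surface` replaced by
`arcsIn_of_no_surface`: the same functions `f`, the same `hno`; the zero set of the `f i` in `T` is equal to
the set of the statement (both inclusions: `Sum` cases; for the span: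
`Submodule.exists_le_ker_of_notMem`).
`shapes_eq`: for `k : ℕ`, `s : Fin k → Fin 6 → ℤ`, `r : Fin k → ℚ` with `iv ∘ s` linearly independent let
`Z k s r` be the set of `arcsIn_data` for `iv ∘ s` and `c i = π * r i`.  The index type is countable, and
`shapes = ⋃ Z k s r`: `⊆` as in `arcs_shapes` (file `NP/GSh`), `⊇`: let `x ∈ Z k s r`; `realize` gives a
nondegenerate tetrahedron with `lenv = x`, its angles are `ang x` (`ang_lenv`), `dehn_of_data` gives Dehn
invariant zero, so `x ∈ shapes` (factor `1`).  `ArcsIn.iUnion`, `ArcsIn.mono` (`Z k s r ⊆ shapes`) give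
`ArcsIn shapes shapes`; `shapes` is nonempty (for instance by `one_le_dimH`, or `F1_exists`, `F1_dehn`);
`ArcsIn.eq`.
-/

namespace Pool.Agent.helper37.NL

open Real Pool.Agent.helper37.NP Pool.Agent.Helper93.Tet

theorem arcsIn_data {k : ℕ} (s : Fin k → V6) (hs : LinearIndependent ℝ s) (c : Fin k → ℝ) :
    ArcsIn {x : V6 | x ∈ T ∧ ∑ e, x e = 1 ∧ x ∈ Submodule.span ℝ (Set.range s) ∧
      ∀ i, dotp (s i) (ang x) = c i}
      {x : V6 | x ∈ T ∧ ∑ e, x e = 1 ∧ x ∈ Submodule.span ℝ (Set.range s) ∧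
      ∀ i, dotp (s i) (ang x) = c i} := by
  classical
  set P : Submodule ℝ V6 := Submodule.span ℝ (Set.range s) with hP
  let f : Unit ⊕ {g : V6 →ₗ[ℝ] ℝ // P ≤ LinearMap.ker g} ⊕ Fin k → V6 → ℝ := fun i =>
    match i with
    | Sum.inl _ => fun x => (∑ e, x e) - 1
    | Sum.inr (Sum.inl g) => fun x => g.1 x
    | Sum.inr (Sum.inr i) => fun x => dotp (s i) (ang x) - c i
  let σ : V6 →L[ℝ] ℝ := ∑ e, ContinuousLinearMap.proj e
  have hσ : ∀ x : V6, σ x = ∑ e, x e := by
    intro x
    simp [σ]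
  have hf : ∀ i, AnalyticOnNhd ℝ (f i) T := by
    rintro (_ | g | i)
    · intro x _
      change AnalyticAt ℝ (fun x : V6 => (∑ e, x e) - 1) x
      have h1 : (fun x : V6 => (∑ e, x e) - 1) = fun x => σ x - 1 := by
        funext x
        rw [hσ]
      rw [h1]
      exact (σ.analyticAt x).sub analyticAt_const
    · intro x _
      exact (LinearMap.toContinuousLinearMap g.1).analyticAt x
    · intro x hx
      have h1 : ∀ e, AnalyticAt ℝ (fun x : V6 => s i e * ang x e) x := fun e =>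
        analyticAt_const.mul (ang_analytic e x hx)
      change AnalyticAt ℝ (fun x : V6 => dotp (s i) (ang x) - c i) x
      unfold dotp
      exact ((((((h1 0).add (h1 1)).add (h1 2)).add (h1 3)).add (h1 4)).add (h1 5)).sub
        analyticAt_const
  have hZ : {x : V6 | x ∈ T ∧ ∑ e, x e = 1 ∧ x ∈ P ∧ ∀ i, dotp (s i) (ang x) = c i} =
      {x : V6 | x ∈ T ∧ ∀ i, f i x = 0} := by
    ext x
    constructor
    · rintro ⟨hxT, hx1, hxP, hxc⟩
      refine ⟨hxT, ?_⟩
      rintro (_ | g | i)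
      · change (∑ e, x e) - 1 = 0
        rw [hx1, sub_self]
      · exact g.2 hxP
      · change dotp (s i) (ang x) - c i = 0
        rw [hxc i, sub_self]
    · rintro ⟨hxT, hx⟩
      refine ⟨hxT, ?_, ?_, ?_⟩
      · have h1 : (∑ e, x e) - 1 = 0 := hx (Sum.inl ())
        linarith
      · by_contra hcon
        obtain ⟨g, hg, hg'⟩ := Submodule.exists_le_ker_of_notMem hcon
        exact hg (hx (Sum.inr (Sum.inl ⟨g, hg'⟩)))
      · intro i
        have h1 : dotp (s i) (ang x) - c i = 0 := hx (Sum.inr (Sum.inr i))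
        linarith
  rw [hZ]
  refine arcsIn_of_no_surface isOpen_T f hf ?_
  · intro K y0 ε φ hK hε hφ h
    have : Nontrivial K := Module.nontrivial_of_finrank_pos (R := ℝ) (by omega)
    obtain ⟨v1, hv1⟩ := exists_ne (0 : K)
    obtain ⟨v2, hv⟩ := exists_linearIndependent_pair_of_one_lt_finrank (R := ℝ) (by omega) hv1
    let L : ℝ × ℝ →L[ℝ] K := (ContinuousLinearMap.fst ℝ ℝ ℝ).smulRight v1 +
      (ContinuousLinearMap.snd ℝ ℝ ℝ).smulRight v2
    have hL : ∀ u : ℝ × ℝ, L u = u.1 • v1 + u.2 • v2 := fun u => rfl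
    have hL0 : ∀ u : ℝ × ℝ, L u = 0 → u = 0 := by
      intro u hu
      rw [hL] at hu
      obtain ⟨h1, h2⟩ := LinearIndependent.pair_iff.1 hv u.1 u.2 hu
      exact Prod.ext h1 h2
    have hcont : Continuous fun u : ℝ × ℝ => y0 + L u := continuous_const.add L.continuous
    let U : Set (ℝ × ℝ) := {u | y0 + L u ∈ Metric.ball y0 ε}
    have hU : IsOpen U := Metric.isOpen_ball.preimage hcont
    have hne : U.Nonempty := ⟨0, by
      change y0 + L 0 ∈ Metric.ball y0 ε
      rw [map_zero, add_zero]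
      exact Metric.mem_ball_self hε⟩
    let l : ℝ × ℝ → V6 := fun u => φ (y0 + L u)
    have hd : ∀ u ∈ U, HasFDerivAt l ((fderiv ℝ φ (y0 + L u)).comp L) u := by
      intro u hu
      have h1 : HasFDerivAt φ (fderiv ℝ φ (y0 + L u)) (y0 + L u) :=
        (hφ _ hu).differentiableAt.hasFDerivAt
      have h2 : HasFDerivAt (fun u : ℝ × ℝ => y0 + L u) L u := L.hasFDerivAt.const_add y0
      exact h1.comp u h2
    have hl : ContDiffOn ℝ 1 l U := by
      intro u hu
      have h1 : ContDiffAt ℝ 1 φ (y0 + L u) := (hφ _ hu).contDiffAt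
      have h2 : ContDiffAt ℝ 1 (fun u : ℝ × ℝ => y0 + L u) u :=
        contDiffAt_const.add L.contDiff.contDiffAt
      exact (h1.comp u h2).contDiffWithinAt
    have hsum : ∀ u ∈ U, ∑ e, l u e = 1 := by
      intro u hu
      have h1 : (∑ e, l u e) - 1 = 0 := (h _ hu).2.2 (Sum.inl ())
      linarith
    refine no_data s hs c U hU hne l hl (fun u hu => (h _ hu).2.1) ?_ ?_
    · intro u hu
      refine ⟨?_, ?_⟩
      · by_contra hcon
        obtain ⟨g, hg, hg'⟩ := Submodule.exists_le_ker_of_notMem hcon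
        exact hg (((h _ hu).2.2 (Sum.inr (Sum.inl ⟨g, hg'⟩))))
      · intro i
        have h1 : dotp (s i) (ang (l u)) - c i = 0 := (h _ hu).2.2 (Sum.inr (Sum.inr i))
        linarith
    · intro u hu x k hk
      rw [(hd u hu).fderiv] at hk
      have hder : HasFDerivAt (fun u => σ (l u)) (σ.comp ((fderiv ℝ φ (y0 + L u)).comp L)) u :=
        σ.hasFDerivAt.comp u (hd u hu)
      have hconst : (fun u => σ (l u)) =ᶠ[nhds u] fun _ => (1 : ℝ) := by
        filter_upwards [hU.mem_nhds hu] with w hw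
        rw [hσ]
        exact hsum w hw
      have hz : σ.comp ((fderiv ℝ φ (y0 + L u)).comp L) = 0 := by
        have h1 := hder.fderiv
        rw [hconst.fderiv_eq] at h1
        rw [← h1]
        exact fderiv_const_apply _
      have h2 : σ (((fderiv ℝ φ (y0 + L u)).comp L) x) = 0 := by
        have h3 := congrArg (fun Φ : ℝ × ℝ →L[ℝ] ℝ => Φ x) hz
        exact h3
      rw [hk, map_smul, hσ, hsum u hu, smul_eq_mul, mul_one] at h2
      rw [h2, zero_smul] at hk
      have h4 : fderiv ℝ φ (y0 + L u) (L x) = fderiv ℝ φ (y0 + L u) 0 := by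
        rw [map_zero]
        exact hk
      exact hL0 x ((h _ hu).1 h4)

theorem shapes_eq : ∃ γ : ℕ → ℝ → V6, (∀ n, GArc shapes (γ n)) ∧
    shapes = ⋃ n, γ n '' Set.Ioo (-1) 1 := by
  classical
  let J : Type := Σ k : ℕ, (Fin k → Fin 6 → ℤ) × (Fin k → ℚ)
  let Z : J → Set V6 := fun j =>
    if LinearIndependent ℝ (fun i => iv (j.2.1 i)) then
      {x : V6 | x ∈ T ∧ ∑ e, x e = 1 ∧
        x ∈ Submodule.span ℝ (Set.range fun i => iv (j.2.1 i)) ∧
        ∀ i, dotp (iv (j.2.1 i)) (ang x) = π * (j.2.2 i : ℝ)}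
    else ∅
  have hsub : ∀ j, Z j ⊆ shapes := by
    intro j x hx
    by_cases h : LinearIndependent ℝ (fun i => iv (j.2.1 i))
    · have e : Z j = {x : V6 | x ∈ T ∧ ∑ e, x e = 1 ∧
        x ∈ Submodule.span ℝ (Set.range fun i => iv (j.2.1 i)) ∧
        ∀ i, dotp (iv (j.2.1 i)) (ang x) = π * (j.2.2 i : ℝ)} := if_pos h
      rw [e] at hx
      obtain ⟨hxT, hx1, hxP, hxc⟩ := hx
      obtain ⟨a, b, c, d, hind, hl⟩ := realize hxT
      refine ⟨a, b, c, d, hind, ?_, 1, one_pos, ?_, hx1⟩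
      · refine dehn_of_data j.2.1 j.2.2 ?_ ?_
        · rw [hl]
          exact hxP
        · rw [← ang_lenv hind, hl]
          exact hxc
      · rw [one_smul, hl]
    · have e : Z j = ∅ := if_neg h
      rw [e] at hx
      exact absurd hx (Set.notMem_empty x)
  have hZ : ∀ j, ArcsIn shapes (Z j) := by
    intro j
    by_cases h : LinearIndependent ℝ (fun i => iv (j.2.1 i))
    · have e : Z j = {x : V6 | x ∈ T ∧ ∑ e, x e = 1 ∧
        x ∈ Submodule.span ℝ (Set.range fun i => iv (j.2.1 i)) ∧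
        ∀ i, dotp (iv (j.2.1 i)) (ang x) = π * (j.2.2 i : ℝ)} := if_pos h
      have h1 : ArcsIn (Z j) (Z j) := by
        rw [e]
        exact arcsIn_data _ h _
      exact h1.mono (hsub j) subset_rfl
    · have e : Z j = ∅ := if_neg h
      rw [e]
      have h1 := ArcsIn.iUnion (ι := Empty) (Z := shapes) (A := fun _ => ∅) (fun i => i.elim)
      exact h1.mono subset_rfl (Set.empty_subset _)
  have hcov : shapes ⊆ ⋃ j, Z j := by
    rintro l ⟨a, b, c, d, hind, hd, k', hk', hl, hsum⟩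
    obtain ⟨k, s, r, hs, hsp, hr⟩ := dehn_data hd
    refine Set.mem_iUnion.2 ⟨⟨k, s, r⟩, ?_⟩
    have e : Z ⟨k, s, r⟩ = {x : V6 | x ∈ T ∧ ∑ e, x e = 1 ∧
          x ∈ Submodule.span ℝ (Set.range fun i => iv (s i)) ∧
          ∀ i, dotp (iv (s i)) (ang x) = π * (r i : ℝ)} := if_pos hs
    rw [e]
    refine ⟨?_, hsum, ?_, ?_⟩
    · rw [hl]
      exact smul_mem_T (lenv_mem hind) hk'
    · rw [hl]
      exact Submodule.smul_mem _ _ hsp
    · rw [hl, ang_smul hk', ang_lenv hind]
      exact hr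
  have hne : shapes.Nonempty := by
    rw [Set.nonempty_iff_ne_empty]
    intro h
    have h1 := one_le_dimH
    rw [h, dimH_empty] at h1
    exact absurd h1 (by norm_num)
  exact ArcsIn.eq ((ArcsIn.iUnion hZ).mono subset_rfl hcov) hne

end Pool.Agent.helper37.NL
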