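import Pool.Agent.helper37.NL.Fcl

/-!
NL-10 (Ppf).  Two boundary rays with one zero each are impossible.

PROOF of `pp_half`.  Notation `α = -Bx 2`, `β = -By 2 > 0`, `δ = Ry 1 > β`, `ζ = Ry 2 > β`.  By
hypothesis `Rx 0 = 1, Ry 0 = 0, -Bx 1 = 1, By 1 = 0`.  Take `m` from `fc`.  The pair
`(Rx 0, -Bx 1)`: `0` is in the red class iff `1 = m` iff `1` is in the blue class, with weight `1` on
both sides.
If `2` is in the blue class (`α = m (1 + β)`, weight `1 + β`): subtracting the equal contributions of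
`Rx 0` and `-Bx 1`, the equality of sums says `(1 + δ or 0) + (1 + ζ or 0) = 1 + β`; but `1 + δ > 1 + β`,
`1 + ζ > 1 + β` and `1 + β > 0`, contradiction in all four cases.
So `2` is not in the blue class; the sum is positive, so `1` is, `m = 1`, and
`m (1 + β) ≤ α`, `α ≠ m (1 + β)` give `1 + β < α`.

PROOF of `pp_false`.  Notation: `h` has `Bx = (0, -1, -α, *)`, `By = (-1, 0, -β, *)`,
`Rx = (1, γ, ε, 0)`, `Ry = (0, δ, ζ, 1)`; `h'` is the same configuration with the two coordinates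
exchanged and relabelled.  `h'.bx 2`: `β > 0`.  `h'.q1`: `1 * δ * ζ = By 1' ...`, i.e.
`Ry 3 * Ry 1 * Ry 2 = By 0 * By 2 * By 3`, i.e. `δ ζ = β (By 3)` with (by `h.sy`)
`By 3 = 2 + β + δ + ζ`.  Since `δ, ζ > 0` (`h'.rx`): `δ ζ > β ζ` and `δ ζ > β δ`, so `δ > β` and `ζ > β`.
Similarly `h.q1`: `γ ε = α (2 + α + γ + ε)`, so `γ, ε > α > 0`.
`pp_half` for `h`: `1 + β < α`; `pp_half` for `h'`: `1 + α < β`.  Contradiction.
-/

namespace Pool.Agent.helper37.NL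

open Real Pool.Agent.helper37.NP Pool.Agent.Helper93.Tet

theorem pp_half {Bx By Rx Ry : V4} (h : PC Bx By Rx Ry) (h1 : Bx 1 = -1) (h2 : By 1 = 0)
    (h3 : Rx 0 = 1) (h4 : Ry 0 = 0) (hb : By 2 < 0) (hd : -By 2 < Ry 1) (hz : -By 2 < Ry 2) :
    1 - By 2 < -Bx 2 := by
  obtain ⟨m, hm, -, hB, hsum, hpos⟩ := fc h
  have hB2 := hB 2 (by decide) (by decide)
  have t0 : (if Rx 0 = m * (1 + Ry 0) then 1 + Ry 0 else 0) = if m = 1 then (1 : ℝ) else 0 := by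
    rw [h3, h4]
    by_cases hm1 : m = 1
    · rw [if_pos hm1, if_pos (by rw [hm1]; norm_num)]
      norm_num
    · rw [if_neg hm1, if_neg (fun hh => hm1 (by linarith))]
  have t1 : (if -Bx 1 = m * (1 - By 1) then 1 - By 1 else 0) = if m = 1 then (1 : ℝ) else 0 := by
    rw [h1, h2]
    by_cases hm1 : m = 1
    · rw [if_pos hm1, if_pos (by rw [hm1]; norm_num)]
      norm_num
    · rw [if_neg hm1, if_neg (fun hh => hm1 (by linarith))]
  rw [t0, t1] at hsum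
  rw [t1] at hpos
  by_cases hc : -Bx 2 = m * (1 - By 2)
  · exfalso
    rw [if_pos hc] at hsum
    have g1 : (0 : ℝ) ≤ if Rx 1 = m * (1 + Ry 1) then 1 + Ry 1 else 0 := by
      split_ifs <;> linarith
    have g2 : (0 : ℝ) ≤ if Rx 2 = m * (1 + Ry 2) then 1 + Ry 2 else 0 := by
      split_ifs <;> linarith
    by_cases c1 : Rx 1 = m * (1 + Ry 1)
    · rw [if_pos c1] at hsum
      linarith
    · by_cases c2 : Rx 2 = m * (1 + Ry 2)
      · rw [if_pos c2] at hsum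
        linarith
      · rw [if_neg c1, if_neg c2] at hsum
        linarith
  · rw [if_neg hc, add_zero] at hpos
    have hm1 : m = 1 := by
      by_contra hne
      rw [if_neg hne] at hpos
      exact lt_irrefl _ hpos
    subst hm1
    rcases lt_or_eq_of_le hB2 with hlt | heq
    · linarith
    · exact absurd heq.symm hc

private theorem Ppf_lt {a c d : ℝ} (ha : 0 < a) (hc : 0 < c) (hd : 0 < d)
    (h : c * d = a * (2 + a + c + d)) : a < c ∧ a < d := by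
  constructor
  · by_contra hh
    push Not at hh
    nlinarith [mul_nonneg (sub_nonneg.mpr hh) hd.le, mul_pos ha ha, mul_pos ha hc]
  · by_contra hh
    push Not at hh
    nlinarith [mul_nonneg (sub_nonneg.mpr hh) hc.le, mul_pos ha ha, mul_pos ha hd]

theorem pp_false {Bx By Rx Ry : V4} (h : PC Bx By Rx Ry) (h1 : Bx 1 = -1) (h2 : By 1 = 0)
    (h3 : Rx 0 = 1) (h4 : Ry 0 = 0)
    (h' : PC ![By 1, By 0, By 2, By 3] ![Bx 1, Bx 0, Bx 2, Bx 3] ![Ry 3, Ry 1, Ry 2, Ry 0]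
      ![Rx 3, Rx 1, Rx 2, Rx 0]) : False := by
  have hb : By 2 < 0 := h'.bx 2 (by decide) (by decide)
  have ha : Bx 2 < 0 := h.bx 2 (by decide) (by decide)
  have hδ : 0 < Ry 1 := h'.rx 1 (by decide)
  have hζ : 0 < Ry 2 := h'.rx 2 (by decide)
  have hγ : 0 < Rx 1 := h.rx 1 (by decide)
  have hε : 0 < Rx 2 := h.rx 2 (by decide)
  have q1 : Rx 0 * Rx 1 * Rx 2 = Bx 1 * Bx 2 * Bx 3 := h.q1
  have q1' : Ry 3 * Ry 1 * Ry 2 = By 0 * By 2 * By 3 := h'.q1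
  have sx : Bx 0 + Bx 1 + Bx 2 + Bx 3 = Rx 0 + Rx 1 + Rx 2 + Rx 3 := h.sx
  have sy : By 0 + By 1 + By 2 + By 3 = Ry 0 + Ry 1 + Ry 2 + Ry 3 := h.sy
  have bx0 := h.bx0
  have by0 := h.by0
  have rx3 := h.rx3
  have ry3 := h.ry3
  have hB3 : Bx 3 = 2 + -Bx 2 + Rx 1 + Rx 2 := by linarith
  have hB3' : By 3 = 2 + -By 2 + Ry 1 + Ry 2 := by linarith
  have e1 : Rx 1 * Rx 2 = -Bx 2 * (2 + -Bx 2 + Rx 1 + Rx 2) := by
    rw [h3, h1, hB3] at q1
    linarith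
  have e2 : Ry 1 * Ry 2 = -By 2 * (2 + -By 2 + Ry 1 + Ry 2) := by
    rw [ry3, by0, hB3'] at q1'
    linarith
  obtain ⟨f1, f2⟩ := Ppf_lt (by linarith) hγ hε e1
  obtain ⟨f3, f4⟩ := Ppf_lt (by linarith) hδ hζ e2
  have g1 := pp_half h h1 h2 h3 h4 hb f3 f4
  have g2 : 1 - Bx 2 < -By 2 := pp_half (Bx := ![By 1, By 0, By 2, By 3])
    (By := ![Bx 1, Bx 0, Bx 2, Bx 3]) (Rx := ![Ry 3, Ry 1, Ry 2, Ry 0])
    (Ry := ![Rx 3, Rx 1, Rx 2, Rx 0]) h' by0 bx0 ry3 rx3 ha f1 f2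
  linarith

end Pool.Agent.helper37.NL
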