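import Pool.Agent.helper37.NL.Mkc
import Pool.Agent.helper37.NL.Ppf

/-!
NL-23 (GeA).  Two boundary rays with exactly one zero each are impossible.

PROOF.  `j0, j1` are the zeros at `q, p`; `j0 ≠ j1` by `r.one j0`.  `one_zero` for `r` gives `v0`
(`sg s v0 - ρ(s) = ρ(s) - Q s j0` on `S`, `W q = 0`), for `r.symm` gives `v1`
(`sg s v1 - ρ(s) = ρ(s) - Q s j1`, `W p = 0`).  `v0 ≠ v1`: at `s = q` the first right side is `0`, the
second is `ρ(q) - Q q j1 > 0`.  Put `a = 1 / (ρ(q) - Q q j1)`, `b = 1 / (ρ(p) - Q p j0)`, `q' = a q`,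
`p' = b p` (`Rays.scale`; the hypotheses of `one_zero` and all equalities scale).  Now
`ρ(q') - Q q' j1 = 1`, `ρ(p') - Q p' j0 = 1`.  Choose permutations `pp, rr` of `Fin 4` with `pp 3 = 3`,
`pp 0 = j0`, `pp 1 = j1` (`BB l (pp 0) = Q l j0` etc., the two index types `Fin 3`, `Fin 4`: by
`fin_cases j0 <;> fin_cases j1`, or lemma `exists_pp`), `rr 3 = v0`, `rr 0 = v1` (`exists_rr`).
`mk_PC` for `(q', p', pp, rr)` gives `h : PC Bx By Rx Ry` with `Bx 1 = -1`, `By 1 = 0`, `Rx 0 = 1`,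
`Ry 0 = 0` (from the two wall identities).
`mk_PC` for `(p', q', pp * swap 0 1, rr * swap 0 3)` (i.e. `i ↦ pp (swap 0 1 i)`) gives `PC` of exactly
the exchanged vectors `![By 1, By 0, By 2, By 3]`, ... (`funext`, `Fin.cases`/`fin_cases`).  `pp_false`.
`exists_pp`, `exists_rr`: `decide` (finitely many cases), or explicit permutations.
-/

namespace Pool.Agent.helper37.NL

open Real Pool.Agent.helper37.NP Pool.Agent.Helper93.Tet

variable {S : Submodule ℝ V6} {c : V6 →ₗ[ℝ] ℝ}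

theorem exists_pp (j0 j1 : Fin 3) (h : j0 ≠ j1) :
    ∃ p : Equiv.Perm (Fin 4), p 3 = 3 ∧ p 0 = Fin.castSucc j0 ∧ p 1 = Fin.castSucc j1 := by
  revert j0 j1
  decide

theorem exists_rr (v0 v1 : Fin 4) (h : v0 ≠ v1) :
    ∃ p : Equiv.Perm (Fin 4), p 3 = v0 ∧ p 0 = v1 := by
  revert v0 v1
  decide

theorem exists_rr3 (v0 v1 v2 : Fin 4) (h : v0 ≠ v1) (h' : v0 ≠ v2) (h'' : v1 ≠ v2) :
    ∃ p : Equiv.Perm (Fin 4), p 3 = v0 ∧ p 0 = v1 ∧ p 1 = v2 := by
  revert v0 v1 v2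
  decide

theorem BB_castSucc (l : V6) (j : Fin 3) : BB l (Fin.castSucc j) = Q l j := by
  fin_cases j <;> rfl

private theorem ex_cast {pp : Equiv.Perm (Fin 4)} (h3 : pp 3 = 3) {i : Fin 4} (hi : i ≠ 3) :
    ∃ k : Fin 3, pp i = Fin.castSucc k := by
  have hne : pp i ≠ 3 := by
    intro h'
    rw [← h3] at h'
    exact hi (pp.injective h')
  generalize pp i = k at hne
  fin_cases k
  · exact ⟨0, rfl⟩
  · exact ⟨1, rfl⟩
  · exact ⟨2, rfl⟩
  · exact absurd rfl hne

private theorem geA' (h : FS S c) {q p : V6} (r : Rays S c q p) {j0 j1 : Fin 3}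
    (hj : Q q j0 = c q / π) (hk : ∀ k, k ≠ j0 → Q q k < c q / π) (hj1 : Q p j1 = c p / π)
    (hk1 : ∀ k, k ≠ j1 → Q p k < c p / π) (hn : c q / π - Q q j1 = 1)
    (hn' : c p / π - Q p j0 = 1) : False := by
  have hne : j0 ≠ j1 := by
    rintro rfl
    linarith
  obtain ⟨v0, hWq, hv0⟩ := one_zero h r hj hk
  obtain ⟨v1, hWp, hv1⟩ := one_zero h r.symm hj1 hk1
  have hvne : v0 ≠ v1 := by
    rintro rfl
    have e1 := hv0 q r.qS
    have e2 := hv1 q r.qS
    linarith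
  obtain ⟨pp, h3, h0, h1⟩ := exists_pp j0 j1 hne
  obtain ⟨rr, g3, g0⟩ := exists_rr v0 v1 hvne
  obtain ⟨k, hk2⟩ := ex_cast h3 (i := 2) (by decide)
  have hkj0 : k ≠ j0 := by
    rintro rfl
    have : pp 2 = pp 0 := by rw [hk2, h0]
    exact absurd (pp.injective this) (by decide)
  have hkj1 : k ≠ j1 := by
    rintro rfl
    have : pp 2 = pp 1 := by rw [hk2, h1]
    exact absurd (pp.injective this) (by decide)
  have b0 : ∀ l : V6, BB l (pp 0) = Q l j0 := fun l => by rw [h0, BB_castSucc]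
  have b1 : ∀ l : V6, BB l (pp 1) = Q l j1 := fun l => by rw [h1, BB_castSucc]
  have b2 : ∀ l : V6, BB l (pp 2) = Q l k := fun l => by rw [hk2, BB_castSucc]
  have P1 := mk_PC h r pp rr h3 (by rw [b0, hj]) (by rw [b1]; exact hk j1 hne.symm)
    (by rw [b2]; exact hk k hkj0) (by rw [b0]; linarith) hWq
    (fun s hs => by rw [g3, b0]; exact hv0 s hs)
  have P2 := mk_PC h r.symm (pp * Equiv.swap 0 1) (rr * Equiv.swap 0 3) (by
      rw [Equiv.Perm.mul_apply, Equiv.swap_apply_of_ne_of_ne (by decide) (by decide), h3])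
    (by rw [Equiv.Perm.mul_apply, Equiv.swap_apply_left, b1, hj1])
    (by rw [Equiv.Perm.mul_apply, Equiv.swap_apply_right, b0]; exact hk1 j0 hne)
    (by rw [Equiv.Perm.mul_apply, Equiv.swap_apply_of_ne_of_ne (by decide) (by decide), b2]
        exact hk1 k hkj1)
    (by rw [Equiv.Perm.mul_apply, Equiv.swap_apply_left, b1]; linarith) hWp
    (fun s hs => by
      rw [Equiv.Perm.mul_apply, Equiv.swap_apply_right, Equiv.Perm.mul_apply,
        Equiv.swap_apply_left, g0, b1]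
      exact hv1 s hs)
  refine pp_false P1 ?_ ?_ ?_ ?_ ?_
  · show BB q (pp 1) - c q / π = -1
    rw [b1]; linarith
  · show BB p (pp 1) - c p / π = 0
    rw [b1, hj1, sub_self]
  · show sg q (rr 0) - c q / π = 1
    rw [g0, hv1 q r.qS]; exact hn
  · show sg p (rr 0) - c p / π = 0
    rw [g0, hv1 p r.pS, hj1, sub_self]
  · have s01 : ∀ f : V4, (![f 1, f 0, f 2, f 3] : V4) = fun i => f (Equiv.swap 0 1 i) := by
      intro f; funext i; fin_cases i <;> rfl
    have s03 : ∀ f : V4, (![f 3, f 1, f 2, f 0] : V4) = fun i => f (Equiv.swap 0 3 i) := by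
      intro f; funext i; fin_cases i <;> rfl
    have t1 := s01 (fun i => BB q (pp i) - c q / π)
    have t2 := s01 (fun i => BB p (pp i) - c p / π)
    have t3 := s03 (fun v => sg q (rr v) - c q / π)
    have t4 := s03 (fun v => sg p (rr v) - c p / π)
    rw [t1, t2, t3, t4]
    exact P2

theorem geA (h : FS S c) {q p : V6} (r : Rays S c q p) {j0 j1 : Fin 3} (hj : Q q j0 = c q / π)
    (hk : ∀ k, k ≠ j0 → Q q k < c q / π) (hj1 : Q p j1 = c p / π)
    (hk1 : ∀ k, k ≠ j1 → Q p k < c p / π) : False := by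
  have hne : j0 ≠ j1 := by
    rintro rfl
    rcases r.one j0 with h' | h' <;> linarith
  have ha : 0 < c q / π - Q q j1 := by
    have := hk j1 hne.symm
    linarith
  have hb : 0 < c p / π - Q p j0 := by
    have := hk1 j0 hne
    linarith
  set a := c q / π - Q q j1 with had
  set b := c p / π - Q p j0 with hbd
  have ha' : 0 < a⁻¹ := inv_pos.2 ha
  have hb' : 0 < b⁻¹ := inv_pos.2 hb
  have hc : ∀ (k : ℝ) (s : V6), c (k • s) / π = k * (c s / π) := by
    intro k s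
    rw [map_smul, smul_eq_mul, mul_div_assoc]
  refine geA' h (r.scale ha' hb') (j0 := j0) (j1 := j1) ?_ ?_ ?_ ?_ ?_ ?_
  · rw [Q_smul, hc, hj]
  · intro k hk'
    rw [Q_smul, hc]
    exact mul_lt_mul_of_pos_left (hk k hk') ha'
  · rw [Q_smul, hc, hj1]
  · intro k hk'
    rw [Q_smul, hc]
    exact mul_lt_mul_of_pos_left (hk1 k hk') hb'
  · rw [Q_smul, hc, ← mul_sub, ← had]
    exact inv_mul_cancel₀ ha.ne'
  · rw [Q_smul, hc, ← mul_sub, ← hbd]
    exact inv_mul_cancel₀ hb.ne'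

end Pool.Agent.helper37.NL
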