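import Pool.Agent.helper37.NL.PQb
import Pool.Agent.helper37.NL.Kfl

/-!
NL-12 (Pq3).  The double end with three vanishing red forms is impossible (`δ = Ry 2 = 0`).

PROOF.  `a1, a2, b0, b1, g > 0` as in `PQ.shape`, `d = 0`, `A = a1 + a2`, `s = A + b0 + b1 + g`.  At the
parameter `s` the numbers are `B = (s, -a1, -a2, s - 2 s) = (s, -a1, -a2, -s)` and
`R = (b0, b1, g, -s)`.  The only coincidence is `(3, 3)`: `B 0 = s` is larger than `b0, b1, g` and
different from `-s`; `-a1, -a2` are negative, different from `b0, b1, g`, and `a1, a2 < s`; `-s` is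
different from `b0, b1, g`.  Its weight is `By 3 - Ry 3 = 2 - 1 = 1`, so `h.bal s` says
`Kf B R 3 3 = 0`, by `Kf_prod`
`(-s - s) (-s + a1) (-s + a2) - (-s - b0) (-s - b1) (-s - g) = 0`, i.e.
`(s + b0) (s + b1) (s + g) = 2 s (s - a1) (s - a2)`.
With `b0 b1 g = a1 a2 s` (`q1`) the left side is
`s³ + (s - A) s² + (b0 b1 + b0 g + b1 g) s + a1 a2 s`, the right side `2 s³ - 2 A s² + 2 a1 a2 s`, the
difference is `s (A s + b0 b1 + b0 g + b1 g - a1 a2) > 0` because `A s > a1 s > a1 a2`.  Contradiction.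
-/

namespace Pool.Agent.helper37.NL

open Real Pool.Agent.helper37.NP Pool.Agent.Helper93.Tet

theorem pq3_false {Bx By Rx Ry : V4} (h : PQ Bx By Rx Ry) (hd : Ry 2 = 0) : False := by
  obtain ⟨a1, a2, b0, b1, g, d, ha1, ha2, hb0, hb1, hg, hd0, hq, rfl, rfl, rfl, rfl⟩ := h.shape
  have hd' : d = 0 := by simpa using hd
  subst hd'
  obtain ⟨s, hs⟩ : ∃ s, s = a1 + a2 + b0 + b1 + g := ⟨_, rfl⟩
  rw [← hs] at hq
  have hs0 : 0 < s := by rw [hs]; positivity
  have hb := h.bal s
  rw [← hs] at hb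
  have c00 : ¬ (0 - s * (-1) = b0 - s * 0) := by intro h; linarith
  have c01 : ¬ (0 - s * (-1) = b1 - s * 0) := by intro h; linarith
  have c02 : ¬ (0 - s * (-1) = g - s * 0) := by intro h; linarith
  have c03 : ¬ (0 - s * (-1) = 0 - s * 1) := by intro h; linarith
  have c10 : ¬ (-a1 - s * 0 = b0 - s * 0) := by intro h; linarith
  have c11 : ¬ (-a1 - s * 0 = b1 - s * 0) := by intro h; linarith
  have c12 : ¬ (-a1 - s * 0 = g - s * 0) := by intro h; linarith
  have c13 : ¬ (-a1 - s * 0 = 0 - s * 1) := by intro h; linarith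
  have c20 : ¬ (-a2 - s * 0 = b0 - s * 0) := by intro h; linarith
  have c21 : ¬ (-a2 - s * 0 = b1 - s * 0) := by intro h; linarith
  have c22 : ¬ (-a2 - s * 0 = g - s * 0) := by intro h; linarith
  have c23 : ¬ (-a2 - s * 0 = 0 - s * 1) := by intro h; linarith
  have c30 : ¬ (s - s * (2 + 0) = b0 - s * 0) := by intro h; linarith
  have c31 : ¬ (s - s * (2 + 0) = b1 - s * 0) := by intro h; linarith
  have c32 : ¬ (s - s * (2 + 0) = g - s * 0) := by intro h; linarith
  have c33 : s - s * (2 + 0) = 0 - s * 1 := by ring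
  simp only [Fin.sum_univ_four, Matrix.cons_val_zero, Matrix.cons_val_one, Matrix.cons_val,
    if_neg c00, if_neg c01, if_neg c02, if_neg c03, if_neg c10, if_neg c11, if_neg c12,
    if_neg c13, if_neg c20, if_neg c21, if_neg c22, if_neg c23, if_neg c30, if_neg c31,
    if_neg c32, if_pos c33] at hb
  simp only [Kf, al, be, e2, e3, Pi.sub_apply, Pi.smul_apply, smul_eq_mul, Matrix.cons_val_zero,
    Matrix.cons_val_one, Matrix.cons_val] at hb
  have key : (s + b0) * (s + b1) * (s + g) = 2 * s * (s - a1) * (s - a2) := by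
    linear_combination hb - 3 * s ^ 2 * hs
  have hs1 : a2 < s := by rw [hs]; linarith
  have h1 : (s + b0) * (s + b1) * (s + g) - 2 * s * (s - a1) * (s - a2) =
      s * ((a1 + a2) * s + b0 * b1 + b0 * g + b1 * g - a1 * a2) := by
    have hg' : g = s - a1 - a2 - b0 - b1 := by rw [hs]; ring
    linear_combination hq + (s ^ 2) * hg'
  have h2 : 0 < (a1 + a2) * s + b0 * b1 + b0 * g + b1 * g - a1 * a2 := by
    have h3 : a1 * a2 < a1 * s := mul_lt_mul_of_pos_left hs1 ha1
    have h4 : 0 < a2 * s := mul_pos ha2 hs0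
    have h5 : 0 < b0 * b1 := mul_pos hb0 hb1
    have h6 : 0 < b0 * g := mul_pos hb0 hg
    have h7 : 0 < b1 * g := mul_pos hb1 hg
    nlinarith
  have h3 := mul_pos hs0 h2
  linarith

end Pool.Agent.helper37.NL
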