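import Pool.Agent.helper37.NL.KaC
import Pool.Agent.helper37.NL.Fcl
import Pool.Agent.helper37.NL.Pq3

/-!
NL-18 (Pqc).  The double end configuration is the one of the family `F1`.

NOTATION.  `a1 = -Bx 1, a2 = -Bx 2, b0 = Rx 0, b1 = Rx 1, g = Rx 2, d = Ry 2`, `A = a1 + a2`,
`B = b0 + b1`, `C = A + B`.  `d ≠ 0` by `pq3_false`, so `d > 0`.

FIRST CLASS (`fc`, with `Ry 0 = Ry 1 = By 1 = By 2 = 0`): there is `m > 0` with `m ≤ b0, b1, a1, a2`,
`m (1 + d) ≤ g` and
`[b0 = m] + [b1 = m] + [g = m (1 + d)] (1 + d) = [a1 = m] + [a2 = m] > 0` (`[.]` is `0` or `1`).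
The right side is `1` or `2`.  If `g = m (1 + d)`: since `1 + d > 1` the right side is `2`, so `a1 = a2 = m`,
and `[b0 = m] + [b1 = m] = 1 - d < 1`, so both are `0` and `d = 1`, `g = 2 m`:  (C) `a1 = a2 = m`,
`d = 1`, `g = 2 m`, `b0, b1 > m`.  Otherwise `g > m (1 + d)`:  (B) `a1 = a2 = b0 = b1 = m`, or (A) exactly
one of `a1, a2` and exactly one of `b0, b1` is `m`, the others are larger.

(B) is impossible: `q1`: `b0 b1 g = a1 a2 (C + g)` gives `g = C + g`.
(A) is impossible: by `swapB`, `swapR` we may assume `a1 = b0 = m < a2, b1`: `fa_false`.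
(C): (`class_C`)  `q1`: `b0 b1 2 m = m² (2 m + B + 2 m)`, i.e. `2 b0 b1 = m (4 m + B)`.  `E3` at
`s3 = (C + g)/(1 + d) = (4 m + B)/2` with `C = 2 m + B`: since `b0 b1 = m s3`, `E3` divided by `s3`:
`C s3 - C B + 2 (m s3 - m²) - C m = 0`, i.e. (with `B = 2 s3 - 4 m`, `C = 2 s3 - 2 m`)
`(2 s3 - 2 m) s3 - (2 s3 - 2 m)(2 s3 - 4 m) + 2 m s3 - 2 m² - (2 s3 - 2 m) m = 0`, i.e.
`-2 s3² + 10 m s3 - 8 m² = 0`, i.e. `-2 (s3 - m)(s3 - 4 m) = 0`.  Since `s3 = 2 m + B/2 > m`: `s3 = 4 m`,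
`B = 4 m`, `b0 b1 = 4 m²`, so `(b0 - b1)² = 16 m² - 16 m² = 0` and `b0 = b1 = 2 m`.
So in all cases `a1 = a2 = m`, `b0 = b1 = g = 2 m`, `d = 1`.
(Check of the polynomial with `nlinarith`/`linear_combination`; the direct form is
`B² - 2 m B - 8 m² = (B - 4 m)(B + 2 m) = 0`.)
-/

namespace Pool.Agent.helper37.NL

open Real Pool.Agent.helper37.NP Pool.Agent.Helper93.Tet

theorem class_C {Bx By Rx Ry : V4} (h : PQ Bx By Rx Ry) (hd : Ry 2 = 1) (ha : Bx 2 = Bx 1)
    (hg : Rx 2 = -2 * Bx 1) : Rx 0 = -2 * Bx 1 ∧ Rx 1 = -2 * Bx 1 := by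
  obtain ⟨m, hm⟩ : ∃ m, m = -Bx 1 := ⟨_, rfl⟩
  have hB1 : Bx 1 = -m := by linarith
  have hm0 : 0 < m := by
    have := h.bx 1 (by decide) (by decide)
    linarith
  have hb0 : 0 < Rx 0 := h.rx 0 (by decide)
  have hb1 : 0 < Rx 1 := h.rx 1 (by decide)
  obtain ⟨s, hs⟩ : ∃ s, s = (4 * m + (Rx 0 + Rx 1)) / 2 := ⟨_, rfl⟩
  have hB : Rx 0 + Rx 1 = 2 * s - 4 * m := by linarith
  have hs0 : 2 * m < s := by linarith
  have h3 : Bx 3 = 2 * s := by
    rw [h.bx3, ha, hg, hB1]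
    linarith
  have hy3 : By 3 = 3 := by
    rw [h.by3, hd]
    norm_num
  have hprod : Rx 0 * Rx 1 = m * s := by
    have hq := h.q1
    rw [h3, hg, ha, hB1] at hq
    have h4 : (2 * m) * (Rx 0 * Rx 1) = (2 * m) * (m * s) := by linarith
    exact mul_left_cancel₀ (by positivity) h4
  have hE := E3 h (by rw [hd]; norm_num) (s := s) (by rw [h3, hy3]; ring)
  rw [hprod, ha, hB1] at hE
  have hE2 : s * ((s - m) * (s - 4 * m)) = 0 := by
    have h5 : Rx 0 = 2 * s - 4 * m - Rx 1 := by linarith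
    rw [h5] at hE
    linear_combination (-1 / 2 : ℝ) * hE
  have hs4 : s = 4 * m := by
    rcases mul_eq_zero.1 hE2 with h5 | h5
    · linarith
    · rcases mul_eq_zero.1 h5 with h6 | h6
      · linarith
      · linarith
  have hsq : (Rx 0 - Rx 1) ^ 2 = 0 := by
    have h5 : (Rx 0 - Rx 1) ^ 2 = (Rx 0 + Rx 1) ^ 2 - 4 * (Rx 0 * Rx 1) := by ring
    rw [h5, hprod, hB, hs4]
    ring
  have heq : Rx 0 = Rx 1 := by
    have := pow_eq_zero_iff (two_ne_zero) |>.1 hsq
    linarith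
  constructor <;> linarith

/-- the configuration (A) is impossible, in all four positions -/
private theorem Pqc_A {Bx By Rx Ry : V4} (h : PQ Bx By Rx Ry) (hd : 0 < Ry 2) {m : ℝ}
    (hg : m * (1 + Ry 2) < Rx 2) :
    ¬ (Rx 0 = m ∧ -Bx 1 = m ∧ m < Rx 1 ∧ m < -Bx 2) := by
  rintro ⟨h1, h2, h3, h4⟩
  exact fa_false h hd (by linarith) (by linarith) (by linarith) (by rw [h1]; exact hg)

private theorem Pqc_sw : Equiv.swap (1 : Fin 4) 2 1 = 2 ∧ Equiv.swap (1 : Fin 4) 2 2 = 1 ∧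
    Equiv.swap (0 : Fin 4) 1 0 = 1 ∧ Equiv.swap (0 : Fin 4) 1 1 = 0 ∧
    Equiv.swap (0 : Fin 4) 1 2 = 2 := by decide

theorem pq_class {Bx By Rx Ry : V4} (h : PQ Bx By Rx Ry) :
    Ry 2 = 1 ∧ Bx 2 = Bx 1 ∧ Rx 0 = -2 * Bx 1 ∧ Rx 1 = -2 * Bx 1 ∧ Rx 2 = -2 * Bx 1 := by
  obtain ⟨w1, w2, w3, w4, w5⟩ := Pqc_sw
  have hd : 0 < Ry 2 := by
    rcases (h.ry 2 (by decide)).lt_or_eq with h1 | h1
    · exact h1
    · exact (pq3_false h h1.symm).elim
  obtain ⟨m, hm0, hR, hB, heq, hpos⟩ := fc h.toPC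
  have k0 := hR 0 (by decide)
  have k1 := hR 1 (by decide)
  have k2 := hR 2 (by decide)
  have l1 := hB 1 (by decide) (by decide)
  have l2 := hB 2 (by decide) (by decide)
  rw [h.r0] at k0
  rw [h.r1] at k1
  rw [h.b1] at l1
  rw [h.b2] at l2
  rw [h.r0, h.r1, h.b1, h.b2] at heq
  rw [h.b1, h.b2] at hpos
  simp only [add_zero, sub_zero, mul_one] at k0 k1 l1 l2 heq hpos
  have hq := h.q1
  rw [h.bx3] at hq
  by_cases c2 : Rx 2 = m * (1 + Ry 2)
  · -- (C)
    rw [if_pos c2] at heq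
    have hC : Ry 2 = 1 ∧ -Bx 1 = m ∧ -Bx 2 = m := by
      split_ifs at heq hpos <;> first | (exfalso; linarith) | (refine ⟨by linarith, ?_, ?_⟩ <;> assumption)
    obtain ⟨c, d1, d2⟩ := hC
    have e2 : Bx 2 = Bx 1 := by linarith
    have e3 : Rx 2 = -2 * Bx 1 := by
      rw [c2, c, ← d1]
      ring
    obtain ⟨f0, f1⟩ := class_C h c e2 e3
    exact ⟨c, e2, f0, f1, e3⟩
  · exfalso
    rw [if_neg c2] at heq
    have hg : m * (1 + Ry 2) < Rx 2 := lt_of_le_of_ne k2 (Ne.symm c2)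
    by_cases a0 : Rx 0 = m
    · by_cases a1 : Rx 1 = m
      · -- (B)
        rw [if_pos a0, if_pos a1] at heq
        have hBB : -Bx 1 = m ∧ -Bx 2 = m := by
          split_ifs at heq <;> first | (exfalso; linarith) | (constructor <;> assumption)
        obtain ⟨d1, d2⟩ := hBB
        have e1 : Bx 1 = -m := by linarith
        have e2 : Bx 2 = -m := by linarith
        rw [a0, a1, e1, e2] at hq
        have : 0 < m * m * m := by positivity
        linarith
      · have a1' : m < Rx 1 := lt_of_le_of_ne k1 (Ne.symm a1)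
        rw [if_pos a0, if_neg a1] at heq
        by_cases c : -Bx 1 = m
        · by_cases c' : -Bx 2 = m
          · rw [if_pos c, if_pos c'] at heq
            norm_num at heq
          · exact Pqc_A h hd hg ⟨a0, c, a1', lt_of_le_of_ne l2 (Ne.symm c')⟩
        · by_cases c' : -Bx 2 = m
          · refine Pqc_A h.swapB hd hg ⟨a0, ?_, a1', ?_⟩
            · rw [w1]
              exact c'
            · rw [w2]
              exact lt_of_le_of_ne l1 (Ne.symm c)
          · rw [if_neg c, if_neg c'] at heq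
            norm_num at heq
    · have a0' : m < Rx 0 := lt_of_le_of_ne k0 (Ne.symm a0)
      by_cases a1 : Rx 1 = m
      · rw [if_neg a0, if_pos a1] at heq
        have hd' : 0 < (fun v => Ry (Equiv.swap 0 1 v)) 2 := by
          show 0 < Ry (Equiv.swap 0 1 2)
          rw [w5]
          exact hd
        have hg' : m * (1 + (fun v => Ry (Equiv.swap 0 1 v)) 2) < (fun v => Rx (Equiv.swap 0 1 v)) 2 := by
          show m * (1 + Ry (Equiv.swap 0 1 2)) < Rx (Equiv.swap 0 1 2)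
          rw [w5]
          exact hg
        by_cases c : -Bx 1 = m
        · by_cases c' : -Bx 2 = m
          · rw [if_pos c, if_pos c'] at heq
            norm_num at heq
          · refine Pqc_A h.swapR hd' hg' ⟨?_, c, ?_, lt_of_le_of_ne l2 (Ne.symm c')⟩
            · rw [w3]
              exact a1
            · rw [w4]
              exact a0'
        · by_cases c' : -Bx 2 = m
          · refine Pqc_A h.swapR.swapB hd' hg' ⟨?_, ?_, ?_, ?_⟩
            · rw [w3]
              exact a1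
            · rw [w1]
              exact c'
            · rw [w4]
              exact a0'
            · rw [w2]
              exact lt_of_le_of_ne l1 (Ne.symm c)
          · rw [if_neg c, if_neg c'] at heq
            norm_num at heq
      · rw [if_neg a0, if_neg a1] at heq
        rw [← heq] at hpos
        norm_num at hpos

end Pool.Agent.helper37.NL
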