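import Pool.Agent.helper37.NL.GeA
import Pool.Agent.helper37.NL.Pqc

/-!
NL-24 (GeB).  One ray with one zero and one ray with two zeros.

PROOF of `geB`.  `r.one j0` and `hj` give `ρ(p) - Q p j0 =: h0 > 0` (`ρ = c / π`).  `one_zero` gives `v0`,
`W q = 0`.  `two_zero` gives `v ≠ w` with `sg p v = sg p w = ρ(p)`; `v, w ≠ v0` since
`sg p v0 - ρ(p) = ρ(p) - Q p j0 > 0`.  Put `p' = (1/h0) p`.  Choose `pp` with `pp 3 = 3`, `pp 0 = j0`
(`exists_pp` with any second index), `rr` with `rr 3 = v0`, `rr 0 = v`, `rr 1 = w` (`exists_rr3`).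
`mk_PC` for `(q, p')` and the equalities `By 1 = By 2 = 0`, `Ry 0 = Ry 1 = 0` give `PQ`; `pq_class`:
with `a = -Bx 1 > 0`: `Bx = (0, -a, -a, *)`, `By = (-1, 0, 0, *)`, `Rx = (2a, 2a, 2a, 0)`,
`Ry = (0, 0, 1, 1)` (indices via `pp`, `rr`).
Let `l = X q + Y p = X q + Y' p'` with `Y' = Y h0`, `x = a X`, `y = Y'`, `ρ = c l / π`.  Then
`Q l j0 = ρ - y`, the other two `Q l j = ρ - x`... precisely `BB l (pp i) = ρ + X Bx i + Y' By i`:
`Q l j0 = ρ - y`, `Q l j = ρ - x` (`j ≠ j0`), `sg l (rr 3) = ρ + y`, `sg l (rr 2) = ρ + 2x + y`,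
`sg l (rr 0) = sg l (rr 1) = ρ + 2 x`.  Since `sum of sg = 2 * sum of Q` (`sum_sg`, file `NP/Alg`):
`4 ρ + 6 x + 2 y = 2 (3 ρ - y - 2 x)`, so `ρ = 5 x + 2 y`.  Hence
`Q l j0 = 5x + y`, others `4x + 2y`; `sg l v0 = 5x + 3y`, `sg l (rr 2) = 7x + 3y`, others `7x + 2y`:
this is `Conf l` with `v2 = rr 2`.

PROOF of `conf_all`.  `exists_rays` gives `q, p, X, Y`.  Let `Zq, Zp` be the sets of the zeros of `g` at
`q`, `p`; they are nonempty and disjoint subsets of `Fin 3`.  Three cases: both have one element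
(`geA`, impossible); `Zq` has one element and `Zp` is its complement (`geB`); or conversely (`geB` for
`r.symm`, `u = Y p + X q`).  (Case distinction on the six conditions `Q q j = ρ(q)`, `Q p j = ρ(p)`.)
-/

namespace Pool.Agent.helper37.NL

open Real Pool.Agent.helper37.NP Pool.Agent.Helper93.Tet

variable {S : Submodule ℝ V6} {c : V6 →ₗ[ℝ] ℝ}

theorem geB (h : FS S c) {q p : V6} (r : Rays S c q p) {j0 : Fin 3} (hj : Q q j0 = c q / π)
    (hk : ∀ k, k ≠ j0 → Q q k < c q / π) (hk1 : ∀ k, k ≠ j0 → Q p k = c p / π)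
    {X Y : ℝ} (hX : 0 < X) (hY : 0 < Y) : Conf (X • q + Y • p) := by
  have hp0 : Q p j0 < c p / π := by
    rcases r.one j0 with h1 | h1
    · exact absurd hj h1.ne
    · exact h1
  obtain ⟨v0, hWq, hw⟩ := one_zero h r hj hk
  obtain ⟨v, w, hvw, hv, hw'⟩ := two_zero h r hp0 hk1
  have hpv0 := hw p r.pS
  have hv0 : v0 ≠ v := by
    rintro rfl
    linarith
  have hw0 : v0 ≠ w := by
    rintro rfl
    linarith
  obtain ⟨h0, hh0⟩ : ∃ h0, h0 = c p / π - Q p j0 := ⟨_, rfl⟩
  have h0pos : 0 < h0 := by rw [hh0]; linarith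
  have r' : Rays S c q ((1 / h0) • p) := by
    have := r.scale (a := 1) (b := 1 / h0) one_pos (by positivity)
    rwa [one_smul] at this
  have hne : j0 ≠ j0 + 1 := (by decide : ∀ j : Fin 3, j ≠ j + 1) j0
  obtain ⟨pp, hpp3, hpp0, hpp1⟩ := exists_pp j0 (j0 + 1) hne
  obtain ⟨rr, hrr3, hrr0, hrr1⟩ := exists_rr3 v0 v w hv0 hw0 hvw
  -- the other blue indices
  have hidx : ∀ i : Fin 4, i ≠ 0 → i ≠ 3 → ∃ k : Fin 3, k ≠ j0 ∧ pp i = Fin.castSucc k := by
    intro i hi0 hi3
    have h1 : pp i ≠ Fin.last 3 := by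
      intro h2
      exact hi3 (pp.injective (by rw [h2, hpp3]; rfl))
    obtain ⟨k, hk'⟩ := Fin.exists_castSucc_eq.2 h1
    refine ⟨k, ?_, hk'.symm⟩
    rintro rfl
    exact hi0 (pp.injective (by rw [← hk', hpp0]))
  have hcp : c ((1 / h0) • p) / π = (1 / h0) * (c p / π) := by
    rw [map_smul, smul_eq_mul, mul_div_assoc]
  have hPC := mk_PC h r' pp rr hpp3 (by rw [hpp0, BB_castSucc, hj])
    (by
      obtain ⟨k, hk0, hk2⟩ := hidx 1 (by decide) (by decide)
      rw [hk2, BB_castSucc]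
      exact hk k hk0)
    (by
      obtain ⟨k, hk0, hk2⟩ := hidx 2 (by decide) (by decide)
      rw [hk2, BB_castSucc]
      exact hk k hk0)
    (by
      rw [hpp0, BB_castSucc, Q_smul, hcp]
      have : Q p j0 = c p / π - h0 := by rw [hh0]; ring
      rw [this]
      field_simp)
    hWq
    (by
      intro s hs
      rw [hrr3, hpp0, BB_castSucc]
      exact hw s hs)
  have hPQ : PQ (fun i => BB q (pp i) - c q / π)
      (fun i => BB ((1 / h0) • p) (pp i) - c ((1 / h0) • p) / π)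
      (fun v => sg q (rr v) - c q / π)
      (fun v => sg ((1 / h0) • p) (rr v) - c ((1 / h0) • p) / π) := by
    refine { hPC with b1 := ?_, b2 := ?_, r0 := ?_, r1 := ?_ }
    · obtain ⟨k, hk0, hk2⟩ := hidx 1 (by decide) (by decide)
      show BB ((1 / h0) • p) (pp 1) - c ((1 / h0) • p) / π = 0
      rw [hk2, BB_castSucc, Q_smul, hcp, hk1 k hk0, sub_self]
    · obtain ⟨k, hk0, hk2⟩ := hidx 2 (by decide) (by decide)
      show BB ((1 / h0) • p) (pp 2) - c ((1 / h0) • p) / π = 0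
      rw [hk2, BB_castSucc, Q_smul, hcp, hk1 k hk0, sub_self]
    · show sg ((1 / h0) • p) (rr 0) - c ((1 / h0) • p) / π = 0
      rw [hrr0, sg_smul, hcp, hv, sub_self]
    · show sg ((1 / h0) • p) (rr 1) - c ((1 / h0) • p) / π = 0
      rw [hrr1, sg_smul, hcp, hw', sub_self]
  obtain ⟨c1, c2, c3, c4, c5⟩ := pq_class hPQ
  beta_reduce at c1 c2 c3 c4 c5
  obtain ⟨a, ha⟩ : ∃ a, a = c q / π - BB q (pp 1) := ⟨_, rfl⟩
  have hapos : 0 < a := by
    obtain ⟨k, hk0, hk2⟩ := hidx 1 (by decide) (by decide)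
    rw [ha, hk2, BB_castSucc]
    linarith [hk k hk0]
  obtain ⟨ρ, hρ⟩ : ∃ ρ, ρ = X * (c q / π) + Y * (c p / π) := ⟨_, rfl⟩
  have hs2 : sg p (rr 2) = c p / π + h0 := by
    rw [sg_smul, hcp] at c1
    field_simp at c1 ⊢
    linarith
  have e0 : Q (X • q + Y • p) j0 = ρ - Y * h0 := by
    rw [Q_add, Q_smul, Q_smul, hj, hρ, hh0]
    ring
  have e1' : ∀ j, j ≠ j0 → Q (X • q + Y • p) j = ρ - a * X := by
    intro j hj1
    rw [Q_add, Q_smul, Q_smul, hk1 j hj1, hρ]
    have h1 : Q q j = c q / π - a := by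
      obtain ⟨i, hi⟩ : ∃ i, pp i = Fin.castSucc j := ⟨pp.symm (Fin.castSucc j), by simp⟩
      have hi0 : i ≠ 0 := by
        rintro rfl
        rw [hpp0] at hi
        exact hj1 (Fin.castSucc_injective _ hi).symm
      have hi3 : i ≠ 3 := by
        rintro rfl
        rw [hpp3] at hi
        exact absurd hi.symm (Fin.castSucc_lt_last j).ne
      have h2 : BB q (pp i) = c q / π - a := by
        have : i = 1 ∨ i = 2 := by
          revert hi0 hi3
          clear hi
          revert i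
          decide
        rcases this with rfl | rfl
        · rw [ha]; ring
        · rw [ha]; linarith
      rw [← h2, hi, BB_castSucc]
    rw [h1]
    ring
  have f3 : sg (X • q + Y • p) (rr 3) = ρ + Y * h0 := by
    have h1 := hw q r.qS
    rw [sg_add, sg_smul, sg_smul, hρ, hrr3, hh0]
    have h2 : sg q v0 = c q / π := by linarith
    have h3 : sg p v0 = c p / π + (c p / π - Q p j0) := by linarith
    rw [h2, h3]
    ring
  have f2 : sg (X • q + Y • p) (rr 2) = ρ + 2 * (a * X) + Y * h0 := by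
    rw [sg_add, sg_smul, sg_smul, hρ, hs2]
    have h2 : sg q (rr 2) = c q / π + 2 * a := by rw [ha]; linarith
    rw [h2]
    ring
  have f0 : sg (X • q + Y • p) (rr 0) = ρ + 2 * (a * X) := by
    have h2 : sg q (rr 0) = c q / π + 2 * a := by rw [ha]; linarith
    rw [sg_add, sg_smul, sg_smul, hρ, h2, hrr0, hv]
    ring
  have f1 : sg (X • q + Y • p) (rr 1) = ρ + 2 * (a * X) := by
    have h2 : sg q (rr 1) = c q / π + 2 * a := by rw [ha]; linarith
    rw [sg_add, sg_smul, sg_smul, hρ, h2, hrr1, hw']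
    ring
  have hsum := sum_sg (X • q + Y • p)
  have hs1 : sg (X • q + Y • p) 0 + sg (X • q + Y • p) 1 + sg (X • q + Y • p) 2 +
      sg (X • q + Y • p) 3 = 4 * ρ + 6 * (a * X) + 2 * (Y * h0) := by
    have h1 := Equiv.sum_comp rr (fun v => sg (X • q + Y • p) v)
    rw [Fin.sum_univ_four, Fin.sum_univ_four] at h1
    rw [← h1, f0, f1, f2, f3]
    ring
  have hs2' : Q (X • q + Y • p) 0 + Q (X • q + Y • p) 1 + Q (X • q + Y • p) 2 =
      3 * ρ - Y * h0 - 2 * (a * X) := by
    have h3 : ∀ j : Fin 3, j = 0 ∨ j = 1 ∨ j = 2 := by decide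
    rcases h3 j0 with h4 | h4 | h4
    · rw [h4] at e0 e1'
      rw [e0, e1' 1 (by decide), e1' 2 (by decide)]
      ring
    · rw [h4] at e0 e1'
      rw [e0, e1' 0 (by decide), e1' 2 (by decide)]
      ring
    · rw [h4] at e0 e1'
      rw [e0, e1' 0 (by decide), e1' 1 (by decide)]
      ring
  rw [hs1, hs2'] at hsum
  have hρ' : ρ = 5 * (a * X) + 2 * (Y * h0) := by linarith
  refine ⟨j0, rr 3, rr 2, a * X, Y * h0, ?_, mul_pos hapos hX, mul_pos hY h0pos, ?_, ?_, ?_, ?_, ?_⟩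
  · intro h1
    exact absurd (rr.injective h1) (by decide)
  · rw [e0, hρ']; ring
  · intro j hj1
    rw [e1' j hj1, hρ']; ring
  · rw [f3, hρ']; ring
  · rw [f2, hρ']; ring
  · intro u hu3 hu2
    obtain ⟨i, rfl⟩ := rr.surjective u
    have : i = 0 ∨ i = 1 := by
      have h3 : i ≠ 3 := fun h => hu3 (by rw [h])
      have h2 : i ≠ 2 := fun h => hu2 (by rw [h])
      clear hu3 hu2
      revert i
      decide
    rcases this with rfl | rfl
    · rw [f0, hρ']; ring
    · rw [f1, hρ']; ring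

theorem conf_all (h : FS S c) {u : V6} (hu : u ∈ S) (hu' : ∀ j, Q u j < c u / π) : Conf u := by
  obtain ⟨q, p, X, Y, r, hX, hY, rfl⟩ := exists_rays h hu hu'
  obtain ⟨j0, hj0⟩ := r.qz
  obtain ⟨j1, hj1⟩ := r.pz
  have hne : j0 ≠ j1 := by
    rintro rfl
    rcases r.one j0 with h1 | h1
    · exact h1.ne hj0
    · exact h1.ne hj1
  obtain ⟨j2, -, -, hall⟩ : ∃ j2, j2 ≠ j0 ∧ j2 ≠ j1 ∧ ∀ k, k = j0 ∨ k = j1 ∨ k = j2 := by
    revert hne
    clear hj0 hj1
    revert j0 j1
    decide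
  have hp0 : Q p j0 < c p / π := (r.one j0).resolve_left hj0.not_lt
  have hq1 : Q q j1 < c q / π := (r.one j1).resolve_right hj1.not_lt
  by_cases hq2 : Q q j2 = c q / π
  · have hp2 : Q p j2 < c p / π := (r.one j2).resolve_left hq2.not_lt
    rw [add_comm]
    refine geB h r.symm hj1 ?_ ?_ hY hX
    · intro k hk
      rcases hall k with rfl | rfl | rfl
      · exact hp0
      · exact absurd rfl hk
      · exact hp2
    · intro k hk
      rcases hall k with rfl | rfl | rfl
      · exact hj0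
      · exact absurd rfl hk
      · exact hq2
  · have hq2' : Q q j2 < c q / π := lt_of_le_of_ne (r.q0 j2) hq2
    by_cases hp2 : Q p j2 = c p / π
    · refine geB h r hj0 ?_ ?_ hX hY
      · intro k hk
        rcases hall k with rfl | rfl | rfl
        · exact absurd rfl hk
        · exact hq1
        · exact hq2'
      · intro k hk
        rcases hall k with rfl | rfl | rfl
        · exact absurd rfl hk
        · exact hj1
        · exact hp2
    · have hp2' : Q p j2 < c p / π := lt_of_le_of_ne (r.p0 j2) hp2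
      refine (geA h r hj0 ?_ hj1 ?_).elim
      · intro k hk
        rcases hall k with rfl | rfl | rfl
        · exact absurd rfl hk
        · exact hq1
        · exact hq2'
      · intro k hk
        rcases hall k with rfl | rfl | rfl
        · exact hp0
        · exact absurd rfl hk
        · exact hp2'

end Pool.Agent.helper37.NL
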