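import Pool.Agent.helper37.NL.Defs

/-!
NL-08 (Inv).  Invariance under permutations and under a common shift.

PROOFS.  Permutations: `e1, e2, e3, e4` are polynomials in the power sums `p_k = ∑ i, x i ^ k`
(`e2 = (p1² - p2)/2`, `e3 = (p1³ - 3 p1 p2 + 2 p3)/6`,
`e4 = (p1⁴ - 6 p1² p2 + 3 p2² + 8 p1 p3 - 6 p4)/24`, by `ring` after `Fin.sum_univ_four`), and power sums
are invariant by `Equiv.sum_comp`.
Shift: for `B' = B - r`, `R' = R - r` and `e1 B = e1 R`: `al' = al`, `be' = be + 2 r al`,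
`ga' = ga + r be + r² al` (`ring` after eliminating `R 3`), so `Wf' = Wf`, `Kf' = Kf`.
`Bal_shift`, `Bal_perm`: the conditions and the weights `n1 (Bx i - Rx v) + n2 (By i - Ry v)` do not
change under the shift (`(Bx i - r) - (Rx v - r) = Bx i - Rx v`), and `Kf` is invariant because
`X • (Bx - r) + Y • (By - r') = (X • Bx + Y • By) - (X r + Y r')`; for permutations use
`Equiv.sum_comp` twice.
-/

namespace Pool.Agent.helper37.NL

open Real Pool.Agent.helper37.NP Pool.Agent.Helper93.Tet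

private theorem inv_ps (x : V4) (p : Equiv.Perm (Fin 4)) (k : ℕ) :
    ∑ i, x (p i) ^ k = ∑ i, x i ^ k :=
  Equiv.sum_comp p (fun i => x i ^ k)

theorem e1_perm (x : V4) (p : Equiv.Perm (Fin 4)) : e1 (fun i => x (p i)) = e1 x := by
  have h := inv_ps x p 1
  simp only [Fin.sum_univ_four, pow_one] at h
  simp only [e1]
  linarith

theorem e2_perm (x : V4) (p : Equiv.Perm (Fin 4)) : e2 (fun i => x (p i)) = e2 x := by
  have h1 := inv_ps x p 1
  have h2 := inv_ps x p 2
  have e : ∀ y : V4, e2 y = ((∑ i, y i ^ 1) ^ 2 - ∑ i, y i ^ 2) / 2 := by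
    intro y
    simp only [Fin.sum_univ_four, e2]
    ring
  rw [e, e, h1, h2]

theorem e3_perm (x : V4) (p : Equiv.Perm (Fin 4)) : e3 (fun i => x (p i)) = e3 x := by
  have h1 := inv_ps x p 1
  have h2 := inv_ps x p 2
  have h3 := inv_ps x p 3
  have e : ∀ y : V4, e3 y = ((∑ i, y i ^ 1) ^ 3 - 3 * (∑ i, y i ^ 1) * ∑ i, y i ^ 2
      + 2 * ∑ i, y i ^ 3) / 6 := by
    intro y
    simp only [Fin.sum_univ_four, e3]
    ring
  rw [e, e, h1, h2, h3]

theorem e4_perm (x : V4) (p : Equiv.Perm (Fin 4)) : e4 (fun i => x (p i)) = e4 x := by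
  have h1 := inv_ps x p 1
  have h2 := inv_ps x p 2
  have h3 := inv_ps x p 3
  have h4 := inv_ps x p 4
  have e : ∀ y : V4, e4 y = ((∑ i, y i ^ 1) ^ 4 - 6 * (∑ i, y i ^ 1) ^ 2 * (∑ i, y i ^ 2)
      + 3 * (∑ i, y i ^ 2) ^ 2 + 8 * (∑ i, y i ^ 1) * (∑ i, y i ^ 3) - 6 * ∑ i, y i ^ 4) / 24 := by
    intro y
    simp only [Fin.sum_univ_four, e4]
    ring
  rw [e, e, h1, h2, h3, h4]

theorem Wf_perm (B R : V4) (p r : Equiv.Perm (Fin 4)) :
    Wf (fun i => B (p i)) (fun v => R (r v)) = Wf B R := by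
  simp only [Wf, al, be, ga]
  rw [e2_perm, e2_perm, e3_perm, e3_perm, e4_perm, e4_perm]

theorem Kf_perm (B R : V4) (p r : Equiv.Perm (Fin 4)) (i v : Fin 4) :
    Kf (fun i => B (p i)) (fun v => R (r v)) i v = Kf B R (p i) (r v) := by
  simp only [Kf, al, be]
  rw [e2_perm, e2_perm, e3_perm, e3_perm]

private theorem inv_elim {B R : V4} (h : e1 B = e1 R) :
    R 3 = B 0 + B 1 + B 2 + B 3 - R 0 - R 1 - R 2 := by
  simp only [e1] at h
  linarith

private theorem inv_al {B R : V4} (h : e1 B = e1 R) (r : ℝ) :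
    al (fun i => B i - r) (fun v => R v - r) = al B R := by
  have h3 := inv_elim h
  simp only [al, e2, h3]
  ring

private theorem inv_be {B R : V4} (h : e1 B = e1 R) (r : ℝ) :
    be (fun i => B i - r) (fun v => R v - r) = be B R + 2 * r * al B R := by
  have h3 := inv_elim h
  simp only [al, be, e2, e3, h3]
  ring

theorem Wf_shift {B R : V4} (h : e1 B = e1 R) (r : ℝ) :
    Wf (fun i => B i - r) (fun v => R v - r) = Wf B R := by
  have h3 := inv_elim h
  simp only [Wf, al, be, ga, e2, e3, e4, h3]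
  ring

theorem Kf_shift {B R : V4} (h : e1 B = e1 R) (r : ℝ) (i v : Fin 4) :
    Kf (fun i => B i - r) (fun v => R v - r) i v = Kf B R i v := by
  simp only [Kf]
  rw [inv_al h, inv_be h]
  ring

theorem Bal_perm {Bx By Rx Ry : V4} (h : Bal Bx By Rx Ry) (p r : Equiv.Perm (Fin 4)) :
    Bal (fun i => Bx (p i)) (fun i => By (p i)) (fun v => Rx (r v)) (fun v => Ry (r v)) := by
  intro X Y n1 n2
  have h1 := h X Y n1 n2
  refine Eq.trans ?_ h1
  rw [← Equiv.sum_comp p (fun i => ∑ v, (if X * (Bx i - Rx v) + Y * (By i - Ry v) = 0 then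
      (n1 * (Bx i - Rx v) + n2 * (By i - Ry v))
        * Kf (X • Bx + Y • By) (X • Rx + Y • Ry) i v else 0))]
  refine Finset.sum_congr rfl fun i _ => ?_
  rw [← Equiv.sum_comp r (fun v => (if X * (Bx (p i) - Rx v) + Y * (By (p i) - Ry v) = 0 then
      (n1 * (Bx (p i) - Rx v) + n2 * (By (p i) - Ry v))
        * Kf (X • Bx + Y • By) (X • Rx + Y • Ry) (p i) v else 0))]
  refine Finset.sum_congr rfl fun v _ => ?_
  rw [← Kf_perm (X • Bx + Y • By) (X • Rx + Y • Ry) p r i v]
  rfl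

theorem Bal_shift {Bx By Rx Ry : V4} (h : Bal Bx By Rx Ry) (hx : e1 Bx = e1 Rx)
    (hy : e1 By = e1 Ry) (r r' : ℝ) :
    Bal (fun i => Bx i - r) (fun i => By i - r') (fun v => Rx v - r) (fun v => Ry v - r') := by
  intro X Y n1 n2
  have h1 := h X Y n1 n2
  refine Eq.trans ?_ h1
  have he : e1 (X • Bx + Y • By) = e1 (X • Rx + Y • Ry) := by
    simp only [e1, Pi.add_apply, Pi.smul_apply, smul_eq_mul] at hx hy ⊢
    linear_combination X * hx + Y * hy
  have eB : (X • (fun i => Bx i - r) + Y • fun i => By i - r' : V4) =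
      fun i => (X • Bx + Y • By) i - (X * r + Y * r') := by
    funext i
    simp only [Pi.add_apply, Pi.smul_apply, smul_eq_mul]
    ring
  have eR : (X • (fun i => Rx i - r) + Y • fun i => Ry i - r' : V4) =
      fun i => (X • Rx + Y • Ry) i - (X * r + Y * r') := by
    funext i
    simp only [Pi.add_apply, Pi.smul_apply, smul_eq_mul]
    ring
  refine Finset.sum_congr rfl fun i _ => Finset.sum_congr rfl fun v _ => ?_
  rw [eB, eR, Kf_shift he]
  simp only [sub_sub_sub_cancel_right]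

theorem Bal_scale {Bx By Rx Ry : V4} (h : Bal Bx By Rx Ry) (k k' : ℝ) :
    Bal (k • Bx) (k' • By) (k • Rx) (k' • Ry) := by
  intro X Y n1 n2
  have h1 := h (X * k) (Y * k') (n1 * k) (n2 * k')
  refine Eq.trans ?_ h1
  refine Finset.sum_congr rfl fun i _ => Finset.sum_congr rfl fun v _ => ?_
  have e1' : X * ((k • Bx) i - (k • Rx) v) + Y * ((k' • By) i - (k' • Ry) v) =
      X * k * (Bx i - Rx v) + Y * k' * (By i - Ry v) := by
    simp only [Pi.smul_apply, smul_eq_mul]
    ring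
  have e2' : n1 * ((k • Bx) i - (k • Rx) v) + n2 * ((k' • By) i - (k' • Ry) v) =
      n1 * k * (Bx i - Rx v) + n2 * k' * (By i - Ry v) := by
    simp only [Pi.smul_apply, smul_eq_mul]
    ring
  rw [e1', e2', smul_smul, smul_smul, smul_smul, smul_smul]

end Pool.Agent.helper37.NL
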