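import Mathlib

/-!
NL-K1 (KAf).  Analytic functions of one real variable which are algebraic over `K[t]`, `K` a subfield
of `ℝ`.

This is the file `Pool/Agent/helper37/NP/HAf.lean` (complete there) with `ℚ` replaced by a subfield `K`
of `ℝ` and the finite set `B` of variables by one variable `t`.  All proofs can be copied:
`AK_iff` (private): `AK K N F` iff `F` is analytic on `N` and its restriction to `N` is algebraic over
`Polynomial K` in the ring `N → ℂ`, which is an algebra over `Polynomial K` by the evaluation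
`p ↦ (t ↦ p (t))`; this gives `add, mul, neg, sub, pow, of_sq` from Mathlib's `IsAlgebraic` lemmas.
`const`: `z` algebraic over `ℚ` (map the polynomial over `ℚ` to constants; `ℚ → K` is `algebraMap`) ;
`constK`: `x ∈ K`, polynomial `T - C (C x)`; `coord`: `T - C X`; `inv`: reversed polynomial.
`eq_zero`: write `P = T ^ n * Q` with `Q.coeff 0 ≠ 0`; `F ^ n * Q(F) = 0` on `N`; if `F x ≠ 0` for some
`x ∈ N`, then `t ↦ Q(t, F t)` vanishes near `x`, so on `N` (identity theorem, `N` is convex), in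
particular at `m`, where `F m = 0` gives `(Q.coeff 0)(m) = 0`, contradiction to `Transcendental K m`.
-/

namespace Pool.Agent.helper37.NL

/-- value at `(t, z)` of a polynomial in two variables over the subfield `K` -/
noncomputable def pk (K : Subfield ℝ) (P : Polynomial (Polynomial K)) (t : ℝ) (z : ℂ) : ℂ :=
  Polynomial.eval₂ (Polynomial.eval₂RingHom (Complex.ofRealHom.comp K.subtype) (t : ℂ)) z P

/-- analytic on `N` and algebraic over `K[t]` -/
def AK (K : Subfield ℝ) (N : Set ℝ) (F : ℝ → ℂ) : Prop :=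
  AnalyticOnNhd ℝ F N ∧ ∃ P : Polynomial (Polynomial K), P ≠ 0 ∧ ∀ t ∈ N, pk K P t (F t) = 0

/-- an open convex set with a point transcendental over `K` -/
structure GK (K : Subfield ℝ) (N : Set ℝ) (m : ℝ) : Prop where
  isOpen : IsOpen N
  convex : Convex ℝ N
  mem : m ∈ N
  gen : Transcendental K m

/-- evaluation of the coefficients at `t` -/
private noncomputable def KAf_ev (K : Subfield ℝ) (t : ℝ) : Polynomial K →+* ℂ :=
  Polynomial.eval₂RingHom (Complex.ofRealHom.comp K.subtype) (t : ℂ)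

/-- evaluation of polynomials on `N` as a ring homomorphism -/
private noncomputable def KAf_phi (K : Subfield ℝ) (N : Set ℝ) : Polynomial K →+* (N → ℂ) :=
  RingHom.pi (fun x : N => KAf_ev K x)

private theorem KAf_eval₂_phi (K : Subfield ℝ) (N : Set ℝ) (f : N → ℂ)
    (P : Polynomial (Polynomial K)) (x : N) :
    Polynomial.eval₂ (KAf_phi K N) f P x = pk K P x (f x) := by
  have h := Polynomial.hom_eval₂ P (KAf_phi K N) (Pi.evalRingHom (fun _ : N => ℂ) x) f
  exact h

private theorem AK_iff (K : Subfield ℝ) (N : Set ℝ) (F : ℝ → ℂ) :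
    AK K N F ↔ AnalyticOnNhd ℝ F N ∧
      @IsAlgebraic (Polynomial K) (N → ℂ) _ _ (KAf_phi K N).toAlgebra (fun x : N => F x) := by
  let _ := (KAf_phi K N).toAlgebra
  constructor
  · rintro ⟨h, P, hP, hu⟩
    refine ⟨h, P, hP, ?_⟩
    funext x
    have := KAf_eval₂_phi K N (fun x : N => F x) P x
    exact this.trans (hu x x.2)
  · rintro ⟨h, P, hP, hu⟩
    refine ⟨h, P, hP, fun u hu' => ?_⟩
    have := KAf_eval₂_phi K N (fun x : N => F x) P ⟨u, hu'⟩
    exact this.symm.trans (congrFun hu ⟨u, hu'⟩)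

private theorem KAf_ofReal_analytic (x : ℝ) : AnalyticAt ℝ (fun t : ℝ => (t : ℂ)) x :=
  Complex.ofRealCLM.analyticAt _

private theorem KAf_ev_analytic (K : Subfield ℝ) (p : Polynomial K) (x : ℝ) :
    AnalyticAt ℝ (fun t : ℝ => KAf_ev K t p) x := by
  have : (fun t : ℝ => KAf_ev K t p) = fun t : ℝ => ∑ i ∈ Finset.range (p.natDegree + 1),
      (Complex.ofRealHom.comp K.subtype) (p.coeff i) * (t : ℂ) ^ i := by
    funext t
    exact Polynomial.eval₂_eq_sum_range _ _
  rw [this]
  refine Finset.analyticAt_fun_sum _ (fun i _ => ?_)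
  exact analyticAt_const.mul ((KAf_ofReal_analytic x).pow i)

variable {K : Subfield ℝ} {N : Set ℝ} {m : ℝ} {F G : ℝ → ℂ}

theorem AK.add (hF : AK K N F) (hG : AK K N G) : AK K N (fun t => F t + G t) := by
  let _ := (KAf_phi K N).toAlgebra
  rw [AK_iff] at *
  exact ⟨hF.1.add hG.1, hF.2.add hG.2⟩

theorem AK.mul (hF : AK K N F) (hG : AK K N G) : AK K N (fun t => F t * G t) := by
  let _ := (KAf_phi K N).toAlgebra
  rw [AK_iff] at *
  exact ⟨hF.1.mul hG.1, hF.2.mul hG.2⟩

theorem AK.neg (hF : AK K N F) : AK K N (fun t => - F t) := by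
  let _ := (KAf_phi K N).toAlgebra
  rw [AK_iff] at *
  exact ⟨hF.1.neg, hF.2.neg⟩

theorem AK.sub (hF : AK K N F) (hG : AK K N G) : AK K N (fun t => F t - G t) := by
  let _ := (KAf_phi K N).toAlgebra
  rw [AK_iff] at *
  exact ⟨hF.1.sub hG.1, hF.2.sub hG.2⟩

theorem AK.inv (hF : AK K N F) (h0 : ∀ t ∈ N, F t ≠ 0) : AK K N (fun t => (F t)⁻¹) := by
  obtain ⟨h, P, hP, hu⟩ := hF
  refine ⟨h.inv h0, P.reverse, by simpa using hP, fun t ht => ?_⟩
  let _ := invertibleOfNonzero (h0 t ht)
  have h1 := (Polynomial.eval₂_reverse_eq_zero_iff (KAf_ev K t) (F t) P).2 (hu t ht)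
  rw [invOf_eq_inv] at h1
  exact h1

theorem AK.const {z : ℂ} (hz : IsAlgebraic ℚ z) : AK K N (fun _ => z) := by
  obtain ⟨p, hp, hz⟩ := hz
  refine ⟨analyticOnNhd_const, p.map (Polynomial.C.comp (algebraMap ℚ K)), ?_, fun t _ => ?_⟩
  · refine (Polynomial.map_ne_zero_iff ?_).2 hp
    intro a b h
    exact (algebraMap ℚ K).injective (Polynomial.C_injective h)
  · have h1 : (KAf_ev K t).comp (Polynomial.C.comp (algebraMap ℚ K)) = algebraMap ℚ ℂ :=
      Subsingleton.elim _ _
    change Polynomial.eval₂ (KAf_ev K t) z _ = 0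
    rw [Polynomial.eval₂_map, h1]
    exact hz

theorem AK.constK {x : ℝ} (hx : x ∈ K) : AK K N (fun _ => (x : ℂ)) := by
  refine ⟨analyticOnNhd_const, Polynomial.X - Polynomial.C (Polynomial.C ⟨x, hx⟩),
    Polynomial.X_sub_C_ne_zero _, fun t _ => ?_⟩
  simp [pk]

theorem AK.coord : AK K N (fun t => (t : ℂ)) := by
  refine ⟨fun x _ => KAf_ofReal_analytic x, Polynomial.X - Polynomial.C Polynomial.X,
    Polynomial.X_sub_C_ne_zero _, fun t _ => ?_⟩
  simp [pk]

theorem AK.pow (hF : AK K N F) (n : ℕ) : AK K N (fun t => F t ^ n) := by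
  let _ := (KAf_phi K N).toAlgebra
  rw [AK_iff] at *
  exact ⟨hF.1.pow n, hF.2.pow n⟩

theorem AK.of_sq (hF : AnalyticOnNhd ℝ F N) (h : AK K N (fun t => F t ^ 2)) : AK K N F := by
  let _ := (KAf_phi K N).toAlgebra
  rw [AK_iff] at *
  exact ⟨hF, IsAlgebraic.of_pow (n := 2) (by norm_num) h.2⟩

theorem AK.congr (hF : AK K N F) (h : ∀ t ∈ N, F t = G t) (hN : IsOpen N) : AK K N G := by
  obtain ⟨h1, P, hP, hu⟩ := hF
  exact ⟨h1.congr hN h, P, hP, fun u hu' => by rw [← h u hu']; exact hu u hu'⟩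

/-- an algebraic analytic function which vanishes at the transcendental point vanishes identically -/
theorem AK.eq_zero (hN : GK K N m) (hF : AK K N F) (h0 : F m = 0) : ∀ t ∈ N, F t = 0 := by
  obtain ⟨hA, P, hP, hPu⟩ := hF
  by_contra hne
  push Not at hne
  obtain ⟨x, hx, hxne⟩ := hne
  -- split off the power of `T`
  obtain ⟨Q, hPQ, hQ⟩ := Polynomial.exists_eq_pow_rootMultiplicity_mul_and_not_dvd P hP 0
  rw [Polynomial.C_0, sub_zero] at hPQ hQ
  rw [Polynomial.X_dvd_iff] at hQ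
  set k := Polynomial.rootMultiplicity 0 P
  have hQA : AnalyticOnNhd ℝ (fun u => Polynomial.eval₂ (KAf_ev K u) (F u) Q) N := by
    have : (fun u : ℝ => Polynomial.eval₂ (KAf_ev K u) (F u) Q)
        = fun u => ∑ i ∈ Finset.range (Q.natDegree + 1),
          KAf_ev K u (Q.coeff i) * F u ^ i := by
      funext u
      rw [Polynomial.eval₂_eq_sum_range]
    rw [this]
    refine Finset.analyticOnNhd_fun_sum _ (fun i _ => ?_)
    exact AnalyticOnNhd.mul (fun y _ => KAf_ev_analytic K _ y) (hA.pow i)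
  have hmul : ∀ u ∈ N, F u ^ k * Polynomial.eval₂ (KAf_ev K u) (F u) Q = 0 := by
    intro u hu
    have : Polynomial.eval₂ (KAf_ev K u) (F u) P = 0 := hPu u hu
    rw [hPQ, Polynomial.eval₂_mul, Polynomial.eval₂_pow, Polynomial.eval₂_X] at this
    exact this
  have hev : (fun u => Polynomial.eval₂ (KAf_ev K u) (F u) Q) =ᶠ[nhds x] 0 := by
    have h1 : ∀ᶠ u in nhds x, F u ≠ 0 := (hA x hx).continuousAt.eventually_ne hxne
    have h2 : ∀ᶠ u in nhds x, u ∈ N := hN.isOpen.mem_nhds hx
    filter_upwards [h1, h2] with u hu1 hu2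
    have := hmul u hu2
    rcases mul_eq_zero.1 this with h | h
    · exact absurd h (pow_ne_zero _ hu1)
    · exact h
  have hQ0 := hQA.eqOn_zero_of_preconnected_of_eventuallyEq_zero hN.convex.isPreconnected hx hev
    hN.mem
  simp only [Pi.zero_apply] at hQ0
  rw [h0, Polynomial.eval₂_at_zero] at hQ0
  -- transfer to the reals
  have h3 : KAf_ev K m (Q.coeff 0) = ((Polynomial.aeval m (Q.coeff 0) : ℝ) : ℂ) := by
    have := Polynomial.hom_eval₂ (Q.coeff 0) K.subtype Complex.ofRealHom m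
    exact this.symm
  have h4 : (Polynomial.aeval m (Q.coeff 0) : ℝ) = 0 := by
    rw [h3] at hQ0
    exact_mod_cast hQ0
  exact hQ ((transcendental_iff.1 hN.gen) _ h4)

end Pool.Agent.helper37.NL
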