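import Pool.Agent.helper37.NL.KEx
import Pool.Agent.helper37.NP.HTb
import Pool.Agent.helper37.NP.ZDa
import Pool.Agent.helper37.NP.Ana

/-!
NL-K3 (KDa).  Along a family algebraic over `K[t]` the rational data are constant near a point
transcendental over `K`.

This is the file `Pool/Agent/helper37/NP/HDa.lean` (complete there) with `AF` replaced by `AK`; copy the
proof (rational numbers are constants by `AK.const`).
-/

namespace Pool.Agent.helper37.NL

open Real Pool.Agent.helper37.NP

private theorem AK_sum {K : Subfield ℝ} {N : Set ℝ} {m : ℝ} (hN : GK K N m)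
    {ι : Type} (t : Finset ι) (f : ι → ℝ → ℂ) (h : ∀ i ∈ t, AK K N (f i)) :
    AK K N (fun u => ∑ i ∈ t, f i u) := by
  classical
  induction t using Finset.induction_on with
  | empty =>
    refine AK.congr (AK.const (isAlgebraic_zero (R := ℚ) (A := ℂ))) (fun u _ => ?_) hN.isOpen
    simp
  | insert a t ha ih =>
    refine AK.congr (AK.add (h a (Finset.mem_insert_self a t))
      (ih fun i hi => h i (Finset.mem_insert_of_mem hi))) (fun u _ => ?_) hN.isOpen
    rw [Finset.sum_insert ha]

private theorem AK_prod {K : Subfield ℝ} {N : Set ℝ} {m : ℝ} (hN : GK K N m)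
    {ι : Type} (t : Finset ι) (f : ι → ℝ → ℂ) (h : ∀ i ∈ t, AK K N (f i)) :
    AK K N (fun u => ∏ i ∈ t, f i u) := by
  classical
  induction t using Finset.induction_on with
  | empty =>
    refine AK.congr (AK.const (isAlgebraic_one (R := ℚ) (A := ℂ))) (fun u _ => ?_) hN.isOpen
    simp
  | insert a t ha ih =>
    refine AK.congr (AK.mul (h a (Finset.mem_insert_self a t))
      (ih fun i hi => h i (Finset.mem_insert_of_mem hi))) (fun u _ => ?_) hN.isOpen
    rw [Finset.prod_insert ha]

private theorem AK_zpow {K : Subfield ℝ} {N : Set ℝ} {m : ℝ} (hN : GK K N m)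
    {f : ℝ → ℂ} (hf : AK K N f) (h0 : ∀ u ∈ N, f u ≠ 0) (n : ℤ) :
    AK K N (fun u => f u ^ n) := by
  cases n with
  | ofNat m =>
    refine AK.congr (AK.pow hf m) (fun u _ => ?_) hN.isOpen
    simp
  | negSucc m =>
    refine AK.congr (AK.inv (AK.pow hf (m + 1)) fun u hu => pow_ne_zero _ (h0 u hu))
      (fun u _ => ?_) hN.isOpen
    rw [zpow_negSucc]

private theorem KDa_exp_alg (r : ℚ) : IsAlgebraic ℚ (Complex.exp (Complex.I * (π * (r : ℝ) : ℝ))) := by
  refine IsAlgebraic.of_pow (n := 2 * r.den) (by have := r.den_pos; omega) ?_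
  rw [← Complex.exp_nat_mul]
  have h1 : ((2 * r.den : ℕ) : ℂ) * (Complex.I * ((π * (r : ℝ) : ℝ) : ℂ))
      = (r.num : ℂ) * (2 * (π : ℂ) * Complex.I) := by
    have h2 : (r.den : ℂ) * ((r : ℝ) : ℂ) = (r.num : ℂ) := by
      have h3 : (r.den : ℚ) * r = r.num := by
        rw [mul_comm]; exact Rat.mul_den_eq_num r
      exact_mod_cast congrArg (fun z : ℚ => (z : ℂ)) h3
    push_cast
    linear_combination (2 * (π : ℂ) * Complex.I) * h2
  rw [h1, Complex.exp_int_mul_two_pi_mul_I]
  exact isAlgebraic_one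

private theorem KDa_const_of_int {X : Type*} [TopologicalSpace X] {N : Set X} (hN : IsPreconnected N)
    {f : X → ℝ} (hf : ContinuousOn f N) {u0 : X} (h0 : u0 ∈ N) (hf0 : f u0 = 0)
    (hi : ∀ u ∈ N, ∃ n : ℤ, f u = n) : ∀ u ∈ N, f u = 0 := by
  intro u hu
  obtain ⟨n, hn⟩ := hi u hu
  by_contra hne
  have hn0 : n ≠ 0 := by
    rintro rfl
    exact hne (by simpa using hn)
  have key : ∀ t : ℝ, t ∈ Set.uIcc (f u0) (f u) → ∃ m : ℤ, t = m := by
    intro t ht
    have h1 : Set.uIcc (f u0) (f u) ⊆ f '' N := by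
      have h2 := (hN.image f hf).ordConnected
      exact h2.uIcc_subset ⟨u0, h0, rfl⟩ ⟨u, hu, rfl⟩
    obtain ⟨v, hv, rfl⟩ := h1 ht
    exact hi v hv
  rw [hf0, hn] at key
  rcases lt_or_gt_of_ne hn0 with h | h
  · have h3 : (n : ℝ) ≤ -1 := by exact_mod_cast Int.le_sub_one_of_lt h
    obtain ⟨m, hm⟩ := key (-(1 / 2)) (by
      rw [Set.uIcc_of_ge (by linarith)]
      constructor <;> linarith)
    have h4 : (2 * m : ℝ) = -1 := by linarith
    have h5 : (2 * m : ℤ) = -1 := by exact_mod_cast h4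
    omega
  · have h3 : (1 : ℝ) ≤ n := by exact_mod_cast h
    obtain ⟨m, hm⟩ := key (1 / 2) (by
      rw [Set.uIcc_of_le (by linarith)]
      constructor <;> linarith)
    have h4 : (2 * m : ℝ) = 1 := by linarith
    have h5 : (2 * m : ℤ) = 1 := by exact_mod_cast h4
    omega

theorem data_const_K {K : Subfield ℝ} {N : Set ℝ} {m : ℝ} (hN : GK K N m) {F : ℝ → V6}
    (hT : ∀ t ∈ N, F t ∈ T) (ha : ∀ i, AnalyticOnNhd ℝ (fun t => F t i) N)
    (hF : ∀ i, AK K N (fun t => (F t i : ℂ))) {k : ℕ} (s : Fin k → Fin 6 → ℤ) (r : Fin k → ℚ)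
    (hs : LinearIndependent ℝ (fun i => iv (s i)))
    (hsp : F m ∈ Submodule.span ℝ (Set.range fun i => iv (s i)))
    (hr : ∀ i, dotp (iv (s i)) (ang (F m)) = π * (r i : ℝ)) :
    ∀ t ∈ N, F t ∈ Submodule.span ℝ (Set.range fun i => iv (s i)) ∧
      ∀ i, dotp (iv (s i)) (ang (F t)) = π * (r i : ℝ) := by
  classical
  obtain ⟨M, hM⟩ := right_inverse s hs
  have hspan : ∀ u ∈ N, F u ∈ Submodule.span ℝ (Set.range fun i => iv (s i)) := by
    obtain ⟨y0, hy0⟩ := (Submodule.mem_span_range_iff_exists_fun ℝ).1 hsp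
    have hF0 : ∀ e, F m e = ∑ i, y0 i * (s i e : ℝ) := by
      intro e
      rw [← hy0, Finset.sum_apply]
      rfl
    have hy : ∀ j, ∑ e, (M e j : ℝ) * F m e = y0 j := by
      intro j
      have hM' : ∀ i, ∑ e, (s i e : ℝ) * (M e j : ℝ) = if i = j then 1 else 0 := by
        intro i
        have h1 := congrArg (fun z : ℚ => (z : ℝ)) (hM i j)
        push_cast at h1
        rw [h1]
        split_ifs <;> simp
      have h2 : ∑ e, (M e j : ℝ) * F m e = ∑ i, y0 i * ∑ e, (s i e : ℝ) * (M e j : ℝ) := by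
        simp only [hF0, Finset.mul_sum]
        rw [Finset.sum_comm]
        refine Finset.sum_congr rfl fun i _ => Finset.sum_congr rfl fun e _ => ?_
        ring
      rw [h2]
      simp [hM']
    have hAK : ∀ e, AK K N (fun u => (F u e : ℂ)
        - ∑ i, (∑ e', ((M e' i : ℚ) : ℂ) * (F u e' : ℂ)) * ((s i e : ℤ) : ℂ)) := by
      intro e
      refine AK.sub (hF e) (AK_sum hN _ _ fun i _ => AK.mul (AK_sum hN _ _ fun e' _ =>
        AK.mul (AK.const ?_) (hF e')) (AK.const ?_))
      · exact isAlgebraic_algebraMap (R := ℚ) (A := ℂ) (M e' i)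
      · exact isAlgebraic_intCast (s i e)
    intro u hu
    have hz : ∀ e, F u e = ∑ i, (∑ e', (M e' i : ℝ) * F u e') * (s i e : ℝ) := by
      intro e
      have h1 := AK.eq_zero hN (hAK e) (by
        have h2 : F m e - ∑ i, (∑ e', (M e' i : ℝ) * F m e') * (s i e : ℝ) = 0 := by
          simp only [hy]
          rw [hF0 e, sub_self]
        have h3 := congrArg (fun z : ℝ => (z : ℂ)) h2
        push_cast at h3
        exact h3) u hu
      have h4 : ((F u e - ∑ i, (∑ e', (M e' i : ℝ) * F u e') * (s i e : ℝ) : ℝ) : ℂ) = 0 := by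
        push_cast
        exact h1
      have h5 := Complex.ofReal_eq_zero.1 h4
      linarith
    rw [Submodule.mem_span_range_iff_exists_fun]
    refine ⟨fun i => ∑ e', (M e' i : ℝ) * F u e', ?_⟩
    funext e
    rw [Finset.sum_apply, hz e]
    rfl
  refine fun u hu => ⟨hspan u hu, fun i => ?_⟩
  -- the angle relations
  have hexp : ∀ v : ℝ, ∏ e, Complex.exp (Complex.I * (ang (F v) e : ℂ)) ^ (s i e)
      = Complex.exp (Complex.I * ((dotp (iv (s i)) (ang (F v)) : ℝ) : ℂ)) := by
    intro v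
    have h1 : ∀ e, Complex.exp (Complex.I * (ang (F v) e : ℂ)) ^ (s i e)
        = Complex.exp (((s i e : ℤ) : ℂ) * (Complex.I * (ang (F v) e : ℂ))) := by
      intro e
      rw [Complex.exp_int_mul]
    simp only [h1]
    rw [← Complex.exp_sum]
    congr 1
    simp only [Fin.sum_univ_six, dotp, iv]
    push_cast
    ring
  have hG : AK K N (fun v => ∏ e, Complex.exp (Complex.I * (ang (F v) e : ℂ)) ^ (s i e)
      - Complex.exp (Complex.I * (π * (r i : ℝ) : ℝ))) :=
    AK.sub (AK_prod hN _ _ fun e _ => AK_zpow hN (AK_exp hN hT ha hF e)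
      (fun v _ => Complex.exp_ne_zero _) _) (AK.const (KDa_exp_alg (r i)))
  have hz := AK.eq_zero hN hG (by rw [hexp, hr i, sub_self])
  have hint : ∀ v ∈ N, ∃ n : ℤ, (dotp (iv (s i)) (ang (F v)) - π * (r i : ℝ)) / (2 * π) = n := by
    intro v hv
    have h1 := hz v hv
    rw [hexp, sub_eq_zero, Complex.exp_eq_exp_iff_exists_int] at h1
    obtain ⟨n, hn⟩ := h1
    refine ⟨n, ?_⟩
    have h2 : Complex.I * ((dotp (iv (s i)) (ang (F v)) : ℝ) : ℂ)
        = Complex.I * ((π * (r i : ℝ) + n * (2 * π) : ℝ) : ℂ) := by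
      rw [hn]
      push_cast
      ring
    have h3 := Complex.ofReal_injective (mul_left_cancel₀ Complex.I_ne_zero h2)
    rw [h3]
    field_simp
    ring
  have hcont : ContinuousOn (fun v => (dotp (iv (s i)) (ang (F v)) - π * (r i : ℝ)) / (2 * π)) N := by
    have hFc : ContinuousOn F N := by
      rw [continuousOn_pi]
      intro e
      exact (ha e).continuousOn
    have h1 : ∀ e, ContinuousOn (fun v => ang (F v) e) N := fun e =>
      (ang_continuousOn e).comp hFc fun v hv => hT v hv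
    refine ContinuousOn.div_const (ContinuousOn.sub ?_ continuousOn_const) _
    simp only [dotp]
    exact ((((((continuousOn_const.mul (h1 0)).add (continuousOn_const.mul (h1 1))).add
      (continuousOn_const.mul (h1 2))).add (continuousOn_const.mul (h1 3))).add
      (continuousOn_const.mul (h1 4))).add (continuousOn_const.mul (h1 5)))
  have h0 := KDa_const_of_int hN.convex.isPreconnected hcont hN.mem
    (by rw [hr i, sub_self, zero_div]) hint u hu
  have hpi : (2 * π : ℝ) ≠ 0 := by positivity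
  rw [div_eq_zero_iff, or_iff_left hpi, sub_eq_zero] at h0
  exact h0

end Pool.Agent.helper37.NL
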