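import Pool.Agent.helper37.NL.KAf
import Pool.Agent.helper37.NP.Bas

/-!
NL-K2 (KEx).  Along a family which is algebraic over `K[t]` the numbers `exp (i θ_e)` are algebraic over
`K[t]`.

This is the file `Pool/Agent/helper37/NP/HEx.lean` (complete there) with `AF` replaced by `AK`; copy the
proof.
-/

namespace Pool.Agent.helper37.NL

open Real Pool.Agent.helper37.NP

section

variable {K : Subfield ℝ} {N : Set ℝ} {m : ℝ}

private theorem sqrt_AK (hN : GK K N m) {f : ℝ → ℝ} (hf : AK K N (fun u => (f u : ℂ)))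
    (hpos : ∀ u ∈ N, 0 < f u) : AK K N (fun u => ((Real.sqrt (f u) : ℝ) : ℂ)) := by
  refine AK.of_sq ?_ (hf.congr (fun u hu => ?_) hN.isOpen)
  · intro u hu
    have h1 : AnalyticAt ℝ (fun u => Complex.reCLM ((f u : ℝ) : ℂ)) u :=
      (Complex.reCLM.analyticAt _).comp (hf.1 u hu)
    have h2 : AnalyticAt ℝ f u := by
      simpa using h1
    have h3 : ContDiffAt ℝ ⊤ (fun u => Real.sqrt (f u)) u :=
      ContDiffAt.sqrt (h2.contDiffAt) (hpos u hu).ne'
    exact (Complex.ofRealCLM.analyticAt _).comp h3.analyticAt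
  · rw [← Complex.ofReal_pow, Real.sq_sqrt (hpos u hu).le]

private theorem two_AK (hN : GK K N m) : AK K N (fun _ => (2 : ℂ)) := by
  refine AK.const ?_
  have h := isAlgebraic_algebraMap (R := ℚ) (A := ℂ) (2 : ℚ)
  simpa using h

private theorem He_AK (hN : GK K N m) {P Q R : ℝ → ℝ} (hP : AK K N (fun u => (P u : ℂ)))
    (hQ : AK K N (fun u => (Q u : ℂ))) (hR : AK K N (fun u => (R u : ℂ))) :
    AK K N (fun u => ((He (P u) (Q u) (R u) : ℝ) : ℂ)) := by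
  have h := AK.mul (AK.mul (AK.mul (AK.add (AK.add hP hQ) hR)
    (AK.sub (AK.add hP hQ) hR)) (AK.add (AK.sub hP hQ) hR))
    (AK.add (AK.add (AK.neg hP) hQ) hR)
  refine h.congr (fun u _ => ?_) hN.isOpen
  unfold He
  push_cast
  ring

private theorem Nu_AK (hN : GK K N m) {p q r s t x : ℝ → ℝ}
    (hp : AK K N (fun u => (p u : ℂ))) (hq : AK K N (fun u => (q u : ℂ)))
    (hr : AK K N (fun u => (r u : ℂ))) (hs : AK K N (fun u => (s u : ℂ)))
    (ht : AK K N (fun u => (t u : ℂ))) (hx : AK K N (fun u => (x u : ℂ))) :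
    AK K N (fun u => ((Nu (p u) (q u) (r u) (s u) (t u) (x u) : ℝ) : ℂ)) := by
  have hp2 := AK.pow hp 2
  have hq2 := AK.pow hq 2
  have hr2 := AK.pow hr 2
  have hs2 := AK.pow hs 2
  have ht2 := AK.pow ht 2
  have hx2 := AK.pow hx 2
  have h := AK.sub (AK.mul (AK.mul (two_AK hN) hp2) (AK.sub (AK.add hq2 hr2) hx2))
    (AK.mul (AK.sub (AK.add hp2 hq2) hs2) (AK.sub (AK.add hp2 hr2) ht2))
  refine h.congr (fun u _ => ?_) hN.isOpen
  unfold Nu
  push_cast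
  ring

private theorem W_AK (hN : GK K N m) {F : ℝ → V6} (hF : ∀ i, AK K N (fun u => (F u i : ℂ))) :
    AK K N (fun u => ((W (F u) : ℝ) : ℂ)) := by
  have a := AK.pow (hF 0) 2
  have b := AK.pow (hF 1) 2
  have c := AK.pow (hF 2) 2
  have d := AK.pow (hF 3) 2
  have e := AK.pow (hF 4) 2
  have f := AK.pow (hF 5) 2
  have na := AK.neg a
  have h1 := AK.mul (AK.mul a f)
    (AK.sub (AK.add (AK.add (AK.add (AK.add na b) c) d) e) f)
  have h2 := AK.mul (AK.mul b e)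
    (AK.add (AK.sub (AK.add (AK.add (AK.sub a b) c) d) e) f)
  have h3 := AK.mul (AK.mul c d)
    (AK.add (AK.add (AK.sub (AK.sub (AK.add a b) c) d) e) f)
  have h4 := AK.add (AK.add (AK.add (AK.mul (AK.mul a b) d)
    (AK.mul (AK.mul a c) e)) (AK.mul (AK.mul b c) f)) (AK.mul (AK.mul d e) f)
  have h := AK.sub (AK.add (AK.add h1 h2) h3) h4
  refine h.congr (fun u _ => ?_) hN.isOpen
  unfold W Wsq
  push_cast
  ring

private theorem nu_AK (hN : GK K N m) {F : ℝ → V6} (hF : ∀ i, AK K N (fun u => (F u i : ℂ)))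
    (e : Fin 6) : AK K N (fun u => ((nu (F u) e : ℝ) : ℂ)) := by
  fin_cases e
  · exact Nu_AK hN (hF 0) (hF 1) (hF 2) (hF 3) (hF 4) (hF 5)
  · exact Nu_AK hN (hF 1) (hF 0) (hF 2) (hF 3) (hF 5) (hF 4)
  · exact Nu_AK hN (hF 2) (hF 0) (hF 1) (hF 4) (hF 5) (hF 3)
  · exact Nu_AK hN (hF 3) (hF 0) (hF 4) (hF 1) (hF 5) (hF 2)
  · exact Nu_AK hN (hF 4) (hF 0) (hF 3) (hF 2) (hF 5) (hF 1)
  · exact Nu_AK hN (hF 5) (hF 1) (hF 3) (hF 2) (hF 4) (hF 0)

private theorem ha_AK (hN : GK K N m) {F : ℝ → V6} (hF : ∀ i, AK K N (fun u => (F u i : ℂ)))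
    (e : Fin 6) : AK K N (fun u => ((ha (F u) e : ℝ) : ℂ)) := by
  fin_cases e
  · exact He_AK hN (hF 0) (hF 1) (hF 3)
  · exact He_AK hN (hF 1) (hF 0) (hF 3)
  · exact He_AK hN (hF 2) (hF 0) (hF 4)
  · exact He_AK hN (hF 3) (hF 0) (hF 1)
  · exact He_AK hN (hF 4) (hF 0) (hF 2)
  · exact He_AK hN (hF 5) (hF 1) (hF 2)

private theorem hb_AK (hN : GK K N m) {F : ℝ → V6} (hF : ∀ i, AK K N (fun u => (F u i : ℂ)))
    (e : Fin 6) : AK K N (fun u => ((hb (F u) e : ℝ) : ℂ)) := by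
  fin_cases e
  · exact He_AK hN (hF 0) (hF 2) (hF 4)
  · exact He_AK hN (hF 1) (hF 2) (hF 5)
  · exact He_AK hN (hF 2) (hF 1) (hF 5)
  · exact He_AK hN (hF 3) (hF 4) (hF 5)
  · exact He_AK hN (hF 4) (hF 3) (hF 5)
  · exact He_AK hN (hF 5) (hF 3) (hF 4)

private theorem exp_AK (hN : GK K N m) {F : ℝ → V6} (hT : ∀ u ∈ N, F u ∈ T)
    (hF : ∀ i, AK K N (fun u => (F u i : ℂ))) (e : Fin 6) :
    AK K N (fun u => Complex.exp (Complex.I * (ang (F u) e : ℂ))) := by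
  have sW := sqrt_AK hN (W_AK hN hF) fun u hu => (hT u hu).2
  have sa := sqrt_AK hN (ha_AK hN hF e) fun u hu => ha_pos (hT u hu) e
  have sb := sqrt_AK hN (hb_AK hN hF e) fun u hu => hb_pos (hT u hu) e
  have hI : AK K N (fun _ => Complex.I) :=
    AK.const Complex.isIntegral_rat_I.isAlgebraic
  have hden := AK.inv (AK.mul sa sb) fun u hu => by
    have h1 := Real.sqrt_pos.2 (ha_pos (hT u hu) e)
    have h2 := Real.sqrt_pos.2 (hb_pos (hT u hu) e)
    exact mul_ne_zero (by exact_mod_cast h1.ne') (by exact_mod_cast h2.ne')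
  have h := AK.mul (AK.add (nu_AK hN hF e)
    (AK.mul (AK.mul (AK.mul (two_AK hN) hI) (hF e)) sW)) hden
  refine h.congr (fun u hu => ?_) hN.isOpen
  rw [mul_comm Complex.I, Complex.exp_mul_I, ← Complex.ofReal_cos, ← Complex.ofReal_sin,
    cos_ang (hT u hu) e, sin_ang (hT u hu) e]
  push_cast
  rw [div_eq_mul_inv, div_eq_mul_inv]
  ring

end

theorem AK_exp {K : Subfield ℝ} {N : Set ℝ} {m : ℝ} (hN : GK K N m) {F : ℝ → V6}
    (hT : ∀ t ∈ N, F t ∈ T) (ha : ∀ i, AnalyticOnNhd ℝ (fun t => F t i) N)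
    (hF : ∀ i, AK K N (fun t => (F t i : ℂ))) (e : Fin 6) :
    AK K N (fun t => Complex.exp (Complex.I * (ang (F t) e : ℂ))) :=
  exp_AK hN hT hF e

end Pool.Agent.helper37.NL
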