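import Pool.Agent.helper37.NL.Defs
import Pool.Agent.helper37.NP.Perm
import Pool.Agent.helper37.NP.Alg

/-!
NL-K5 (KPl).  The two planes, and relabelling preserves `T`.

PROOFS.  `relab_T`: for each of the 24 permutations the twelve triangle inequalities and `W` are
permuted.  Convenient: `sg (relab p l) v = sg l (p v)` (three edges at a vertex; 24 cases by `decide`-like
case analysis `fin_cases`, or from a formula `sg l v = ∑ w, dm l v w` and `Equiv.sum_comp`), the three
numbers `Q (relab p l) j` are a permutation of the `Q l j`, and `W (relab p l) = W l`: reduce to the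
transpositions `(0 1), (1 2), (2 3)` for which `relab` is `sab`, `sbc`, `scd` of the file `NP/Perm`
(`T_sab, T_sbc, T_scd`), using `relab p (relab q l) = relab (q * p) l` or `relab (p * q) l`
(`relab_mul`; check the order) and that the transpositions generate (`Equiv.Perm.mclosure_swap_castSucc_succ`
or an explicit list of 24 products).  For a transposition: `funext e; fin_cases e; rfl`/`simp`.

`plane1`: let `l = x • (1,1,1,0,1,1) + y • (1,1,0,6,-1,-1) ∈ T`.  `l 3 = 6 y > 0`, `l 2 = x > 0`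
(`T_pos`) and `W l = 108 x² y² (x² - 16 y²) > 0` (`ring`), so `x > 4 y`; with `k = y`, `m = x / y`:
`l = k • F1v m`.
`plane2`: let `l = x • (2,1,1,3,1,2) + y • (2,4,6,-6,8,-2) ∈ T`.  The triangle inequality
`l 3 < l 0 + l 1` of the face `abc` (`Q l 2 < sg l 0`... in any case one of the twelve) says `12 y > 0`;
`l 0 = 2 x + 2 y > 0`, `l 5 = 2 x - 2 y > 0` give `x > 0`; `W l = 6912 x² y² (x² - 16 y²) > 0`, so `x > 4 y`,
and `l = k • F2v m` with `k = y`, `m = x / y`.
(`l 0 + l 1 - l 3 = sg l v - Q l j` for the vertex `v = 0` (`a`) and `j = 2`: `sg l 0 - Q l 2 = l 0 + l 1 - l 3`.)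
`Fam1_plane`, `Fam2_plane`: `F1v m = m • (..) + (..)`.
-/

namespace Pool.Agent.helper37.NL

open Real Pool.Agent.helper37.NP Pool.Agent.Helper93.Tet

/-- the cones of the two families -/
def Fam1 : Set V6 := {l | ∃ k m : ℝ, 0 < k ∧ 4 < m ∧ l = k • F1v m}
def Fam2 : Set V6 := {l | ∃ k m : ℝ, 0 < k ∧ 4 < m ∧ l = k • F2v m}

/-- the planes of the two families -/
def pl1 (x y : ℝ) : V6 := ![x + y, x + y, x, 6 * y, x - y, x - y]
def pl2 (x y : ℝ) : V6 :=
  ![2 * x + 2 * y, x + 4 * y, x + 6 * y, 3 * x - 6 * y, x + 8 * y, 2 * x - 2 * y]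

private theorem KPl_dm_symm (l : V6) (v w : Fin 4) : dm l v w = dm l w v := by
  fin_cases v <;> fin_cases w <;> rfl

private theorem KPl_vec6 {x y : Fin 6 → ℝ} (h0 : x 0 = y 0) (h1 : x 1 = y 1) (h2 : x 2 = y 2)
    (h3 : x 3 = y 3) (h4 : x 4 = y 4) (h5 : x 5 = y 5) : x = y := by
  funext v
  fin_cases v
  · exact h0
  · exact h1
  · exact h2
  · exact h3
  · exact h4
  · exact h5

private theorem KPl_one (l : V6) : relab 1 l = l := by
  apply KPl_vec6 <;> rfl

private theorem KPl_mk (l : V6) (p : Equiv.Perm (Fin 4)) (a b c d : Fin 4) (h0 : p 0 = a)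
    (h1 : p 1 = b) (h2 : p 2 = c) (h3 : p 3 = d) :
    relab p l = ![dm l a b, dm l a c, dm l a d, dm l b c, dm l b d, dm l c d] := by
  unfold relab
  rw [h0, h1, h2, h3]

private theorem KPl_sw (p : Equiv.Perm (Fin 4)) (i j v w : Fin 4) (h : Equiv.swap i j v = w) :
    (p * Equiv.swap i j) v = p w := by
  rw [Equiv.Perm.mul_apply, h]

private theorem KPl_ab (l : V6) (p : Equiv.Perm (Fin 4)) :
    relab (p * Equiv.swap 0 1) l = sab (relab p l) := by
  rw [KPl_mk l (p * Equiv.swap 0 1) (p 1) (p 0) (p 2) (p 3)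
    (KPl_sw p _ _ _ _ (Equiv.swap_apply_left _ _)) (KPl_sw p _ _ _ _ (Equiv.swap_apply_right _ _))
    (KPl_sw p _ _ _ _ (Equiv.swap_apply_of_ne_of_ne (by decide) (by decide)))
    (KPl_sw p _ _ _ _ (Equiv.swap_apply_of_ne_of_ne (by decide) (by decide))),
    KPl_mk l p _ _ _ _ rfl rfl rfl rfl, KPl_dm_symm l (p 1) (p 0)]
  rfl

private theorem KPl_bc (l : V6) (p : Equiv.Perm (Fin 4)) :
    relab (p * Equiv.swap 1 2) l = sbc (relab p l) := by
  rw [KPl_mk l (p * Equiv.swap 1 2) (p 0) (p 2) (p 1) (p 3)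
    (KPl_sw p _ _ _ _ (Equiv.swap_apply_of_ne_of_ne (by decide) (by decide)))
    (KPl_sw p _ _ _ _ (Equiv.swap_apply_left _ _)) (KPl_sw p _ _ _ _ (Equiv.swap_apply_right _ _))
    (KPl_sw p _ _ _ _ (Equiv.swap_apply_of_ne_of_ne (by decide) (by decide))),
    KPl_mk l p _ _ _ _ rfl rfl rfl rfl, KPl_dm_symm l (p 2) (p 1)]
  rfl

private theorem KPl_cd (l : V6) (p : Equiv.Perm (Fin 4)) :
    relab (p * Equiv.swap 2 3) l = scd (relab p l) := by
  rw [KPl_mk l (p * Equiv.swap 2 3) (p 0) (p 1) (p 3) (p 2)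
    (KPl_sw p _ _ _ _ (Equiv.swap_apply_of_ne_of_ne (by decide) (by decide)))
    (KPl_sw p _ _ _ _ (Equiv.swap_apply_of_ne_of_ne (by decide) (by decide)))
    (KPl_sw p _ _ _ _ (Equiv.swap_apply_left _ _)) (KPl_sw p _ _ _ _ (Equiv.swap_apply_right _ _)),
    KPl_mk l p _ _ _ _ rfl rfl rfl rfl, KPl_dm_symm l (p 3) (p 2)]
  rfl

private theorem KPl_range (y : Equiv.Perm (Fin 4))
    (hy : y ∈ Set.range fun i : Fin 3 ↦ Equiv.swap i.castSucc i.succ) :
    y = Equiv.swap 0 1 ∨ y = Equiv.swap 1 2 ∨ y = Equiv.swap 2 3 := by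
  obtain ⟨i, rfl⟩ := hy
  fin_cases i
  · exact Or.inl (by congr)
  · exact Or.inr (Or.inl (by congr))
  · exact Or.inr (Or.inr (by congr))

theorem relab_T {l : V6} (hl : l ∈ T) (p : Equiv.Perm (Fin 4)) : relab p l ∈ T := by
  have hp : p ∈ Submonoid.closure (Set.range fun i : Fin 3 ↦ Equiv.swap i.castSucc i.succ) := by
    rw [Equiv.Perm.mclosure_swap_castSucc_succ]
    exact Submonoid.mem_top p
  induction hp using Submonoid.closure_induction_right with
  | one => rw [KPl_one]; exact hl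
  | mul_right x _ y hy ih =>
    rcases KPl_range y hy with h | h | h
    · rw [h, KPl_ab]
      exact T_sab ih
    · rw [h, KPl_bc]
      exact T_sbc ih
    · rw [h, KPl_cd]
      exact T_scd ih

theorem plane1 {x y : ℝ} (hl : pl1 x y ∈ T) : pl1 x y ∈ Fam1 := by
  have hx : 0 < x := T_pos hl 2
  have hy : 0 < 6 * y := T_pos hl 3
  have hy' : 0 < y := by linarith
  have hW : W (pl1 x y) = 108 * x ^ 2 * y ^ 2 * (x ^ 2 - 16 * y ^ 2) := by
    change Wsq ((x + y) ^ 2) ((x + y) ^ 2) (x ^ 2) ((6 * y) ^ 2) ((x - y) ^ 2) ((x - y) ^ 2) = _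
    unfold Wsq
    ring
  have h1 : 0 < x ^ 2 - 16 * y ^ 2 := by
    have h2 := hl.2
    rw [hW] at h2
    exact (pos_iff_pos_of_mul_pos h2).1 (by positivity)
  have h4 : 4 * y < x := by nlinarith
  refine ⟨y, x / y, hy', by rw [lt_div_iff₀ hy']; exact h4, ?_⟩
  have e : y * (x / y) = x := by field_simp
  apply KPl_vec6
  · change x + y = y * (x / y + 1); rw [mul_add, e, mul_one]
  · change x + y = y * (x / y + 1); rw [mul_add, e, mul_one]
  · change x = y * (x / y); rw [e]
  · change 6 * y = y * 6; ring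
  · change x - y = y * (x / y - 1); rw [mul_sub, e, mul_one]
  · change x - y = y * (x / y - 1); rw [mul_sub, e, mul_one]

theorem plane2 {x y : ℝ} (hl : pl2 x y ∈ T) : pl2 x y ∈ Fam2 := by
  have h02 : (x + 6 * y) + (3 * x - 6 * y) < (2 * x + 2 * y) + (x + 4 * y) + (x + 6 * y) := hl.1 0 2
  have hy' : 0 < y := by linarith
  have h5 : 0 < 2 * x - 2 * y := T_pos hl 5
  have hx : 0 < x := by linarith
  have hW : W (pl2 x y) = 6912 * x ^ 2 * y ^ 2 * (x ^ 2 - 16 * y ^ 2) := by
    change Wsq ((2 * x + 2 * y) ^ 2) ((x + 4 * y) ^ 2) ((x + 6 * y) ^ 2) ((3 * x - 6 * y) ^ 2)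
      ((x + 8 * y) ^ 2) ((2 * x - 2 * y) ^ 2) = _
    unfold Wsq
    ring
  have h1 : 0 < x ^ 2 - 16 * y ^ 2 := by
    have h2 := hl.2
    rw [hW] at h2
    exact (pos_iff_pos_of_mul_pos h2).1 (by positivity)
  have h4 : 4 * y < x := by nlinarith
  refine ⟨y, x / y, hy', by rw [lt_div_iff₀ hy']; exact h4, ?_⟩
  have e : y * (x / y) = x := by field_simp
  apply KPl_vec6
  · change 2 * x + 2 * y = y * (2 * (x / y) + 2); linear_combination (-2) * e
  · change x + 4 * y = y * (x / y + 4); linear_combination (-1) * e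
  · change x + 6 * y = y * (x / y + 6); linear_combination (-1) * e
  · change 3 * x - 6 * y = y * (3 * (x / y) - 6); linear_combination (-3) * e
  · change x + 8 * y = y * (x / y + 8); linear_combination (-1) * e
  · change 2 * x - 2 * y = y * (2 * (x / y) - 2); linear_combination (-2) * e

theorem Fam1_plane {l : V6} (hl : l ∈ Fam1) : ∃ x y : ℝ, l = pl1 x y := by
  obtain ⟨k, m, -, -, rfl⟩ := hl
  refine ⟨k * m, k, ?_⟩
  apply KPl_vec6
  · change k * (m + 1) = k * m + k; ring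
  · change k * (m + 1) = k * m + k; ring
  · change k * m = k * m; ring
  · change k * 6 = 6 * k; ring
  · change k * (m - 1) = k * m - k; ring
  · change k * (m - 1) = k * m - k; ring

theorem Fam2_plane {l : V6} (hl : l ∈ Fam2) : ∃ x y : ℝ, l = pl2 x y := by
  obtain ⟨k, m, -, -, rfl⟩ := hl
  refine ⟨k * m, k, ?_⟩
  apply KPl_vec6
  · change k * (2 * m + 2) = 2 * (k * m) + 2 * k; ring
  · change k * (m + 4) = k * m + 4 * k; ring
  · change k * (m + 6) = k * m + 6 * k; ring
  · change k * (3 * m - 6) = 3 * (k * m) - 6 * k; ring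
  · change k * (m + 8) = k * m + 8 * k; ring
  · change k * (2 * m - 2) = 2 * (k * m) - 2 * k; ring

end Pool.Agent.helper37.NL
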