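import Pool.Agent.helper37.NL.KLi
import Pool.Agent.helper37.NL.KPl
import Pool.Agent.helper37.NP.GSh

/-!
NL-K6 (KSg).  The line segments in the set of shapes.

PROOF of `segment_class`.  Put `A = x`, `B = y - x`; the points of the segment are `A + τ B`,
`τ ∈ [0, 1]`.  `A, B` are linearly independent: all points of `shapes` have coordinate sum `1`, so
`∑ A_e = 1`, `∑ B_e = 0`, `B ≠ 0`.  Let `K = Subfield.closure` of the twelve numbers `A_e, B_e`; it is
countable, so only countably many reals are algebraic over `K` (`Algebraic.countable`), and the set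
`Θ` of the `τ ∈ (0, 1)` transcendental over `K` is infinite (uncountable).
For `τ ∈ Θ`: `A + τ B ∈ shapes` means `A + τ B = k' • lenv a b c d`, `k' > 0`, affinely independent,
`dehn = 0`; so `lenv a b c d = k'⁻¹ • (A + τ B)` and `isF_of_dehn` (with `p = A`, `q = B`, `m = τ`) gives
`IsF (lenv ..)`, hence `IsF (A + τ B)` (`IsF.smul`): there is `p` with `relab p (A + τ B) ∈ Fam1 ∪ Fam2`.
Pigeonhole (`48` possibilities, `Θ` infinite): two different `τ, τ' ∈ Θ` have the same `p` and the same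
family `j`.  So `relab p (A + τ B)`, `relab p (A + τ' B)` are in the plane `j` (`Fam_plane`), hence all
`relab p (A + t B)`, `t ∈ ℝ` (`relab` is linear, `relab_add`, `relab_smul`; the plane is a linear
subspace: `pl1` is linear in `(x, y)`).  For `t ∈ [0, 1]` the point `A + t B` is in `shapes ⊆ T`
(`shapes_T`: `lenv_mem`, `smul_mem_T`), so `relab p (A + t B) ∈ T` (`relab_T`), and `plane1` / `plane2` say
that it is in the family.
-/

namespace Pool.Agent.helper37.NL

open Real Pool.Agent.helper37.NP Pool.Agent.Helper93.Tet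

theorem shapes_T : shapes ⊆ T := by
  rintro l ⟨a, b, c, d, hind, hd, k', hk', hl, hsum⟩
  rw [hl]
  exact smul_mem_T (lenv_mem hind) hk'

theorem isF_of_shape {K : Subfield ℝ} {m : ℝ} (hm : Transcendental K m) {p q : V6}
    (hp : ∀ e, p e ∈ K) (hq : ∀ e, q e ∈ K) (hpq : LinearIndependent ℝ ![p, q])
    (h : p + m • q ∈ shapes) : IsF (p + m • q) := by
  obtain ⟨a, b, c, d, hind, hd, k', hk', hl, hsum⟩ := h
  have h1 : lenv a b c d = k'⁻¹ • (p + m • q) := by
    rw [hl, smul_smul, inv_mul_cancel₀ hk'.ne', one_smul]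
  have h2 : IsF (lenv a b c d) := isF_of_dehn hm hp hq hpq hind (inv_pos.2 hk') h1 hd
  rw [hl]
  exact h2.smul hk'

private theorem sg_pl1 (s t x y x' y' : ℝ) :
    s • pl1 x y + t • pl1 x' y' = pl1 (s * x + t * x') (s * y + t * y') := by
  funext e
  fin_cases e <;> simp [pl1] <;> ring

private theorem sg_pl2 (s t x y x' y' : ℝ) :
    s • pl2 x y + t • pl2 x' y' = pl2 (s * x + t * x') (s * y + t * y') := by
  funext e
  fin_cases e <;> simp [pl2] <;> ring

private theorem sg_ind {x y : V6} (hxy : x ≠ y) (hx : ∑ e, x e = 1) (hy : ∑ e, y e = 1) :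
    LinearIndependent ℝ ![x, y - x] := by
  rw [LinearIndependent.pair_iff]
  intro s t hst
  have h1 : s * ∑ e, x e + t * (∑ e, y e - ∑ e, x e) = 0 := by
    have h2 : ∑ e, (s • x + t • (y - x)) e = 0 := by
      rw [hst]; simp
    rw [← h2, Finset.mul_sum, ← Finset.sum_sub_distrib, Finset.mul_sum, ← Finset.sum_add_distrib]
    rfl
  rw [hx, hy] at h1
  have hs : s = 0 := by linarith
  refine ⟨hs, ?_⟩
  rw [hs, zero_smul, zero_add] at hst
  rcases smul_eq_zero.1 hst with h | h
  · exact h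
  · exact absurd (sub_eq_zero.1 h).symm hxy

private theorem sg_field (x y : V6) : ∃ K : Subfield ℝ, (∀ e, x e ∈ K) ∧ (∀ e, y e ∈ K) ∧
    {t : ℝ | t ∈ Set.Ioo (0 : ℝ) 1 ∧ Transcendental K t}.Infinite := by
  classical
  let S : Set ℝ := Set.range x ∪ Set.range y
  have hS : S.Countable := (Set.countable_range x).union (Set.countable_range y)
  refine ⟨Subfield.closure S, fun e => Subfield.subset_closure (Or.inl ⟨e, rfl⟩),
    fun e => Subfield.subset_closure (Or.inr ⟨e, rfl⟩), ?_⟩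
  have hK : Countable (Subfield.closure S) := by
    rw [← Cardinal.mk_le_aleph0_iff]
    refine (Subfield.cardinalMk_closure_le_max S).trans (max_le ?_ le_rfl)
    exact Cardinal.mk_le_aleph0_iff.2 hS.to_subtype
  have hA : {t : ℝ | IsAlgebraic (Subfield.closure S) t}.Countable :=
    Algebraic.countable (Subfield.closure S) ℝ
  intro hfin
  have h1 : (Set.Ioo (0 : ℝ) 1).Countable := by
    refine (hfin.countable.union hA).mono ?_
    intro t ht
    by_cases h : IsAlgebraic (Subfield.closure S) t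
    · exact Or.inr h
    · exact Or.inl ⟨ht, h⟩
  have h2 : Cardinal.mk (Set.Ioo (0 : ℝ) 1) ≤ Cardinal.aleph0 :=
    Cardinal.mk_le_aleph0_iff.2 h1.to_subtype
  rw [Cardinal.mk_Ioo_real one_pos] at h2
  exact absurd h2 (not_le.2 Cardinal.aleph0_lt_continuum)

theorem segment_class {x y : V6} (hxy : x ≠ y) (h : segment ℝ x y ⊆ shapes) :
    ∃ p : Equiv.Perm (Fin 4),
      (∀ l ∈ segment ℝ x y, relab p l ∈ Fam1) ∨ (∀ l ∈ segment ℝ x y, relab p l ∈ Fam2) := by
  classical
  have hsum : ∀ l ∈ shapes, ∑ e, l e = 1 := by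
    rintro l ⟨a, b, c, d, _, _, k', _, _, hs⟩
    exact hs
  have hx1 := hsum x (h (left_mem_segment ℝ x y))
  have hy1 := hsum y (h (right_mem_segment ℝ x y))
  have hind := sg_ind hxy hx1 hy1
  obtain ⟨K, hKx, hKy, hinf⟩ := sg_field x y
  have hmem : ∀ t : ℝ, t ∈ Set.Icc (0 : ℝ) 1 → x + t • (y - x) ∈ segment ℝ x y := by
    intro t ht
    rw [segment_eq_image']
    exact ⟨t, ht, rfl⟩
  have hF : ∀ t : {t : ℝ | t ∈ Set.Ioo (0 : ℝ) 1 ∧ Transcendental K t},
      ∃ q : Equiv.Perm (Fin 4) × Bool,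
        (q.2 = true → relab q.1 (x + (t : ℝ) • (y - x)) ∈ Fam1) ∧
        (q.2 = false → relab q.1 (x + (t : ℝ) • (y - x)) ∈ Fam2) := by
    rintro ⟨t, ht, htr⟩
    have h1 : x + t • (y - x) ∈ shapes := h (hmem t ⟨ht.1.le, ht.2.le⟩)
    obtain ⟨p, k, m, hk, hm, h2 | h2⟩ := isF_of_shape htr hKx
      (fun e => K.sub_mem (hKy e) (hKx e)) hind h1
    · exact ⟨⟨p, true⟩, fun _ => ⟨k, m, hk, hm, h2⟩, fun h => by simp at h⟩
    · exact ⟨⟨p, false⟩, fun h => by simp at h, fun _ => ⟨k, m, hk, hm, h2⟩⟩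
  choose f hf1 hf2 using hF
  have : Infinite {t : ℝ | t ∈ Set.Ioo (0 : ℝ) 1 ∧ Transcendental K t} := hinf.to_subtype
  obtain ⟨t, t', hne, hff⟩ := Finite.exists_ne_map_eq_of_infinite f
  have hne' : (t : ℝ) - (t' : ℝ) ≠ 0 := sub_ne_zero.2 fun h => hne (Subtype.ext h)
  have hcomb : ∀ u : ℝ, x + u • (y - x) =
      ((u - t') / (t - t') : ℝ) • (x + (t : ℝ) • (y - x))
        + ((t - u) / (t - t') : ℝ) • (x + (t' : ℝ) • (y - x)) := by
    intro u
    funext e
    simp only [Pi.add_apply, Pi.smul_apply, smul_eq_mul, Pi.sub_apply]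
    field_simp
    ring
  have hseg : ∀ l ∈ segment ℝ x y, ∃ u : ℝ, l = x + u • (y - x) := by
    intro l hl
    rw [segment_eq_image'] at hl
    obtain ⟨u, -, hu⟩ := hl
    exact ⟨u, hu.symm⟩
  refine ⟨(f t).1, ?_⟩
  cases hb : (f t).2 with
  | true =>
    left
    have h1 := hf1 t hb
    have h2 := hf1 t' (hff ▸ hb)
    rw [← hff] at h2
    obtain ⟨a, b, hab⟩ := Fam1_plane h1
    obtain ⟨a', b', hab'⟩ := Fam1_plane h2
    intro l hl
    obtain ⟨u, rfl⟩ := hseg l hl
    have hT := relab_T (shapes_T (h hl)) (f t).1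
    have e : relab (f t).1 (x + u • (y - x)) = pl1 ((u - t') / (t - t') * a + (t - u) / (t - t') * a')
        ((u - t') / (t - t') * b + (t - u) / (t - t') * b') := by
      rw [hcomb u, relab_add, relab_smul, relab_smul, hab, hab', sg_pl1]
    rw [e] at hT ⊢
    exact plane1 hT
  | false =>
    right
    have h1 := hf2 t hb
    have h2 := hf2 t' (hff ▸ hb)
    rw [← hff] at h2
    obtain ⟨a, b, hab⟩ := Fam2_plane h1
    obtain ⟨a', b', hab'⟩ := Fam2_plane h2
    intro l hl
    obtain ⟨u, rfl⟩ := hseg l hl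
    have hT := relab_T (shapes_T (h hl)) (f t).1
    have e : relab (f t).1 (x + u • (y - x)) = pl2 ((u - t') / (t - t') * a + (t - u) / (t - t') * a')
        ((u - t') / (t - t') * b + (t - u) / (t - t') * b') := by
      rw [hcomb u, relab_add, relab_smul, relab_smul, hab, hab', sg_pl2]
    rw [e] at hT ⊢
    exact plane2 hT

end Pool.Agent.helper37.NL
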