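import Pool.Agent.helper37.NL.Eqs

/-!
NL-15 (KaA).  Positions of the special parameters.  `h : PQ Bx By Rx Ry`, notation of `PQ.shape`,
`C = a1 + a2 + b0 + b1`, `d > 0`.

`E0_bounds`.  Let `b0 < b1` and `Bx 3 - s * By 3 = b0`.  Then `b0 < s < C / 2`.
PROOF.  `(2+d) s = C + g - b0 > 0`, so `s > 0`.  `E0`: `(b0 - s)(b0 + a1)(b0 + a2)
+ (b1 - b0)(b0 + s)(C - 2 s) = 0` with positive factors `(b0 + a1)(b0 + a2)`, `(b1 - b0)(b0 + s)`.
If `s ≤ b0` then `C - 2 s ≤ 0`, so `C ≤ 2 b0 < b0 + b1 < C`, contradiction; so `s > b0`, the first term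
is negative and `C - 2 s > 0`.

`skap`.  Let `b0 < b1`, `a1 = b0`, and let `s` satisfy `g = (1 + d) s` (so `s = g / (1+d) > 0` is the
parameter of the coincidence `B 0 = R 2`).  Then
(1) `Bx 3 - s * By 3 ≠ b0`: otherwise `C + g - (2+d) s = b0` gives `C - s = b0`, `s = a1 + a2 + b1`, but
    `s < C/2` by `E0_bounds` and `2 (a1 + a2 + b1) = C + (a1 + a2) + (b1 - b0) > C`.
(2) `Bx 3 - s * By 3 ≠ b1`: otherwise `C - s = b1`, `s = a1 + a2 + b0`.  `E1`: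
    `(b1 - s)(b1 + a1)(b1 + a2) = (b1 - b0)(b1 + s)(C - 2 s)`, and
    `b1 - s = C - 2 s = b1 - b0 - a1 - a2 =: x`.  If `x ≠ 0` cancel:
    `(b1 + a1)(b1 + a2) = (b1 - b0)(b1 + a1 + a2 + b0)`, i.e. `a1 a2 = -b0 (a1 + a2 + b0) < 0`,
    contradiction.  If `x = 0`: `b1 = a1 + a2 + b0 = s`, `C = 2 b1`, `g = (1+d) b1`, `a1 = b0`; `q1`:
    `a1 a2 (C + g) = b0 b1 g` gives `a2 (3 + d) = (1 + d) b1 = (1 + d)(2 b0 + a2)`, so
    `a2 = (1 + d) b0`, `b1 = (3 + d) b0`, `C = 2 (3 + d) b0`; then the parameter `s0` with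
    `(2 + d) s0 = C + g - b0 = (2 + d)(4 + d) b0` is `s0 = (4 + d) b0 > (3 + d) b0 = C / 2`,
    contradiction to `E0_bounds`.
(3) `Bx 3 - s * By 3 ≠ -s`: otherwise `C + g - (2+d) s = -s` gives `C + g = (1+d) s = g`, `C = 0`.
-/

namespace Pool.Agent.helper37.NL

open Real Pool.Agent.helper37.NP Pool.Agent.Helper93.Tet

theorem E0_bounds {Bx By Rx Ry : V4} (h : PQ Bx By Rx Ry) (hd : 0 < Ry 2) (hb : Rx 0 < Rx 1)
    {s : ℝ} (hs : Bx 3 - s * By 3 = Rx 0) :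
    Rx 0 < s ∧ 2 * s < -Bx 1 - Bx 2 + Rx 0 + Rx 1 := by
  have p1 := h.bx 1 (by decide) (by decide)
  have p2 := h.bx 2 (by decide) (by decide)
  have q0 := h.rx 0 (by decide)
  have q1 := h.rx 1 (by decide)
  have q2 := h.rx 2 (by decide)
  have hE := E0 h hd hs
  rw [h.bx3, h.by3] at hs
  have hs0 : 0 < s := by
    have e : 0 < (2 + Ry 2) * s := by linarith
    exact pos_of_mul_pos_right e (by linarith)
  have f1 : 0 < (Rx 0 - Bx 1) * (Rx 0 - Bx 2) := mul_pos (by linarith) (by linarith)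
  have f2 : 0 < (Rx 1 - Rx 0) * (Rx 0 + s) := mul_pos (by linarith) (by linarith)
  have hE' : (Rx 0 - s) * ((Rx 0 - Bx 1) * (Rx 0 - Bx 2))
      + ((Rx 1 - Rx 0) * (Rx 0 + s)) * (-Bx 1 - Bx 2 + Rx 0 + Rx 1 - 2 * s) = 0 := by
    linear_combination hE
  have hb0 : Rx 0 < s := by
    by_contra hcon
    push Not at hcon
    have g1 : 0 ≤ (Rx 0 - s) * ((Rx 0 - Bx 1) * (Rx 0 - Bx 2)) :=
      mul_nonneg (by linarith) f1.le
    have g2 : 0 < -Bx 1 - Bx 2 + Rx 0 + Rx 1 - 2 * s := by linarith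
    have g3 := mul_pos f2 g2
    linarith
  refine ⟨hb0, ?_⟩
  have g1 : (Rx 0 - s) * ((Rx 0 - Bx 1) * (Rx 0 - Bx 2)) < 0 :=
    mul_neg_of_neg_of_pos (by linarith) f1
  have g2 : 0 < ((Rx 1 - Rx 0) * (Rx 0 + s)) * (-Bx 1 - Bx 2 + Rx 0 + Rx 1 - 2 * s) := by
    linarith
  have g3 := pos_of_mul_pos_right g2 f2.le
  linarith

theorem skap {Bx By Rx Ry : V4} (h : PQ Bx By Rx Ry) (hd : 0 < Ry 2) (hb : Rx 0 < Rx 1)
    (ha : -Bx 1 = Rx 0) {s : ℝ} (hs : Rx 2 = (1 + Ry 2) * s) :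
    Bx 3 - s * By 3 ≠ Rx 0 ∧ Bx 3 - s * By 3 ≠ Rx 1 ∧ Bx 3 - s * By 3 ≠ -s := by
  have p1 := h.bx 1 (by decide) (by decide)
  have p2 := h.bx 2 (by decide) (by decide)
  have q0 := h.rx 0 (by decide)
  have q1 := h.rx 1 (by decide)
  have q2 := h.rx 2 (by decide)
  refine ⟨fun hc => ?_, fun hc => ?_, fun hc => ?_⟩
  · obtain ⟨-, h2⟩ := E0_bounds h hd hb hc
    rw [h.bx3, h.by3] at hc
    have e : s = -Bx 1 - Bx 2 + Rx 1 := by linear_combination -hc + hs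
    linarith
  · have hE := E1 h hd hc
    rw [h.bx3, h.by3] at hc
    have e : s = -Bx 1 - Bx 2 + Rx 0 := by linear_combination -hc + hs
    have hx : (Rx 1 + Bx 1 + Bx 2 - Rx 0) * (Bx 1 * Bx 2 + Rx 0 * (-Bx 1 - Bx 2 + Rx 0)) = 0 := by
      rw [e] at hE
      linear_combination hE
    have hpos : 0 < Bx 1 * Bx 2 + Rx 0 * (-Bx 1 - Bx 2 + Rx 0) := by
      have g1 : 0 < Bx 1 * Bx 2 := mul_pos_of_neg_of_neg p1 p2
      have g2 : 0 < Rx 0 * (-Bx 1 - Bx 2 + Rx 0) := mul_pos q0 (by linarith)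
      linarith
    have hx0 : Rx 1 + Bx 1 + Bx 2 - Rx 0 = 0 := by
      rcases mul_eq_zero.1 hx with h1 | h1
      · exact h1
      · exact absurd h1 hpos.ne'
    have hq := h.q1
    rw [h.bx3] at hq
    -- the values of all the numbers in terms of `b0 = Rx 0` and `d = Ry 2`
    obtain ⟨b, hb'⟩ : ∃ b, b = Rx 0 := ⟨_, rfl⟩
    obtain ⟨d, hd'⟩ : ∃ d, d = Ry 2 := ⟨_, rfl⟩
    obtain ⟨a, ha'⟩ : ∃ a, a = -Bx 2 := ⟨_, rfl⟩
    have e1 : Bx 1 = -b := by linarith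
    have e2 : Bx 2 = -a := by linarith
    have e3 : Rx 1 = 2 * b + a := by linarith
    have e4 : s = 2 * b + a := by rw [e, e1, e2, ← hb']; ring
    have e5 : Rx 2 = (1 + d) * (2 * b + a) := by rw [hs, e4, hd']
    have hb0 : 0 < b := by rw [hb']; exact q0
    have ha0 : 0 < a := by linarith
    have hd0 : 0 < d := by rw [hd']; exact hd
    rw [e1, e2, e3, e5, ← hb'] at hq
    have e6 : b * (2 * b + a) * (2 * (a - (1 + d) * b)) = 0 := by linear_combination -hq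
    have e7 : a = (1 + d) * b := by
      rcases mul_eq_zero.1 e6 with h1 | h1
      · exact absurd h1 (mul_pos hb0 (by linarith)).ne'
      · linarith
    obtain ⟨-, h2⟩ := E0_bounds h hd hb (s := (4 + d) * b) (by
      rw [h.bx3, h.by3, e1, e2, e3, e5, ← hb', ← hd', e7]
      ring)
    rw [e1, e2, e3, ← hb', e7] at h2
    have e8 : 0 < b := hb0
    nlinarith
  · rw [h.bx3, h.by3] at hc
    have e : -Bx 1 - Bx 2 + Rx 0 + Rx 1 = 0 := by linear_combination hc - hs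
    linarith

end Pool.Agent.helper37.NL
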