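import Pool.Agent.helper37.NL.KaA
import Pool.Agent.helper37.NL.Cub

/-!
NL-16 (KaB).  The coincidence `B 0 = R 2` is not a zero of `Wf`.

PROOF.  Notation of `PQ.shape`, `C = a1 + a2 + b0 + b1`, `d > 0`, `b0 < b1`, `a1 = b0`.
`s0 = (C + g - b0)/(2+d)`, `s1 = (C + g - b1)/(2+d)`, `s3 = (C + g)/(1+d)`, `s = g/(1+d)` are positive.
At `s0, s1, s3` one has `Kf 3 0 = 0`, `Kf 3 1 = 0`, `Kf 3 3 = 0` (`K30, K31, K33`), so `Wf = 0` there by
`Kf_sq` (`e1 (Bx - s • By) = e1 (Rx - s • Ry)` from `sx, sy`).  If `Kf 0 2 = 0` at `s`, then also `Wf = 0`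
at `s` (`B 0 = s = g - d s = R 2`).  The four parameters are distinct: `s1 < s0 < s3` (`b0 < b1`;
`(2+d) s0 < C + g` and `(2+d) s3 > (1+d) s3 = C + g`), and `s ≠ s0, s1, s3` by `skap` (`s = s0` means
`Bx 3 - s * By 3 = Rx 0` etc.).  Contradiction to `four`.
-/

namespace Pool.Agent.helper37.NL

open Real Pool.Agent.helper37.NP Pool.Agent.Helper93.Tet

/-- the sums of the blue and red numbers agree at every parameter -/
theorem KaB_e1 {Bx By Rx Ry : V4} (h : PQ Bx By Rx Ry) (s : ℝ) :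
    e1 (Bx - s • By) = e1 (Rx - s • Ry) := by
  have h1 := h.sx
  have h2 := h.sy
  unfold e1 at *
  simp only [Pi.sub_apply, Pi.smul_apply, smul_eq_mul]
  linear_combination h1 - s * h2

/-- a coincidence with `Kf = 0` is a zero of `Wf` -/
theorem KaB_zero {Bx By Rx Ry : V4} (h : PQ Bx By Rx Ry) (s : ℝ) (i v : Fin 4)
    (hc : Bx i - s * By i = Rx v - s * Ry v)
    (hK : Kf (Bx - s • By) (Rx - s • Ry) i v = 0) : Wf (Bx - s • By) (Rx - s • Ry) = 0 := by
  have h1 := Kf_sq (KaB_e1 h s) (i := i) (v := v)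
    (by simpa only [Pi.sub_apply, Pi.smul_apply, smul_eq_mul] using hc)
  rw [hK] at h1
  linarith

theorem K02_ne {Bx By Rx Ry : V4} (h : PQ Bx By Rx Ry) (hd : 0 < Ry 2) (hb : Rx 0 < Rx 1)
    (ha : -Bx 1 = Rx 0) {s : ℝ} (hs : Rx 2 = (1 + Ry 2) * s) :
    Kf (Bx - s • By) (Rx - s • Ry) 0 2 ≠ 0 := by
  intro hK
  have hby3 := h.by3
  have hbx3 := h.bx3
  have ha1 := h.bx 1 (by decide) (by decide)
  have ha2 := h.bx 2 (by decide) (by decide)
  have hb0 := h.rx 0 (by decide)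
  have hb1 := h.rx 1 (by decide)
  have hg := h.rx 2 (by decide)
  have h0 := h.bx0
  have h0' := h.by0
  have h3 := h.rx3
  have h3' := h.ry3
  have hr0 := h.r0
  have hr1 := h.r1
  have hd2 : (0 : ℝ) < 2 + Ry 2 := by linarith
  have hd1 : (0 : ℝ) < 1 + Ry 2 := by linarith
  obtain ⟨s0, hs0⟩ : ∃ s0, s0 = (Bx 3 - Rx 0) / (2 + Ry 2) := ⟨_, rfl⟩
  obtain ⟨s1, hs1⟩ : ∃ s1, s1 = (Bx 3 - Rx 1) / (2 + Ry 2) := ⟨_, rfl⟩
  obtain ⟨s3, hs3⟩ : ∃ s3, s3 = Bx 3 / (1 + Ry 2) := ⟨_, rfl⟩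
  have e0 : Bx 3 - s0 * By 3 = Rx 0 := by
    rw [hs0, hby3]
    field_simp
    ring
  have e1' : Bx 3 - s1 * By 3 = Rx 1 := by
    rw [hs1, hby3]
    field_simp
    ring
  have e3' : Bx 3 - s3 * By 3 = -s3 := by
    rw [hs3, hby3]
    field_simp
    ring
  have p0 : 0 < s0 := by
    rw [hs0]
    apply div_pos _ hd2
    linarith
  have p1 : 0 < s1 := by
    rw [hs1]
    apply div_pos _ hd2
    linarith
  have p3 : 0 < s3 := by
    rw [hs3]
    apply div_pos _ hd1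
    linarith
  have ps : 0 < s := by
    by_contra hn
    have : (1 + Ry 2) * s ≤ 0 := mul_nonpos_of_nonneg_of_nonpos hd1.le (not_lt.1 hn)
    linarith
  have l10 : s1 < s0 := by
    rw [hs0, hs1]
    apply div_lt_div_of_pos_right _ hd2
    linarith
  have l03 : s0 < s3 := by
    rw [hs0, hs3, div_lt_div_iff₀ hd2 hd1]
    nlinarith
  obtain ⟨k0, k1, k3⟩ := skap h hd hb ha hs
  have n0 : s ≠ s0 := by
    rintro rfl
    exact k0 e0
  have n1 : s ≠ s1 := by
    rintro rfl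
    exact k1 e1'
  have n3 : s ≠ s3 := by
    rintro rfl
    exact k3 e3'
  have W0 := KaB_zero h s0 3 0 (by rw [e0, hr0]; ring) (K30 h hd e0)
  have W1 := KaB_zero h s1 3 1 (by rw [e1', hr1]; ring) (K31 h hd e1')
  have W3 := KaB_zero h s3 3 3 (by rw [e3', h3, h3']; ring) (K33 h hd e3')
  have Ws := KaB_zero h s 0 2 (by rw [h0, h0', hs]; ring) hK
  refine four h ![s0, s1, s3, s] ?_ ?_ ?_
  · intro i j hij
    fin_cases i <;> fin_cases j <;> first | rfl | (exfalso; simp at hij; first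
      | linarith
      | exact n0 hij | exact n0 hij.symm | exact n1 hij | exact n1 hij.symm | exact n3 hij
      | exact n3 hij.symm)
  · intro i
    fin_cases i
    · exact p0.ne'
    · exact p1.ne'
    · exact p3.ne'
    · exact ps.ne'
  · intro i
    fin_cases i
    · exact W0
    · exact W1
    · exact W3
    · exact Ws

end Pool.Agent.helper37.NL
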