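import Pool.Agent.helper37.NL.KaB

/-!
NL-17 (KaC).  The case `b0 = a1` is the first class is impossible.

SETTING.  Notation of `PQ.shape`: `a1, a2, b0, b1, g > 0`, `d > 0`, `a1 = b0 < b1`, `b0 < a2`,
`b0 (1 + d) < g`, `C = a1 + a2 + b0 + b1`.  Let `s = g / (1 + d)`, so `s > b0`.  At `s`:
`B = (s, -a1, -a2, C - s)` (because `C + g - (2+d) s = C - s`), `R = (b0, b1, s, -s)`
(`g - d s = s`), weights `w 0 v = -1, -1, -1 - d, -2`; `w k v = 0, 0, -d, -1` (`k = 1, 2`);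
`w 3 v = 2 + d, 2 + d, 2, 1 + d`.

PROOF of `kap_cases`.  `Kf 0 2 ≠ 0` (`K02_ne`), so `signed` with `(i0, v0) = (0, 2)` and `h.bal s` gives
that the signed sum of the weights of the coincidences is `0`, sign `+` if `B i = s`, `-` otherwise.
Coincidences with value `s`: `i ∈ {0} ∪ {3 if C = 2 s}`, `v ∈ {2} ∪ {1 if b1 = s}` (`b0 < s`).  Both `3` and
`1` together are impossible (`Kf_double` would give `Kf 0 2 = 0`).
Coincidences with another value: `(k, 3)` if `a_k = s`, `k ∈ {1, 2}`; here `a1 = b0 < s`, so only `k = 2`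
is possible, weight `-1`; `(3, 0)` if `C - s = b0`, weight `2 + d`, and `(3, 1)` if `C - s = b1 ≠ s`,
weight `2 + d` (not both, `b0 ≠ b1`); `(3, 3)` is impossible (`C - s ≠ -s`); `(k, v)`, `v ≠ 3`, impossible
(`-a_k < 0 < R v`); `(0, 3)` impossible.
Let `W1 = ` the sum of the weights with value `s` and `W2 = ` the sum of the others; `W1 = W2`.
 * value class `{0} × {2}`: `W1 = -(1 + d)`; `{0} × {2, 1}`: `W1 = -(2 + d)`; `{0, 3} × {2}`:
   `W1 = 1 - d` (and then `C = 2 s`, so `(3, 0)`: `s = b0` no, `(3, 1)`: `b1 = s`, no: not of another value).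
 * `W2 ∈ {0, -1, 2 + d, 1 + d}`  (`-1` from `(2, 3)`, `2 + d` from `(3, 0)` or `(3, 1)`).
 `-(1 + d) = -1` would need `d = 0`; `-(2+d) ∈ {0, -1}` impossible; negative `W1` is not `2 + d` or `1 + d`.
 So `C = 2 s`, `W1 = 1 - d` and `W2 ∈ {0, -1}`: either `W2 = 0`, `d = 1`, `g = 2 s = C`, or `W2 = -1`,
 `a2 = s`, `d = 2`, `g = 3 s`, `2 a2 = C`, `2 g = 3 C`.
PROOF of `fa_false`.  Use `E3` at `s3 = (C + g) / (1 + d)` (the solution of `Bx 3 - s3 * By 3 = -s3`).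
 * `d = 1`, `g = C`: `s3 = C`, `E3`: `C³ - (C B - 2 (b0 b1 - a1 a2)) C - C b0 b1 = 0` with `B = b0 + b1`,
   `A = a1 + a2`, `C = A + B`.  Divide by `C`: `C A + b0 b1 - 2 a1 a2 = 0`, but
   `C A > A² ≥ 4 a1 a2`, contradiction.
 * `d = 2`, `2 g = 3 C`, `2 a2 = C`: `s3 = 5 C / 6`; `E3` divided by `C`:
   `25 C²/36 - (5/6)(C B - 2 b0 b1 + 2 a1 a2) - b0 b1 = 0` with `a2 = C/2`, `a1 = b0`,
   `B = C - A = C/2 - b0`: the left side is `10 C²/36 + (2/3) b0 b1 > 0`, contradiction.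
   (`(5/6) C B = (5/6) C (C/2 - b0)`, `(5/3) a1 a2 = (5/6) C b0`.)
-/

namespace Pool.Agent.helper37.NL

open Real Pool.Agent.helper37.NP Pool.Agent.Helper93.Tet

theorem kap_cases {Bx By Rx Ry : V4} (h : PQ Bx By Rx Ry) (hd : 0 < Ry 2) (hb : Rx 0 < Rx 1)
    (ha : -Bx 1 = Rx 0) (ha2 : Rx 0 < -Bx 2) (hg : Rx 0 * (1 + Ry 2) < Rx 2) :
    (Ry 2 = 1 ∧ Rx 2 = -Bx 1 - Bx 2 + Rx 0 + Rx 1) ∨
    (Ry 2 = 2 ∧ 2 * Rx 2 = 3 * (-Bx 1 - Bx 2 + Rx 0 + Rx 1) ∧
      2 * (-Bx 2) = -Bx 1 - Bx 2 + Rx 0 + Rx 1) := by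
  have hd1 : 0 < 1 + Ry 2 := by linarith
  obtain ⟨s, hs⟩ : ∃ s, Rx 2 = (1 + Ry 2) * s :=
    ⟨Rx 2 / (1 + Ry 2), (mul_div_cancel₀ _ hd1.ne').symm⟩
  have hsb : Rx 0 < s := by
    have h1 : (1 + Ry 2) * Rx 0 < (1 + Ry 2) * s := by rw [← hs]; linarith
    exact lt_of_mul_lt_mul_left h1 hd1.le
  have hK := K02_ne h hd hb ha hs
  have hb0 := h.rx 0 (by decide)
  have hbal := h.bal s
  set B : V4 := Bx - s • By with hB
  set R : V4 := Rx - s • Ry with hR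
  have eB : ∀ i, Bx i - s * By i = B i := fun i => by simp [hB]
  have eR : ∀ i, Rx i - s * Ry i = R i := fun i => by simp [hR]
  have B0 : B 0 = s := by rw [← eB, h.bx0, h.by0]; ring
  have B1 : B 1 = -Rx 0 := by rw [← eB, h.b1]; linarith
  have B2 : B 2 = Bx 2 := by rw [← eB, h.b2]; ring
  have B3 : B 3 = -Bx 1 - Bx 2 + Rx 0 + Rx 1 - s := by
    rw [← eB, h.by3, h.bx3, hs]; ring
  have R0 : R 0 = Rx 0 := by rw [← eR, h.r0]; ring
  have R1 : R 1 = Rx 1 := by rw [← eR, h.r1]; ring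
  have R2 : R 2 = s := by rw [← eR, hs]; ring
  have R3 : R 3 = -s := by rw [← eR, h.rx3, h.ry3]; ring
  have hsum : e1 B = e1 R := by
    have hx := h.sx
    have hy := h.sy
    unfold e1 at hx hy ⊢
    rw [← eB, ← eB, ← eB, ← eB, ← eR, ← eR, ← eR, ← eR]
    linear_combination hx - s * hy
  simp only [eB, eR] at hbal
  have hsg := (signed hsum (B0.trans R2.symm) (fun i v => By i - Ry v) hbal).resolve_left hK
  have hdbl : ¬ (B 3 = B 0 ∧ R 1 = R 2) := fun hh =>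
    hK (Kf_double hsum (by decide) (by decide) (B0.trans R2.symm) hh.1 hh.2)
  have z00 : ¬ B 0 = R 0 := by rw [B0, R0]; exact hsb.ne'
  have z03 : ¬ B 0 = R 3 := by rw [B0, R3]; intro e; linarith
  have z10 : ¬ B 1 = R 0 := by rw [B1, R0]; intro e; linarith
  have z11 : ¬ B 1 = R 1 := by rw [B1, R1]; intro e; linarith
  have z12 : ¬ B 1 = R 2 := by rw [B1, R2]; intro e; linarith
  have z13 : ¬ B 1 = R 3 := by rw [B1, R3]; intro e; linarith
  have z20 : ¬ B 2 = R 0 := by rw [B2, R0]; intro e; linarith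
  have z21 : ¬ B 2 = R 1 := by rw [B2, R1]; intro e; linarith
  have z22 : ¬ B 2 = R 2 := by rw [B2, R2]; intro e; linarith
  have z33 : ¬ B 3 = R 3 := by rw [B3, R3]; intro e; linarith
  have p02 : B 0 = R 2 := B0.trans R2.symm
  simp only [Fin.sum_univ_four, if_neg z00, if_neg z03, if_neg z10, if_neg z11, if_neg z12,
    if_neg z13, if_neg z20, if_neg z21, if_neg z22, if_neg z33, if_pos p02, if_true,
    h.by0, h.b2, h.by3, h.r0, h.r1, h.ry3] at hsg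
  have q23 : ¬ B 2 = B 0 := by rw [B2, B0]; intro e; linarith
  rw [if_neg q23] at hsg
  by_cases hT : B 3 = R 2
  · have n30 : ¬ B 3 = R 0 := by intro e; rw [hT] at e; rw [R2, R0] at e; linarith
    have n30' : B 3 = B 0 := hT.trans p02.symm
    have n1 : ¬ R 1 = R 2 := fun e => hdbl ⟨n30', e⟩
    have n31 : ¬ B 3 = R 1 := fun e => n1 (e.symm.trans hT)
    have n01 : ¬ B 0 = R 1 := fun e => n1 (e.symm.trans p02)
    rw [if_neg n30, if_neg n31, if_neg n01, if_pos hT, if_pos n30'] at hsg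
    have hC : -Bx 1 - Bx 2 + Rx 0 + Rx 1 = 2 * s := by rw [B3, R2] at hT; linarith
    by_cases hQ : B 2 = R 3
    · rw [if_pos hQ] at hsg
      right
      have hd2 : Ry 2 = 2 := by linarith
      rw [B2, R3] at hQ
      rw [hd2] at hs
      refine ⟨hd2, ?_, ?_⟩ <;> linarith
    · rw [if_neg hQ] at hsg
      left
      have hd2 : Ry 2 = 1 := by linarith
      rw [hd2] at hs
      refine ⟨hd2, ?_⟩
      linarith
  · exfalso
    have n3 : ¬ B 3 = B 0 := fun e => hT (e.trans p02)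
    rw [if_neg hT] at hsg
    simp only [if_neg n3] at hsg
    have c1 : (if B 0 = R 1 then (-1 - 0 : ℝ) else 0) ≤ 0 := by split_ifs <;> linarith
    have c2 : (if B 2 = R 3 then (-(0 - 1) : ℝ) else 0) ≤ 1 := by split_ifs <;> linarith
    have c3 : (if B 3 = R 0 then (-(2 + Ry 2 - 0) : ℝ) else 0) ≤ 0 := by split_ifs <;> linarith
    have c4 : (if B 3 = R 1 then (-(2 + Ry 2 - 0) : ℝ) else 0) ≤ 0 := by split_ifs <;> linarith
    linarith

theorem fa_false {Bx By Rx Ry : V4} (h : PQ Bx By Rx Ry) (hd : 0 < Ry 2) (hb : Rx 0 < Rx 1)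
    (ha : -Bx 1 = Rx 0) (ha2 : Rx 0 < -Bx 2) (hg : Rx 0 * (1 + Ry 2) < Rx 2) : False := by
  have hb0 := h.rx 0 (by decide)
  have hb1 := h.rx 1 (by decide)
  have ha1' := h.bx 1 (by decide) (by decide)
  have ha2' := h.bx 2 (by decide) (by decide)
  obtain ⟨a1, ea1⟩ : ∃ a, a = -Bx 1 := ⟨_, rfl⟩
  obtain ⟨a2, ea2⟩ : ∃ a, a = -Bx 2 := ⟨_, rfl⟩
  obtain ⟨b0, eb0⟩ : ∃ a, a = Rx 0 := ⟨_, rfl⟩
  obtain ⟨b1, eb1⟩ : ∃ a, a = Rx 1 := ⟨_, rfl⟩
  have e1' : Bx 1 = -a1 := by linarith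
  have e2' : Bx 2 = -a2 := by linarith
  rcases kap_cases h hd hb ha ha2 hg with ⟨hd1, hC⟩ | ⟨hd2, hC, hA⟩
  · have hs : Bx 3 - (-Bx 1 - Bx 2 + Rx 0 + Rx 1) * By 3 = -(-Bx 1 - Bx 2 + Rx 0 + Rx 1) := by
      rw [h.bx3, h.by3, hd1, hC]; ring
    have h3 := E3 h hd hs
    rw [e1', e2', ← eb0, ← eb1] at h3
    rw [e1', ← eb0] at ha
    have p1 : 0 < a1 := by linarith
    have p2 : 0 < a2 := by linarith
    have p3 : 0 < b0 := by linarith
    have p4 : 0 < b1 := by linarith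
    have hCp : 0 < a1 + a2 + b0 + b1 := by linarith
    have key : (a1 + a2 + b0 + b1) *
        ((a1 + a2 + b0 + b1) * (a1 + a2) + b0 * b1 - 2 * (a1 * a2)) = 0 := by
      linear_combination h3
    have key2 : (a1 + a2 + b0 + b1) * (a1 + a2) + b0 * b1 - 2 * (a1 * a2) = 0 :=
      (mul_eq_zero.mp key).resolve_left hCp.ne'
    nlinarith [mul_pos p1 p2, mul_pos p3 p4, mul_pos p1 p3, mul_pos p1 p4, mul_pos p2 p3,
      mul_pos p2 p4, mul_pos p1 p1, mul_pos p2 p2]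
  · have hs : Bx 3 - (5 / 6 * (-Bx 1 - Bx 2 + Rx 0 + Rx 1)) * By 3
        = -(5 / 6 * (-Bx 1 - Bx 2 + Rx 0 + Rx 1)) := by
      have h2 : Rx 2 = 3 / 2 * (-Bx 1 - Bx 2 + Rx 0 + Rx 1) := by linarith
      rw [h.bx3, h.by3, hd2, h2]; ring
    have h3 := E3 h hd hs
    rw [e1', e2', ← eb0, ← eb1] at h3
    rw [e1', ← eb0] at ha
    rw [e1', e2', ← eb0, ← eb1] at hA
    have p2 : 0 < a2 := by linarith
    have p3 : 0 < b0 := by linarith
    have p4 : 0 < b1 := by linarith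
    have q1 : a1 = b0 := by linarith
    have q2 : b1 = a2 - 2 * b0 := by linarith
    subst q1
    have hb1' : b1 = a2 - 2 * a1 := q2
    have key : (2 * a2) * (10 / 9 * a2 ^ 2 + 2 / 3 * (a1 * b1)) = 0 := by
      rw [hb1'] at h3 ⊢
      linear_combination h3
    have key2 : 10 / 9 * a2 ^ 2 + 2 / 3 * (a1 * b1) = 0 :=
      (mul_eq_zero.mp key).resolve_left (by positivity)
    nlinarith [mul_pos p3 p4, mul_pos p2 p2]

end Pool.Agent.helper37.NL
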