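import Pool.Agent.helper37.NL.Defs

/-!
NL-19 (Pol).  Analytic continuation of `FF = 0` from the open quadrant.

SETTING.  `M i v (X, Y) = X (Bx i - Rx v) + Y (By i - Ry v)` is nonzero for `X, Y > 0` (`hM`), and
`FF (X Bx + Y By) (X Rx + Y Ry) (n1 Bx + n2 By) (n1 Rx + n2 Ry) = 0` for `X, Y > 0` and all `n1, n2`
(`hF`).

PROOF of `FF_ext`.  Fix `X, Y, n1, n2` with all `M i v (X, Y) ≠ 0`.  Let
`x(t) = 1 + t (X - 1)`, `y(t) = 1 + t (Y - 1)` and
`G(t) = ∑_{i,v} (n1 (Bx i - Rx v) + n2 (By i - Ry v))² Kf(x Bx + y By, x Rx + y Ry; i, v)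
        ∏_{(j,w) ≠ (i,v)} M j w (x, y) + 2 dl² ∏_{(j,w)} M j w (x, y)`.
`G` is a polynomial function of `t`, in particular analytic on `ℝ`; at every `t` where all `M j w ≠ 0` it
is `FF * ∏ M`.  For small `|t|` the point `(x, y)` is in the open quadrant, so `G(t) = 0` there; by the
identity theorem (`AnalyticOnNhd.eq_of_eventuallyEq` on `ℝ`, or `AnalyticOnNhd.eqOn_zero_of_preconnected_of_eventuallyEq_zero`)
`G = 0`, so `G(1) = 0` and `FF = 0` at `(X, Y)`.
(For the analyticity it is convenient to write `G` as a finite sum of products of functions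
`fun t => a + b * t`; `fun_prop` proves `AnalyticOnNhd`/`AnalyticAt` of polynomial expressions after
`simp only [al, be, e2, e3, Kf, ...]`; or use `Polynomial` and infinitely many roots.)

PROOF of `bal_of_FF`.  Fix `X, Y, n1, n2`.  If `X n2 = Y n1`: either `(X, Y) = 0`, then `Kf` of the zero
family is `0` (`al = be = 0`), or `(n1, n2) = r (X, Y)`, then the weight `n1 (..) + n2 (..)` of each
coincidence is `r * 0 = 0`.  So assume `X n2 ≠ Y n1`.  For a coincidence `(i, v)` (i.e. `M i v (X, Y) = 0`)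
the number `μ = M i v (n1, n2)` is nonzero: otherwise `Bx i - Rx v = By i - Ry v = 0` (two independent
linear equations), against `hM`.  Consider `τ → 0`, `τ ≠ 0`, and the points `(X + τ n1, Y + τ n2)`:
`M i v = M i v (X, Y) + τ M i v (n1, n2)`, so for small `τ ≠ 0` all sixteen are nonzero and `FF = 0` by
`FF_ext`.  Multiply by `τ`: a term with `M i v (X, Y) ≠ 0` tends to `0`; a term with `M i v (X, Y) = 0` is
`τ μ² Kf(τ) / (τ μ) = μ Kf(τ) → μ Kf(0)`; `2 τ dl² → 0`.  So `∑_{coincidences} μ Kf(0) = 0`.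
(`tendsto_nhds_unique` on `𝓝[≠] 0`.)
-/

namespace Pool.Agent.helper37.NL

open Real Pool.Agent.helper37.NP Pool.Agent.Helper93.Tet

private def PolM (Bx By Rx Ry : V4) (x y : ℝ) (p : Fin 4 × Fin 4) : ℝ :=
  x * (Bx p.1 - Rx p.2) + y * (By p.1 - Ry p.2)

private noncomputable def PolG (Bx By Rx Ry : V4) (n1 n2 x y : ℝ) : ℝ :=
  (∑ i, ∑ v, PolM Bx By Rx Ry n1 n2 (i, v) ^ 2
      * Kf (x • Bx + y • By) (x • Rx + y • Ry) i v
      * ∏ p ∈ Finset.univ.erase (i, v), PolM Bx By Rx Ry x y p)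
    + 2 * dl (x • Bx + y • By) (x • Rx + y • Ry) (n1 • Bx + n2 • By) (n1 • Rx + n2 • Ry) ^ 2
      * ∏ p, PolM Bx By Rx Ry x y p

private theorem Pol_sub (Bx By Rx Ry : V4) (x y : ℝ) (i v : Fin 4) :
    (x • Bx + y • By) i - (x • Rx + y • Ry) v = PolM Bx By Rx Ry x y (i, v) := by
  simp only [PolM, Pi.add_apply, Pi.smul_apply, smul_eq_mul]
  ring

private theorem PolG_eq (Bx By Rx Ry : V4) (n1 n2 x y : ℝ)
    (h : ∀ p, PolM Bx By Rx Ry x y p ≠ 0) :
    PolG Bx By Rx Ry n1 n2 x y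
      = FF (x • Bx + y • By) (x • Rx + y • Ry) (n1 • Bx + n2 • By) (n1 • Rx + n2 • Ry)
        * ∏ p, PolM Bx By Rx Ry x y p := by
  unfold PolG FF
  rw [add_mul, Finset.sum_mul]
  congr 1
  refine Finset.sum_congr rfl fun i _ => ?_
  rw [Finset.sum_mul]
  refine Finset.sum_congr rfl fun v _ => ?_
  rw [Pol_sub, Pol_sub, ← Finset.mul_prod_erase Finset.univ _ (Finset.mem_univ (i, v))]
  have := h (i, v)
  field_simp

private theorem Pol_an_Kf (Bx By Rx Ry : V4) (X Y : ℝ) (i v : Fin 4) (t : ℝ) :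
    AnalyticAt ℝ (fun t : ℝ => Kf ((1 + t * (X - 1)) • Bx + (1 + t * (Y - 1)) • By)
      ((1 + t * (X - 1)) • Rx + (1 + t * (Y - 1)) • Ry) i v) t := by
  simp only [Kf, al, be, e2, e3, Pi.add_apply, Pi.smul_apply, smul_eq_mul]
  fun_prop

private theorem Pol_an_dl (Bx By Rx Ry : V4) (n1 n2 X Y : ℝ) (t : ℝ) :
    AnalyticAt ℝ (fun t : ℝ => dl ((1 + t * (X - 1)) • Bx + (1 + t * (Y - 1)) • By)
      ((1 + t * (X - 1)) • Rx + (1 + t * (Y - 1)) • Ry) (n1 • Bx + n2 • By)
      (n1 • Rx + n2 • Ry)) t := by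
  simp only [dl, Pi.add_apply, Pi.smul_apply, smul_eq_mul]
  fun_prop

private theorem Pol_an_M (Bx By Rx Ry : V4) (X Y : ℝ) (p : Fin 4 × Fin 4) (t : ℝ) :
    AnalyticAt ℝ (fun t : ℝ => PolM Bx By Rx Ry (1 + t * (X - 1)) (1 + t * (Y - 1)) p) t := by
  simp only [PolM]
  fun_prop

private theorem Pol_an_G (Bx By Rx Ry : V4) (n1 n2 X Y : ℝ) (t : ℝ) :
    AnalyticAt ℝ (fun t : ℝ => PolG Bx By Rx Ry n1 n2 (1 + t * (X - 1)) (1 + t * (Y - 1))) t := by
  unfold PolG
  refine AnalyticAt.add ?_ ?_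
  · refine Finset.analyticAt_fun_sum _ fun i _ => Finset.analyticAt_fun_sum _ fun v _ => ?_
    exact (analyticAt_const.mul (Pol_an_Kf Bx By Rx Ry X Y i v t)).mul
      (Finset.analyticAt_fun_prod _ fun p _ => Pol_an_M Bx By Rx Ry X Y p t)
  · exact (analyticAt_const.mul ((Pol_an_dl Bx By Rx Ry n1 n2 X Y t).pow 2)).mul
      (Finset.analyticAt_fun_prod _ fun p _ => Pol_an_M Bx By Rx Ry X Y p t)

theorem FF_ext {Bx By Rx Ry : V4}
    (hM : ∀ i v (X Y : ℝ), 0 < X → 0 < Y → X * (Bx i - Rx v) + Y * (By i - Ry v) ≠ 0)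
    (hF : ∀ X Y n1 n2 : ℝ, 0 < X → 0 < Y →
      FF (X • Bx + Y • By) (X • Rx + Y • Ry) (n1 • Bx + n2 • By) (n1 • Rx + n2 • Ry) = 0)
    (X Y n1 n2 : ℝ) (hXY : ∀ i v, X * (Bx i - Rx v) + Y * (By i - Ry v) ≠ 0) :
    FF (X • Bx + Y • By) (X • Rx + Y • Ry) (n1 • Bx + n2 • By) (n1 • Rx + n2 • Ry) = 0 := by
  have hz : (fun t : ℝ => PolG Bx By Rx Ry n1 n2 (1 + t * (X - 1)) (1 + t * (Y - 1)))
      = fun _ => (0 : ℝ) := by
    refine AnalyticOnNhd.eq_of_eventuallyEq (z₀ := (0 : ℝ))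
      (fun t _ => Pol_an_G Bx By Rx Ry n1 n2 X Y t) (fun t _ => analyticAt_const) ?_
    have hx : ∀ᶠ t in nhds (0 : ℝ), 0 < 1 + t * (X - 1) := by
      have hc : ContinuousAt (fun t : ℝ => 1 + t * (X - 1)) 0 := by fun_prop
      exact hc.eventually_const_lt (by norm_num)
    have hy : ∀ᶠ t in nhds (0 : ℝ), 0 < 1 + t * (Y - 1) := by
      have hc : ContinuousAt (fun t : ℝ => 1 + t * (Y - 1)) 0 := by fun_prop
      exact hc.eventually_const_lt (by norm_num)
    filter_upwards [hx, hy] with t h1 h2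
    rw [PolG_eq _ _ _ _ _ _ _ _ (fun p => hM p.1 p.2 _ _ h1 h2), hF _ _ _ _ h1 h2, zero_mul]
  have h1 := congrFun hz 1
  simp only [one_mul, add_sub_cancel] at h1
  rw [PolG_eq _ _ _ _ _ _ _ _ (fun p => hXY p.1 p.2)] at h1
  rcases mul_eq_zero.1 h1 with h2 | h2
  · exact h2
  · exact absurd h2 (Finset.prod_ne_zero_iff.2 fun p _ => hXY p.1 p.2)

private theorem Pol_ct_Kf (Bx By Rx Ry : V4) (X Y n1 n2 : ℝ) (i v : Fin 4) :
    Continuous (fun t : ℝ => Kf ((X + t * n1) • Bx + (Y + t * n2) • By)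
      ((X + t * n1) • Rx + (Y + t * n2) • Ry) i v) := by
  simp only [Kf, al, be, e2, e3, Pi.add_apply, Pi.smul_apply, smul_eq_mul]
  fun_prop

private theorem Pol_ct_dl (Bx By Rx Ry : V4) (X Y n1 n2 : ℝ) :
    Continuous (fun t : ℝ => dl ((X + t * n1) • Bx + (Y + t * n2) • By)
      ((X + t * n1) • Rx + (Y + t * n2) • Ry) (n1 • Bx + n2 • By) (n1 • Rx + n2 • Ry)) := by
  simp only [dl, Pi.add_apply, Pi.smul_apply, smul_eq_mul]
  fun_prop

private theorem Pol_ct_M (Bx By Rx Ry : V4) (X Y n1 n2 : ℝ) (p : Fin 4 × Fin 4) :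
    Continuous (fun t : ℝ => PolM Bx By Rx Ry (X + t * n1) (Y + t * n2) p) := by
  simp only [PolM]
  fun_prop

private theorem Pol_Kf_zero (B R : V4) (i v : Fin 4) (hB : B = 0) (hR : R = 0) :
    Kf B R i v = 0 := by
  subst hB hR
  simp [Kf, al, be, e2, e3]

theorem bal_of_FF {Bx By Rx Ry : V4}
    (hM : ∀ i v (X Y : ℝ), 0 < X → 0 < Y → X * (Bx i - Rx v) + Y * (By i - Ry v) ≠ 0)
    (hF : ∀ X Y n1 n2 : ℝ, 0 < X → 0 < Y →
      FF (X • Bx + Y • By) (X • Rx + Y • Ry) (n1 • Bx + n2 • By) (n1 • Rx + n2 • Ry) = 0) :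
    Bal Bx By Rx Ry := by
  intro X Y n1 n2
  by_cases hdet : X * n2 = Y * n1
  · refine Finset.sum_eq_zero fun i _ => Finset.sum_eq_zero fun v _ => ?_
    split_ifs with hc
    · by_cases hX : X = 0
      · by_cases hY : Y = 0
        · rw [Pol_Kf_zero _ _ i v (by rw [hX, hY]; simp) (by rw [hX, hY]; simp), mul_zero]
        · have h1 : Y * (n1 * (Bx i - Rx v) + n2 * (By i - Ry v)) = 0 := by
            linear_combination n2 * hc - (Bx i - Rx v) * hdet
          rw [(mul_eq_zero.1 h1).resolve_left hY, zero_mul]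
      · have h1 : X * (n1 * (Bx i - Rx v) + n2 * (By i - Ry v)) = 0 := by
          linear_combination n1 * hc + (By i - Ry v) * hdet
        rw [(mul_eq_zero.1 h1).resolve_left hX, zero_mul]
    · rfl
  · -- the weights of the coincidences do not vanish
    have hmu : ∀ p : Fin 4 × Fin 4, PolM Bx By Rx Ry X Y p = 0 →
        PolM Bx By Rx Ry n1 n2 p ≠ 0 := by
      intro p h1 h2
      unfold PolM at h1 h2
      have hdd : X * n2 - Y * n1 ≠ 0 := sub_ne_zero.2 hdet
      have ha : (X * n2 - Y * n1) * (Bx p.1 - Rx p.2) = 0 := by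
        linear_combination n2 * h1 - Y * h2
      have hb : (X * n2 - Y * n1) * (By p.1 - Ry p.2) = 0 := by
        linear_combination X * h2 - n1 * h1
      have ha' := (mul_eq_zero.1 ha).resolve_left hdd
      have hb' := (mul_eq_zero.1 hb).resolve_left hdd
      apply hM p.1 p.2 1 1 one_pos one_pos
      rw [ha', hb']
      ring
    have hMt : ∀ (t : ℝ) (p : Fin 4 × Fin 4), PolM Bx By Rx Ry (X + t * n1) (Y + t * n2) p
        = PolM Bx By Rx Ry X Y p + t * PolM Bx By Rx Ry n1 n2 p := by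
      intro t p
      unfold PolM
      ring
    -- nonzero near `0`
    have hne : ∀ᶠ t in nhdsWithin (0 : ℝ) {0}ᶜ, ∀ p : Fin 4 × Fin 4,
        PolM Bx By Rx Ry (X + t * n1) (Y + t * n2) p ≠ 0 := by
      rw [Filter.eventually_all]
      intro p
      by_cases h0 : PolM Bx By Rx Ry X Y p = 0
      · filter_upwards [self_mem_nhdsWithin] with t ht
        rw [hMt, h0, zero_add]
        exact mul_ne_zero ht (hmu p h0)
      · have hc : ContinuousAt
            (fun t : ℝ => PolM Bx By Rx Ry (X + t * n1) (Y + t * n2) p) 0 :=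
          (Pol_ct_M Bx By Rx Ry X Y n1 n2 p).continuousAt
        refine Filter.Eventually.filter_mono nhdsWithin_le_nhds ?_
        refine hc.eventually_ne ?_
        simpa using h0
    obtain ⟨H, hH⟩ : ∃ H : ℝ → ℝ, H = fun t => (∑ i, ∑ v,
        (if PolM Bx By Rx Ry X Y (i, v) = 0 then
          PolM Bx By Rx Ry n1 n2 (i, v) * Kf ((X + t * n1) • Bx + (Y + t * n2) • By)
            ((X + t * n1) • Rx + (Y + t * n2) • Ry) i v
        else t * (PolM Bx By Rx Ry n1 n2 (i, v) ^ 2 * Kf ((X + t * n1) • Bx + (Y + t * n2) • By)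
            ((X + t * n1) • Rx + (Y + t * n2) • Ry) i v /
            PolM Bx By Rx Ry (X + t * n1) (Y + t * n2) (i, v))))
        + t * (2 * dl ((X + t * n1) • Bx + (Y + t * n2) • By)
      ((X + t * n1) • Rx + (Y + t * n2) • Ry) (n1 • Bx + n2 • By) (n1 • Rx + n2 • Ry) ^ 2) :=
      ⟨_, rfl⟩
    have hcont : ContinuousAt H 0 := by
      rw [hH]
      refine ContinuousAt.add ?_ ?_
      · refine tendsto_finsetSum _ fun i _ => tendsto_finsetSum _ fun v _ => ?_
        by_cases h0 : PolM Bx By Rx Ry X Y (i, v) = 0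
        · simp only [if_pos h0]
          exact (continuous_const.mul (Pol_ct_Kf Bx By Rx Ry X Y n1 n2 i v)).continuousAt
        · simp only [if_neg h0]
          refine continuousAt_id.mul (ContinuousAt.div ?_ ?_ ?_)
          · exact (continuous_const.mul (Pol_ct_Kf Bx By Rx Ry X Y n1 n2 i v)).continuousAt
          · exact (Pol_ct_M Bx By Rx Ry X Y n1 n2 (i, v)).continuousAt
          · simpa using h0
      · exact (continuous_id.mul (continuous_const.mul
          ((Pol_ct_dl Bx By Rx Ry X Y n1 n2).pow 2))).continuousAt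
    have hzero : ∀ᶠ t in nhdsWithin (0 : ℝ) {0}ᶜ, H t = 0 := by
      filter_upwards [hne, self_mem_nhdsWithin] with t h1 ht
      have h2 := FF_ext hM hF (X + t * n1) (Y + t * n2) n1 n2 (fun i v => h1 (i, v))
      have h3 : H t = t * FF ((X + t * n1) • Bx + (Y + t * n2) • By)
          ((X + t * n1) • Rx + (Y + t * n2) • Ry) (n1 • Bx + n2 • By) (n1 • Rx + n2 • Ry) := by
        rw [hH]
        unfold FF
        simp only []
        rw [mul_add, Finset.mul_sum]
        congr 1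
        refine Finset.sum_congr rfl fun i _ => ?_
        rw [Finset.mul_sum]
        refine Finset.sum_congr rfl fun v _ => ?_
        rw [Pol_sub, Pol_sub]
        by_cases h0 : PolM Bx By Rx Ry X Y (i, v) = 0
        · have hm := hmu _ h0
          have ht' : t ≠ 0 := ht
          rw [if_pos h0, hMt, h0, zero_add]
          field_simp
        · rw [if_neg h0]
      rw [h3, h2, mul_zero]
    have hlim : Filter.Tendsto H (nhdsWithin (0 : ℝ) {0}ᶜ) (nhds (H 0)) :=
      hcont.tendsto.mono_left nhdsWithin_le_nhds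
    have hlim0 : Filter.Tendsto H (nhdsWithin (0 : ℝ) {0}ᶜ) (nhds 0) :=
      tendsto_const_nhds.congr' (hzero.mono fun t ht => ht.symm)
    have hH0 := tendsto_nhds_unique hlim hlim0
    rw [hH] at hH0
    simp only [zero_mul, add_zero] at hH0
    exact hH0

end Pool.Agent.helper37.NL
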