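import Pool.Agent.helper37.NL.Two
import Pool.Agent.helper37.NL.Pol
import Pool.Agent.helper37.NL.FFz

/-!
NL-22 (Mkc).  The configuration `PC` of a flat plane, in coordinates adapted to a ray with one zero.

`balG`.  PROOF: `bal_of_FF` with `Bx = BB q`, `By = BB p`, `Rx = sg q`, `Ry = sg p`.  For `X, Y > 0` the
point `l = X q + Y p` is in `T`, `BB l i - sg l v = X (BB q i - sg q v) + Y (BB p i - sg p v) ≠ 0`
(`BB_sub_ne`), and `FF_zero` for `u = l`, `n = n1 q + n2 p` (`Rays.sector`).  `BB` and `sg` are linear.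

`mk_PC`.  `p, r` are permutations of the indices with `p 3 = 3`; `ρ(l) = c l / π`.  The fields:
`bx0`: `h0`; `by0`: `hp`; `rx3`: `hw q` gives `sg q (r 3) - ρ(q) = ρ(q) - BB q (pp 0) = 0`; `ry3`: `hw` for the
second ray gives `1`; `bx`: `h1, h2` (`i = 1, 2`); `by'`: for `i ≠ 3`, `pp i ≠ 3`, so `BB _ (pp i) = Q _ j` for
some `j` and `Rays.p0`; `ry`: `Rays.s_nonneg` for `symm`; `sx, sy`: `e1_bb`, `e1_perm` (subtracting the same
number from all eight entries keeps the equality of the sums); `q1`: by `W_bb`, `Wf_perm`, `Wf_shift` the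
hypothesis `W q = 0` says `Wf Bx Rx = 0`; with `Bx 0 = 0 = Rx 3` one has `e4 Bx = e4 Rx = 0`, so `ga = 0`,
`be² = 0`, `e3 Bx = e3 Rx`, i.e. `Bx 1 Bx 2 Bx 3 = Rx 0 Rx 1 Rx 2`; `rx`: all `Rx v ≥ 0` (`s_nonneg`), and
`Bx 3 = (sum of Rx) - Bx 1 - Bx 2 > 0`, so the product `Rx 0 Rx 1 Rx 2 = Bx 1 Bx 2 Bx 3 > 0` and no factor
vanishes; `bal`: `Bal_perm`, `Bal_shift` of `balG`, specialised to `X = 1`, `Y = -s`, `n1 = 0`, `n2 = 1`
(the condition `1 * (Bx i - Rx v) + (-s) * (By i - Ry v) = 0` is `Bx i - s By i = Rx v - s Ry v`, and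
`1 • Bx + (-s) • By = Bx - s • By`); `pos`: for `s < 0` the point `l = q - s p` is in the sector, so in `T`,
`0 < W l = Wf (BB l) (sg l)`, then `Wf_perm`, `Wf_shift` (with `ρ(l) = ρ(q) - s ρ(p)`).
-/

namespace Pool.Agent.helper37.NL

open Real Pool.Agent.helper37.NP Pool.Agent.Helper93.Tet

variable {S : Submodule ℝ V6} {c : V6 →ₗ[ℝ] ℝ}

private theorem BB_lin (q p : V6) (x y : ℝ) : BB (x • q + y • p) = x • BB q + y • BB p := by
  funext i
  rw [BB_add, BB_smul, BB_smul]
  rfl

private theorem sg_lin (q p : V6) (x y : ℝ) : sg (x • q + y • p) = x • sg q + y • sg p := by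
  funext i
  rw [sg_add, sg_smul, sg_smul]
  rfl

theorem balG (h : FS S c) {q p : V6} (r : Rays S c q p) : Bal (BB q) (BB p) (sg q) (sg p) := by
  apply bal_of_FF
  · intro i v X Y hX hY h0
    apply BB_sub_ne (r.mem_T h hX hY) i v
    rw [BB_lin, sg_lin]
    simp only [Pi.add_apply, Pi.smul_apply, smul_eq_mul]
    linarith
  · intro X Y n1 n2 hX hY
    have h1 := FF_zero h (u := X • q + Y • p) (n := n1 • q + n2 • p)
      (S.add_mem (S.smul_mem _ r.qS) (S.smul_mem _ r.pS)) (fun j => r.sector hX hY j)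
      (S.add_mem (S.smul_mem _ r.qS) (S.smul_mem _ r.pS))
    rw [BB_lin, sg_lin, BB_lin, sg_lin] at h1
    exact h1

theorem mk_PC (h : FS S c) {q p : V6} (r : Rays S c q p) (pp rr : Equiv.Perm (Fin 4))
    (h3 : pp 3 = 3) (h0 : BB q (pp 0) = c q / π) (h1 : BB q (pp 1) < c q / π)
    (h2 : BB q (pp 2) < c q / π) (hp : BB p (pp 0) = c p / π - 1) (hWq : W q = 0)
    (hw : ∀ s ∈ S, sg s (rr 3) - c s / π = c s / π - BB s (pp 0)) :
    PC (fun i => BB q (pp i) - c q / π) (fun i => BB p (pp i) - c p / π)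
      (fun v => sg q (rr v) - c q / π) (fun v => sg p (rr v) - c p / π) := by
  have hsx0 : e1 (fun i => BB q (pp i)) = e1 (fun v => sg q (rr v)) := by
    rw [e1_perm (BB q) pp, e1_perm (sg q) rr, e1_bb]
  have hsy0 : e1 (fun i => BB p (pp i)) = e1 (fun v => sg p (rr v)) := by
    rw [e1_perm (BB p) pp, e1_perm (sg p) rr, e1_bb]
  have hsx : e1 (fun i => BB q (pp i) - c q / π) = e1 (fun v => sg q (rr v) - c q / π) := by
    simp only [e1] at hsx0 ⊢
    linarith
  have hsy : e1 (fun i => BB p (pp i) - c p / π) = e1 (fun v => sg p (rr v) - c p / π) := by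
    simp only [e1] at hsy0 ⊢
    linarith
  have hrx3 : sg q (rr 3) - c q / π = 0 := by
    have := hw q r.qS
    rw [h0] at this
    linarith
  have hry3 : sg p (rr 3) - c p / π = 1 := by
    have := hw p r.pS
    rw [hp] at this
    linarith
  have hWf : Wf (fun i => BB q (pp i) - c q / π) (fun v => sg q (rr v) - c q / π) = 0 := by
    rw [Wf_shift hsx0, Wf_perm (BB q) (sg q) pp rr, ← W_bb, hWq]
  have hq1 : (sg q (rr 0) - c q / π) * (sg q (rr 1) - c q / π) * (sg q (rr 2) - c q / π)
      = (BB q (pp 1) - c q / π) * (BB q (pp 2) - c q / π) * (BB q (pp 3) - c q / π) := by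
    have hb0 : BB q (pp 0) - c q / π = 0 := by rw [h0, sub_self]
    simp only [Wf, al, be, ga, e2, e3, e4] at hWf
    rw [hb0, hrx3] at hWf
    have hsq : ((sg q (rr 0) - c q / π) * (sg q (rr 1) - c q / π) * (sg q (rr 2) - c q / π)
      - (BB q (pp 1) - c q / π) * (BB q (pp 2) - c q / π) * (BB q (pp 3) - c q / π)) ^ 2 = 0 := by
      linear_combination (-4) * hWf
    have := pow_eq_zero_iff (two_ne_zero) |>.1 hsq
    linarith
  have hx1 : BB q (pp 1) - c q / π < 0 := by linarith
  have hx2 : BB q (pp 2) - c q / π < 0 := by linarith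
  have hn : ∀ v, 0 ≤ sg q (rr v) - c q / π := fun v => by
    have := r.s_nonneg h (rr v)
    linarith
  have hx3 : 0 < BB q (pp 3) - c q / π := by
    have hs := hsx
    simp only [e1] at hs
    have hb0 : BB q (pp 0) - c q / π = 0 := by rw [h0, sub_self]
    have := hn 0
    have := hn 1
    have := hn 2
    linarith
  have hpos : 0 < (sg q (rr 0) - c q / π) * (sg q (rr 1) - c q / π) *
      (sg q (rr 2) - c q / π) := by
    rw [hq1]
    exact mul_pos (mul_pos_of_neg_of_neg hx1 hx2) hx3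
  have hne : ∀ v, v ≠ 3 → sg q (rr v) - c q / π ≠ 0 := by
    intro v hv h00
    have hv' : v = 0 ∨ v = 1 ∨ v = 2 := by
      fin_cases v <;> simp_all
    rcases hv' with rfl | rfl | rfl <;> rw [h00] at hpos <;> simp at hpos
  have hB : Bal (fun i => BB q (pp i) - c q / π) (fun i => BB p (pp i) - c p / π)
      (fun v => sg q (rr v) - c q / π) (fun v => sg p (rr v) - c p / π) :=
    Bal_shift (Bal_perm (balG h r) pp rr) hsx0 hsy0 (c q / π) (c p / π)
  refine
    { bx0 := by
        show BB q (pp 0) - c q / π = 0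
        rw [h0, sub_self]
      by0 := by
        show BB p (pp 0) - c p / π = -1
        rw [hp]; ring
      rx3 := hrx3
      ry3 := hry3
      bx := ?_
      by' := ?_
      rx := fun v hv => lt_of_le_of_ne (hn v) (hne v hv).symm
      ry := fun v _ => by
        have := r.symm.s_nonneg h (rr v)
        show 0 ≤ sg p (rr v) - c p / π
        linarith
      sx := hsx
      sy := hsy
      q1 := hq1
      bal := ?_
      pos := ?_ }
  · intro i hi0 hi3
    have hi : i = 1 ∨ i = 2 := by
      fin_cases i <;> simp_all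
    rcases hi with rfl | rfl
    · exact hx1
    · exact hx2
  · intro i _ hi3
    show BB p (pp i) - c p / π ≤ 0
    have hne3 : pp i ≠ 3 := by
      intro h'
      rw [← h3] at h'
      exact hi3 (pp.injective h')
    have hQ : ∃ j : Fin 3, BB p (pp i) = Q p j := by
      generalize pp i = k at hne3
      fin_cases k
      · exact ⟨0, rfl⟩
      · exact ⟨1, rfl⟩
      · exact ⟨2, rfl⟩
      · exact absurd rfl hne3
    obtain ⟨j, hj⟩ := hQ
    rw [hj]
    have := r.p0 j
    linarith
  · intro s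
    have h1 := hB 1 (-s) 0 1
    refine Eq.trans ?_ h1
    refine Finset.sum_congr rfl fun i _ => Finset.sum_congr rfl fun v _ => ?_
    have e1' : ∀ A B : V4, (1 : ℝ) • A + (-s) • B = A - s • B := by
      intro A B
      rw [one_smul, neg_smul, sub_eq_add_neg]
    rw [e1', e1']
    refine if_congr ?_ ?_ rfl
    · constructor <;> intro h' <;> linarith
    · ring
  · intro s hs
    have hl := (r.mem_T h one_pos (neg_pos.2 hs)).2
    rw [W_bb, BB_lin, sg_lin] at hl
    set B : V4 := (1 : ℝ) • BB q + (-s) • BB p with hBd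
    set R' : V4 := (1 : ℝ) • sg q + (-s) • sg p with hRd
    have hbr : e1 (fun i => B (pp i)) = e1 (fun v => R' (rr v)) := by
      simp only [hBd, hRd, e1, Pi.add_apply, Pi.smul_apply, smul_eq_mul] at hsx0 hsy0 ⊢
      linear_combination hsx0 - s * hsy0
    rw [← Wf_perm B R' pp rr, ← Wf_shift hbr (c q / π - s * (c p / π))] at hl
    convert hl using 2
    · funext i
      simp only [hBd, Pi.add_apply, Pi.sub_apply, Pi.smul_apply, smul_eq_mul]
      ring
    · funext v
      simp only [hRd, Pi.add_apply, Pi.sub_apply, Pi.smul_apply, smul_eq_mul]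
      ring

end Pool.Agent.helper37.NL
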