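import Pool.Agent.helper37.NL.Inv

/-!
NL-11 (PQb).  The configuration with a double end: `By = (-1, 0, 0, 2 + δ)`, `Ry = (0, 0, δ, 1)`.

PROOFS.  `by3`, `bx3`: from `sx`, `sy`.  `swapB`, `swapR`: every field of `PC` is clearly invariant when
the blue indices `1, 2` (red indices `0, 1`) are exchanged; `bal` by `Equiv.sum_comp` and `Kf_perm`,
`pos` by `Wf_perm`.  (With `p = Equiv.swap 1 2` the function `fun i => Bx (p i)` has the values
`Bx 0, Bx 2, Bx 1, Bx 3`; `Equiv.swap_apply_of_ne_of_ne`, `decide`.)  `shape`: all values in terms of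
`a1 = -Bx 1, a2 = -Bx 2, b0 = Rx 0, b1 = Rx 1, g = Rx 2, d = Ry 2`.
-/

namespace Pool.Agent.helper37.NL

open Real Pool.Agent.helper37.NP Pool.Agent.Helper93.Tet

/-- configuration with a double end -/
structure PQ (Bx By Rx Ry : V4) : Prop extends PC Bx By Rx Ry where
  b1 : By 1 = 0
  b2 : By 2 = 0
  r0 : Ry 0 = 0
  r1 : Ry 1 = 0

theorem PQ.by3 {Bx By Rx Ry : V4} (h : PQ Bx By Rx Ry) : By 3 = 2 + Ry 2 := by
  have h1 := h.sy
  simp only [e1, h.b1, h.b2, h.r0, h.r1, h.by0, h.ry3] at h1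
  linarith

theorem PQ.bx3 {Bx By Rx Ry : V4} (h : PQ Bx By Rx Ry) :
    Bx 3 = -Bx 1 - Bx 2 + Rx 0 + Rx 1 + Rx 2 := by
  have h1 := h.sx
  simp only [e1, h.bx0, h.rx3] at h1
  linarith

private theorem PQb_bal {Bx By Rx Ry : V4} (h : PC Bx By Rx Ry) (p r : Equiv.Perm (Fin 4)) (s : ℝ) :
    ∑ i, ∑ v, (if Bx (p i) - s * By (p i) = Rx (r v) - s * Ry (r v) then
      (By (p i) - Ry (r v)) * Kf ((fun i => Bx (p i)) - s • (fun i => By (p i)))
        ((fun v => Rx (r v)) - s • (fun v => Ry (r v))) i v else 0) = 0 := by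
  have e : ∀ i v, Kf ((fun i => Bx (p i)) - s • (fun i => By (p i)))
        ((fun v => Rx (r v)) - s • (fun v => Ry (r v))) i v =
      Kf (Bx - s • By) (Rx - s • Ry) (p i) (r v) := by
    intro i v
    exact Kf_perm (Bx - s • By) (Rx - s • Ry) p r i v
  have h1 := h.bal s
  simp only [e]
  refine Eq.trans ?_ h1
  refine Eq.trans ?_ (Equiv.sum_comp p (fun i => ∑ v, (if Bx i - s * By i = Rx v - s * Ry v then
    (By i - Ry v) * Kf (Bx - s • By) (Rx - s • Ry) i v else 0)))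
  refine Finset.sum_congr rfl fun i _ => ?_
  exact Equiv.sum_comp r (fun v => (if Bx (p i) - s * By (p i) = Rx v - s * Ry v then
    (By (p i) - Ry v) * Kf (Bx - s • By) (Rx - s • Ry) (p i) v else 0))

private theorem PQb_pos {Bx By Rx Ry : V4} (h : PC Bx By Rx Ry) (p r : Equiv.Perm (Fin 4)) (s : ℝ)
    (hs : s < 0) :
    0 < Wf ((fun i => Bx (p i)) - s • (fun i => By (p i)))
        ((fun v => Rx (r v)) - s • (fun v => Ry (r v))) := by
  have h1 := h.pos s hs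
  rw [← Wf_perm (Bx - s • By) (Rx - s • Ry) p r] at h1
  exact h1

theorem PQ.swapB {Bx By Rx Ry : V4} (h : PQ Bx By Rx Ry) :
    PQ (fun i => Bx (Equiv.swap 1 2 i)) (fun i => By (Equiv.swap 1 2 i)) Rx Ry := by
  have s0 : (Equiv.swap (1 : Fin 4) 2) 0 = 0 := by decide
  have s1 : (Equiv.swap (1 : Fin 4) 2) 1 = 2 := by decide
  have s2 : (Equiv.swap (1 : Fin 4) 2) 2 = 1 := by decide
  have s3 : (Equiv.swap (1 : Fin 4) 2) 3 = 3 := by decide
  have hp : ∀ i : Fin 4, i ≠ 0 → i ≠ 3 → (Equiv.swap (1 : Fin 4) 2) i ≠ 0 ∧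
      (Equiv.swap (1 : Fin 4) 2) i ≠ 3 := by decide
  exact
    { bx0 := by simp only [s0, h.bx0]
      by0 := by simp only [s0, h.by0]
      rx3 := h.rx3
      ry3 := h.ry3
      bx := fun i h0 h3 => h.bx _ (hp i h0 h3).1 (hp i h0 h3).2
      by' := fun i h0 h3 => h.by' _ (hp i h0 h3).1 (hp i h0 h3).2
      rx := h.rx
      ry := h.ry
      sx := by rw [e1_perm, h.sx]
      sy := by rw [e1_perm, h.sy]
      q1 := by
        simp only [s1, s2, s3]
        rw [h.q1]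
        ring
      bal := fun s => PQb_bal h.toPC (Equiv.swap 1 2) (Equiv.refl _) s
      pos := fun s hs => PQb_pos h.toPC (Equiv.swap 1 2) (Equiv.refl _) s hs
      b1 := by simp only [s1, h.b2]
      b2 := by simp only [s2, h.b1]
      r0 := h.r0
      r1 := h.r1 }

theorem PQ.swapR {Bx By Rx Ry : V4} (h : PQ Bx By Rx Ry) :
    PQ Bx By (fun v => Rx (Equiv.swap 0 1 v)) (fun v => Ry (Equiv.swap 0 1 v)) := by
  have s0 : (Equiv.swap (0 : Fin 4) 1) 0 = 1 := by decide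
  have s1 : (Equiv.swap (0 : Fin 4) 1) 1 = 0 := by decide
  have s2 : (Equiv.swap (0 : Fin 4) 1) 2 = 2 := by decide
  have s3 : (Equiv.swap (0 : Fin 4) 1) 3 = 3 := by decide
  have hp : ∀ i : Fin 4, i ≠ 3 → (Equiv.swap (0 : Fin 4) 1) i ≠ 3 := by decide
  exact
    { bx0 := h.bx0
      by0 := h.by0
      rx3 := by simp only [s3, h.rx3]
      ry3 := by simp only [s3, h.ry3]
      bx := h.bx
      by' := h.by'
      rx := fun v h3 => h.rx _ (hp v h3)
      ry := fun v h3 => h.ry _ (hp v h3)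
      sx := by rw [e1_perm, h.sx]
      sy := by rw [e1_perm, h.sy]
      q1 := by
        simp only [s0, s1, s2]
        rw [← h.q1]
        ring
      bal := fun s => PQb_bal h.toPC (Equiv.refl _) (Equiv.swap 0 1) s
      pos := fun s hs => PQb_pos h.toPC (Equiv.refl _) (Equiv.swap 0 1) s hs
      b1 := h.b1
      b2 := h.b2
      r0 := by simp only [s0, h.r1]
      r1 := by simp only [s1, h.r0] }

theorem PQ.shape {Bx By Rx Ry : V4} (h : PQ Bx By Rx Ry) :
    ∃ a1 a2 b0 b1 g d : ℝ, 0 < a1 ∧ 0 < a2 ∧ 0 < b0 ∧ 0 < b1 ∧ 0 < g ∧ 0 ≤ d ∧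
      b0 * b1 * g = a1 * a2 * (a1 + a2 + b0 + b1 + g) ∧
      Bx = ![0, -a1, -a2, a1 + a2 + b0 + b1 + g] ∧ By = ![-1, 0, 0, 2 + d] ∧
      Rx = ![b0, b1, g, 0] ∧ Ry = ![0, 0, d, 1] := by
  have hb3 := h.bx3
  have hq := h.q1
  refine ⟨-Bx 1, -Bx 2, Rx 0, Rx 1, Rx 2, Ry 2, ?_, ?_, h.rx 0 (by decide), h.rx 1 (by decide),
    h.rx 2 (by decide), h.ry 2 (by decide), ?_, ?_, ?_, ?_, ?_⟩
  · have := h.bx 1 (by decide) (by decide)
    linarith
  · have := h.bx 2 (by decide) (by decide)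
    linarith
  · rw [hq, hb3]
    ring
  · ext i
    fin_cases i
    · exact h.bx0
    · show Bx 1 = -(-Bx 1)
      ring
    · show Bx 2 = -(-Bx 2)
      ring
    · show Bx 3 = -Bx 1 + -Bx 2 + Rx 0 + Rx 1 + Rx 2
      rw [hb3]
      ring
  · ext i
    fin_cases i
    · exact h.by0
    · exact h.b1
    · exact h.b2
    · exact h.by3
  · ext i
    fin_cases i
    · rfl
    · rfl
    · rfl
    · exact h.rx3
  · ext i
    fin_cases i
    · exact h.r0
    · exact h.r1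
    · rfl
    · exact h.ry3

end Pool.Agent.helper37.NL
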