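import Pool.Agent.helper37.NL.Defs
import Pool.Agent.helper37.NP.F1
import Pool.Agent.helper37.NP.Clo

/-!
NL-20 (Ray).  The boundary rays of the sector, basic facts.

NOTATION.  `g_j(l) = c l / π - Q l j`, `s_v(l) = sg l v - c l / π`: linear in `l`.

`inj`: if `w ∈ S` and `g_j(w) = 0` for all `j`, then `w = 0` (given a point `u` of the sector): for every
real `t` the vector `u + t w` is in `S` and in the sector (`g_j(u + t w) = g_j(u) > 0`), so in `T` by
`h.reg`, so all its coordinates are positive (`T_pos`); `u e + t w e > 0` for all `t` gives `w e = 0`.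

`exists_rays`: `S` has dimension 2, so there is `w ∈ S` which is not a multiple of `u` (`u ≠ 0` since
`g_j(u) > 0`).  Let `t = min_j g_j(w)/g_j(u)`, `t' = max_j g_j(w)/g_j(u)`.  If `t = t'` then
`g_j(w - t u) = 0` for all `j`, `w = t u` by `inj`, contradiction; so `t < t'`.  Put `q = w - t u`,
`p = t' u - w`.  Then `g_j(q) ≥ 0`, `g_j(p) ≥ 0`, both have a zero (the minimum and the maximum are
attained), not for the same `j` (`g_j(w) = t g_j(u) = t' g_j(u)` impossible), and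
`u = (q + p)/(t' - t)`.  `span`: `u, w` span `S` (dimension 2, independent), and `q, p` span the same
(`u = (q+p)/(t'-t)`, `w = q + t u`).

`Rays.sector`: `g_j(X q + Y p) = X g_j(q) + Y g_j(p) > 0` by `q0, p0, one`.
`Rays.mem_T`, `Rays.dotp_eq`: `h.reg`.  `Rays.s_nonneg`: for `X, Y > 0` the point `l = X q + Y p` is in `T`
and `dotp l (ang l) = c l`, so `0 < ss l (ang l) v = X s_v(q) + Y s_v(p)` (`ss_pos`); a linear form which is
positive on the open quadrant has nonnegative coefficients (let `Y → 0`, e.g. if `s_v(q) < 0` take `X = 1`,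
`Y = min 1 (-s_v(q) / (2 (|s_v(p)| + 1)))`).
`Rays.symm`: exchange `q` and `p` (`one j` gives `Or.symm`).  `Rays.scale`: `q ↦ a q`, `p ↦ b p`, `a, b > 0`.
-/

namespace Pool.Agent.helper37.NL

open Real Pool.Agent.helper37.NP Pool.Agent.Helper93.Tet

variable {S : Submodule ℝ V6} {c : V6 →ₗ[ℝ] ℝ}

theorem Q_add (l m : V6) (j : Fin 3) : Q (l + m) j = Q l j + Q m j := by
  fin_cases j
  · change (l + m) 0 + (l + m) 5 = (l 0 + l 5) + (m 0 + m 5)
    simp only [Pi.add_apply]; ring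
  · change (l + m) 1 + (l + m) 4 = (l 1 + l 4) + (m 1 + m 4)
    simp only [Pi.add_apply]; ring
  · change (l + m) 2 + (l + m) 3 = (l 2 + l 3) + (m 2 + m 3)
    simp only [Pi.add_apply]; ring

theorem Q_smul (k : ℝ) (l : V6) (j : Fin 3) : Q (k • l) j = k * Q l j := by
  fin_cases j
  · change (k • l) 0 + (k • l) 5 = k * (l 0 + l 5)
    simp only [Pi.smul_apply, smul_eq_mul]; ring
  · change (k • l) 1 + (k • l) 4 = k * (l 1 + l 4)
    simp only [Pi.smul_apply, smul_eq_mul]; ring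
  · change (k • l) 2 + (k • l) 3 = k * (l 2 + l 3)
    simp only [Pi.smul_apply, smul_eq_mul]; ring

theorem sg_add (l m : V6) (v : Fin 4) : sg (l + m) v = sg l v + sg m v := by
  fin_cases v
  · change (l + m) 0 + (l + m) 1 + (l + m) 2 = (l 0 + l 1 + l 2) + (m 0 + m 1 + m 2)
    simp only [Pi.add_apply]; ring
  · change (l + m) 0 + (l + m) 3 + (l + m) 4 = (l 0 + l 3 + l 4) + (m 0 + m 3 + m 4)
    simp only [Pi.add_apply]; ring
  · change (l + m) 1 + (l + m) 3 + (l + m) 5 = (l 1 + l 3 + l 5) + (m 1 + m 3 + m 5)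
    simp only [Pi.add_apply]; ring
  · change (l + m) 2 + (l + m) 4 + (l + m) 5 = (l 2 + l 4 + l 5) + (m 2 + m 4 + m 5)
    simp only [Pi.add_apply]; ring

theorem sg_smul (k : ℝ) (l : V6) (v : Fin 4) : sg (k • l) v = k * sg l v := by
  fin_cases v
  · change (k • l) 0 + (k • l) 1 + (k • l) 2 = k * (l 0 + l 1 + l 2)
    simp only [Pi.smul_apply, smul_eq_mul]; ring
  · change (k • l) 0 + (k • l) 3 + (k • l) 4 = k * (l 0 + l 3 + l 4)
    simp only [Pi.smul_apply, smul_eq_mul]; ring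
  · change (k • l) 1 + (k • l) 3 + (k • l) 5 = k * (l 1 + l 3 + l 5)
    simp only [Pi.smul_apply, smul_eq_mul]; ring
  · change (k • l) 2 + (k • l) 4 + (k • l) 5 = k * (l 2 + l 4 + l 5)
    simp only [Pi.smul_apply, smul_eq_mul]; ring

theorem BB_add (l m : V6) (i : Fin 4) : BB (l + m) i = BB l i + BB m i := by
  fin_cases i
  · exact Q_add l m 0
  · exact Q_add l m 1
  · exact Q_add l m 2
  · change Q (l + m) 0 + Q (l + m) 1 + Q (l + m) 2 =
      (Q l 0 + Q l 1 + Q l 2) + (Q m 0 + Q m 1 + Q m 2)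
    rw [Q_add, Q_add, Q_add]; ring

theorem BB_smul (k : ℝ) (l : V6) (i : Fin 4) : BB (k • l) i = k * BB l i := by
  fin_cases i
  · exact Q_smul k l 0
  · exact Q_smul k l 1
  · exact Q_smul k l 2
  · change Q (k • l) 0 + Q (k • l) 1 + Q (k • l) 2 = k * (Q l 0 + Q l 1 + Q l 2)
    rw [Q_smul, Q_smul, Q_smul]; ring

/-- the linear form `g_j` -/
private noncomputable def Ray_g (c : V6 →ₗ[ℝ] ℝ) (l : V6) (j : Fin 3) : ℝ := c l / π - Q l j

private theorem Ray_g_add (c : V6 →ₗ[ℝ] ℝ) (l m : V6) (j : Fin 3) :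
    Ray_g c (l + m) j = Ray_g c l j + Ray_g c m j := by
  unfold Ray_g
  rw [map_add, Q_add]; ring

private theorem Ray_g_smul (c : V6 →ₗ[ℝ] ℝ) (k : ℝ) (l : V6) (j : Fin 3) :
    Ray_g c (k • l) j = k * Ray_g c l j := by
  unfold Ray_g
  rw [map_smul, Q_smul, smul_eq_mul]; ring

private theorem Ray_g_sub (c : V6 →ₗ[ℝ] ℝ) (l m : V6) (j : Fin 3) :
    Ray_g c (l - m) j = Ray_g c l j - Ray_g c m j := by
  have h : l - m = l + (-1 : ℝ) • m := by rw [neg_one_smul, sub_eq_add_neg]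
  rw [h, Ray_g_add, Ray_g_smul]; ring

private theorem Ray_pos_iff {c : V6 →ₗ[ℝ] ℝ} {l : V6} {j : Fin 3} :
    0 < Ray_g c l j ↔ Q l j < c l / π := by
  unfold Ray_g
  exact sub_pos

private theorem Ray_nonneg_iff {c : V6 →ₗ[ℝ] ℝ} {l : V6} {j : Fin 3} :
    0 ≤ Ray_g c l j ↔ Q l j ≤ c l / π := by
  unfold Ray_g
  exact sub_nonneg

private theorem Ray_zero_iff {c : V6 →ₗ[ℝ] ℝ} {l : V6} {j : Fin 3} :
    Ray_g c l j = 0 ↔ Q l j = c l / π := by
  unfold Ray_g
  rw [sub_eq_zero]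
  exact eq_comm

theorem FS.inj (h : FS S c) {u : V6} (hu : u ∈ S) (hu' : ∀ j, Q u j < c u / π) {w : V6}
    (hw : w ∈ S) (hw' : ∀ j, Q w j = c w / π) : w = 0 := by
  have key : ∀ (t : ℝ) (e : Fin 6), 0 < u e + t * w e := by
    intro t e
    have h1 : u + t • w ∈ T := by
      refine (h.reg _ (S.add_mem hu (S.smul_mem t hw)) fun j => ?_).1
      rw [← Ray_pos_iff, Ray_g_add, Ray_g_smul, Ray_zero_iff.2 (hw' j), mul_zero, add_zero]
      exact Ray_pos_iff.2 (hu' j)
    exact T_pos h1 e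
  funext e
  by_contra hne
  have hne' : w e ≠ 0 := hne
  have h2 := key (-(u e) / w e) e
  rw [div_mul_cancel₀ _ hne'] at h2
  linarith

theorem exists_rays (h : FS S c) {u : V6} (hu : u ∈ S) (hu' : ∀ j, Q u j < c u / π) :
    ∃ (q p : V6) (X Y : ℝ), Rays S c q p ∧ 0 < X ∧ 0 < Y ∧ u = X • q + Y • p := by
  have hgu : ∀ j, 0 < Ray_g c u j := fun j => Ray_pos_iff.2 (hu' j)
  have hu0 : u ≠ 0 := by
    intro h0
    have h1 := hgu 0
    have h2 : Ray_g c u 0 = 0 := by
      have h3 := Ray_g_smul c 0 u 0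
      rw [zero_smul, zero_mul] at h3
      rw [h0]
      exact h3
    rw [h2] at h1
    exact lt_irrefl _ h1
  have hex : ∃ w ∈ S, w ∉ Submodule.span ℝ {u} := by
    by_contra hcon
    push Not at hcon
    have h1 : S ≤ Submodule.span ℝ {u} := fun w hw => hcon w hw
    have h2 := Submodule.finrank_mono h1
    rw [h.fin, finrank_span_singleton hu0] at h2
    omega
  obtain ⟨w, hw, hwu⟩ := hex
  have hspan : ∀ s ∈ S, ∃ x y : ℝ, s = x • u + y • w := by
    have hli : LinearIndependent ℝ ![u, w] := by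
      rw [LinearIndependent.pair_iff' hu0]
      intro a ha
      exact hwu (Submodule.mem_span_singleton.2 ⟨a, ha⟩)
    have h1 : Submodule.span ℝ (Set.range ![u, w]) ≤ S := by
      rw [Submodule.span_le]
      rintro _ ⟨i, rfl⟩
      fin_cases i
      · exact hu
      · exact hw
    have h2 : Submodule.span ℝ (Set.range ![u, w]) = S := by
      refine Submodule.eq_of_le_of_finrank_eq h1 ?_
      rw [finrank_span_eq_card hli, h.fin, Fintype.card_fin]
    intro s hs
    rw [← h2, Matrix.range_cons, Matrix.range_cons, Matrix.range_empty, Set.union_empty,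
      Set.singleton_union, Submodule.mem_span_pair] at hs
    obtain ⟨x, y, hxy⟩ := hs
    exact ⟨x, y, hxy.symm⟩
  obtain ⟨j0, hj0⟩ := Finite.exists_min fun j : Fin 3 => Ray_g c w j / Ray_g c u j
  obtain ⟨j1, hj1⟩ := Finite.exists_max fun j : Fin 3 => Ray_g c w j / Ray_g c u j
  set t := Ray_g c w j0 / Ray_g c u j0 with ht
  set t' := Ray_g c w j1 / Ray_g c u j1 with ht'
  have e0 : ∀ j, t * Ray_g c u j ≤ Ray_g c w j := fun j => (le_div_iff₀ (hgu j)).1 (hj0 j)
  have e1 : ∀ j, Ray_g c w j ≤ t' * Ray_g c u j := fun j => (div_le_iff₀ (hgu j)).1 (hj1 j)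
  have z0 : t * Ray_g c u j0 = Ray_g c w j0 := div_mul_cancel₀ _ (hgu j0).ne'
  have z1 : t' * Ray_g c u j1 = Ray_g c w j1 := div_mul_cancel₀ _ (hgu j1).ne'
  have htt : t < t' := by
    rcases lt_or_eq_of_le (hj0 j1) with h1 | h1
    · exact h1
    · exfalso
      have h2 : t = t' := h1
      have h3 : w - t • u = 0 := by
        refine h.inj hu hu' (S.sub_mem hw (S.smul_mem t hu)) fun j => ?_
        rw [← Ray_zero_iff, Ray_g_sub, Ray_g_smul]
        have h4 := e0 j
        have h5 := e1 j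
        rw [← h2] at h5
        linarith
      exact hwu (Submodule.mem_span_singleton.2 ⟨t, (sub_eq_zero.1 h3).symm⟩)
  have hd : 0 < t' - t := sub_pos.2 htt
  have hdi : (t' - t)⁻¹ * (t' - t) = 1 := inv_mul_cancel₀ hd.ne'
  have gq : ∀ j, Ray_g c (w - t • u) j = Ray_g c w j - t * Ray_g c u j := fun j => by
    rw [Ray_g_sub, Ray_g_smul]
  have gp : ∀ j, Ray_g c (t' • u - w) j = t' * Ray_g c u j - Ray_g c w j := fun j => by
    rw [Ray_g_sub, Ray_g_smul]
  have huqp : u = (t' - t)⁻¹ • (w - t • u) + (t' - t)⁻¹ • (t' • u - w) := by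
    rw [← smul_add]
    have h1 : w - t • u + (t' • u - w) = (t' - t) • u := by
      rw [sub_smul]; abel
    rw [h1, smul_smul, hdi, one_smul]
  refine ⟨w - t • u, t' • u - w, (t' - t)⁻¹, (t' - t)⁻¹, ?_, inv_pos.2 hd, inv_pos.2 hd, huqp⟩
  refine
    { qS := S.sub_mem hw (S.smul_mem t hu)
      pS := S.sub_mem (S.smul_mem t' hu) hw
      span := ?_
      q0 := fun j => Ray_nonneg_iff.1 (by rw [gq]; linarith [e0 j])
      p0 := fun j => Ray_nonneg_iff.1 (by rw [gp]; linarith [e1 j])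
      one := ?_
      qz := ⟨j0, Ray_zero_iff.1 (by rw [gq]; linarith [z0])⟩
      pz := ⟨j1, Ray_zero_iff.1 (by rw [gp]; linarith [z1])⟩ }
  · intro s hs
    obtain ⟨x, y, hxy⟩ := hspan s hs
    refine ⟨(x + y * t) * (t' - t)⁻¹ + y, (x + y * t) * (t' - t)⁻¹, ?_⟩
    have h1 : s = (x + y * t) • u + y • (w - t • u) := by
      rw [hxy, smul_sub, add_smul, mul_smul]; abel
    rw [h1]
    nth_rewrite 1 [huqp]
    rw [smul_add, smul_smul, smul_smul, add_smul]
    abel
  · intro j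
    have h1 : 0 < (t' - t) * Ray_g c u j := mul_pos hd (hgu j)
    by_contra hcon
    rw [not_or] at hcon
    have h2 : ¬ 0 < Ray_g c (w - t • u) j := fun h => hcon.1 (Ray_pos_iff.1 h)
    have h3 : ¬ 0 < Ray_g c (t' • u - w) j := fun h => hcon.2 (Ray_pos_iff.1 h)
    rw [gq] at h2
    rw [gp] at h3
    push Not at h2 h3
    nlinarith

theorem Rays.symm {q p : V6} (r : Rays S c q p) : Rays S c p q where
  qS := r.pS
  pS := r.qS
  span := fun s hs => by
    obtain ⟨x, y, hxy⟩ := r.span s hs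
    exact ⟨y, x, by rw [hxy, add_comm]⟩
  q0 := r.p0
  p0 := r.q0
  one := fun j => (r.one j).symm
  qz := r.pz
  pz := r.qz

theorem Rays.scale {q p : V6} (r : Rays S c q p) {a b : ℝ} (ha : 0 < a) (hb : 0 < b) :
    Rays S c (a • q) (b • p) where
  qS := S.smul_mem a r.qS
  pS := S.smul_mem b r.pS
  span := fun s hs => by
    obtain ⟨x, y, hxy⟩ := r.span s hs
    refine ⟨x / a, y / b, ?_⟩
    rw [smul_smul, smul_smul, div_mul_cancel₀ _ ha.ne', div_mul_cancel₀ _ hb.ne', hxy]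
  q0 := fun j => Ray_nonneg_iff.1 (by
    rw [Ray_g_smul]; exact mul_nonneg ha.le (Ray_nonneg_iff.2 (r.q0 j)))
  p0 := fun j => Ray_nonneg_iff.1 (by
    rw [Ray_g_smul]; exact mul_nonneg hb.le (Ray_nonneg_iff.2 (r.p0 j)))
  one := fun j => (r.one j).imp
    (fun h => Ray_pos_iff.1 (by rw [Ray_g_smul]; exact mul_pos ha (Ray_pos_iff.2 h)))
    (fun h => Ray_pos_iff.1 (by rw [Ray_g_smul]; exact mul_pos hb (Ray_pos_iff.2 h)))
  qz := by
    obtain ⟨j, hj⟩ := r.qz
    exact ⟨j, Ray_zero_iff.1 (by rw [Ray_g_smul, Ray_zero_iff.2 hj, mul_zero])⟩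
  pz := by
    obtain ⟨j, hj⟩ := r.pz
    exact ⟨j, Ray_zero_iff.1 (by rw [Ray_g_smul, Ray_zero_iff.2 hj, mul_zero])⟩

theorem Rays.sector {q p : V6} (r : Rays S c q p) {X Y : ℝ} (hX : 0 < X) (hY : 0 < Y) (j : Fin 3) :
    Q (X • q + Y • p) j < c (X • q + Y • p) / π := by
  rw [← Ray_pos_iff, Ray_g_add, Ray_g_smul, Ray_g_smul]
  have h1 := mul_nonneg hX.le (Ray_nonneg_iff.2 (r.q0 j))
  have h2 := mul_nonneg hY.le (Ray_nonneg_iff.2 (r.p0 j))
  rcases r.one j with h3 | h3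
  · have h4 := mul_pos hX (Ray_pos_iff.2 h3)
    linarith
  · have h4 := mul_pos hY (Ray_pos_iff.2 h3)
    linarith

theorem Rays.mem_T (h : FS S c) {q p : V6} (r : Rays S c q p) {X Y : ℝ} (hX : 0 < X) (hY : 0 < Y) :
    X • q + Y • p ∈ T :=
  (h.reg _ (S.add_mem (S.smul_mem X r.qS) (S.smul_mem Y r.pS)) (r.sector hX hY)).1

theorem Rays.dotp_eq (h : FS S c) {q p : V6} (r : Rays S c q p) {X Y : ℝ} (hX : 0 < X)
    (hY : 0 < Y) {s : V6} (hs : s ∈ S) : dotp s (ang (X • q + Y • p)) = c s :=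
  (h.reg _ (S.add_mem (S.smul_mem X r.qS) (S.smul_mem Y r.pS)) (r.sector hX hY)).2 s hs

theorem Rays.s_nonneg (h : FS S c) {q p : V6} (r : Rays S c q p) (v : Fin 4) :
    c q / π ≤ sg q v := by
  by_contra hcon
  push Not at hcon
  set A := sg q v - c q / π with hA
  set B := sg p v - c p / π with hB
  have hA0 : A < 0 := by rw [hA]; linarith
  have hY : 0 < -A / (2 * (|B| + 1)) := by
    have := abs_nonneg B
    exact div_pos (by linarith) (by linarith)
  have hmem : (1 : ℝ) • q + (-A / (2 * (|B| + 1))) • p ∈ S :=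
    S.add_mem (S.smul_mem 1 r.qS) (S.smul_mem _ r.pS)
  have h1 := ss_pos (r.mem_T h one_pos hY) v
  unfold ss at h1
  rw [r.dotp_eq h one_pos hY hmem, sg_add, sg_smul, sg_smul, map_add, map_smul, map_smul,
    smul_eq_mul, smul_eq_mul] at h1
  set Y := -A / (2 * (|B| + 1)) with hYdef
  have h2 : 1 * sg q v + Y * sg p v - (1 * c q + Y * c p) / π = A + Y * B := by
    rw [hA, hB]; ring
  rw [h2] at h1
  have h3 : Y * (2 * (|B| + 1)) = -A := by
    rw [hYdef]
    refine div_mul_cancel₀ _ ?_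
    have := abs_nonneg B
    linarith
  have h4 : Y * B ≤ Y * |B| := mul_le_mul_of_nonneg_left (le_abs_self B) hY.le
  nlinarith

end Pool.Agent.helper37.NL
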