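import Pool.Agent.helper37.NL.Rea
import Pool.Agent.helper37.NL.Dnv
import Pool.Agent.helper37.NP.GSh
import Pool.Agent.helper37.NP.HTr
import Pool.Agent.helper37.NP.HTd

/-!
NL-E5 (SDa).  Shapes and rational data; the arcs in `shapes` are algebraic curves over `ℚ`.

PROOFS.
* `shapes_data`: unfold; `dehn_data`, `lenv_mem`, `smul_mem_T`, `ang_smul`, `ang_lenv` (as in the second
  half of the proof of `arcs_shapes` in `NP/GSh`).
* `shapes_of_data`: `realize` gives a tetrahedron with `lenv = l`, `ang l = angv ..` (`ang_lenv`),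
  `dehn_of_data` gives Dehn invariant zero; the factor is `(∑ l)⁻¹ > 0` (`T_pos`).
* `shapes_alg`: by `shapes_data`, `not_algInd` and `trdeg_quot_le` the field `L` generated over `ℚ` by the
  quotients `l i / l j` has transcendence degree at most one.  `l e = (∑ i, l i / l e)⁻¹ ∈ L` because
  `∑ i, l i = 1`.  If `![l e, l f]` was algebraically independent over `ℚ` then so would be the
  corresponding pair in `L` and `2 ≤ trdeg ≤ 1` (`AlgebraicIndependent.cardinalMk_le_trdeg` or its `lift`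
  form).  So it is not, which is the claim (`algebraicIndependent_iff`).
* `arc_algebraic`: choose `P t` by `shapes_alg` for `t ∈ Ioo (-1) 1`.  `MvPolynomial (Fin 2) ℚ` is countable
  and `Ioo (-1 : ℝ) 1` is not, so for some `P0 ≠ 0` the set `{t ∈ Ioo (-1) 1 | P t = P0}` is uncountable
  (`Set.Countable.biUnion`).  The function `t ↦ aeval ![γ t e, γ t f] P0` is real-analytic on
  `Ioo (-1) 1` (a polynomial in analytic functions, `MvPolynomial.induction_on`) and has uncountably many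
  zeros, so it is zero on the (preconnected) interval: otherwise its zeros would be isolated
  (`AnalyticOnNhd.eqOn_zero_or_eventually_ne_zero_of_preconnected`, `.. codiscreteWithin ..`) and a
  discrete subset of `ℝ` is countable (for instance: an uncountable set `S ⊆ ℝ` has a point `s ∈ S` which is
  an accumulation point of `S`: otherwise every `s ∈ S` has a neighbourhood `V` with `S ∩ V` finite, and
  `TopologicalSpace.countable_cover_nhdsWithin` makes `S` countable; then
  `AnalyticOnNhd.eqOn_zero_of_preconnected_of_frequently_eq_zero`).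
-/

namespace Pool.Agent.helper37.NL

open Real Pool.Agent.helper37.NP Pool.Agent.Helper93.Tet
open Topology in
private theorem SDa_acc {Z : Set ℝ} (hZ : ¬ Z.Countable) :
    ∃ s ∈ Z, ∃ᶠ t in 𝓝[≠] s, t ∈ Z := by
  by_contra hcon
  push Not at hcon
  apply hZ
  have hd : DiscreteTopology Z := by
    rw [discreteTopology_subtype_iff]
    intro s hs
    have h1 := hcon s hs
    rw [Filter.inf_principal_eq_bot]
    exact h1
  exact countable_of_Lindelof_of_discrete

theorem shapes_data {l : V6} (hl : l ∈ shapes) : l ∈ T ∧ ∑ e, l e = 1 ∧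
    ∃ (k : ℕ) (s : Fin k → Fin 6 → ℤ) (r : Fin k → ℚ), LinearIndependent ℝ (fun i => iv (s i)) ∧
      l ∈ Submodule.span ℝ (Set.range fun i => iv (s i)) ∧
      ∀ i, dotp (iv (s i)) (ang l) = π * (r i : ℝ) := by
  obtain ⟨a, b, c, d, hind, hd, k', hk', hl, hsum⟩ := hl
  obtain ⟨k, s, r, hs, hsp, hr⟩ := dehn_data hd
  refine ⟨?_, hsum, k, s, r, hs, ?_, ?_⟩
  · rw [hl]
    exact smul_mem_T (lenv_mem hind) hk'
  · rw [hl]
    exact Submodule.smul_mem _ _ hsp
  · rw [hl, ang_smul hk', ang_lenv hind]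
    exact hr

theorem shapes_of_data {l : V6} (hl : l ∈ T) {k : ℕ} (s : Fin k → Fin 6 → ℤ) (r : Fin k → ℚ)
    (hsp : l ∈ Submodule.span ℝ (Set.range fun i => iv (s i)))
    (hr : ∀ i, dotp (iv (s i)) (ang l) = π * (r i : ℝ)) : (∑ e, l e)⁻¹ • l ∈ shapes := by
  obtain ⟨a, b, c, d, hind, hlv⟩ := realize hl
  have hpos : 0 < ∑ e, l e := Finset.sum_pos (fun e _ => T_pos hl e) ⟨0, Finset.mem_univ _⟩
  have hd : dehn a b c d = 0 := by
    apply dehn_of_data s r
    · rw [hlv]; exact hsp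
    · rw [← ang_lenv hind, hlv]; exact hr
  refine ⟨a, b, c, d, hind, hd, (∑ e, l e)⁻¹, inv_pos.2 hpos, by rw [hlv], ?_⟩
  simp only [Pi.smul_apply, smul_eq_mul]
  rw [← Finset.mul_sum, inv_mul_cancel₀ hpos.ne']

private theorem SDa_gen {F E : Type} [Field F] [Field E] [Algebra F E]
    (L : IntermediateField F E) (h : Algebra.trdeg F L ≤ 1) {x : Fin 2 → E}
    (hx : ∀ i, x i ∈ L) : ¬ AlgebraicIndependent F x := by
  intro hind
  let x' : Fin 2 → L := fun i => ⟨x i, hx i⟩
  have h1 : AlgebraicIndependent F x' := by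
    apply AlgebraicIndependent.of_comp L.val
    exact hind
  have h2 := h1.cardinalMk_le_trdeg
  have h3 := h2.trans h
  simp at h3

private theorem SDa_dep {l : V6} (hl : l ∈ shapes) (e f : Fin 6) :
    ¬ AlgebraicIndependent ℚ ![l e, l f] := by
  obtain ⟨hT, hsum, k, s, r, hs, hsp, hr⟩ := shapes_data hl
  have h0 : ∀ i, l i ≠ 0 := fun i => (T_pos hT i).ne'
  have h1 := trdeg_quot_le h0 (fun e f => not_algInd hT s r hs hsp hr e f 0)
  have e1 : (DivisionRing.toRatAlgebra : Algebra ℚ (IntermediateField.adjoin ℚ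
      (Set.range fun p : Fin 6 × Fin 6 => l p.1 / l p.2))) =
      (IntermediateField.adjoin ℚ
        (Set.range fun p : Fin 6 × Fin 6 => l p.1 / l p.2)).algebra' := Subsingleton.elim _ _
  rw [e1] at h1
  have hmem : ∀ g : Fin 6, l g ∈ IntermediateField.adjoin ℚ
      (Set.range fun p : Fin 6 × Fin 6 => l p.1 / l p.2) := by
    intro g
    have h2 : l g = (∑ i, l i / l g)⁻¹ := by
      rw [← Finset.sum_div, hsum, one_div, inv_inv]
    rw [h2]
    apply IntermediateField.inv_mem
    apply sum_mem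
    intro i _
    exact IntermediateField.subset_adjoin _ _ ⟨(i, g), rfl⟩
  apply SDa_gen _ h1
  intro i
  fin_cases i
  · exact hmem e
  · exact hmem f

theorem shapes_alg {l : V6} (hl : l ∈ shapes) (e f : Fin 6) :
    ∃ P : MvPolynomial (Fin 2) ℚ, P ≠ 0 ∧ MvPolynomial.aeval ![l e, l f] P = 0 := by
  have h := SDa_dep hl e f
  rw [algebraicIndependent_iff] at h
  push Not at h
  obtain ⟨P, h1, h2⟩ := h
  exact ⟨P, h2, h1⟩

theorem arc_algebraic {γ : ℝ → V6} (hγ : AnalyticOnNhd ℝ γ (Set.Ioo (-1) 1))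
    (h : ∀ t ∈ Set.Ioo (-1 : ℝ) 1, γ t ∈ shapes) (e f : Fin 6) :
    ∃ P : MvPolynomial (Fin 2) ℚ, P ≠ 0 ∧
      ∀ t ∈ Set.Ioo (-1 : ℝ) 1, MvPolynomial.aeval ![γ t e, γ t f] P = 0 := by
  classical
  let Z : MvPolynomial (Fin 2) ℚ → Set ℝ := fun P =>
    {t | t ∈ Set.Ioo (-1 : ℝ) 1 ∧ P ≠ 0 ∧ MvPolynomial.aeval ![γ t e, γ t f] P = 0}
  have hcount : Countable (MvPolynomial (Fin 2) ℚ) := by
    rw [← Cardinal.mk_le_aleph0_iff]
    refine (MvPolynomial.cardinalMk_le_max (σ := Fin 2) (R := ℚ)).trans ?_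
    simp
  have hun : ∃ P, ¬ (Z P).Countable := by
    by_contra hcon
    push Not at hcon
    have h1 : (⋃ P, Z P).Countable := Set.countable_iUnion hcon
    have h2 : Set.Ioo (-1 : ℝ) 1 ⊆ ⋃ P, Z P := by
      intro t ht
      obtain ⟨P, hP, hP0⟩ := shapes_alg (h t ht) e f
      exact Set.mem_iUnion.2 ⟨P, ht, hP, hP0⟩
    have h3 := h1.mono h2
    exact (Cardinal.Real.Ioo_countable_iff.1 h3).not_gt (by norm_num)
  obtain ⟨P, hP⟩ := hun
  obtain ⟨s, hs, hfr⟩ := SDa_acc hP
  refine ⟨P, hs.2.1, ?_⟩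
  have hcomp : ∀ (g : Fin 6), ∀ t ∈ Set.Ioo (-1 : ℝ) 1, AnalyticAt ℝ (fun t => γ t g) t := by
    intro g t ht
    exact (ContinuousLinearMap.proj (R := ℝ) (φ := fun _ : Fin 6 => ℝ) g).analyticAt _ |>.comp
      (hγ t ht)
  have han : AnalyticOnNhd ℝ (fun t => MvPolynomial.aeval ![γ t e, γ t f] P)
      (Set.Ioo (-1 : ℝ) 1) := by
    intro t ht
    apply AnalyticAt.aeval_mvPolynomial
    intro i
    fin_cases i
    · exact hcomp e t ht
    · exact hcomp f t ht
  have hz := han.eqOn_zero_of_preconnected_of_frequently_eq_zero isPreconnected_Ioo hs.1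
    (hfr.mono fun t ht => ht.2.2)
  intro t ht
  exact hz ht

end Pool.Agent.helper37.NL
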