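import Mathlib

/-!
NL (MP_6c15a0_gt), star identities for the edge number 1 (edges `a, b, c, d, e, f` = `ab, ac, ad, bc,
bd, cd`) in the direction of each of the six coordinates.  Generated; `field_simp; ring`.
-/

namespace Pool.Agent.helper37.NL

set_option maxHeartbeats 4000000


theorem star1_0 (a b c d e f : ℝ) (h0 : (b+c-f) ≠ 0) (h1 : (b-a+d) ≠ 0) (h2 : (-b+a+d) ≠ 0) (h3 :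
      (-b+c+f) ≠ 0) (h4 : (b+a-d) ≠ 0) (h5 : (b-c+f) ≠ 0) (h6 : (b+c+f) ≠ 0) (h7 : (b+a+d) ≠ 0) :
    (2 * (- b * (4 * b^2 * a - 2*a * (b ^ 2 + c ^ 2 - f ^ 2))) * (a^2 * f^2 * (-a^2 + b^2 + c^2 +
      d^2 + e^2 - f^2) + b^2 * e^2 * (a^2 - b^2 + c^2 + d^2 - e^2 + f^2) + c^2 * d^2 * (a^2 + b^2
      - c^2 - d^2 + e^2 + f^2) - (a^2 * b^2 * d^2 + a^2 * c^2 * e^2 + b^2 * c^2 * f^2 + d^2 * e^2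
      * f^2)) + b * (2 * b ^ 2 * (a ^ 2 + c ^ 2 - e ^ 2) - (b ^ 2 + a ^ 2 - d ^ 2) * (b ^ 2 + c ^
      2 - f ^ 2)) * (2*a*(f^2*(-a^2+b^2+c^2+d^2+e^2-f^2) - a^2*f^2 + b^2*e^2 + c^2*d^2 - b^2*d^2 -
      c^2*e^2))) / (((b+a+d)*(b+a-d)*(b-a+d)*(-b+a+d)) * ((b+c+f)*(b+c-f)*(b-c+f)*(-b+c+f))) =
    (1/4) * (0 + ((-2*(a*f+b*e+c*d)) * (-c-e+f) + (-2*(a*b*d+a*c*e+b*c*f+d*e*f))) / (b-a+d)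
     + ((-2*(a*f+b*e+c*d)) * (-c+e-f) + (-2*(a*b*d+a*c*e+b*c*f+d*e*f))) / (-b+a+d)
     - ((-2*(a*f+b*e+c*d)) * (c-e-f) + (-2*(a*b*d+a*c*e+b*c*f+d*e*f))) / (b+a-d)
     + ((-2*(a*f+b*e+c*d)) * (c+e+f) + (-2*(a*b*d+a*c*e+b*c*f+d*e*f))) / (b+a+d)) + 2 * e * f := by
  field_simp
  ring

theorem star1_1 (a b c d e f : ℝ) (h0 : (b+c-f) ≠ 0) (h1 : (b-a+d) ≠ 0) (h2 : (-b+a+d) ≠ 0) (h3 :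
      (-b+c+f) ≠ 0) (h4 : (b+a-d) ≠ 0) (h5 : (b-c+f) ≠ 0) (h6 : (b+c+f) ≠ 0) (h7 : (b+a+d) ≠ 0) :
    (2 * ((2 * b ^ 2 * (a ^ 2 + c ^ 2 - e ^ 2) - (b ^ 2 + a ^ 2 - d ^ 2) * (b ^ 2 + c ^ 2 - f ^
      2)) - b * (4 * b * (a ^ 2 + c ^ 2 - e ^ 2) - 2*b * (b ^ 2 + c ^ 2 - f ^ 2) - (b ^ 2 + a ^ 2
      - d ^ 2) * (2*b))) * (a^2 * f^2 * (-a^2 + b^2 + c^2 + d^2 + e^2 - f^2) + b^2 * e^2 * (a^2 -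
      b^2 + c^2 + d^2 - e^2 + f^2) + c^2 * d^2 * (a^2 + b^2 - c^2 - d^2 + e^2 + f^2) - (a^2 * b^2
      * d^2 + a^2 * c^2 * e^2 + b^2 * c^2 * f^2 + d^2 * e^2 * f^2)) + b * (2 * b ^ 2 * (a ^ 2 + c
      ^ 2 - e ^ 2) - (b ^ 2 + a ^ 2 - d ^ 2) * (b ^ 2 + c ^ 2 - f ^ 2)) * (2*b*(a^2*f^2 +
      e^2*(a^2-b^2+c^2+d^2-e^2+f^2) - b^2*e^2 + c^2*d^2 - a^2*d^2 - c^2*f^2))) /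
      (((b+a+d)*(b+a-d)*(b-a+d)*(-b+a+d)) * ((b+c+f)*(b+c-f)*(b-c+f)*(-b+c+f))) =
    (1/4) * (0 - ((-2*(a*f+b*e+c*d)) * (a-d-e) + (-2*(a*b*d+a*c*e+b*c*f+d*e*f))) / (b+c-f)
     - ((-2*(a*f+b*e+c*d)) * (-c-e+f) + (-2*(a*b*d+a*c*e+b*c*f+d*e*f))) / (b-a+d)
     - ((-2*(a*f+b*e+c*d)) * (-c+e-f) + (-2*(a*b*d+a*c*e+b*c*f+d*e*f))) / (-b+a+d)
     - ((-2*(a*f+b*e+c*d)) * (-a-d+e) + (-2*(a*b*d+a*c*e+b*c*f+d*e*f))) / (-b+c+f)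
     - ((-2*(a*f+b*e+c*d)) * (c-e-f) + (-2*(a*b*d+a*c*e+b*c*f+d*e*f))) / (b+a-d)
     - ((-2*(a*f+b*e+c*d)) * (-a+d-e) + (-2*(a*b*d+a*c*e+b*c*f+d*e*f))) / (b-c+f)
     + ((-2*(a*f+b*e+c*d)) * (a+d+e) + (-2*(a*b*d+a*c*e+b*c*f+d*e*f))) / (b+c+f)
     + ((-2*(a*f+b*e+c*d)) * (c+e+f) + (-2*(a*b*d+a*c*e+b*c*f+d*e*f))) / (b+a+d)) + 2 * e * e := by
  field_simp
  ring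

theorem star1_2 (a b c d e f : ℝ) (h0 : (b+c-f) ≠ 0) (h1 : (b-a+d) ≠ 0) (h2 : (-b+a+d) ≠ 0) (h3 :
      (-b+c+f) ≠ 0) (h4 : (b+a-d) ≠ 0) (h5 : (b-c+f) ≠ 0) (h6 : (b+c+f) ≠ 0) (h7 : (b+a+d) ≠ 0) :
    (2 * (- b * (4 * b^2 * c - 2*c * (b ^ 2 + a ^ 2 - d ^ 2))) * (a^2 * f^2 * (-a^2 + b^2 + c^2 +
      d^2 + e^2 - f^2) + b^2 * e^2 * (a^2 - b^2 + c^2 + d^2 - e^2 + f^2) + c^2 * d^2 * (a^2 + b^2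
      - c^2 - d^2 + e^2 + f^2) - (a^2 * b^2 * d^2 + a^2 * c^2 * e^2 + b^2 * c^2 * f^2 + d^2 * e^2
      * f^2)) + b * (2 * b ^ 2 * (a ^ 2 + c ^ 2 - e ^ 2) - (b ^ 2 + a ^ 2 - d ^ 2) * (b ^ 2 + c ^
      2 - f ^ 2)) * (2*c*(a^2*f^2 + b^2*e^2 + d^2*(a^2+b^2-c^2-d^2+e^2+f^2) - c^2*d^2 - a^2*e^2 -
      b^2*f^2))) / (((b+a+d)*(b+a-d)*(b-a+d)*(-b+a+d)) * ((b+c+f)*(b+c-f)*(b-c+f)*(-b+c+f))) =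
    (1/4) * (0 - ((-2*(a*f+b*e+c*d)) * (a-d-e) + (-2*(a*b*d+a*c*e+b*c*f+d*e*f))) / (b+c-f)
     + ((-2*(a*f+b*e+c*d)) * (-a-d+e) + (-2*(a*b*d+a*c*e+b*c*f+d*e*f))) / (-b+c+f)
     + ((-2*(a*f+b*e+c*d)) * (-a+d-e) + (-2*(a*b*d+a*c*e+b*c*f+d*e*f))) / (b-c+f)
     + ((-2*(a*f+b*e+c*d)) * (a+d+e) + (-2*(a*b*d+a*c*e+b*c*f+d*e*f))) / (b+c+f)) + 2 * e * d := by
  field_simp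
  ring

theorem star1_3 (a b c d e f : ℝ) (h0 : (b+c-f) ≠ 0) (h1 : (b-a+d) ≠ 0) (h2 : (-b+a+d) ≠ 0) (h3 :
      (-b+c+f) ≠ 0) (h4 : (b+a-d) ≠ 0) (h5 : (b-c+f) ≠ 0) (h6 : (b+c+f) ≠ 0) (h7 : (b+a+d) ≠ 0) :
    (2 * (- b * (2*d * (b ^ 2 + c ^ 2 - f ^ 2))) * (a^2 * f^2 * (-a^2 + b^2 + c^2 + d^2 + e^2 -
      f^2) + b^2 * e^2 * (a^2 - b^2 + c^2 + d^2 - e^2 + f^2) + c^2 * d^2 * (a^2 + b^2 - c^2 - d^2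
      + e^2 + f^2) - (a^2 * b^2 * d^2 + a^2 * c^2 * e^2 + b^2 * c^2 * f^2 + d^2 * e^2 * f^2)) + b
      * (2 * b ^ 2 * (a ^ 2 + c ^ 2 - e ^ 2) - (b ^ 2 + a ^ 2 - d ^ 2) * (b ^ 2 + c ^ 2 - f ^ 2))
      * (2*d*(a^2*f^2 + b^2*e^2 + c^2*(a^2+b^2-c^2-d^2+e^2+f^2) - c^2*d^2 - a^2*b^2 - e^2*f^2))) /
      (((b+a+d)*(b+a-d)*(b-a+d)*(-b+a+d)) * ((b+c+f)*(b+c-f)*(b-c+f)*(-b+c+f))) =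
    (1/4) * (0 - ((-2*(a*f+b*e+c*d)) * (-c-e+f) + (-2*(a*b*d+a*c*e+b*c*f+d*e*f))) / (b-a+d)
     + ((-2*(a*f+b*e+c*d)) * (-c+e-f) + (-2*(a*b*d+a*c*e+b*c*f+d*e*f))) / (-b+a+d)
     + ((-2*(a*f+b*e+c*d)) * (c-e-f) + (-2*(a*b*d+a*c*e+b*c*f+d*e*f))) / (b+a-d)
     + ((-2*(a*f+b*e+c*d)) * (c+e+f) + (-2*(a*b*d+a*c*e+b*c*f+d*e*f))) / (b+a+d)) + 2 * e * c := by
  field_simp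
  ring

theorem star1_4 (a b c d e f : ℝ) (h0 : (b+c-f) ≠ 0) (h1 : (b-a+d) ≠ 0) (h2 : (-b+a+d) ≠ 0) (h3 :
      (-b+c+f) ≠ 0) (h4 : (b+a-d) ≠ 0) (h5 : (b-c+f) ≠ 0) (h6 : (b+c+f) ≠ 0) (h7 : (b+a+d) ≠ 0) :
    (2 * (- b * (-(4 * b^2 * e))) * (a^2 * f^2 * (-a^2 + b^2 + c^2 + d^2 + e^2 - f^2) + b^2 * e^2
      * (a^2 - b^2 + c^2 + d^2 - e^2 + f^2) + c^2 * d^2 * (a^2 + b^2 - c^2 - d^2 + e^2 + f^2) -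
      (a^2 * b^2 * d^2 + a^2 * c^2 * e^2 + b^2 * c^2 * f^2 + d^2 * e^2 * f^2)) + b * (2 * b ^ 2 *
      (a ^ 2 + c ^ 2 - e ^ 2) - (b ^ 2 + a ^ 2 - d ^ 2) * (b ^ 2 + c ^ 2 - f ^ 2)) * (2*e*(a^2*f^2
      + b^2*(a^2-b^2+c^2+d^2-e^2+f^2) - b^2*e^2 + c^2*d^2 - a^2*c^2 - d^2*f^2))) /
      (((b+a+d)*(b+a-d)*(b-a+d)*(-b+a+d)) * ((b+c+f)*(b+c-f)*(b-c+f)*(-b+c+f))) =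
    (1/4) * (0 ) + 2 * e * b := by
  field_simp
  ring

theorem star1_5 (a b c d e f : ℝ) (h0 : (b+c-f) ≠ 0) (h1 : (b-a+d) ≠ 0) (h2 : (-b+a+d) ≠ 0) (h3 :
      (-b+c+f) ≠ 0) (h4 : (b+a-d) ≠ 0) (h5 : (b-c+f) ≠ 0) (h6 : (b+c+f) ≠ 0) (h7 : (b+a+d) ≠ 0) :
    (2 * (- b * (2*f * (b ^ 2 + a ^ 2 - d ^ 2))) * (a^2 * f^2 * (-a^2 + b^2 + c^2 + d^2 + e^2 -
      f^2) + b^2 * e^2 * (a^2 - b^2 + c^2 + d^2 - e^2 + f^2) + c^2 * d^2 * (a^2 + b^2 - c^2 - d^2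
      + e^2 + f^2) - (a^2 * b^2 * d^2 + a^2 * c^2 * e^2 + b^2 * c^2 * f^2 + d^2 * e^2 * f^2)) + b
      * (2 * b ^ 2 * (a ^ 2 + c ^ 2 - e ^ 2) - (b ^ 2 + a ^ 2 - d ^ 2) * (b ^ 2 + c ^ 2 - f ^ 2))
      * (2*f*(a^2*(-a^2+b^2+c^2+d^2+e^2-f^2) - a^2*f^2 + b^2*e^2 + c^2*d^2 - b^2*c^2 - d^2*e^2)))
      / (((b+a+d)*(b+a-d)*(b-a+d)*(-b+a+d)) * ((b+c+f)*(b+c-f)*(b-c+f)*(-b+c+f))) =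
    (1/4) * (0 + ((-2*(a*f+b*e+c*d)) * (a-d-e) + (-2*(a*b*d+a*c*e+b*c*f+d*e*f))) / (b+c-f)
     + ((-2*(a*f+b*e+c*d)) * (-a-d+e) + (-2*(a*b*d+a*c*e+b*c*f+d*e*f))) / (-b+c+f)
     - ((-2*(a*f+b*e+c*d)) * (-a+d-e) + (-2*(a*b*d+a*c*e+b*c*f+d*e*f))) / (b-c+f)
     + ((-2*(a*f+b*e+c*d)) * (a+d+e) + (-2*(a*b*d+a*c*e+b*c*f+d*e*f))) / (b+c+f)) + 2 * e * a := by
  field_simp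
  ring

end Pool.Agent.helper37.NL
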