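import Mathlib

/-!
NL (MP_6c15a0_gt), star identities for the edge number 2 (edges `a, b, c, d, e, f` = `ab, ac, ad, bc,
bd, cd`) in the direction of each of the six coordinates.  Generated; `field_simp; ring`.
-/

namespace Pool.Agent.helper37.NL

set_option maxHeartbeats 4000000


theorem star2_0 (a b c d e f : ℝ) (h0 : (c+b-f) ≠ 0) (h1 : (c-a+e) ≠ 0) (h2 : (c+a-e) ≠ 0) (h3 :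
      (c-b+f) ≠ 0) (h4 : (-c+a+e) ≠ 0) (h5 : (-c+b+f) ≠ 0) (h6 : (c+b+f) ≠ 0) (h7 : (c+a+e) ≠ 0) :
    (2 * (- c * (4 * c^2 * a - 2*a * (c ^ 2 + b ^ 2 - f ^ 2))) * (a^2 * f^2 * (-a^2 + b^2 + c^2 +
      d^2 + e^2 - f^2) + b^2 * e^2 * (a^2 - b^2 + c^2 + d^2 - e^2 + f^2) + c^2 * d^2 * (a^2 + b^2
      - c^2 - d^2 + e^2 + f^2) - (a^2 * b^2 * d^2 + a^2 * c^2 * e^2 + b^2 * c^2 * f^2 + d^2 * e^2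
      * f^2)) + c * (2 * c ^ 2 * (a ^ 2 + b ^ 2 - d ^ 2) - (c ^ 2 + a ^ 2 - e ^ 2) * (c ^ 2 + b ^
      2 - f ^ 2)) * (2*a*(f^2*(-a^2+b^2+c^2+d^2+e^2-f^2) - a^2*f^2 + b^2*e^2 + c^2*d^2 - b^2*d^2 -
      c^2*e^2))) / (((c+a+e)*(c+a-e)*(c-a+e)*(-c+a+e)) * ((c+b+f)*(c+b-f)*(c-b+f)*(-c+b+f))) =
    (1/4) * (0 + ((-2*(a*f+b*e+c*d)) * (-b-d+f) + (-2*(a*b*d+a*c*e+b*c*f+d*e*f))) / (c-a+e)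
     - ((-2*(a*f+b*e+c*d)) * (b-d-f) + (-2*(a*b*d+a*c*e+b*c*f+d*e*f))) / (c+a-e)
     + ((-2*(a*f+b*e+c*d)) * (-b+d-f) + (-2*(a*b*d+a*c*e+b*c*f+d*e*f))) / (-c+a+e)
     + ((-2*(a*f+b*e+c*d)) * (b+d+f) + (-2*(a*b*d+a*c*e+b*c*f+d*e*f))) / (c+a+e)) + 2 * d * f := by
  field_simp
  ring

theorem star2_1 (a b c d e f : ℝ) (h0 : (c+b-f) ≠ 0) (h1 : (c-a+e) ≠ 0) (h2 : (c+a-e) ≠ 0) (h3 :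
      (c-b+f) ≠ 0) (h4 : (-c+a+e) ≠ 0) (h5 : (-c+b+f) ≠ 0) (h6 : (c+b+f) ≠ 0) (h7 : (c+a+e) ≠ 0) :
    (2 * (- c * (4 * c^2 * b - 2*b * (c ^ 2 + a ^ 2 - e ^ 2))) * (a^2 * f^2 * (-a^2 + b^2 + c^2 +
      d^2 + e^2 - f^2) + b^2 * e^2 * (a^2 - b^2 + c^2 + d^2 - e^2 + f^2) + c^2 * d^2 * (a^2 + b^2
      - c^2 - d^2 + e^2 + f^2) - (a^2 * b^2 * d^2 + a^2 * c^2 * e^2 + b^2 * c^2 * f^2 + d^2 * e^2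
      * f^2)) + c * (2 * c ^ 2 * (a ^ 2 + b ^ 2 - d ^ 2) - (c ^ 2 + a ^ 2 - e ^ 2) * (c ^ 2 + b ^
      2 - f ^ 2)) * (2*b*(a^2*f^2 + e^2*(a^2-b^2+c^2+d^2-e^2+f^2) - b^2*e^2 + c^2*d^2 - a^2*d^2 -
      c^2*f^2))) / (((c+a+e)*(c+a-e)*(c-a+e)*(-c+a+e)) * ((c+b+f)*(c+b-f)*(c-b+f)*(-c+b+f))) =
    (1/4) * (0 - ((-2*(a*f+b*e+c*d)) * (a-d-e) + (-2*(a*b*d+a*c*e+b*c*f+d*e*f))) / (c+b-f)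
     + ((-2*(a*f+b*e+c*d)) * (-a-d+e) + (-2*(a*b*d+a*c*e+b*c*f+d*e*f))) / (c-b+f)
     + ((-2*(a*f+b*e+c*d)) * (-a+d-e) + (-2*(a*b*d+a*c*e+b*c*f+d*e*f))) / (-c+b+f)
     + ((-2*(a*f+b*e+c*d)) * (a+d+e) + (-2*(a*b*d+a*c*e+b*c*f+d*e*f))) / (c+b+f)) + 2 * d * e := by
  field_simp
  ring

theorem star2_2 (a b c d e f : ℝ) (h0 : (c+b-f) ≠ 0) (h1 : (c-a+e) ≠ 0) (h2 : (c+a-e) ≠ 0) (h3 :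
      (c-b+f) ≠ 0) (h4 : (-c+a+e) ≠ 0) (h5 : (-c+b+f) ≠ 0) (h6 : (c+b+f) ≠ 0) (h7 : (c+a+e) ≠ 0) :
    (2 * ((2 * c ^ 2 * (a ^ 2 + b ^ 2 - d ^ 2) - (c ^ 2 + a ^ 2 - e ^ 2) * (c ^ 2 + b ^ 2 - f ^
      2)) - c * (4 * c * (a ^ 2 + b ^ 2 - d ^ 2) - 2*c * (c ^ 2 + b ^ 2 - f ^ 2) - (c ^ 2 + a ^ 2
      - e ^ 2) * (2*c))) * (a^2 * f^2 * (-a^2 + b^2 + c^2 + d^2 + e^2 - f^2) + b^2 * e^2 * (a^2 -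
      b^2 + c^2 + d^2 - e^2 + f^2) + c^2 * d^2 * (a^2 + b^2 - c^2 - d^2 + e^2 + f^2) - (a^2 * b^2
      * d^2 + a^2 * c^2 * e^2 + b^2 * c^2 * f^2 + d^2 * e^2 * f^2)) + c * (2 * c ^ 2 * (a ^ 2 + b
      ^ 2 - d ^ 2) - (c ^ 2 + a ^ 2 - e ^ 2) * (c ^ 2 + b ^ 2 - f ^ 2)) * (2*c*(a^2*f^2 + b^2*e^2
      + d^2*(a^2+b^2-c^2-d^2+e^2+f^2) - c^2*d^2 - a^2*e^2 - b^2*f^2))) /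
      (((c+a+e)*(c+a-e)*(c-a+e)*(-c+a+e)) * ((c+b+f)*(c+b-f)*(c-b+f)*(-c+b+f))) =
    (1/4) * (0 - ((-2*(a*f+b*e+c*d)) * (a-d-e) + (-2*(a*b*d+a*c*e+b*c*f+d*e*f))) / (c+b-f)
     - ((-2*(a*f+b*e+c*d)) * (-b-d+f) + (-2*(a*b*d+a*c*e+b*c*f+d*e*f))) / (c-a+e)
     - ((-2*(a*f+b*e+c*d)) * (b-d-f) + (-2*(a*b*d+a*c*e+b*c*f+d*e*f))) / (c+a-e)
     - ((-2*(a*f+b*e+c*d)) * (-a-d+e) + (-2*(a*b*d+a*c*e+b*c*f+d*e*f))) / (c-b+f)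
     - ((-2*(a*f+b*e+c*d)) * (-b+d-f) + (-2*(a*b*d+a*c*e+b*c*f+d*e*f))) / (-c+a+e)
     - ((-2*(a*f+b*e+c*d)) * (-a+d-e) + (-2*(a*b*d+a*c*e+b*c*f+d*e*f))) / (-c+b+f)
     + ((-2*(a*f+b*e+c*d)) * (a+d+e) + (-2*(a*b*d+a*c*e+b*c*f+d*e*f))) / (c+b+f)
     + ((-2*(a*f+b*e+c*d)) * (b+d+f) + (-2*(a*b*d+a*c*e+b*c*f+d*e*f))) / (c+a+e)) + 2 * d * d := by
  field_simp
  ring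

theorem star2_3 (a b c d e f : ℝ) (h0 : (c+b-f) ≠ 0) (h1 : (c-a+e) ≠ 0) (h2 : (c+a-e) ≠ 0) (h3 :
      (c-b+f) ≠ 0) (h4 : (-c+a+e) ≠ 0) (h5 : (-c+b+f) ≠ 0) (h6 : (c+b+f) ≠ 0) (h7 : (c+a+e) ≠ 0) :
    (2 * (- c * (-(4 * c^2 * d))) * (a^2 * f^2 * (-a^2 + b^2 + c^2 + d^2 + e^2 - f^2) + b^2 * e^2
      * (a^2 - b^2 + c^2 + d^2 - e^2 + f^2) + c^2 * d^2 * (a^2 + b^2 - c^2 - d^2 + e^2 + f^2) -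
      (a^2 * b^2 * d^2 + a^2 * c^2 * e^2 + b^2 * c^2 * f^2 + d^2 * e^2 * f^2)) + c * (2 * c ^ 2 *
      (a ^ 2 + b ^ 2 - d ^ 2) - (c ^ 2 + a ^ 2 - e ^ 2) * (c ^ 2 + b ^ 2 - f ^ 2)) * (2*d*(a^2*f^2
      + b^2*e^2 + c^2*(a^2+b^2-c^2-d^2+e^2+f^2) - c^2*d^2 - a^2*b^2 - e^2*f^2))) /
      (((c+a+e)*(c+a-e)*(c-a+e)*(-c+a+e)) * ((c+b+f)*(c+b-f)*(c-b+f)*(-c+b+f))) =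
    (1/4) * (0 ) + 2 * d * c := by
  field_simp
  ring

theorem star2_4 (a b c d e f : ℝ) (h0 : (c+b-f) ≠ 0) (h1 : (c-a+e) ≠ 0) (h2 : (c+a-e) ≠ 0) (h3 :
      (c-b+f) ≠ 0) (h4 : (-c+a+e) ≠ 0) (h5 : (-c+b+f) ≠ 0) (h6 : (c+b+f) ≠ 0) (h7 : (c+a+e) ≠ 0) :
    (2 * (- c * (2*e * (c ^ 2 + b ^ 2 - f ^ 2))) * (a^2 * f^2 * (-a^2 + b^2 + c^2 + d^2 + e^2 -
      f^2) + b^2 * e^2 * (a^2 - b^2 + c^2 + d^2 - e^2 + f^2) + c^2 * d^2 * (a^2 + b^2 - c^2 - d^2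
      + e^2 + f^2) - (a^2 * b^2 * d^2 + a^2 * c^2 * e^2 + b^2 * c^2 * f^2 + d^2 * e^2 * f^2)) + c
      * (2 * c ^ 2 * (a ^ 2 + b ^ 2 - d ^ 2) - (c ^ 2 + a ^ 2 - e ^ 2) * (c ^ 2 + b ^ 2 - f ^ 2))
      * (2*e*(a^2*f^2 + b^2*(a^2-b^2+c^2+d^2-e^2+f^2) - b^2*e^2 + c^2*d^2 - a^2*c^2 - d^2*f^2))) /
      (((c+a+e)*(c+a-e)*(c-a+e)*(-c+a+e)) * ((c+b+f)*(c+b-f)*(c-b+f)*(-c+b+f))) =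
    (1/4) * (0 - ((-2*(a*f+b*e+c*d)) * (-b-d+f) + (-2*(a*b*d+a*c*e+b*c*f+d*e*f))) / (c-a+e)
     + ((-2*(a*f+b*e+c*d)) * (b-d-f) + (-2*(a*b*d+a*c*e+b*c*f+d*e*f))) / (c+a-e)
     + ((-2*(a*f+b*e+c*d)) * (-b+d-f) + (-2*(a*b*d+a*c*e+b*c*f+d*e*f))) / (-c+a+e)
     + ((-2*(a*f+b*e+c*d)) * (b+d+f) + (-2*(a*b*d+a*c*e+b*c*f+d*e*f))) / (c+a+e)) + 2 * d * b := by
  field_simp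
  ring

theorem star2_5 (a b c d e f : ℝ) (h0 : (c+b-f) ≠ 0) (h1 : (c-a+e) ≠ 0) (h2 : (c+a-e) ≠ 0) (h3 :
      (c-b+f) ≠ 0) (h4 : (-c+a+e) ≠ 0) (h5 : (-c+b+f) ≠ 0) (h6 : (c+b+f) ≠ 0) (h7 : (c+a+e) ≠ 0) :
    (2 * (- c * (2*f * (c ^ 2 + a ^ 2 - e ^ 2))) * (a^2 * f^2 * (-a^2 + b^2 + c^2 + d^2 + e^2 -
      f^2) + b^2 * e^2 * (a^2 - b^2 + c^2 + d^2 - e^2 + f^2) + c^2 * d^2 * (a^2 + b^2 - c^2 - d^2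
      + e^2 + f^2) - (a^2 * b^2 * d^2 + a^2 * c^2 * e^2 + b^2 * c^2 * f^2 + d^2 * e^2 * f^2)) + c
      * (2 * c ^ 2 * (a ^ 2 + b ^ 2 - d ^ 2) - (c ^ 2 + a ^ 2 - e ^ 2) * (c ^ 2 + b ^ 2 - f ^ 2))
      * (2*f*(a^2*(-a^2+b^2+c^2+d^2+e^2-f^2) - a^2*f^2 + b^2*e^2 + c^2*d^2 - b^2*c^2 - d^2*e^2)))
      / (((c+a+e)*(c+a-e)*(c-a+e)*(-c+a+e)) * ((c+b+f)*(c+b-f)*(c-b+f)*(-c+b+f))) =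
    (1/4) * (0 + ((-2*(a*f+b*e+c*d)) * (a-d-e) + (-2*(a*b*d+a*c*e+b*c*f+d*e*f))) / (c+b-f)
     - ((-2*(a*f+b*e+c*d)) * (-a-d+e) + (-2*(a*b*d+a*c*e+b*c*f+d*e*f))) / (c-b+f)
     + ((-2*(a*f+b*e+c*d)) * (-a+d-e) + (-2*(a*b*d+a*c*e+b*c*f+d*e*f))) / (-c+b+f)
     + ((-2*(a*f+b*e+c*d)) * (a+d+e) + (-2*(a*b*d+a*c*e+b*c*f+d*e*f))) / (c+b+f)) + 2 * d * a := by
  field_simp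
  ring

end Pool.Agent.helper37.NL
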