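import Pool.Agent.helper37.NL.SvD
import Pool.Agent.helper37.NL.St0
import Pool.Agent.helper37.NL.St1
import Pool.Agent.helper37.NL.St2

/-!
NL-03 (SvA).  The star identities for the edges number 0, 1, 2 in vector form.

PROOF.  Both sides are linear in `n` (`Me` is linear in `(n, dnu l n, dW l n)`, and `dnu`, `dW` are
linear in `n`).  For the six unit directions they are the generated theorems `star0_0, ...,
star0_5` (files `St0`, `St1`, `St2`, already proved there by `field_simp; ring`), applied to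
`a = l 0, b = l 1, c = l 2, d = l 3, e = l 4, f = l 5`.  The eight hypotheses `h0, ..., h7` are the
Heron factors `BB l i - sg l v` up to sign; they are nonzero (`T_pos`, definition of `T`, or
`BB_sub_ne`).  In the generated form the numbers `al`, `be` are written as
`al (BB l) (sg l) = -2 (l0 l5 + l1 l4 + l2 l3)` and
`Kf (BB l) (sg l) i v = al * (BB l i + sg l v - (Q l 0 + Q l 1 + Q l 2))
  - 2 (l0 l1 l3 + l0 l2 l4 + l1 l2 l5 + l3 l4 l5)` (both by `ring`).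
So: write `a, ..., f` for `l 0, ..., l 5`, expand `Rs` (only eight pairs `(i, v)` have `ep i v e ≠ 0`),
and check `goal = n 0 * star_0 + ... + n 5 * star_5`.  A convenient way: show
`Rs l n e = ∑ f, n f * Rs l (Pi.single f 1) e` and the same for the left side, then `congr` with the
generated theorems; or state for real variables `x0 ... x5` (the values `n f`)
`linear_combination x0 * star_0 + ... + x5 * star_5` after clearing nothing (the denominators are the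
same atoms on both sides, if the differences `BB l i - sg l v` have first been rewritten as
`±` the same factors as in the generated theorem, `div_neg`/`neg_div`).
-/

namespace Pool.Agent.helper37.NL

open Real Pool.Agent.helper37.NP Pool.Agent.Helper93.Tet

private theorem SvA_lin (x0 x1 x2 x3 x4 x5 N0 N1 N2 N3 N4 N5 H : ℝ) :
    (x0 * N0 + x1 * N1 + x2 * N2 + x3 * N3 + x4 * N4 + x5 * N5) / H =
      x0 * (N0 / H) + x1 * (N1 / H) + x2 * (N2 / H) + x3 * (N3 / H) + x4 * (N4 / H)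
        + x5 * (N5 / H) := by
  ring

theorem star_0 {l : V6} (hl : l ∈ T) (n : V6) :
    Me l n 0 / (ha l 0 * hb l 0) = Rs l n 0 := by
  have d0 : BB l 0 - sg l 2 = -(-(l 0)+l 1+l 3) := by
    simp only [BB, Q, sg, Matrix.cons_val]; ring
  have h0 : (-(l 0)+l 1+l 3) ≠ 0 := by
    have := BB_sub_ne hl 0 2
    rw [d0] at this
    exact neg_ne_zero.mp this
  have d1 : BB l 0 - sg l 3 = -(-(l 0)+l 2+l 4) := by
    simp only [BB, Q, sg, Matrix.cons_val]; ring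
  have h1 : (-(l 0)+l 2+l 4) ≠ 0 := by
    have := BB_sub_ne hl 0 3
    rw [d1] at this
    exact neg_ne_zero.mp this
  have d2 : BB l 1 - sg l 0 = -(l 0+l 2-l 4) := by
    simp only [BB, Q, sg, Matrix.cons_val]; ring
  have h2 : (l 0+l 2-l 4) ≠ 0 := by
    have := BB_sub_ne hl 1 0
    rw [d2] at this
    exact neg_ne_zero.mp this
  have d3 : BB l 1 - sg l 1 = -(l 0-l 1+l 3) := by
    simp only [BB, Q, sg, Matrix.cons_val]; ring
  have h3 : (l 0-l 1+l 3) ≠ 0 := by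
    have := BB_sub_ne hl 1 1
    rw [d3] at this
    exact neg_ne_zero.mp this
  have d4 : BB l 2 - sg l 0 = -(l 0+l 1-l 3) := by
    simp only [BB, Q, sg, Matrix.cons_val]; ring
  have h4 : (l 0+l 1-l 3) ≠ 0 := by
    have := BB_sub_ne hl 2 0
    rw [d4] at this
    exact neg_ne_zero.mp this
  have d5 : BB l 2 - sg l 1 = -(l 0-l 2+l 4) := by
    simp only [BB, Q, sg, Matrix.cons_val]; ring
  have h5 : (l 0-l 2+l 4) ≠ 0 := by
    have := BB_sub_ne hl 2 1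
    rw [d5] at this
    exact neg_ne_zero.mp this
  have d6 : BB l 3 - sg l 2 = (l 0+l 2+l 4) := by
    simp only [BB, Q, sg, Matrix.cons_val]; ring
  have h6 : (l 0+l 2+l 4) ≠ 0 := by
    have := BB_sub_ne hl 3 2
    rw [d6] at this
    simpa using this
  have d7 : BB l 3 - sg l 3 = (l 0+l 1+l 3) := by
    simp only [BB, Q, sg, Matrix.cons_val]; ring
  have h7 : (l 0+l 1+l 3) ≠ 0 := by
    have := BB_sub_ne hl 3 3
    rw [d7] at this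
    simpa using this
  have s0 := star0_0 (l 0) (l 1) (l 2) (l 3) (l 4) (l 5) h0 h1 h2 h3 h4 h5 h6 h7
  have s1 := star0_1 (l 0) (l 1) (l 2) (l 3) (l 4) (l 5) h0 h1 h2 h3 h4 h5 h6 h7
  have s2 := star0_2 (l 0) (l 1) (l 2) (l 3) (l 4) (l 5) h0 h1 h2 h3 h4 h5 h6 h7
  have s3 := star0_3 (l 0) (l 1) (l 2) (l 3) (l 4) (l 5) h0 h1 h2 h3 h4 h5 h6 h7
  have s4 := star0_4 (l 0) (l 1) (l 2) (l 3) (l 4) (l 5) h0 h1 h2 h3 h4 h5 h6 h7
  have s5 := star0_5 (l 0) (l 1) (l 2) (l 3) (l 4) (l 5) h0 h1 h2 h3 h4 h5 h6 h7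
  have k0 : Kf (BB l) (sg l) 0 2 = (-2*(l 0*l 5+l 1*l 4+l 2*l 3)) * (-(l 2)-l 4+l 5) + (-2*(l 0*l 1*l 3+l 0*l 2*l 4+l 1*l 2*l 5+l 3*l 4*l 5)) := by
    simp only [Kf, al, be, e2, e3, BB, Q, sg, Matrix.cons_val]; ring
  have m0 : BB n 0 - sg n 2 = n 0 - n 1 - n 3 := by
    simp only [BB, Q, sg, Matrix.cons_val]; ring
  have k1 : Kf (BB l) (sg l) 0 3 = (-2*(l 0*l 5+l 1*l 4+l 2*l 3)) * (-(l 1)-l 3+l 5) + (-2*(l 0*l 1*l 3+l 0*l 2*l 4+l 1*l 2*l 5+l 3*l 4*l 5)) := by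
    simp only [Kf, al, be, e2, e3, BB, Q, sg, Matrix.cons_val]; ring
  have m1 : BB n 0 - sg n 3 = n 0 - n 2 - n 4 := by
    simp only [BB, Q, sg, Matrix.cons_val]; ring
  have k2 : Kf (BB l) (sg l) 1 0 = (-2*(l 0*l 5+l 1*l 4+l 2*l 3)) * (l 1-l 3-l 5) + (-2*(l 0*l 1*l 3+l 0*l 2*l 4+l 1*l 2*l 5+l 3*l 4*l 5)) := by
    simp only [Kf, al, be, e2, e3, BB, Q, sg, Matrix.cons_val]; ring
  have m2 : BB n 1 - sg n 0 = -n 0 - n 2 + n 4 := by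
    simp only [BB, Q, sg, Matrix.cons_val]; ring
  have k3 : Kf (BB l) (sg l) 1 1 = (-2*(l 0*l 5+l 1*l 4+l 2*l 3)) * (-(l 2)+l 4-l 5) + (-2*(l 0*l 1*l 3+l 0*l 2*l 4+l 1*l 2*l 5+l 3*l 4*l 5)) := by
    simp only [Kf, al, be, e2, e3, BB, Q, sg, Matrix.cons_val]; ring
  have m3 : BB n 1 - sg n 1 = -n 0 + n 1 - n 3 := by
    simp only [BB, Q, sg, Matrix.cons_val]; ring
  have k4 : Kf (BB l) (sg l) 2 0 = (-2*(l 0*l 5+l 1*l 4+l 2*l 3)) * (l 2-l 4-l 5) + (-2*(l 0*l 1*l 3+l 0*l 2*l 4+l 1*l 2*l 5+l 3*l 4*l 5)) := by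
    simp only [Kf, al, be, e2, e3, BB, Q, sg, Matrix.cons_val]; ring
  have m4 : BB n 2 - sg n 0 = -n 0 - n 1 + n 3 := by
    simp only [BB, Q, sg, Matrix.cons_val]; ring
  have k5 : Kf (BB l) (sg l) 2 1 = (-2*(l 0*l 5+l 1*l 4+l 2*l 3)) * (-(l 1)+l 3-l 5) + (-2*(l 0*l 1*l 3+l 0*l 2*l 4+l 1*l 2*l 5+l 3*l 4*l 5)) := by
    simp only [Kf, al, be, e2, e3, BB, Q, sg, Matrix.cons_val]; ring
  have m5 : BB n 2 - sg n 1 = -n 0 + n 2 - n 4 := by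
    simp only [BB, Q, sg, Matrix.cons_val]; ring
  have k6 : Kf (BB l) (sg l) 3 2 = (-2*(l 0*l 5+l 1*l 4+l 2*l 3)) * (l 1+l 3+l 5) + (-2*(l 0*l 1*l 3+l 0*l 2*l 4+l 1*l 2*l 5+l 3*l 4*l 5)) := by
    simp only [Kf, al, be, e2, e3, BB, Q, sg, Matrix.cons_val]; ring
  have m6 : BB n 3 - sg n 2 = n 0 + n 2 + n 4 := by
    simp only [BB, Q, sg, Matrix.cons_val]; ring
  have k7 : Kf (BB l) (sg l) 3 3 = (-2*(l 0*l 5+l 1*l 4+l 2*l 3)) * (l 2+l 4+l 5) + (-2*(l 0*l 1*l 3+l 0*l 2*l 4+l 1*l 2*l 5+l 3*l 4*l 5)) := by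
    simp only [Kf, al, be, e2, e3, BB, Q, sg, Matrix.cons_val]; ring
  have m7 : BB n 3 - sg n 3 = n 0 + n 1 + n 3 := by
    simp only [BB, Q, sg, Matrix.cons_val]; ring
  have hR : Rs l n 0 = (1 / 4) * (0 + (BB n 0 - sg n 2) * Kf (BB l) (sg l) 0 2 / (BB l 0 - sg l 2)
      + (BB n 0 - sg n 3) * Kf (BB l) (sg l) 0 3 / (BB l 0 - sg l 3)
      - (BB n 1 - sg n 0) * Kf (BB l) (sg l) 1 0 / (BB l 1 - sg l 0)
      - (BB n 1 - sg n 1) * Kf (BB l) (sg l) 1 1 / (BB l 1 - sg l 1)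
      - (BB n 2 - sg n 0) * Kf (BB l) (sg l) 2 0 / (BB l 2 - sg l 0)
      - (BB n 2 - sg n 1) * Kf (BB l) (sg l) 2 1 / (BB l 2 - sg l 1)
      + (BB n 3 - sg n 2) * Kf (BB l) (sg l) 3 2 / (BB l 3 - sg l 2)
      + (BB n 3 - sg n 3) * Kf (BB l) (sg l) 3 3 / (BB l 3 - sg l 3)) + 2 * l 5 * hyp l n := by
    unfold Rs
    rw [Fin.sum_univ_four, Fin.sum_univ_four, Fin.sum_univ_four, Fin.sum_univ_four, Fin.sum_univ_four]
    rw [show ep 0 0 0 = 0 from rfl,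
      show ep 0 1 0 = 0 from rfl,
      show ep 0 2 0 = 1 from rfl,
      show ep 0 3 0 = 1 from rfl,
      show ep 1 0 0 = -1 from rfl,
      show ep 1 1 0 = -1 from rfl,
      show ep 1 2 0 = 0 from rfl,
      show ep 1 3 0 = 0 from rfl,
      show ep 2 0 0 = -1 from rfl,
      show ep 2 1 0 = -1 from rfl,
      show ep 2 2 0 = 0 from rfl,
      show ep 2 3 0 = 0 from rfl,
      show ep 3 0 0 = 0 from rfl,
      show ep 3 1 0 = 0 from rfl,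
      show ep 3 2 0 = 1 from rfl,
      show ep 3 3 0 = 1 from rfl,
      show op 0 = 5 from rfl]
    ring
  rw [hR, k0, k1, k2, k3, k4, k5, k6, k7, m0, m1, m2, m3, m4, m5, m6, m7, d0, d1, d2, d3, d4, d5, d6, d7]
  rw [hyp]
  simp only [div_neg, Me, W, Wsq, nu, dnu, dW, Nu, dNu, Wp, ha, hb, He, Fin.sum_univ_six,
    Matrix.cons_val]
  linear_combination n 0 * s0 + n 1 * s1 + n 2 * s2 + n 3 * s3 + n 4 * s4 + n 5 * s5

theorem star_1 {l : V6} (hl : l ∈ T) (n : V6) :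
    Me l n 1 / (ha l 1 * hb l 1) = Rs l n 1 := by
  have d0 : BB l 0 - sg l 0 = -(l 1+l 2-l 5) := by
    simp only [BB, Q, sg, Matrix.cons_val]; ring
  have h0 : (l 1+l 2-l 5) ≠ 0 := by
    have := BB_sub_ne hl 0 0
    rw [d0] at this
    exact neg_ne_zero.mp this
  have d1 : BB l 0 - sg l 2 = -(l 1-l 0+l 3) := by
    simp only [BB, Q, sg, Matrix.cons_val]; ring
  have h1 : (l 1-l 0+l 3) ≠ 0 := by
    have := BB_sub_ne hl 0 2
    rw [d1] at this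
    exact neg_ne_zero.mp this
  have d2 : BB l 1 - sg l 1 = -(-(l 1)+l 0+l 3) := by
    simp only [BB, Q, sg, Matrix.cons_val]; ring
  have h2 : (-(l 1)+l 0+l 3) ≠ 0 := by
    have := BB_sub_ne hl 1 1
    rw [d2] at this
    exact neg_ne_zero.mp this
  have d3 : BB l 1 - sg l 3 = -(-(l 1)+l 2+l 5) := by
    simp only [BB, Q, sg, Matrix.cons_val]; ring
  have h3 : (-(l 1)+l 2+l 5) ≠ 0 := by
    have := BB_sub_ne hl 1 3
    rw [d3] at this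
    exact neg_ne_zero.mp this
  have d4 : BB l 2 - sg l 0 = -(l 1+l 0-l 3) := by
    simp only [BB, Q, sg, Matrix.cons_val]; ring
  have h4 : (l 1+l 0-l 3) ≠ 0 := by
    have := BB_sub_ne hl 2 0
    rw [d4] at this
    exact neg_ne_zero.mp this
  have d5 : BB l 2 - sg l 2 = -(l 1-l 2+l 5) := by
    simp only [BB, Q, sg, Matrix.cons_val]; ring
  have h5 : (l 1-l 2+l 5) ≠ 0 := by
    have := BB_sub_ne hl 2 2
    rw [d5] at this
    exact neg_ne_zero.mp this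
  have d6 : BB l 3 - sg l 1 = (l 1+l 2+l 5) := by
    simp only [BB, Q, sg, Matrix.cons_val]; ring
  have h6 : (l 1+l 2+l 5) ≠ 0 := by
    have := BB_sub_ne hl 3 1
    rw [d6] at this
    simpa using this
  have d7 : BB l 3 - sg l 3 = (l 1+l 0+l 3) := by
    simp only [BB, Q, sg, Matrix.cons_val]; ring
  have h7 : (l 1+l 0+l 3) ≠ 0 := by
    have := BB_sub_ne hl 3 3
    rw [d7] at this
    simpa using this
  have s0 := star1_0 (l 0) (l 1) (l 2) (l 3) (l 4) (l 5) h0 h1 h2 h3 h4 h5 h6 h7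
  have s1 := star1_1 (l 0) (l 1) (l 2) (l 3) (l 4) (l 5) h0 h1 h2 h3 h4 h5 h6 h7
  have s2 := star1_2 (l 0) (l 1) (l 2) (l 3) (l 4) (l 5) h0 h1 h2 h3 h4 h5 h6 h7
  have s3 := star1_3 (l 0) (l 1) (l 2) (l 3) (l 4) (l 5) h0 h1 h2 h3 h4 h5 h6 h7
  have s4 := star1_4 (l 0) (l 1) (l 2) (l 3) (l 4) (l 5) h0 h1 h2 h3 h4 h5 h6 h7
  have s5 := star1_5 (l 0) (l 1) (l 2) (l 3) (l 4) (l 5) h0 h1 h2 h3 h4 h5 h6 h7
  have k0 : Kf (BB l) (sg l) 0 0 = (-2*(l 0*l 5+l 1*l 4+l 2*l 3)) * (l 0-l 3-l 4) + (-2*(l 0*l 1*l 3+l 0*l 2*l 4+l 1*l 2*l 5+l 3*l 4*l 5)) := by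
    simp only [Kf, al, be, e2, e3, BB, Q, sg, Matrix.cons_val]; ring
  have m0 : BB n 0 - sg n 0 = -n 1 - n 2 + n 5 := by
    simp only [BB, Q, sg, Matrix.cons_val]; ring
  have k1 : Kf (BB l) (sg l) 0 2 = (-2*(l 0*l 5+l 1*l 4+l 2*l 3)) * (-(l 2)-l 4+l 5) + (-2*(l 0*l 1*l 3+l 0*l 2*l 4+l 1*l 2*l 5+l 3*l 4*l 5)) := by
    simp only [Kf, al, be, e2, e3, BB, Q, sg, Matrix.cons_val]; ring
  have m1 : BB n 0 - sg n 2 = n 0 - n 1 - n 3 := by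
    simp only [BB, Q, sg, Matrix.cons_val]; ring
  have k2 : Kf (BB l) (sg l) 1 1 = (-2*(l 0*l 5+l 1*l 4+l 2*l 3)) * (-(l 2)+l 4-l 5) + (-2*(l 0*l 1*l 3+l 0*l 2*l 4+l 1*l 2*l 5+l 3*l 4*l 5)) := by
    simp only [Kf, al, be, e2, e3, BB, Q, sg, Matrix.cons_val]; ring
  have m2 : BB n 1 - sg n 1 = -n 0 + n 1 - n 3 := by
    simp only [BB, Q, sg, Matrix.cons_val]; ring
  have k3 : Kf (BB l) (sg l) 1 3 = (-2*(l 0*l 5+l 1*l 4+l 2*l 3)) * (-(l 0)-l 3+l 4) + (-2*(l 0*l 1*l 3+l 0*l 2*l 4+l 1*l 2*l 5+l 3*l 4*l 5)) := by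
    simp only [Kf, al, be, e2, e3, BB, Q, sg, Matrix.cons_val]; ring
  have m3 : BB n 1 - sg n 3 = n 1 - n 2 - n 5 := by
    simp only [BB, Q, sg, Matrix.cons_val]; ring
  have k4 : Kf (BB l) (sg l) 2 0 = (-2*(l 0*l 5+l 1*l 4+l 2*l 3)) * (l 2-l 4-l 5) + (-2*(l 0*l 1*l 3+l 0*l 2*l 4+l 1*l 2*l 5+l 3*l 4*l 5)) := by
    simp only [Kf, al, be, e2, e3, BB, Q, sg, Matrix.cons_val]; ring
  have m4 : BB n 2 - sg n 0 = -n 0 - n 1 + n 3 := by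
    simp only [BB, Q, sg, Matrix.cons_val]; ring
  have k5 : Kf (BB l) (sg l) 2 2 = (-2*(l 0*l 5+l 1*l 4+l 2*l 3)) * (-(l 0)+l 3-l 4) + (-2*(l 0*l 1*l 3+l 0*l 2*l 4+l 1*l 2*l 5+l 3*l 4*l 5)) := by
    simp only [Kf, al, be, e2, e3, BB, Q, sg, Matrix.cons_val]; ring
  have m5 : BB n 2 - sg n 2 = -n 1 + n 2 - n 5 := by
    simp only [BB, Q, sg, Matrix.cons_val]; ring
  have k6 : Kf (BB l) (sg l) 3 1 = (-2*(l 0*l 5+l 1*l 4+l 2*l 3)) * (l 0+l 3+l 4) + (-2*(l 0*l 1*l 3+l 0*l 2*l 4+l 1*l 2*l 5+l 3*l 4*l 5)) := by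
    simp only [Kf, al, be, e2, e3, BB, Q, sg, Matrix.cons_val]; ring
  have m6 : BB n 3 - sg n 1 = n 1 + n 2 + n 5 := by
    simp only [BB, Q, sg, Matrix.cons_val]; ring
  have k7 : Kf (BB l) (sg l) 3 3 = (-2*(l 0*l 5+l 1*l 4+l 2*l 3)) * (l 2+l 4+l 5) + (-2*(l 0*l 1*l 3+l 0*l 2*l 4+l 1*l 2*l 5+l 3*l 4*l 5)) := by
    simp only [Kf, al, be, e2, e3, BB, Q, sg, Matrix.cons_val]; ring
  have m7 : BB n 3 - sg n 3 = n 0 + n 1 + n 3 := by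
    simp only [BB, Q, sg, Matrix.cons_val]; ring
  have hR : Rs l n 1 = (1 / 4) * (0 - (BB n 0 - sg n 0) * Kf (BB l) (sg l) 0 0 / (BB l 0 - sg l 0)
      - (BB n 0 - sg n 2) * Kf (BB l) (sg l) 0 2 / (BB l 0 - sg l 2)
      + (BB n 1 - sg n 1) * Kf (BB l) (sg l) 1 1 / (BB l 1 - sg l 1)
      + (BB n 1 - sg n 3) * Kf (BB l) (sg l) 1 3 / (BB l 1 - sg l 3)
      - (BB n 2 - sg n 0) * Kf (BB l) (sg l) 2 0 / (BB l 2 - sg l 0)
      - (BB n 2 - sg n 2) * Kf (BB l) (sg l) 2 2 / (BB l 2 - sg l 2)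
      + (BB n 3 - sg n 1) * Kf (BB l) (sg l) 3 1 / (BB l 3 - sg l 1)
      + (BB n 3 - sg n 3) * Kf (BB l) (sg l) 3 3 / (BB l 3 - sg l 3)) + 2 * l 4 * hyp l n := by
    unfold Rs
    rw [Fin.sum_univ_four, Fin.sum_univ_four, Fin.sum_univ_four, Fin.sum_univ_four, Fin.sum_univ_four]
    rw [show ep 0 0 1 = -1 from rfl,
      show ep 0 1 1 = 0 from rfl,
      show ep 0 2 1 = -1 from rfl,
      show ep 0 3 1 = 0 from rfl,
      show ep 1 0 1 = 0 from rfl,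
      show ep 1 1 1 = 1 from rfl,
      show ep 1 2 1 = 0 from rfl,
      show ep 1 3 1 = 1 from rfl,
      show ep 2 0 1 = -1 from rfl,
      show ep 2 1 1 = 0 from rfl,
      show ep 2 2 1 = -1 from rfl,
      show ep 2 3 1 = 0 from rfl,
      show ep 3 0 1 = 0 from rfl,
      show ep 3 1 1 = 1 from rfl,
      show ep 3 2 1 = 0 from rfl,
      show ep 3 3 1 = 1 from rfl,
      show op 1 = 4 from rfl]
    ring
  rw [hR, k0, k1, k2, k3, k4, k5, k6, k7, m0, m1, m2, m3, m4, m5, m6, m7, d0, d1, d2, d3, d4, d5, d6, d7]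
  rw [hyp]
  simp only [div_neg, Me, W, Wsq, nu, dnu, dW, Nu, dNu, Wp, ha, hb, He, Fin.sum_univ_six,
    Matrix.cons_val]
  linear_combination n 0 * s0 + n 1 * s1 + n 2 * s2 + n 3 * s3 + n 4 * s4 + n 5 * s5

theorem star_2 {l : V6} (hl : l ∈ T) (n : V6) :
    Me l n 2 / (ha l 2 * hb l 2) = Rs l n 2 := by
  have d0 : BB l 0 - sg l 0 = -(l 2+l 1-l 5) := by
    simp only [BB, Q, sg, Matrix.cons_val]; ring
  have h0 : (l 2+l 1-l 5) ≠ 0 := by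
    have := BB_sub_ne hl 0 0
    rw [d0] at this
    exact neg_ne_zero.mp this
  have d1 : BB l 0 - sg l 3 = -(l 2-l 0+l 4) := by
    simp only [BB, Q, sg, Matrix.cons_val]; ring
  have h1 : (l 2-l 0+l 4) ≠ 0 := by
    have := BB_sub_ne hl 0 3
    rw [d1] at this
    exact neg_ne_zero.mp this
  have d2 : BB l 1 - sg l 0 = -(l 2+l 0-l 4) := by
    simp only [BB, Q, sg, Matrix.cons_val]; ring
  have h2 : (l 2+l 0-l 4) ≠ 0 := by
    have := BB_sub_ne hl 1 0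
    rw [d2] at this
    exact neg_ne_zero.mp this
  have d3 : BB l 1 - sg l 3 = -(l 2-l 1+l 5) := by
    simp only [BB, Q, sg, Matrix.cons_val]; ring
  have h3 : (l 2-l 1+l 5) ≠ 0 := by
    have := BB_sub_ne hl 1 3
    rw [d3] at this
    exact neg_ne_zero.mp this
  have d4 : BB l 2 - sg l 1 = -(-(l 2)+l 0+l 4) := by
    simp only [BB, Q, sg, Matrix.cons_val]; ring
  have h4 : (-(l 2)+l 0+l 4) ≠ 0 := by
    have := BB_sub_ne hl 2 1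
    rw [d4] at this
    exact neg_ne_zero.mp this
  have d5 : BB l 2 - sg l 2 = -(-(l 2)+l 1+l 5) := by
    simp only [BB, Q, sg, Matrix.cons_val]; ring
  have h5 : (-(l 2)+l 1+l 5) ≠ 0 := by
    have := BB_sub_ne hl 2 2
    rw [d5] at this
    exact neg_ne_zero.mp this
  have d6 : BB l 3 - sg l 1 = (l 2+l 1+l 5) := by
    simp only [BB, Q, sg, Matrix.cons_val]; ring
  have h6 : (l 2+l 1+l 5) ≠ 0 := by
    have := BB_sub_ne hl 3 1
    rw [d6] at this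
    simpa using this
  have d7 : BB l 3 - sg l 2 = (l 2+l 0+l 4) := by
    simp only [BB, Q, sg, Matrix.cons_val]; ring
  have h7 : (l 2+l 0+l 4) ≠ 0 := by
    have := BB_sub_ne hl 3 2
    rw [d7] at this
    simpa using this
  have s0 := star2_0 (l 0) (l 1) (l 2) (l 3) (l 4) (l 5) h0 h1 h2 h3 h4 h5 h6 h7
  have s1 := star2_1 (l 0) (l 1) (l 2) (l 3) (l 4) (l 5) h0 h1 h2 h3 h4 h5 h6 h7
  have s2 := star2_2 (l 0) (l 1) (l 2) (l 3) (l 4) (l 5) h0 h1 h2 h3 h4 h5 h6 h7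
  have s3 := star2_3 (l 0) (l 1) (l 2) (l 3) (l 4) (l 5) h0 h1 h2 h3 h4 h5 h6 h7
  have s4 := star2_4 (l 0) (l 1) (l 2) (l 3) (l 4) (l 5) h0 h1 h2 h3 h4 h5 h6 h7
  have s5 := star2_5 (l 0) (l 1) (l 2) (l 3) (l 4) (l 5) h0 h1 h2 h3 h4 h5 h6 h7
  have k0 : Kf (BB l) (sg l) 0 0 = (-2*(l 0*l 5+l 1*l 4+l 2*l 3)) * (l 0-l 3-l 4) + (-2*(l 0*l 1*l 3+l 0*l 2*l 4+l 1*l 2*l 5+l 3*l 4*l 5)) := by
    simp only [Kf, al, be, e2, e3, BB, Q, sg, Matrix.cons_val]; ring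
  have m0 : BB n 0 - sg n 0 = -n 1 - n 2 + n 5 := by
    simp only [BB, Q, sg, Matrix.cons_val]; ring
  have k1 : Kf (BB l) (sg l) 0 3 = (-2*(l 0*l 5+l 1*l 4+l 2*l 3)) * (-(l 1)-l 3+l 5) + (-2*(l 0*l 1*l 3+l 0*l 2*l 4+l 1*l 2*l 5+l 3*l 4*l 5)) := by
    simp only [Kf, al, be, e2, e3, BB, Q, sg, Matrix.cons_val]; ring
  have m1 : BB n 0 - sg n 3 = n 0 - n 2 - n 4 := by
    simp only [BB, Q, sg, Matrix.cons_val]; ring
  have k2 : Kf (BB l) (sg l) 1 0 = (-2*(l 0*l 5+l 1*l 4+l 2*l 3)) * (l 1-l 3-l 5) + (-2*(l 0*l 1*l 3+l 0*l 2*l 4+l 1*l 2*l 5+l 3*l 4*l 5)) := by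
    simp only [Kf, al, be, e2, e3, BB, Q, sg, Matrix.cons_val]; ring
  have m2 : BB n 1 - sg n 0 = -n 0 - n 2 + n 4 := by
    simp only [BB, Q, sg, Matrix.cons_val]; ring
  have k3 : Kf (BB l) (sg l) 1 3 = (-2*(l 0*l 5+l 1*l 4+l 2*l 3)) * (-(l 0)-l 3+l 4) + (-2*(l 0*l 1*l 3+l 0*l 2*l 4+l 1*l 2*l 5+l 3*l 4*l 5)) := by
    simp only [Kf, al, be, e2, e3, BB, Q, sg, Matrix.cons_val]; ring
  have m3 : BB n 1 - sg n 3 = n 1 - n 2 - n 5 := by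
    simp only [BB, Q, sg, Matrix.cons_val]; ring
  have k4 : Kf (BB l) (sg l) 2 1 = (-2*(l 0*l 5+l 1*l 4+l 2*l 3)) * (-(l 1)+l 3-l 5) + (-2*(l 0*l 1*l 3+l 0*l 2*l 4+l 1*l 2*l 5+l 3*l 4*l 5)) := by
    simp only [Kf, al, be, e2, e3, BB, Q, sg, Matrix.cons_val]; ring
  have m4 : BB n 2 - sg n 1 = -n 0 + n 2 - n 4 := by
    simp only [BB, Q, sg, Matrix.cons_val]; ring
  have k5 : Kf (BB l) (sg l) 2 2 = (-2*(l 0*l 5+l 1*l 4+l 2*l 3)) * (-(l 0)+l 3-l 4) + (-2*(l 0*l 1*l 3+l 0*l 2*l 4+l 1*l 2*l 5+l 3*l 4*l 5)) := by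
    simp only [Kf, al, be, e2, e3, BB, Q, sg, Matrix.cons_val]; ring
  have m5 : BB n 2 - sg n 2 = -n 1 + n 2 - n 5 := by
    simp only [BB, Q, sg, Matrix.cons_val]; ring
  have k6 : Kf (BB l) (sg l) 3 1 = (-2*(l 0*l 5+l 1*l 4+l 2*l 3)) * (l 0+l 3+l 4) + (-2*(l 0*l 1*l 3+l 0*l 2*l 4+l 1*l 2*l 5+l 3*l 4*l 5)) := by
    simp only [Kf, al, be, e2, e3, BB, Q, sg, Matrix.cons_val]; ring
  have m6 : BB n 3 - sg n 1 = n 1 + n 2 + n 5 := by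
    simp only [BB, Q, sg, Matrix.cons_val]; ring
  have k7 : Kf (BB l) (sg l) 3 2 = (-2*(l 0*l 5+l 1*l 4+l 2*l 3)) * (l 1+l 3+l 5) + (-2*(l 0*l 1*l 3+l 0*l 2*l 4+l 1*l 2*l 5+l 3*l 4*l 5)) := by
    simp only [Kf, al, be, e2, e3, BB, Q, sg, Matrix.cons_val]; ring
  have m7 : BB n 3 - sg n 2 = n 0 + n 2 + n 4 := by
    simp only [BB, Q, sg, Matrix.cons_val]; ring
  have hR : Rs l n 2 = (1 / 4) * (0 - (BB n 0 - sg n 0) * Kf (BB l) (sg l) 0 0 / (BB l 0 - sg l 0)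
      - (BB n 0 - sg n 3) * Kf (BB l) (sg l) 0 3 / (BB l 0 - sg l 3)
      - (BB n 1 - sg n 0) * Kf (BB l) (sg l) 1 0 / (BB l 1 - sg l 0)
      - (BB n 1 - sg n 3) * Kf (BB l) (sg l) 1 3 / (BB l 1 - sg l 3)
      + (BB n 2 - sg n 1) * Kf (BB l) (sg l) 2 1 / (BB l 2 - sg l 1)
      + (BB n 2 - sg n 2) * Kf (BB l) (sg l) 2 2 / (BB l 2 - sg l 2)
      + (BB n 3 - sg n 1) * Kf (BB l) (sg l) 3 1 / (BB l 3 - sg l 1)
      + (BB n 3 - sg n 2) * Kf (BB l) (sg l) 3 2 / (BB l 3 - sg l 2)) + 2 * l 3 * hyp l n := by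
    unfold Rs
    rw [Fin.sum_univ_four, Fin.sum_univ_four, Fin.sum_univ_four, Fin.sum_univ_four, Fin.sum_univ_four]
    rw [show ep 0 0 2 = -1 from rfl,
      show ep 0 1 2 = 0 from rfl,
      show ep 0 2 2 = 0 from rfl,
      show ep 0 3 2 = -1 from rfl,
      show ep 1 0 2 = -1 from rfl,
      show ep 1 1 2 = 0 from rfl,
      show ep 1 2 2 = 0 from rfl,
      show ep 1 3 2 = -1 from rfl,
      show ep 2 0 2 = 0 from rfl,
      show ep 2 1 2 = 1 from rfl,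
      show ep 2 2 2 = 1 from rfl,
      show ep 2 3 2 = 0 from rfl,
      show ep 3 0 2 = 0 from rfl,
      show ep 3 1 2 = 1 from rfl,
      show ep 3 2 2 = 1 from rfl,
      show ep 3 3 2 = 0 from rfl,
      show op 2 = 3 from rfl]
    ring
  rw [hR, k0, k1, k2, k3, k4, k5, k6, k7, m0, m1, m2, m3, m4, m5, m6, m7, d0, d1, d2, d3, d4, d5, d6, d7]
  rw [hyp]
  simp only [div_neg, Me, W, Wsq, nu, dnu, dW, Nu, dNu, Wp, ha, hb, He, Fin.sum_univ_six,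
    Matrix.cons_val]
  linear_combination n 0 * s0 + n 1 * s1 + n 2 * s2 + n 3 * s3 + n 4 * s4 + n 5 * s5

end Pool.Agent.helper37.NL
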