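import Pool.Agent.helper37.NL.Der

/-!
NL-02 (SvD).  Definitions for the star identities, and two easy lemmas.

PROOFS.  `ep_sum`: `fin_cases i <;> fin_cases v`, unfold `ep`, `BB`, `sg`, `Q` and `ring` (16 linear
identities; `Fin.sum_univ_succ`).  `BB_sub_ne`: for `i < 3` this is `Q l j < sg l v` (definition of `T`),
for `i = 3` the difference `Q 0 + Q 1 + Q 2 - sg v` is the sum of the three edges not at `v`, positive by
`T_pos`.
-/

namespace Pool.Agent.helper37.NL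

open Real Pool.Agent.helper37.NP Pool.Agent.Helper93.Tet

/-- coefficient of `l_e` in `BB l i - sg l v` -/
def ep : Fin 4 → Fin 4 → V6 :=
  ![
    ![![0, -1, -1, 0, 0, 1], ![0, 0, 0, -1, -1, 1],
      ![1, -1, 0, -1, 0, 0], ![1, 0, -1, 0, -1, 0]],
    ![![-1, 0, -1, 0, 1, 0], ![-1, 1, 0, -1, 0, 0],
      ![0, 0, 0, -1, 1, -1], ![0, 1, -1, 0, 0, -1]],
    ![![-1, -1, 0, 1, 0, 0], ![-1, 0, 1, 0, -1, 0],
      ![0, -1, 1, 0, 0, -1], ![0, 0, 0, 1, -1, -1]],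
    ![![0, 0, 0, 1, 1, 1], ![0, 1, 1, 0, 0, 1],
      ![1, 0, 1, 0, 1, 0], ![1, 1, 0, 1, 0, 0]]]

/-- the opposite edge -/
def op : Fin 6 → Fin 6 := ![5, 4, 3, 2, 1, 0]

/-- `∑ n_f l_{5-f}` -/
def hyp (l n : V6) : ℝ :=
  n 0 * l 5 + n 1 * l 4 + n 2 * l 3 + n 3 * l 2 + n 4 * l 1 + n 5 * l 0

/-- right side of the star identity -/
noncomputable def Rs (l n : V6) (e : Fin 6) : ℝ :=
  (1 / 4) * (∑ i, ∑ v, ep i v e * (BB n i - sg n v) * Kf (BB l) (sg l) i v / (BB l i - sg l v))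
    + 2 * l (op e) * hyp l n

theorem ep_sum (n : V6) (i v : Fin 4) :
    n 0 * ep i v 0 + n 1 * ep i v 1 + n 2 * ep i v 2 + n 3 * ep i v 3 + n 4 * ep i v 4
      + n 5 * ep i v 5 = BB n i - sg n v := by
  fin_cases i <;> fin_cases v <;> simp [ep, BB, sg, Q] <;> ring

theorem BB_sub_neg {l : V6} (hl : l ∈ T) (i v : Fin 4) (hi : i ≠ 3) : BB l i < sg l v := by
  fin_cases i
  · exact hl.1 v 0
  · exact hl.1 v 1
  · exact hl.1 v 2
  · exact absurd rfl hi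

theorem BB_sub_pos {l : V6} (hl : l ∈ T) (v : Fin 4) : sg l v < BB l 3 := by
  have h0 := T_pos hl 0
  have h1 := T_pos hl 1
  have h2 := T_pos hl 2
  have h3 := T_pos hl 3
  have h4 := T_pos hl 4
  have h5 := T_pos hl 5
  fin_cases v
  · change l 0 + l 1 + l 2 < l 0 + l 5 + (l 1 + l 4) + (l 2 + l 3)
    linarith
  · change l 0 + l 3 + l 4 < l 0 + l 5 + (l 1 + l 4) + (l 2 + l 3)
    linarith
  · change l 1 + l 3 + l 5 < l 0 + l 5 + (l 1 + l 4) + (l 2 + l 3)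
    linarith
  · change l 2 + l 4 + l 5 < l 0 + l 5 + (l 1 + l 4) + (l 2 + l 3)
    linarith

theorem BB_sub_ne {l : V6} (hl : l ∈ T) (i v : Fin 4) : BB l i - sg l v ≠ 0 := by
  by_cases hi : i = 3
  · subst hi
    exact (sub_pos.2 (BB_sub_pos hl v)).ne'
  · exact (sub_neg.2 (BB_sub_neg hl i v hi)).ne

end Pool.Agent.helper37.NL
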