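import Pool.Agent.helper37.NL.Ray
import Pool.Agent.helper37.NL.Kfl
import Pool.Agent.helper37.NL.Inv
import Pool.Agent.helper37.NP.Sla
import Pool.Agent.helper37.NP.Alg
import Pool.Agent.helper37.NP.AWa

/-!
NL-21 (Two).  The two types of boundary rays.

`one_zero`: exactly one `g_j` vanishes at `q`.  This is `wall` (file `NP/AWa`; it needs `FS.reg`, the
point `u = q + p` of the sector, `Rays.sector` with `X = Y = 1`, and `q ∈ S`): it gives `v` with
`Q q j = sg q v`, `W q = 0` and `2 (c s / π) = sg s v + Q s j` for all `s ∈ S`.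

`limit`: there is `t` with: `t` is a limit of `ang (p + ε q)` along an ultrafilter `F ≤ 𝓝[>] 0` of `ε`.
PROOF.  All angles lie in `[0, π]` (`Real.arccos_nonneg`, `Real.arccos_le_pi`), so the vectors
`ang (p + ε q)` lie in the compact set `Set.Icc 0 (fun _ => π)` of `V6` (`isCompact_Icc`), and an
ultrafilter on a compact set converges.  For `ε > 0` the point `p + ε q` is in `T` and
`dotp s (ang (p + ε q)) = c s` for `s ∈ S` (`Rays.mem_T`, `Rays.dotp_eq` with `X = ε`, `Y = 1`, up to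
`add_comm`); `dotp s` is continuous, so `dotp s t = c s`.

`not_mem`: `p ∉ T`: if `p ∈ T` then `ang` is continuous at `p` (`ang_continuousOn`, `isOpen_T`), so
`ang p = t` (same ultrafilter, `tendsto_nhds_unique`), `dotp p (ang p) = c p` and `gg_pos` says
`Q p j < c p / π` for all `j`, against `r.pz`.

`two_zero`: let `Q p j0 < c p / π` and `Q p k = c p / π` for `k ≠ j0`.  `slack` (file `NP/Sla`) for the
family `ε ↦ p + ε q` and the filter `F`, limit `p ∉ T`: `ev t v ≥ 0`, `R t j ≥ 0`, `ss p t v ≥ 0`,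
`gg p t j ≥ 0`, `ev t v * ss p t v = 0`, `R t j * gg p t j = 0`; here `dotp p t = c p`, so
`ss p t v = sg p v - c p / π`, `gg p t j = c p / π - Q p j`.
(a) Some `sg p v = c p / π`.  Otherwise `ev t v = 0` for all `v`, `R t j0 = 0`, and `bilin'` (file
    `NP/Alg`) for `l = p + q`, `r = c l / π` (`dotp l t = c l`) gives
    `∑_j R t j (r - Q l j) = ∑_v ev t v (..) = 0` with `r - Q l j > 0`, so `R t j = 0` for all `j`,
    against `sum_R_ev` (`= 2 π`).
(b) `W p = 0` (`W_zero`, with `p ∈ CT` by `closure_T`: `p` is the limit of `p + ε q ∈ T`).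
(c) Put `ρ = c p / π`, `x v = sg p v - ρ ≥ 0` (`Rays.s_nonneg` for `r.symm`), `h = ρ - Q p j0 > 0`.  The
    shifted blue numbers are `-h` (at `j0`), `0, 0`, and `(sum of the x v) + h` (index `3`).  By `W_bb`,
    `Wf_shift`, `Wf_perm` (or directly, three cases `j0 = 0, 1, 2`)
    `W p = e4 x (h² + h e1 x + e2 x) - (e3 x)² / 4`.
    By (a) one `x v = 0`, so `e4 x = 0`, hence `e3 x = 0`, and `e3 x` is then the product of the other
    three `x w`; so some other `x w = 0`.
-/

namespace Pool.Agent.helper37.NL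

open Real Pool.Agent.helper37.NP Pool.Agent.Helper93.Tet Filter Topology

variable {S : Submodule ℝ V6} {c : V6 →ₗ[ℝ] ℝ}

private lemma Two_dotp_cont (s : V6) : Continuous (fun t : V6 => dotp s t) := by
  unfold dotp
  fun_prop

private lemma Two_e4_zero {x : V4} {v : Fin 4} (hv : x v = 0) : e4 x = 0 := by
  unfold e4
  fin_cases v <;> simp only [Fin.zero_eta, Fin.mk_one, Fin.reduceFinMk] at hv <;> rw [hv] <;> ring

private lemma Two_exists {x : V4} {v : Fin 4} (hv : x v = 0) (h3 : e3 x = 0) :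
    ∃ w, v ≠ w ∧ x w = 0 := by
  unfold e3 at h3
  fin_cases v <;> simp only [Fin.zero_eta, Fin.mk_one, Fin.reduceFinMk] at hv <;> rw [hv] at h3
  · have h4 : x 1 * x 2 * x 3 = 0 := by linarith
    rcases mul_eq_zero.1 h4 with h5 | h5
    · rcases mul_eq_zero.1 h5 with h6 | h6
      · exact ⟨1, by decide, h6⟩
      · exact ⟨2, by decide, h6⟩
    · exact ⟨3, by decide, h5⟩
  · have h4 : x 0 * x 2 * x 3 = 0 := by linarith
    rcases mul_eq_zero.1 h4 with h5 | h5
    · rcases mul_eq_zero.1 h5 with h6 | h6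
      · exact ⟨0, by decide, h6⟩
      · exact ⟨2, by decide, h6⟩
    · exact ⟨3, by decide, h5⟩
  · have h4 : x 0 * x 1 * x 3 = 0 := by linarith
    rcases mul_eq_zero.1 h4 with h5 | h5
    · rcases mul_eq_zero.1 h5 with h6 | h6
      · exact ⟨0, by decide, h6⟩
      · exact ⟨1, by decide, h6⟩
    · exact ⟨3, by decide, h5⟩
  · have h4 : x 0 * x 1 * x 2 = 0 := by linarith
    rcases mul_eq_zero.1 h4 with h5 | h5
    · rcases mul_eq_zero.1 h5 with h6 | h6
      · exact ⟨0, by decide, h6⟩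
      · exact ⟨1, by decide, h6⟩
    · exact ⟨2, by decide, h5⟩

private lemma Two_sector {q p : V6} (r : Rays S c q p) (j : Fin 3) :
    Q (q + p) j < c (q + p) / π := by
  have h1 := r.sector (X := 1) (Y := 1) one_pos one_pos j
  rwa [one_smul, one_smul] at h1

private lemma Two_mem_T (h : FS S c) {q p : V6} (r : Rays S c q p) {ε : ℝ} (hε : 0 < ε) :
    p + ε • q ∈ T := by
  have h1 := Rays.mem_T h r hε one_pos
  rwa [one_smul, add_comm] at h1

private lemma Two_dotp (h : FS S c) {q p : V6} (r : Rays S c q p) {ε : ℝ} (hε : 0 < ε)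
    {s : V6} (hs : s ∈ S) : dotp s (ang (p + ε • q)) = c s := by
  have h1 := Rays.dotp_eq h r hε one_pos hs
  rwa [one_smul, add_comm] at h1

private lemma Two_lim (q p : V6) : Tendsto (fun ε : ℝ => p + ε • q) (𝓝[>] 0) (𝓝 p) := by
  have hcont : Continuous (fun ε : ℝ => p + ε • q) := by fun_prop
  have h1 := hcont.tendsto 0
  rw [zero_smul, add_zero] at h1
  exact h1.mono_left nhdsWithin_le_nhds

theorem one_zero (h : FS S c) {q p : V6} (r : Rays S c q p) {j : Fin 3} (hj : Q q j = c q / π)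
    (hk : ∀ k, k ≠ j → Q q k < c q / π) :
    ∃ v, W q = 0 ∧ ∀ s ∈ S, sg s v - c s / π = c s / π - Q s j := by
  obtain ⟨v, _, hW, hs⟩ := wall S c h.reg (S.add_mem r.qS r.pS) (Two_sector r) r.qS j hj.symm hk
  refine ⟨v, hW, fun s hs' => ?_⟩
  have h1 := hs s hs'
  linarith

theorem limit (h : FS S c) {q p : V6} (r : Rays S c q p) :
    ∃ (F : Ultrafilter ℝ) (t : V6), (F : Filter ℝ) ≤ 𝓝[>] (0 : ℝ) ∧
      Tendsto (fun ε : ℝ => ang (p + ε • q)) F (𝓝 t) ∧ ∀ s ∈ S, dotp s t = c s := by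
  let U : Ultrafilter ℝ := Ultrafilter.of (𝓝[>] (0:ℝ))
  have hUle : (U : Filter ℝ) ≤ 𝓝[>] 0 := Ultrafilter.of_le _
  obtain ⟨t, -, ht⟩ : ∃ t ∈ Set.pi Set.univ (fun _ : Fin 6 => Set.Icc (0:ℝ) π),
      ((U.map (fun ε : ℝ => ang (p + ε • q))) : Filter V6) ≤ 𝓝 t := by
    apply IsCompact.ultrafilter_le_nhds (isCompact_univ_pi (fun _ => isCompact_Icc))
    rw [Filter.le_principal_iff]
    have hall : ∀ ε : ℝ, ang (p + ε • q) ∈ Set.pi Set.univ (fun _ : Fin 6 => Set.Icc (0:ℝ) π) :=
      fun ε e _ => ⟨Real.arccos_nonneg _, Real.arccos_le_pi _⟩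
    exact Filter.mem_map.2 (Filter.univ_mem' hall)
  have ht' : Tendsto (fun ε : ℝ => ang (p + ε • q)) U (𝓝 t) := ht
  refine ⟨U, t, hUle, ht', fun s hs => ?_⟩
  have h1 : Tendsto (fun ε : ℝ => dotp s (ang (p + ε • q))) U (𝓝 (dotp s t)) :=
    ((Two_dotp_cont s).tendsto _).comp ht'
  have h2 : Tendsto (fun ε : ℝ => dotp s (ang (p + ε • q))) U (𝓝 (c s)) := by
    refine tendsto_const_nhds.congr' ?_
    filter_upwards [hUle self_mem_nhdsWithin] with ε hε
    exact (Two_dotp h r hε hs).symm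
  exact tendsto_nhds_unique h1 h2

theorem not_mem (h : FS S c) {q p : V6} (r : Rays S c q p) : p ∉ T := by
  intro hT
  have hc : ContinuousAt (fun l : V6 => ang l) p := by
    rw [continuousAt_pi]
    intro e
    exact (ang_continuousOn e).continuousAt (isOpen_T.mem_nhds hT)
  have h1 : Tendsto (fun ε : ℝ => dotp p (ang (p + ε • q))) (𝓝[>] 0) (𝓝 (dotp p (ang p))) :=
    ((Two_dotp_cont p).tendsto _).comp (hc.tendsto.comp (Two_lim q p))
  have h2 : Tendsto (fun ε : ℝ => dotp p (ang (p + ε • q))) (𝓝[>] 0) (𝓝 (c p)) := by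
    refine tendsto_const_nhds.congr' ?_
    filter_upwards [self_mem_nhdsWithin] with ε hε
    exact (Two_dotp h r hε r.pS).symm
  have h3 := tendsto_nhds_unique h1 h2
  obtain ⟨j, hj⟩ := r.pz
  have h4 := gg_pos hT j
  unfold gg at h4
  rw [h3, hj] at h4
  linarith

theorem two_zero (h : FS S c) {q p : V6} (r : Rays S c q p) {j0 : Fin 3}
    (hj : Q p j0 < c p / π) (hk : ∀ k, k ≠ j0 → Q p k = c p / π) :
    ∃ v w, v ≠ w ∧ sg p v = c p / π ∧ sg p w = c p / π := by
  have hπ : 0 < π := Real.pi_pos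
  obtain ⟨F, t, hF, ht, hdt⟩ := limit h r
  have hpT := not_mem h r
  have hlim : Tendsto (fun ε : ℝ => p + ε • q) F (𝓝 p) := (Two_lim q p).mono_left hF
  have hxT : ∀ᶠ ε : ℝ in (F : Filter ℝ), p + ε • q ∈ T := by
    filter_upwards [hF self_mem_nhdsWithin] with ε hε
    exact Two_mem_T h r hε
  obtain ⟨hev, hR, hss, hgg, hevss, hRgg⟩ := slack (F := (F : Filter ℝ))
    (x := fun ε : ℝ => p + ε • q) (p := p) (t := t) hxT hlim ht hpT
  have hpC : p ∈ CT := closure_T (mem_closure_of_tendsto hlim hxT)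
  have hW : W p = 0 := W_zero hpC hpT
  have hgk : ∀ k, gg p t k = c p / π - Q p k := by
    intro k
    unfold gg
    rw [hdt p r.pS]
  have hsv : ∀ v, ss p t v = sg p v - c p / π := by
    intro v
    unfold ss
    rw [hdt p r.pS]
  -- (a) some red number vanishes
  have ha : ∃ v, sg p v = c p / π := by
    by_contra hno
    push Not at hno
    have hev0 : ∀ v, ev t v = 0 := by
      intro v
      have h2 : ss p t v ≠ 0 := by
        rw [hsv]
        intro h3
        exact hno v (by linarith)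
      exact (mul_eq_zero.1 (hevss v)).resolve_right h2
    have hl : dotp (q + p) t = π * (c (q + p) / π) := by
      rw [hdt (q + p) (S.add_mem r.qS r.pS), mul_div_cancel₀ _ hπ.ne']
    have hb := bilin' (q + p) t (c (q + p) / π) hl
    rw [hev0 0, hev0 1, hev0 2, hev0 3] at hb
    have k0 := Two_sector r 0
    have k1 := Two_sector r 1
    have k2 := Two_sector r 2
    have m0 := mul_nonneg (hR 0) (sub_nonneg.2 k0.le)
    have m1 := mul_nonneg (hR 1) (sub_nonneg.2 k1.le)
    have m2 := mul_nonneg (hR 2) (sub_nonneg.2 k2.le)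
    have z0 : R t 0 * (c (q + p) / π - Q (q + p) 0) = 0 := by linarith
    have z1 : R t 1 * (c (q + p) / π - Q (q + p) 1) = 0 := by linarith
    have z2 : R t 2 * (c (q + p) / π - Q (q + p) 2) = 0 := by linarith
    have r0 := (mul_eq_zero.1 z0).resolve_right (sub_pos.2 k0).ne'
    have r1 := (mul_eq_zero.1 z1).resolve_right (sub_pos.2 k1).ne'
    have r2 := (mul_eq_zero.1 z2).resolve_right (sub_pos.2 k2).ne'
    have hsum := sum_R_ev t
    rw [r0, r1, r2, hev0 0, hev0 1, hev0 2, hev0 3] at hsum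
    linarith
  obtain ⟨v, hv⟩ := ha
  -- (c) the algebra
  set ρ : ℝ := c p / π with hρ
  have hW2 : Wf (fun i => BB p i - ρ) (fun v => sg p v - ρ) = 0 := by
    rw [Wf_shift (e1_bb p) ρ, ← W_bb, hW]
  have hx0 : (fun v => sg p v - ρ) v = 0 := by
    show sg p v - ρ = 0
    linarith
  have he4 : e4 (fun v => sg p v - ρ) = 0 := Two_e4_zero (v := v) hx0
  have hB3 : e3 (fun i => BB p i - ρ) = 0 ∧ e4 (fun i => BB p i - ρ) = 0 := by
    unfold e3 e4 BB
    simp only [Matrix.cons_val_zero, Matrix.cons_val_one, Matrix.cons_val]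
    have hk' : ∀ k, k ≠ j0 → Q p k - ρ = 0 := fun k hk1 => by
      rw [hk k hk1]
      ring
    fin_cases j0
    · have a1 := hk' 1 (by decide)
      have a2 := hk' 2 (by decide)
      rw [a1, a2]
      constructor <;> ring
    · have a1 := hk' 0 (by decide)
      have a2 := hk' 2 (by decide)
      rw [a1, a2]
      constructor <;> ring
    · have a1 := hk' 0 (by decide)
      have a2 := hk' 1 (by decide)
      rw [a1, a2]
      constructor <;> ring
  unfold Wf be ga at hW2
  rw [he4, hB3.1, hB3.2] at hW2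
  have he3 : e3 (fun v => sg p v - ρ) = 0 := by
    have h1 : e3 (fun v => sg p v - ρ) ^ 2 = 0 := by
      linear_combination (-4) * hW2
    exact pow_eq_zero_iff (two_ne_zero) |>.1 h1
  obtain ⟨w, hvw, hw⟩ := Two_exists (v := v) hx0 he3
  refine ⟨v, w, hvw, hv, ?_⟩
  have h1 : sg p w - ρ = 0 := hw
  linarith

end Pool.Agent.helper37.NL
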